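import Pool.Agent.Lib.MP_94ab62_nt.Eps4

/-!
# AREA: the area function

`u 0 t = 1/(2ab)`, `u (n+1) t = u n (lc t) + u n (rc t)`.  `u 1 t - u 0 t = ε/(2abc) ≥ 0`, so `u n t` is nondecreasing in `n`
(induction, generalizing `t`), and `u n t ≤ 1/(2ab) + ε` by induction:
`1/(2ac) + ε_L + 1/(2cb) + ε_R ≤ 1/(2ab) + ε/(2abc) + ε/4 ≤ 1/(2ab) + ε` (`2abc ≥ 4`).  `A t = sup_n u n t`.
-/

set_option autoImplicit false

namespace Pool.Agent.Lib.MP_94ab62_nt

/-- the approximations of the area function -/
noncomputable def areaU : ℕ → Nd → ℝ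
  | 0, t => 1 / (2 * fa t * fb t)
  | n + 1, t => areaU n (lc t) + areaU n (rc t)

theorem areaU_step {t : Nd} (h : Good t) :
    1 / (2 * fa (lc t) * fb (lc t)) + 1 / (2 * fa (rc t) * fb (rc t)) =
      1 / (2 * fa t * fb t) + ep t / (2 * fa t * fb t * fc t) := by
  have ha : 0 < fa t := by linarith [fa_ge h]
  have hb : 0 < fb t := by linarith [fb_ge h]
  have hc : 0 < fc t := by linarith [fc_ge h]
  rw [fa_lc, fb_lc, fa_rc, fb_rc]
  have he : ep t = fa t + fb t - fc t := rfl
  rw [he]
  field_simp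
  ring

theorem areaU_mono {t : Nd} (h : Good t) (n : ℕ) : areaU n t ≤ areaU (n + 1) t := by
  induction n generalizing t with
  | zero =>
    have ha : 0 < fa t := by linarith [fa_ge h]
    have hb : 0 < fb t := by linarith [fb_ge h]
    have hc : 0 < fc t := by linarith [fc_ge h]
    have h1 := areaU_step h
    have h2 : 0 ≤ ep t / (2 * fa t * fb t * fc t) :=
      div_nonneg (ep_pos h).le (by positivity)
    simp only [areaU]
    linarith
  | succ n ih =>
    have h1 := ih (good_lc h)
    have h2 := ih (good_rc h)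
    show areaU n (lc t) + areaU n (rc t) ≤ areaU (n + 1) (lc t) + areaU (n + 1) (rc t)
    linarith

theorem areaU_le {t : Nd} (h : Good t) (n : ℕ) :
    areaU n t ≤ 1 / (2 * fa t * fb t) + ep t := by
  induction n generalizing t with
  | zero =>
    simp only [areaU]
    linarith [ep_pos h]
  | succ n ih =>
    have ha := fa_ge h
    have hb := fb_ge h
    have hc := fc_ge h
    have h1 := ih (good_lc h)
    have h2 := ih (good_rc h)
    have h3 := areaU_step h
    have h4 := ep_sum h
    have h5 := ep_pos h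
    have h6 : ep t / (2 * fa t * fb t * fc t) ≤ ep t * (3 / 4) := by
      have hab : 9 / 10 ≤ fa t * fb t := by nlinarith
      have habc : 4 / 3 ≤ 2 * fa t * fb t * fc t := by nlinarith
      rw [div_le_iff₀ (by linarith)]
      nlinarith
    show areaU n (lc t) + areaU n (rc t) ≤ _
    linarith

theorem area_exists : ∃ A : Nd → ℝ, (∀ t, Good t → A t = A (lc t) + A (rc t)) ∧
    ∀ t, Good t → 1 / (2 * fa t * fb t) ≤ A t ∧ A t ≤ 1 / (2 * fa t * fb t) + ep t := by
  have hmono : ∀ t, Good t → Monotone fun n => areaU n t := fun t h =>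
    monotone_nat_of_le_succ fun n => areaU_mono h n
  have hbdd : ∀ t, Good t → BddAbove (Set.range fun n => areaU n t) := by
    intro t h
    refine ⟨1 / (2 * fa t * fb t) + ep t, ?_⟩
    rintro _ ⟨n, rfl⟩
    exact areaU_le h n
  have hlim : ∀ t, Good t → Filter.Tendsto (fun n => areaU n t) Filter.atTop
      (nhds (⨆ n, areaU n t)) := fun t h => tendsto_atTop_ciSup (hmono t h) (hbdd t h)
  refine ⟨fun t => ⨆ n, areaU n t, ?_, ?_⟩
  · intro t h
    have h1 := (hlim t h).comp (Filter.tendsto_add_atTop_nat 1)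
    have h2 := (hlim _ (good_lc h)).add (hlim _ (good_rc h))
    exact tendsto_nhds_unique h1 h2
  · intro t h
    constructor
    · exact le_ciSup (hbdd t h) 0
    · exact ciSup_le fun n => areaU_le h n

end Pool.Agent.Lib.MP_94ab62_nt
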