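import Pool.Agent.Lib.MP_94ab62_nt.Defs

/-!
# Elementary facts on the tree, `push`, `pull` and cuts
-/

set_option autoImplicit false

namespace Pool.Agent.Lib.MP_94ab62_nt

theorem good_root : Good root := by
  simp [Good, root]

theorem good_lc {t : Nd} (h : Good t) : Good (lc t) := by
  obtain ⟨x, y, z⟩ := t
  obtain ⟨hx, hy, hxy, hxz, hyz, he⟩ := h
  simp only at hx hy hxy hxz hyz he
  have h1 : z + y < 3 * x * z := by nlinarith [Nat.mul_le_mul hx (le_refl z)]
  have h2 : y ≤ 3 * x * z := by omega
  refine ⟨hx, by simp [lc]; omega, by simp [lc]; omega, by simp [lc]; omega, by simp [lc]; omega, ?_⟩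
  simp only [lc]
  zify [h2]
  zify at he
  nlinarith [he]

theorem good_rc {t : Nd} (h : Good t) : Good (rc t) := by
  obtain ⟨x, y, z⟩ := t
  obtain ⟨hx, hy, hxy, hxz, hyz, he⟩ := h
  simp only at hx hy hxy hxz hyz he
  have h1 : z + x < 3 * z * y := by nlinarith [Nat.mul_le_mul hy (le_refl z)]
  have h2 : x ≤ 3 * z * y := by omega
  refine ⟨by simp [rc]; omega, hy, by simp [rc]; omega, by simp [rc]; omega, by simp [rc]; omega, ?_⟩
  simp only [rc]
  zify [h2]
  zify at he
  nlinarith [he]

theorem good_nd {t : Nd} (h : Good t) (p : List Bool) : Good (nd t p) := by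
  induction p generalizing t with
  | nil => exact h
  | cons b l ih => cases b with
    | true => exact ih (good_lc h)
    | false => exact ih (good_rc h)

theorem nd_append (t : Nd) (p q : List Bool) : nd t (p ++ q) = nd (nd t p) q := by
  induction p generalizing t with
  | nil => rfl
  | cons b l ih => cases b <;> simp [nd, ih]

theorem fa_lc (t : Nd) : fa (lc t) = fa t := rfl
theorem fb_lc (t : Nd) : fb (lc t) = fc t := rfl
theorem fa_rc (t : Nd) : fa (rc t) = fc t := rfl
theorem fb_rc (t : Nd) : fb (rc t) = fb t := rfl
theorem fc_eq (t : Nd) : fc t = fa t + fb t - ep t := by unfold ep; ring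

section alg

variable {A : Type*} [CommRing A]

theorem push_append (p q : List Bool) (n : A × A) : push (p ++ q) n = push q (push p n) := by
  induction p generalizing n with
  | nil => rfl
  | cons b l ih => cases b <;> simp [push, ih]

theorem pull_append (p q : List Bool) (n : A × A) : pull (p ++ q) n = pull p (pull q n) := by
  induction p generalizing n with
  | nil => rfl
  | cons b l ih => cases b <;> simp [pull, ih]

theorem pull_push (p : List Bool) (n : A × A) : pull p (push p n) = n := by
  induction p generalizing n with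
  | nil => rfl
  | cons b l ih => cases b <;> simp [pull, push, ih]

theorem push_pull (p : List Bool) (n : A × A) : push p (pull p n) = n := by
  induction p generalizing n with
  | nil => rfl
  | cons b l ih => cases b <;> simp [pull, push, ih]

theorem pull_add (p : List Bool) (m n : A × A) : pull p (m + n) = pull p m + pull p n := by
  induction p generalizing m n with
  | nil => rfl
  | cons b l ih =>
    cases b <;> simp only [pull, ih, Prod.fst_add, Prod.snd_add, Prod.mk_add_mk] <;>
      ext <;> simp <;> ring

theorem pull_smul (p : List Bool) (c : A) (n : A × A) :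
    pull p (c * n.1, c * n.2) = (c * (pull p n).1, c * (pull p n).2) := by
  induction p generalizing n with
  | nil => rfl
  | cons b l ih =>
    cases b <;> simp only [pull, ih] <;> ext <;> simp <;> ring

theorem push_add (p : List Bool) (m n : A × A) : push p (m + n) = push p m + push p n := by
  induction p generalizing m n with
  | nil => rfl
  | cons b l ih =>
    cases b
    · simp only [push]
      rw [← ih]; congr 1; ext <;> simp; ring
    · simp only [push]
      rw [← ih]; congr 1; ext <;> simp; ring

theorem push_smul (p : List Bool) (c : A) (n : A × A) :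
    push p (c * n.1, c * n.2) = (c * (push p n).1, c * (push p n).2) := by
  induction p generalizing n with
  | nil => rfl
  | cons b l ih =>
    cases b
    · simp only [push]
      rw [← ih]; congr 1; ext <;> simp; ring
    · simp only [push]
      rw [← ih]; congr 1; ext <;> simp; ring

end alg

theorem pull_cast (p : List Bool) (n : ℤ × ℤ) :
    (((pull p n).1 : ℤ) : ℝ) = (pull p ((n.1 : ℝ), (n.2 : ℝ))).1 ∧
      (((pull p n).2 : ℤ) : ℝ) = (pull p ((n.1 : ℝ), (n.2 : ℝ))).2 := by
  induction p generalizing n with
  | nil => exact ⟨rfl, rfl⟩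
  | cons b l ih =>
    cases b <;> simp only [pull, Int.cast_sub, (ih n).1, (ih n).2, and_self]

theorem push_cast (p : List Bool) (n : ℤ × ℤ) :
    (((push p n).1 : ℤ) : ℝ) = (push p ((n.1 : ℝ), (n.2 : ℝ))).1 ∧
      (((push p n).2 : ℤ) : ℝ) = (push p ((n.1 : ℝ), (n.2 : ℝ))).2 := by
  induction p generalizing n with
  | nil => exact ⟨rfl, rfl⟩
  | cons b l ih =>
    cases b
    · simpa only [push, Int.cast_add] using ih (n.1 + n.2, n.2)
    · simpa only [push, Int.cast_add] using ih (n.1, n.1 + n.2)

theorem pull_coprime (p : List Bool) (n : ℤ × ℤ) (h : IsCoprime n.1 n.2) :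
    IsCoprime (pull p n).1 (pull p n).2 := by
  induction p generalizing n with
  | nil => exact h
  | cons b l ih =>
    have := ih n h
    cases b
    · simp only [pull]
      have h2 := (IsCoprime.add_mul_left_left this (-1))
      simpa [sub_eq_add_neg] using h2
    · simp only [pull]
      have h2 := (IsCoprime.add_mul_left_right this (-1))
      simpa [sub_eq_add_neg] using h2

theorem push_mono (p : List Bool) {m n : ℝ × ℝ} (h1 : m.1 ≤ n.1) (h2 : m.2 ≤ n.2) :
    (push p m).1 ≤ (push p n).1 ∧ (push p m).2 ≤ (push p n).2 := by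
  induction p generalizing m n with
  | nil => exact ⟨h1, h2⟩
  | cons b l ih =>
    cases b
    · exact ih (by simpa using add_le_add h1 h2) (by simpa using h2)
    · exact ih (by simpa using h1) (by simpa using add_le_add h1 h2)

theorem push_pos (p : List Bool) {m : ℝ × ℝ} (h1 : 0 < m.1) (h2 : 0 < m.2) :
    0 < (push p m).1 ∧ 0 < (push p m).2 := by
  induction p generalizing m with
  | nil => exact ⟨h1, h2⟩
  | cons b l ih =>
    cases b
    · exact ih (by simpa using add_pos h1 h2) (by simpa using h2)
    · exact ih (by simpa using h1) (by simpa using add_pos h1 h2)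

theorem nl_pos (c : Cut) : 1 ≤ nl c := by
  induction c with
  | leaf => exact le_refl _
  | node l r ihl _ => simp only [nl]; omega

/-- swapping the first two entries -/
def sw (t : Nd) : Nd := (t.2.1, t.1, t.2.2)

theorem good_sw {t : Nd} (h : Good t) : Good (sw t) := by
  obtain ⟨hx, hy, hxy, hxz, hyz, he⟩ := h
  refine ⟨hy, hx, fun h => hxy h.symm, hyz, hxz, ?_⟩
  simp only [sw]
  nlinarith [he]

theorem fa_sw (t : Nd) : fa (sw t) = fb t := rfl
theorem fb_sw (t : Nd) : fb (sw t) = fa t := rfl
theorem fc_sw (t : Nd) : fc (sw t) = fc t := rfl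
theorem ep_sw (t : Nd) : ep (sw t) = ep t := by simp [ep, fa_sw, fb_sw, fc_sw, add_comm]
theorem lc_sw (t : Nd) : lc (sw t) = sw (rc t) := by
  simp only [lc, sw, rc, Prod.mk.injEq, true_and]
  congr 1; ring
theorem rc_sw (t : Nd) : rc (sw t) = sw (lc t) := by
  simp only [lc, sw, rc, Prod.mk.injEq, true_and]
  congr 1; ring

theorem nd_sw (t : Nd) (p : List Bool) : nd (sw t) p = sw (nd t (p.map (!·))) := by
  induction p generalizing t with
  | nil => rfl
  | cons b l ih => cases b <;> simp [nd, lc_sw, rc_sw, ih]

end Pool.Agent.Lib.MP_94ab62_nt
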