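import Pool.Agent.Lib.MP_94ab62_nt.Path

/-!
# GROUP: the telescoping identity `1/(u(u+v)) + 1/((u+v)v) = 1/(uv)`

Induction on the cut, generalizing `t` and `N`.  At a leaf: `N.1 ≤ M fa t` gives
`c/(fa t · N.2) ≤ c M/(N.1 N.2)`.  At an internal node apply the induction hypothesis to `lc t`, `(N.1, N.1+N.2)` and
`rc t`, `(N.1+N.2, N.2)`; the hypothesis on `M` is inherited because `fc t = fa t + fb t - ep t` and
`ep (lc t), ep (rc t) ≤ ep t / 4` (`M ≥ 0` since `N.1 > 0` and `fa t > ep t`).
-/

set_option autoImplicit false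

namespace Pool.Agent.Lib.MP_94ab62_nt

theorem group_lemma (E : Nd → ℝ) {G0 c : ℝ} (hG : 0 ≤ G0) (hc : 0 ≤ c) (M : ℝ) (τ : Cut)
    (t : Nd) (h : Good t) (N : ℝ × ℝ) (h1 : 0 < N.1) (h2 : 0 < N.2)
    (hM1 : N.1 ≤ M * (fa t - ep t)) (hM2 : N.2 ≤ M * (fb t - ep t))
    (hE : ∀ p : List Bool, LP τ p →
      E (nd t p) ≤ G0 + c / (fa (nd t p) * (push p N).2)) :
    lsum E τ t ≤ nl τ * G0 + c * M / (N.1 * N.2) := by
  induction τ generalizing t N with
  | leaf =>
    have ha := fa_ge h
    have h3 := hE [] trivial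
    have h3' : E t ≤ G0 + c / (fa t * N.2) := h3
    have hep := ep_pos h
    have hsm := ep_small h
    have hM0 : 0 < M := by
      by_contra hcon
      have : M ≤ 0 := not_lt.1 hcon
      nlinarith
    have h4 : N.1 ≤ M * fa t := by nlinarith
    have h5 : c / (fa t * N.2) ≤ c * M / (N.1 * N.2) := by
      rw [div_le_div_iff₀ (by positivity) (by positivity)]
      have h6 : N.1 * N.2 ≤ M * fa t * N.2 := mul_le_mul_of_nonneg_right h4 h2.le
      nlinarith
    show E t ≤ (1 : ℕ) * G0 + c * M / (N.1 * N.2)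
    push_cast
    linarith
  | node l r ihl ihr =>
    have hl := good_lc h
    have hr := good_rc h
    have hep := ep_pos h
    have hel := ep_pos hl
    have her := ep_pos hr
    have hsum := ep_sum h
    have ha := fa_ge h
    have hb := fb_ge h
    have hsm := ep_small h
    have hM0 : 0 < M := by
      by_contra hcon
      have : M ≤ 0 := not_lt.1 hcon
      nlinarith
    have hs : N.1 + N.2 ≤ M * (fc t - ep t) := by
      rw [fc_eq]
      nlinarith
    have hL := ihl (lc t) hl (N.1, N.1 + N.2) h1 (by simp only; linarith)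
      (by simp only [fa_lc]; nlinarith) (by simp only [fb_lc]; nlinarith)
      (fun p hp => hE (true :: p) hp)
    have hR := ihr (rc t) hr (N.1 + N.2, N.2) (by simp only; linarith) h2
      (by simp only [fa_rc]; nlinarith) (by simp only [fb_rc]; nlinarith)
      (fun p hp => hE (false :: p) hp)
    have e : c * M / (N.1 * (N.1 + N.2)) + c * M / ((N.1 + N.2) * N.2) =
        c * M / (N.1 * N.2) := by
      have h3 : N.1 + N.2 ≠ 0 := by linarith
      field_simp
      ring
    show lsum E l (lc t) + lsum E r (rc t) ≤ ((nl l + nl r : ℕ) : ℝ) * G0 + c * M / (N.1 * N.2)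
    rw [← e]
    push_cast
    simp only at hL hR
    linarith

end Pool.Agent.Lib.MP_94ab62_nt
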