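import Pool.Agent.Lib.MP_94ab62_nt.Eps3

/-!
# EPS4: the defects of the two children are small compared to the defect of the parent

Let `e = fc (lc t)`, `S_L = sinh a sinh c`.  By `ep_formula` for `t` and `lc t`,
`sinh(ε_L/2)/sinh(ε/2) = [(S+√(S²-1))/(S_L+√(S_L²-1))] · [sinh((a+b+c)/2)/sinh((a+c+e)/2)]`
`≤ (S/S_L) · (...) = (sinh b / sinh c) · (...) ≤ e^(b-c) e^((b-e)/2)` (as `sinh u/sinh v ≤ e^(u-v)` for
`0 < u ≤ v`), and `c - b = a - ε`, `e - b = 2a - ε - ε_L`, so the ratio is `≤ exp(-2a + 3ε/2 + ε_L/2) ≤ exp(-2a+2·(1/20))`.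
Same on the right with `exp(-2b+1/10)`.  One of `a, b` is `≥ 7/4`, the other `≥ 24/25`:
`(e^(-1.92) + e^(-3.5)) e^(0.1) ≤ 0.196`.  Finally `ε_L ≤ 2 sinh(ε_L/2)` and `2 sinh(ε/2) ≤ 1.01 ε` for `ε ≤ 1/20`.
-/

set_option autoImplicit false

namespace Pool.Agent.Lib.MP_94ab62_nt

theorem eps4_sinh_div {u v : ℝ} (h : u ≤ v) :
    Real.sinh u ≤ Real.exp (u - v) * Real.sinh v := by
  rw [Real.sinh_eq, Real.sinh_eq]
  have e1 : Real.exp (u - v) * Real.exp v = Real.exp u := by rw [← Real.exp_add]; congr 1; ring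
  have e2 : Real.exp (u - v) * Real.exp (-v) ≤ Real.exp (-u) := by
    rw [← Real.exp_add]
    exact Real.exp_le_exp.2 (by linarith)
  have e3 : Real.exp (u - v) * ((Real.exp v - Real.exp (-v)) / 2) =
      (Real.exp (u - v) * Real.exp v - Real.exp (u - v) * Real.exp (-v)) / 2 := by ring
  rw [e3, e1]
  linarith

theorem eps4_left {t : Nd} (h : Good t) :
    Real.sinh (ep (lc t) / 2) ≤ Real.exp (-2 * fa t + 1 / 10) * Real.sinh (ep t / 2) := by
  have hl := good_lc h
  have h1 := ep_formula h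
  have h2 := ep_formula hl
  have s1 := S_ge h
  have s2 := S_ge hl
  have p1 := ep_pos h
  have p2 := ep_pos hl
  have q1 := ep_small h
  have q2 := ep_small hl
  have ha := fa_ge h
  have hb := fb_ge h
  have hbc := fb_lt_fc h
  have hce := fb_lt_fc hl
  have hh1 := eps3_half_ge h
  have hh2 := eps3_half_ge hl
  have hm1 := fc_eq t
  have hm2 := fc_eq (lc t)
  rw [fa_lc, fb_lc] at h2 s2 hh2 hm2
  rw [fb_lc] at hce
  set a := fa t
  set b := fb t
  set c := fc t
  set e := fc (lc t)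
  set S := Real.sinh a * Real.sinh b with hS
  set L := Real.sinh a * Real.sinh c with hL
  have pa : 0 < Real.sinh a := Real.sinh_pos_iff.2 (by linarith)
  have pb : 0 < Real.sinh b := Real.sinh_pos_iff.2 (by linarith)
  have pc : 0 < Real.sinh c := Real.sinh_pos_iff.2 (by linarith)
  have e1 : Real.sinh b ≤ Real.exp (b - c) * Real.sinh c := eps4_sinh_div hbc.le
  have e2 : Real.sinh ((a + b + c) / 2) ≤
      Real.exp ((b - e) / 2) * Real.sinh ((a + c + e) / 2) := by
    have := eps4_sinh_div (u := (a + b + c) / 2) (v := (a + c + e) / 2) (by linarith)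
    have e3 : (a + b + c) / 2 - (a + c + e) / 2 = (b - e) / 2 := by ring
    rwa [e3] at this
  have hSL : S ≤ L := by
    apply mul_le_mul_of_nonneg_left _ pa.le
    exact Real.sinh_le_sinh.2 hbc.le
  have hSL' : S ≤ Real.exp (b - c) * L := by
    have := mul_le_mul_of_nonneg_left e1 pa.le
    rw [hS, hL]
    linarith
  have hr : S + Real.sqrt (S ^ 2 - 1) ≤ Real.exp (b - c) * (L + Real.sqrt (L ^ 2 - 1)) := by
    have g1 : L * Real.sqrt (S ^ 2 - 1) ≤ S * Real.sqrt (L ^ 2 - 1) := by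
      have k1 : L * Real.sqrt (S ^ 2 - 1) = Real.sqrt (L ^ 2 * (S ^ 2 - 1)) := by
        rw [Real.sqrt_mul (sq_nonneg L), Real.sqrt_sq (by linarith)]
      have k2 : S * Real.sqrt (L ^ 2 - 1) = Real.sqrt (S ^ 2 * (L ^ 2 - 1)) := by
        rw [Real.sqrt_mul (sq_nonneg S), Real.sqrt_sq (by linarith)]
      rw [k1, k2]
      apply Real.sqrt_le_sqrt
      have : S ^ 2 ≤ L ^ 2 := pow_le_pow_left₀ (by linarith) hSL 2
      nlinarith
    have g2 : L * Real.sqrt (S ^ 2 - 1) ≤ L * (Real.exp (b - c) * Real.sqrt (L ^ 2 - 1)) := by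
      refine g1.trans ?_
      have := mul_le_mul_of_nonneg_right hSL' (Real.sqrt_nonneg (L ^ 2 - 1))
      linarith
    have g3 : Real.sqrt (S ^ 2 - 1) ≤ Real.exp (b - c) * Real.sqrt (L ^ 2 - 1) :=
      le_of_mul_le_mul_left g2 (by linarith)
    linarith
  have hw1 : 0 < Real.sinh ((a + b + c) / 2) := Real.sinh_pos_iff.2 (by linarith)
  have hw2 : 0 < Real.sinh ((a + c + e) / 2) := Real.sinh_pos_iff.2 (by linarith)
  have hS0 : 0 < S + Real.sqrt (S ^ 2 - 1) := by
    have := Real.sqrt_nonneg (S ^ 2 - 1)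
    linarith
  have hL0 : 0 < L + Real.sqrt (L ^ 2 - 1) := by
    have := Real.sqrt_nonneg (L ^ 2 - 1)
    linarith
  have hprod : (S + Real.sqrt (S ^ 2 - 1)) * Real.sinh ((a + b + c) / 2) ≤
      Real.exp (-2 * a + 1 / 10) *
        ((L + Real.sqrt (L ^ 2 - 1)) * Real.sinh ((a + c + e) / 2)) := by
    calc (S + Real.sqrt (S ^ 2 - 1)) * Real.sinh ((a + b + c) / 2)
        ≤ (Real.exp (b - c) * (L + Real.sqrt (L ^ 2 - 1))) *
          (Real.exp ((b - e) / 2) * Real.sinh ((a + c + e) / 2)) :=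
          mul_le_mul hr e2 hw1.le (by positivity)
      _ = Real.exp ((b - c) + (b - e) / 2) *
        ((L + Real.sqrt (L ^ 2 - 1)) * Real.sinh ((a + c + e) / 2)) := by
          rw [Real.exp_add]; ring
      _ ≤ _ := by
          apply mul_le_mul_of_nonneg_right _ (by positivity)
          apply Real.exp_le_exp.2
          linarith
  have hsp : 0 < Real.sinh (ep t / 2) := Real.sinh_pos_iff.2 (by linarith)
  have hfin : Real.sinh (ep (lc t) / 2) *
      ((L + Real.sqrt (L ^ 2 - 1)) * Real.sinh ((a + c + e) / 2)) ≤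
      (Real.exp (-2 * a + 1 / 10) * Real.sinh (ep t / 2)) *
        ((L + Real.sqrt (L ^ 2 - 1)) * Real.sinh ((a + c + e) / 2)) := by
    have k1 : Real.sinh (ep (lc t) / 2) *
      ((L + Real.sqrt (L ^ 2 - 1)) * Real.sinh ((a + c + e) / 2)) = 1 / 2 := by linarith
    have k2 : Real.sinh (ep t / 2) *
      ((S + Real.sqrt (S ^ 2 - 1)) * Real.sinh ((a + b + c) / 2)) = 1 / 2 := by linarith
    rw [k1, ← k2]
    have := mul_le_mul_of_nonneg_left hprod hsp.le
    linarith
  exact le_of_mul_le_mul_right hfin (mul_pos hL0 hw2)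

theorem eps4_right {t : Nd} (h : Good t) :
    Real.sinh (ep (rc t) / 2) ≤ Real.exp (-2 * fb t + 1 / 10) * Real.sinh (ep t / 2) := by
  have h1 := eps4_left (good_sw h)
  rw [fa_sw, ep_sw, lc_sw, ep_sw] at h1
  exact h1

theorem eps4_num {a b : ℝ} (ha : 24 / 25 ≤ a) (hb : 7 / 4 ≤ b) :
    Real.exp (-2 * a + 1 / 10) + Real.exp (-2 * b + 1 / 10) ≤ 6 / 25 := by
  have h1 : Real.exp (-2 * a + 1 / 10) ≤ Real.exp (-(91 / 50)) :=
    Real.exp_le_exp.2 (by linarith)
  have h2 : Real.exp (-2 * b + 1 / 10) ≤ Real.exp (-(17 / 5)) :=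
    Real.exp_le_exp.2 (by linarith)
  have f2 := Real.exp_one_gt_d9
  have h3 : (5.3 : ℝ) ≤ Real.exp (91 / 50) := by
    have f1 : Real.exp (91 / 50) = Real.exp 1 * (Real.exp (41 / 100) * Real.exp (41 / 100)) := by
      rw [← Real.exp_add, ← Real.exp_add]; norm_num
    have f3 := Real.add_one_le_exp (41 / 100 : ℝ)
    have f4 : (1.41 : ℝ) * 1.41 ≤ Real.exp (41 / 100) * Real.exp (41 / 100) := by
      apply mul_le_mul _ _ (by norm_num) (by positivity) <;> linarith
    rw [f1]; nlinarith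
  have h4 : (27 : ℝ) ≤ Real.exp (17 / 5) := by
    have f1 : Real.exp (17 / 5) =
        (Real.exp 1 * Real.exp 1) * (Real.exp 1 * Real.exp (2 / 5)) := by
      rw [← Real.exp_add, ← Real.exp_add, ← Real.exp_add]; norm_num
    have f3 := Real.add_one_le_exp (2 / 5 : ℝ)
    have f4 : (7.3 : ℝ) ≤ Real.exp 1 * Real.exp 1 := by nlinarith
    have f5 : (3.8 : ℝ) ≤ Real.exp 1 * Real.exp (2 / 5) := by nlinarith
    rw [f1]; nlinarith
  have h5 : Real.exp (-(91 / 50)) ≤ 1 / 5.3 := by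
    rw [Real.exp_neg, ← one_div]
    exact one_div_le_one_div_of_le (by norm_num) h3
  have h6 : Real.exp (-(17 / 5)) ≤ 1 / 27 := by
    rw [Real.exp_neg, ← one_div]
    exact one_div_le_one_div_of_le (by norm_num) h4
  norm_num at h5 h6
  linarith

theorem ep_sum {t : Nd} (h : Good t) : ep (lc t) + ep (rc t) ≤ ep t / 4 := by
  have h1 := eps4_left h
  have h2 := eps4_right h
  have h3 := eps3_two_sinh (good_lc h)
  have h4 := eps3_two_sinh (good_rc h)
  have p := ep_pos h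
  have q := ep_small h
  have h5 : Real.exp (-2 * fa t + 1 / 10) + Real.exp (-2 * fb t + 1 / 10) ≤ 6 / 25 := by
    rcases fab_cases h with h' | h'
    · rw [add_comm]
      exact eps4_num (fb_ge h) h'
    · exact eps4_num (fa_ge h) h'
  have h6 := eps3_sinh_le (u := ep t / 2) (by linarith)
  have h7 : 0 < Real.sinh (ep t / 2) := Real.sinh_pos_iff.2 (by linarith)
  have h8 : Real.sinh (ep t / 2) * (39 / 40) ≤ ep t / 2 := by nlinarith
  nlinarith [mul_le_mul_of_nonneg_right h5 h7.le]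

end Pool.Agent.Lib.MP_94ab62_nt
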