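import Pool.Agent.Lib.MP_94ab62_nt.LiouA
import Pool.Agent.Lib.MP_94ab62_nt.Eps4

/-!
# LIOUB: linear forms along a left chain

`nd t (replicate k true) = (x, y_k, y_{k+1})` with `y_0 = y`, `y_1 = z`, `y_{k+1} = 3x y_k - y_{k-1}`, so
`2 cosh (F y_k) = 3 y_k = α γ^k + β γ^(-k)` (induction on `k`).  Hence, with `b_k = F y_k` and `v = α γ^k`:
`e^(b_k) - v = (αβ)/v - e^(-b_k)`, and `1 < αβ ≤ 9/5`, so `|b_k - (log α + k fa t)| ≤ 2 e^(-b_k)`
(`v ≤ e^{b_k}` and `e^{b_k} ≤ v + 2/v`).
Then `log (α^r γ^(-s)) = [r b_k - (s + k r) fa t] - r (b_k - k fa t - log α)` and `liouville_gam`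
together with `|X - 1| ≤ 2 |log X|` if `|log X| ≤ 1` gives the claim (take `K` large, e.g. `K = 20`;
`9x²-4 ≤ γ²`).  If `|log X| > 1` the claim is trivial for `K ≥ 2`.
-/

set_option autoImplicit false

namespace Pool.Agent.Lib.MP_94ab62_nt

private theorem liouB_ag {t : Nd} (h : Good t) :
    alp t * gam t + bet t * (gam t)⁻¹ = 3 * (t.2.2 : ℝ) := by
  have h0 : 0 < gam t := Real.exp_pos _
  have h1 := gam_gt_one h
  have h2 : (gam t)⁻¹ < 1 := inv_lt_one_of_one_lt₀ (by linarith)
  have h3 : gam t - (gam t)⁻¹ ≠ 0 := by linarith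
  have h4 : gam t * (gam t)⁻¹ = 1 := mul_inv_cancel₀ h0.ne'
  unfold alp bet
  rw [div_mul_eq_mul_div, div_mul_eq_mul_div, ← add_div, div_eq_iff h3]
  have h5 : (3 * (t.2.2 : ℝ) - 3 * t.2.1 * (gam t)⁻¹) * gam t +
      (3 * (t.2.1 : ℝ) * gam t - 3 * t.2.2) * (gam t)⁻¹ =
      3 * t.2.2 * (gam t - (gam t)⁻¹) := by ring
  exact h5

private theorem liouB_chain {t : Nd} (h : Good t) (k : ℕ) :
    (nd t (List.replicate k true)).1 = t.1 ∧
    3 * ((nd t (List.replicate k true)).2.1 : ℝ) = alp t * gam t ^ k + bet t * (gam t)⁻¹ ^ k ∧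
    3 * ((nd t (List.replicate k true)).2.2 : ℝ) =
      alp t * gam t ^ (k + 1) + bet t * (gam t)⁻¹ ^ (k + 1) := by
  induction k with
  | zero =>
    refine ⟨rfl, ?_, ?_⟩
    · simpa [nd] using (alp_add_bet t h).symm
    · simpa [nd] using (liouB_ag h).symm
  | succ k ih =>
    have hg := good_nd h (List.replicate k true)
    have he : nd t (List.replicate (k + 1) true) = lc (nd t (List.replicate k true)) := by
      rw [List.replicate_succ', nd_append]; rfl
    rw [he]
    generalize nd t (List.replicate k true) = u at *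
    obtain ⟨h1, h2, h3⟩ := ih
    obtain ⟨hx, hy, -, -, hyz, -⟩ := hg
    have h4 : u.2.1 ≤ 3 * u.1 * u.2.2 := by nlinarith
    refine ⟨h1, h3, ?_⟩
    simp only [lc]
    rw [Nat.cast_sub h4]
    push_cast
    have h5 := gam_add_inv h
    have h0 : 0 < gam t := Real.exp_pos _
    have h6 : gam t * (gam t)⁻¹ = 1 := mul_inv_cancel₀ h0.ne'
    have h7 : 3 * (3 * (u.1 : ℝ) * u.2.2 - u.2.1) = (3 * (u.1 : ℝ)) * (3 * u.2.2) - 3 * u.2.1 := by ring
    rw [h7, h2, h3, h1, ← h5]
    generalize (gam t)⁻¹ = g' at *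
    have h8 : gam t ^ k = gam t ^ (k + 1) * g' := by
      rw [pow_succ, mul_assoc, h6, mul_one]
    have h9 : g' ^ k = g' ^ (k + 1) * gam t := by
      rw [pow_succ, mul_assoc, mul_comm g' (gam t), h6, mul_one]
    have h10 : gam t ^ (k + 1 + 1) = gam t ^ (k + 1) * gam t := pow_succ _ _
    have h11 : g' ^ (k + 1 + 1) = g' ^ (k + 1) * g' := pow_succ _ _
    rw [h10, h11, h8, h9]
    ring

/-- real inequality -/
private theorem liouB_real {v E P : ℝ} (hE : 13 / 5 ≤ E) (hP1 : 1 < P) (hP : P ≤ 9 / 5)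
    (hv : 0 < v) (hvP : P ≤ v * v) (he : v * v + P = (E + E⁻¹) * v) :
    v ≤ E ∧ (E - v) / v ≤ 2 * E⁻¹ := by
  have hE0 : 0 < E := by linarith
  have hi : E * E⁻¹ = 1 := mul_inv_cancel₀ hE0.ne'
  have hi0 : 0 < E⁻¹ := inv_pos.mpr hE0
  have hi1 : E⁻¹ ≤ 5 / 13 := by
    rw [inv_le_comm₀ hE0 (by norm_num)]; norm_num; linarith
  generalize E⁻¹ = I at *
  have h1 : (E - v) * (v - I) = P - 1 := by nlinarith
  have h2 : E + I ≤ 2 * v := by
    by_contra hc
    push Not at hc
    nlinarith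
  have h3 : (E - I) / 2 ≤ v - I := by linarith
  have h4 : 0 < v - I := by linarith
  have h5 : v ≤ E := by
    by_contra hc
    push Not at hc
    nlinarith
  refine ⟨h5, ?_⟩
  rw [div_le_iff₀ hv]
  have h6 : (E - v) * (E - I) ≤ 8 / 5 := by nlinarith
  have h7 : E * (E - v) ≤ 2 * v := by
    have h8 : (E - v) ≤ 18 / 25 := by
      by_contra hc
      push Not at hc
      nlinarith
    nlinarith
  have h9 : I * (E * (E - v)) ≤ I * (2 * v) := mul_le_mul_of_nonneg_left h7 hi0.le
  have h10 : I * (E * (E - v)) = (E - v) * (E * I) := by ring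
  rw [h10, hi, mul_one] at h9
  linarith

theorem chain_log {t : Nd} (h : Good t) (k : ℕ) :
    |fb (nd t (List.replicate k true)) - (k * fa t + Real.log (alp t))| ≤
      2 * Real.exp (-fb (nd t (List.replicate k true))) := by
  obtain ⟨-, h2, -⟩ := liouB_chain h k
  have hg := good_nd h (List.replicate k true)
  have hfb := fb_ge hg
  have hcosh : Real.cosh (fb (nd t (List.replicate k true))) =
      3 * ((nd t (List.replicate k true)).2.1 : ℝ) / 2 := cosh_F hg.2.1
  have hY : (1 : ℝ) ≤ (nd t (List.replicate k true)).2.1 := by exact_mod_cast hg.2.1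
  rw [h2, Real.cosh_eq] at hcosh
  rw [← mul_le_mul_iff_right₀ (by norm_num : (0 : ℝ) < 3), h2] at hY
  generalize fb (nd t (List.replicate k true)) = b at *
  have hg0 : 0 < gam t := Real.exp_pos _
  have hg1 := gam_gt_one h
  have hal := alp_ge h
  have hbe := bet_bounds h
  have hP : 1 < alp t * bet t ∧ alp t * bet t ≤ 9 / 5 := by
    have h3 : (1 : ℝ) ≤ t.1 := by exact_mod_cast h.1
    have h4 : (5 : ℝ) ≤ 9 * (t.1 : ℝ) ^ 2 - 4 := by nlinarith
    rw [alp_mul_bet h]
    constructor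
    · rw [lt_div_iff₀ (by linarith)]; linarith
    · rw [div_le_iff₀ (by linarith)]; linarith
  have hgk : 1 ≤ gam t ^ k := one_le_pow₀ (by linarith)
  have hgi : gam t ^ k * (gam t)⁻¹ ^ k = 1 := by
    rw [← mul_pow, mul_inv_cancel₀ hg0.ne', one_pow]
  have hlogv : (k : ℝ) * fa t + Real.log (alp t) = Real.log (alp t * gam t ^ k) := by
    rw [Real.log_mul (by linarith) (by positivity), Real.log_pow]
    have : Real.log (gam t) = fa t := Real.log_exp _
    rw [this]; ring
  rw [hlogv]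
  have hv : 0 < alp t * gam t ^ k := by positivity
  have hvE : (alp t * gam t ^ k) * (alp t * gam t ^ k) + alp t * bet t =
      (Real.exp b + (Real.exp b)⁻¹) * (alp t * gam t ^ k) := by
    have h5 : Real.exp b + (Real.exp b)⁻¹ = alp t * gam t ^ k + bet t * (gam t)⁻¹ ^ k := by
      rw [← Real.exp_neg]; linarith
    rw [h5]
    have h6 : bet t * (gam t)⁻¹ ^ k * (alp t * gam t ^ k) =
        alp t * bet t * (gam t ^ k * (gam t)⁻¹ ^ k) := by ring
    rw [add_mul, h6, hgi, mul_one]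
  have hE13 : 13 / 5 ≤ Real.exp b := by
    have hE1 : 1 < Real.exp b := by
      have := Real.add_one_lt_exp (x := b) (by linarith)
      linarith
    have h5 : 3 ≤ Real.exp b + (Real.exp b)⁻¹ := by
      rw [← Real.exp_neg]; linarith
    have hE0 : 0 < Real.exp b := Real.exp_pos _
    have h6 : 3 * Real.exp b ≤ Real.exp b * Real.exp b + 1 := by
      have h7 := mul_le_mul_of_nonneg_right h5 hE0.le
      rw [add_mul, inv_mul_cancel₀ hE0.ne'] at h7
      exact h7
    by_contra hc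
    push Not at hc
    nlinarith
  have hvP : alp t * bet t ≤ (alp t * gam t ^ k) * (alp t * gam t ^ k) := by
    have h5 : (3 / 2 : ℝ) ≤ alp t * gam t ^ k := by nlinarith
    nlinarith [hP.2]
  obtain ⟨hle, hdiv⟩ := liouB_real hE13 hP.1 hP.2 hv hvP hvE
  have h7 : Real.log (alp t * gam t ^ k) ≤ b := by
    rw [← Real.log_exp b]; exact Real.log_le_log hv hle
  rw [abs_of_nonneg (by linarith)]
  have h8 : Real.log (Real.exp b / (alp t * gam t ^ k)) ≤ Real.exp b / (alp t * gam t ^ k) - 1 :=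
    Real.log_le_sub_one_of_pos (by positivity)
  rw [Real.log_div (Real.exp_pos _).ne' hv.ne', Real.log_exp] at h8
  have h9 : Real.exp b / (alp t * gam t ^ k) - 1 =
      (Real.exp b - alp t * gam t ^ k) / (alp t * gam t ^ k) := by
    rw [sub_div, div_self hv.ne']
  rw [h9] at h8
  rw [Real.exp_neg]
  linarith

theorem liou_chain : ∃ K : ℝ, 0 < K ∧ ∀ (t : Nd), Good t → ∀ (k r s : ℕ), 1 ≤ r →
    Real.exp (-K * ((r : ℝ) + s + 1) * (fa t + 1)) ≤
      |(r : ℝ) * fb (nd t (List.replicate k true)) - ((s : ℝ) + k * r) * fa t| +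
        K * r * Real.exp (-fb (nd t (List.replicate k true))) := by
  refine ⟨4, by norm_num, ?_⟩
  intro t h k r s hr
  have hc := chain_log h k
  have hL := liouville_gam h r s hr
  generalize fb (nd t (List.replicate k true)) = b at *
  have ha : 24 / 25 ≤ fa t := fa_ge h
  have hal := alp_ge h
  have hr' : (1 : ℝ) ≤ r := by exact_mod_cast hr
  have hs' : (0 : ℝ) ≤ s := Nat.cast_nonneg s
  have hg0 : 0 < gam t := Real.exp_pos _
  have hal0 : 0 < alp t := by linarith
  have hX : alp t ^ r * (gam t)⁻¹ ^ s = Real.exp (r * Real.log (alp t) - s * fa t) := by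
    rw [Real.exp_sub, Real.exp_nat_mul, Real.exp_log hal0, Real.exp_nat_mul, inv_pow,
      div_eq_mul_inv]
    rfl
  have hsplit : |(r : ℝ) * Real.log (alp t) - s * fa t| ≤
      |(r : ℝ) * b - ((s : ℝ) + k * r) * fa t| + r * (2 * Real.exp (-b)) := by
    have h1 : (r : ℝ) * Real.log (alp t) - s * fa t =
      ((r : ℝ) * b - ((s : ℝ) + k * r) * fa t) - r * (b - (k * fa t + Real.log (alp t))) := by ring
    rw [h1]
    refine (abs_sub _ _).trans ?_
    rw [abs_mul, abs_of_nonneg (by linarith : (0 : ℝ) ≤ r)]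
    have := mul_le_mul_of_nonneg_left hc (by linarith : (0 : ℝ) ≤ r)
    linarith
  have he0 : 0 < (r : ℝ) * Real.exp (-b) := mul_pos (by linarith) (Real.exp_pos _)
  have hgoal : Real.exp (-4 * ((r : ℝ) + s + 1) * (fa t + 1)) ≤
      |(r : ℝ) * Real.log (alp t) - s * fa t| := by
    rcases le_or_gt |(r : ℝ) * Real.log (alp t) - s * fa t| 1 with hle | hgt
    · have h1 := Real.abs_exp_sub_one_le hle
      rw [hX] at hL
      have h2 : 1 / ((9 * (t.1 : ℝ) ^ 2 - 4) ^ (2 * r) * (2 ^ r * gam t ^ s + 1)) ≤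
        2 * |(r : ℝ) * Real.log (alp t) - s * fa t| := hL.trans h1
      have h3 : (9 * (t.1 : ℝ) ^ 2 - 4) ≤ Real.exp (2 * fa t) := by
        have h4 := gam_add_inv h
        have h5 : gam t * (gam t)⁻¹ = 1 := mul_inv_cancel₀ hg0.ne'
        have h6 : Real.exp (2 * fa t) = gam t * gam t := by
          unfold gam; rw [← Real.exp_add]; congr 1; ring
        have h7 : 0 < (gam t)⁻¹ := inv_pos.mpr hg0
        have h8 : 2 < gam t := gam_gt_one h
        have h9 : (gam t)⁻¹ < 1 := inv_lt_one_of_one_lt₀ (by linarith)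
        rw [h6]
        have h10 : 9 * (t.1 : ℝ) ^ 2 = (gam t + (gam t)⁻¹) ^ 2 := by rw [h4]; ring
        rw [h10]
        nlinarith
      have h0 : (0 : ℝ) < 9 * (t.1 : ℝ) ^ 2 - 4 := by
        have h3 : (1 : ℝ) ≤ t.1 := by exact_mod_cast h.1
        nlinarith
      have h4 : (9 * (t.1 : ℝ) ^ 2 - 4) ^ (2 * r) ≤ Real.exp (4 * (r * fa t)) := by
        calc (9 * (t.1 : ℝ) ^ 2 - 4) ^ (2 * r) ≤ Real.exp (2 * fa t) ^ (2 * r) :=
              pow_le_pow_left₀ h0.le h3 _
          _ = Real.exp (4 * (r * fa t)) := by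
              rw [← Real.exp_nat_mul]; push_cast; congr 1; ring
      have h2e : (2 : ℝ) ≤ Real.exp 1 := by
        have := Real.add_one_le_exp (1 : ℝ); linarith
      have h5 : (2 : ℝ) ^ r ≤ Real.exp r := by
        calc (2 : ℝ) ^ r ≤ Real.exp 1 ^ r := pow_le_pow_left₀ (by norm_num) h2e _
          _ = Real.exp r := by rw [← Real.exp_nat_mul, mul_one]
      have h6 : gam t ^ s = Real.exp (s * fa t) := by
        rw [Real.exp_nat_mul]; rfl
      have h7 : (2 : ℝ) ^ r * gam t ^ s + 1 ≤ Real.exp (1 + r + s * fa t) := by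
        have h8 : (1 : ℝ) ≤ 2 ^ r * gam t ^ s := by
          have h9 : (1 : ℝ) ≤ 2 ^ r := one_le_pow₀ (by norm_num)
          have h10 : (1 : ℝ) ≤ gam t ^ s := one_le_pow₀ (by linarith [gam_gt_one h])
          nlinarith
        calc (2 : ℝ) ^ r * gam t ^ s + 1 ≤ 2 * (2 ^ r * gam t ^ s) := by linarith
          _ ≤ Real.exp 1 * (Real.exp r * Real.exp (s * fa t)) := by
              rw [h6]
              apply mul_le_mul h2e _ (by positivity) (by positivity)
              exact mul_le_mul_of_nonneg_right h5 (by positivity)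
          _ = Real.exp (1 + r + s * fa t) := by rw [← Real.exp_add, ← Real.exp_add]; congr 1; ring
      have h8 : (9 * (t.1 : ℝ) ^ 2 - 4) ^ (2 * r) * (2 ^ r * gam t ^ s + 1) ≤
          Real.exp (4 * (r * fa t) + (1 + r + s * fa t)) := by
        rw [Real.exp_add]
        exact mul_le_mul h4 h7 (by positivity) (by positivity)
      have hpos : 0 < (9 * (t.1 : ℝ) ^ 2 - 4) ^ (2 * r) * (2 ^ r * gam t ^ s + 1) := by positivity
      have h9 : Real.exp (-(4 * (r * fa t) + (1 + r + s * fa t))) ≤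
          2 * |(r : ℝ) * Real.log (alp t) - s * fa t| := by
        rw [Real.exp_neg, ← one_div]
        exact (one_div_le_one_div_of_le hpos h8).trans h2
      have h10 : 2 * Real.exp (-4 * ((r : ℝ) + s + 1) * (fa t + 1)) ≤
          Real.exp (-(4 * (r * fa t) + (1 + r + s * fa t))) := by
        calc 2 * Real.exp (-4 * ((r : ℝ) + s + 1) * (fa t + 1)) ≤
              Real.exp 1 * Real.exp (-4 * ((r : ℝ) + s + 1) * (fa t + 1)) :=
              mul_le_mul_of_nonneg_right h2e (Real.exp_pos _).le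
          _ = Real.exp (1 + -4 * ((r : ℝ) + s + 1) * (fa t + 1)) := by rw [← Real.exp_add]
          _ ≤ Real.exp (-(4 * (r * fa t) + (1 + r + s * fa t))) := by
              apply Real.exp_le_exp.mpr
              have h11 : 0 ≤ (s : ℝ) * fa t := mul_nonneg hs' (by linarith)
              nlinarith
      linarith
    · have h1 : Real.exp (-4 * ((r : ℝ) + s + 1) * (fa t + 1)) ≤ 1 := by
        apply Real.exp_le_one_iff.mpr
        have : 0 ≤ ((r : ℝ) + s + 1) * (fa t + 1) := mul_nonneg (by linarith) (by linarith)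
        linarith
      linarith
  linarith

end Pool.Agent.Lib.MP_94ab62_nt
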