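import Pool.Agent.Lib.MP_94ab62_nt.Rep
import Pool.Agent.Lib.MP_94ab62_nt.LiouB

/-!
# LOW: lower bound for the covector at level `R/40`

Notation: `t = nd root p₀`, `a = fa t`, `b = fb t`, `ε = ep t ≤ 8 e^(-2(a+b)) ≤ 8 e^(-R/20)`, `λ = n.1/fa J`,
`N = pull p n`, `ρ = 5 R e^(-R/5)`.  `rep`: `λ(a-2ε)-ρ ≤ N.1 ≤ λ a + ρ`, same for `N.2` with `b`; `1/2 ≤ λ ≤ 3R³`
by `lam_ge` (applied to the path `p₀ ++ p`: `nd_append`).  So `M = 2λ` works for the first two
inequalities, and `N.1 N.2 ≥ λ² a b / 2`, so `M/(N.1 N.2) ≤ 4/(λ a b)`.  It remains to see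
`λ a b ≥ c R^(3/2)`.  Say `a ≤ b` (else use `sw`); `b ≥ R/80`.
It suffices `λ a (a+1) ≥ c R`: if `a ≥ √R` then `λ a ≥ √R/2`, else `λ a ≥ cR/(a+1)`.

`chain_form`: write `p₀ = p₁ ++ replicate k true` with `p₁ = []` or `p₁` ending in `false`; let
`t₀ = nd root p₁`; then `fb t₀ ≤ fa t₀ + 1` (if `p₁ = q ++ [false]`, `t₀ = rc (nd root q)`: `fb t₀ < fa t₀`; for the root `1.8 ≤ 0.96 + 1`) and
`fa t₀ = a`.
Put `r = N.1`, `s = N.2 - k N.1 = (pull (replicate k true) N).2` `= (pull (replicate k true ++ p) n).2`; `rep` at `t₀`: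
`s > 0` and `s ≤ λ (fb t₀) + ρ ≤ λ(a+1)+ρ ≤ 4 r`.  By `liou_chain` at `t₀`:
`exp(-K (r+s+1)(a+1)) ≤ |r b - N.2 a| + K r e^(-b)`.  Here `|N.1 b - N.2 a| ≤ 2λε(a+b) + ρ(a+b)` and
`r ≤ 3R³·2R`, so the right side is `≤ e^(-R/100)` for large `R`, whence `K(r+s+1)(a+1) ≥ R/100`, so `r (a+1) ≥ c R`.
For `b < a` do the same with `sw`: right chains `replicate k false` (`nd_sw`) and `(N.2, N.1)`.
-/

set_option autoImplicit false

namespace Pool.Agent.Lib.MP_94ab62_nt

theorem fb_root_le : fb root ≤ fa root + 1 := by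
  have h1 := F_one
  have h2 := F_two
  have e1 : fa root = F 1 := rfl
  have e2 : fb root = F 2 := rfl
  rw [e1, e2]; linarith [h1.1, h2.2]

theorem fa_root_le : fa root ≤ fb root + 1 := by
  have h1 := F_one
  have h2 := F_two
  have e1 : fa root = F 1 := rfl
  have e2 : fb root = F 2 := rfl
  rw [e1, e2]; linarith [h1.2, h2.1]

/-- decomposition of a node into a maximal left chain -/
theorem chain_form (p₀ : List Bool) : ∃ (p₁ : List Bool) (k : ℕ), p₀ = p₁ ++ List.replicate k true ∧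
    fb (nd root p₁) ≤ fa (nd root p₁) + 1 := by
  induction p₀ using List.reverseRecOn with
  | nil => exact ⟨[], 0, rfl, fb_root_le⟩
  | append_singleton q b ih =>
    cases b with
    | true =>
      obtain ⟨p₁, k, h1, h2⟩ := ih
      refine ⟨p₁, k + 1, ?_, h2⟩
      rw [h1, List.replicate_succ', List.append_assoc]
    | false =>
      refine ⟨q ++ [false], 0, by simp, ?_⟩
      rw [nd_append]
      have hg := good_nd good_root q
      have := fb_lt_fc hg
      show fb (rc (nd root q)) ≤ fa (rc (nd root q)) + 1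
      rw [fb_rc, fa_rc]; linarith

/-- decomposition of a node into a maximal right chain -/
theorem chain_form' (p₀ : List Bool) : ∃ (p₁ : List Bool) (k : ℕ), p₀ = p₁ ++ List.replicate k false ∧
    fa (nd root p₁) ≤ fb (nd root p₁) + 1 := by
  induction p₀ using List.reverseRecOn with
  | nil => exact ⟨[], 0, rfl, fa_root_le⟩
  | append_singleton q b ih =>
    cases b with
    | false =>
      obtain ⟨p₁, k, h1, h2⟩ := ih
      refine ⟨p₁, k + 1, ?_, h2⟩
      rw [h1, List.replicate_succ', List.append_assoc]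
    | true =>
      refine ⟨q ++ [true], 0, by simp, ?_⟩
      rw [nd_append]
      have hg := good_nd good_root q
      have := fa_lt_fc hg
      show fa (lc (nd root q)) ≤ fb (lc (nd root q)) + 1
      rw [fb_lc, fa_lc]; linarith

private theorem small_ev (K : ℝ) (hK : 0 < K) : ∃ R0 : ℝ, ∀ R : ℝ, R0 ≤ R →
    1 ≤ R ∧ 5 * R * Real.exp (-R / 5) ≤ 1 / 100 ∧
      10 * R ^ 2 * Real.exp (-R / 5) + 96 * R ^ 4 * Real.exp (-R / 20) +
        K * (6 * R ^ 4 + 1) * Real.exp (-R / 80) < Real.exp (-R / 100) := by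
  have h := isLittleO_pow_exp_pos_mul_atTop 4 (b := (1 / 400 : ℝ)) (by norm_num)
  have hc : 0 < 1 / (1000 * (1 + K)) := by positivity
  have h2 := (h.bound hc).and (Filter.eventually_ge_atTop (1 : ℝ))
  obtain ⟨R0, hR0⟩ := Filter.eventually_atTop.1 h2
  refine ⟨R0, fun R hR => ?_⟩
  obtain ⟨h3, h1R⟩ := hR0 R hR
  have h4 : R ^ 4 ≤ 1 / (1000 * (1 + K)) * Real.exp (1 / 400 * R) := by
    have : ‖R ^ 4‖ = R ^ 4 := by rw [Real.norm_eq_abs, abs_of_nonneg (by positivity)]
    rw [this, Real.norm_eq_abs, Real.abs_exp] at h3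
    exact h3
  have hp0 : 0 < R := by linarith
  have hR4 : R ≤ R ^ 4 := by
    calc R = R ^ 1 := (pow_one R).symm
      _ ≤ R ^ 4 := pow_le_pow_right₀ h1R (by norm_num)
  have hR24 : R ^ 2 ≤ R ^ 4 := pow_le_pow_right₀ h1R (by norm_num)
  have h14 : 1 ≤ R ^ 4 := le_trans h1R hR4
  have e1 : Real.exp (-R / 5) ≤ Real.exp (-R / 80) := Real.exp_le_exp.2 (by linarith)
  have e2 : Real.exp (-R / 20) ≤ Real.exp (-R / 80) := Real.exp_le_exp.2 (by linarith)
  have hE : 0 < Real.exp (-R / 80) := Real.exp_pos _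
  have key : R ^ 4 * Real.exp (-R / 80) ≤ 1 / (1000 * (1 + K)) * Real.exp (-R / 100) := by
    calc R ^ 4 * Real.exp (-R / 80) ≤ 1 / (1000 * (1 + K)) * Real.exp (1 / 400 * R) *
        Real.exp (-R / 80) := mul_le_mul_of_nonneg_right h4 hE.le
      _ = 1 / (1000 * (1 + K)) * Real.exp (-R / 100) := by
        rw [mul_assoc, ← Real.exp_add]; congr 2; ring
  have hX : 0 < Real.exp (-R / 100) := Real.exp_pos _
  have hX1 : Real.exp (-R / 100) ≤ 1 := Real.exp_le_one_iff.2 (by linarith)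
  set Y := R ^ 4 * Real.exp (-R / 80) with hY
  have hY0 : 0 < Y := by positivity
  have key2 : (1000 * (1 + K)) * Y ≤ Real.exp (-R / 100) := by
    have : (1000 * (1 + K)) * (1 / (1000 * (1 + K)) * Real.exp (-R / 100)) = Real.exp (-R / 100) := by
      field_simp
    calc (1000 * (1 + K)) * Y ≤ (1000 * (1 + K)) * (1 / (1000 * (1 + K)) * Real.exp (-R / 100)) :=
          mul_le_mul_of_nonneg_left key (by positivity)
      _ = _ := this
  refine ⟨h1R, ?_, ?_⟩
  · have : 5 * R * Real.exp (-R / 5) ≤ 5 * Y := by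
      have : R * Real.exp (-R / 5) ≤ R ^ 4 * Real.exp (-R / 80) :=
        mul_le_mul hR4 e1 (Real.exp_pos _).le (by positivity)
      rw [hY]; linarith
    nlinarith [mul_pos hK hY0]
  · have a1 : 10 * R ^ 2 * Real.exp (-R / 5) ≤ 10 * Y := by
      have : R ^ 2 * Real.exp (-R / 5) ≤ R ^ 4 * Real.exp (-R / 80) :=
        mul_le_mul hR24 e1 (Real.exp_pos _).le (by positivity)
      rw [hY]; linarith
    have a2 : 96 * R ^ 4 * Real.exp (-R / 20) ≤ 96 * Y := by
      have : R ^ 4 * Real.exp (-R / 20) ≤ R ^ 4 * Real.exp (-R / 80) :=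
        mul_le_mul_of_nonneg_left e2 (by positivity)
      rw [hY]; linarith
    have a3 : K * (6 * R ^ 4 + 1) * Real.exp (-R / 80) ≤ 7 * (K * Y) := by
      have : (6 * R ^ 4 + 1) * Real.exp (-R / 80) ≤ 7 * Y := by
        rw [hY]; nlinarith [mul_le_mul_of_nonneg_right h14 hE.le]
      calc K * (6 * R ^ 4 + 1) * Real.exp (-R / 80) = K * ((6 * R ^ 4 + 1) * Real.exp (-R / 80)) := by
            ring
        _ ≤ K * (7 * Y) := mul_le_mul_of_nonneg_left this hK.le
        _ = _ := by ring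
    nlinarith [mul_pos hK hY0]

/-- the analytic core: `a ≤ b` -/
private theorem core {K : ℝ} (hK : 0 < K) {R a b l ε ρ : ℝ} {r s k : ℕ} {N2 : ℝ}
    (hR : 1 ≤ R) (hρ0 : 0 ≤ ρ) (hρdef : ρ = 5 * R * Real.exp (-R / 5)) (hρ : ρ ≤ 1 / 100)
    (hsm : 10 * R ^ 2 * Real.exp (-R / 5) + 96 * R ^ 4 * Real.exp (-R / 20) +
        K * (6 * R ^ 4 + 1) * Real.exp (-R / 80) < Real.exp (-R / 100))
    (ha : 24 / 25 ≤ a) (hab : a ≤ b) (hab1 : R / 40 ≤ a + b) (hab2 : a + b ≤ 2 * R)
    (hε0 : 0 < ε) (hε : ε ≤ 8 * Real.exp (-2 * (a + b)))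
    (hl : 1 / 2 ≤ l) (hl2 : l ≤ 3 * R ^ 3) (hN2 : N2 = s + k * r)
    (h1 : l * (a - 2 * ε) - ρ ≤ r) (h2 : (r : ℝ) ≤ l * a + ρ)
    (h3 : l * (b - 2 * ε) - ρ ≤ N2) (h4 : N2 ≤ l * b + ρ) (h5 : (s : ℝ) ≤ l * (a + 1) + ρ)
    (hL : Real.exp (-K * ((r : ℝ) + s + 1) * (a + 1)) ≤
      |(r : ℝ) * b - ((s : ℝ) + k * r) * a| + K * r * Real.exp (-b)) :
    R / (600 * K) ≤ l * a * (a + 1) := by
  have hb : R / 80 ≤ b := by linarith
  have hεR : ε ≤ 8 * Real.exp (-R / 20) := by
    refine le_trans hε ?_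
    have : Real.exp (-2 * (a + b)) ≤ Real.exp (-R / 20) := Real.exp_le_exp.2 (by linarith)
    linarith
  have hl0 : 0 < l := by linarith
  have ha0 : 0 < a := by linarith
  have hb0 : 0 < b := by linarith
  have hab0 : 0 < a + b := by linarith
  have hla : 12 / 25 ≤ l * a := by nlinarith
  -- bound of the linear form
  have hlin : |(r : ℝ) * b - ((s : ℝ) + k * r) * a| ≤ (ρ + 2 * l * ε) * (a + b) := by
    rw [← hN2, abs_le]
    have hlε : 0 < l * ε := by positivity
    constructor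
    · nlinarith [mul_le_mul_of_nonneg_right h1 hb0.le, mul_le_mul_of_nonneg_right h4 ha0.le,
        mul_pos hlε hab0, mul_pos hlε ha0, mul_pos hlε hb0]
    · nlinarith [mul_le_mul_of_nonneg_right h2 hb0.le, mul_le_mul_of_nonneg_right h3 ha0.le,
        mul_pos hlε hab0, mul_pos hlε ha0, mul_pos hlε hb0]
  have hlin2 : (ρ + 2 * l * ε) * (a + b) ≤
      10 * R ^ 2 * Real.exp (-R / 5) + 96 * R ^ 4 * Real.exp (-R / 20) := by
    have q1 : ρ * (a + b) ≤ 10 * R ^ 2 * Real.exp (-R / 5) := by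
      calc ρ * (a + b) ≤ ρ * (2 * R) := mul_le_mul_of_nonneg_left hab2 hρ0
        _ = 10 * R ^ 2 * Real.exp (-R / 5) := by rw [hρdef]; ring
    have q2 : l * ε ≤ (3 * R ^ 3) * (8 * Real.exp (-R / 20)) :=
      mul_le_mul hl2 hεR hε0.le (by positivity)
    have q3 : l * ε * (a + b) ≤ (3 * R ^ 3) * (8 * Real.exp (-R / 20)) * (2 * R) :=
      mul_le_mul q2 hab2 hab0.le (by positivity)
    nlinarith [q1, q3]
  have hr : (r : ℝ) ≤ 6 * R ^ 4 + 1 := by
    have haR : a ≤ 2 * R := by linarith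
    have : l * a ≤ (3 * R ^ 3) * (2 * R) := mul_le_mul hl2 haR ha0.le (by positivity)
    nlinarith
  have hr0 : (0 : ℝ) ≤ r := Nat.cast_nonneg r
  have hlast : K * r * Real.exp (-b) ≤ K * (6 * R ^ 4 + 1) * Real.exp (-R / 80) := by
    have e1 : Real.exp (-b) ≤ Real.exp (-R / 80) := Real.exp_le_exp.2 (by linarith)
    exact mul_le_mul (mul_le_mul_of_nonneg_left hr hK.le) e1 (Real.exp_pos _).le (by positivity)
  have hexp : Real.exp (-K * ((r : ℝ) + s + 1) * (a + 1)) < Real.exp (-R / 100) := by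
    linarith
  have hexp2 := Real.exp_lt_exp.1 hexp
  have hrs : (r : ℝ) + s + 1 ≤ 6 * (l * a) := by
    have e1 : l ≤ 25 / 24 * (l * a) := by nlinarith
    nlinarith
  have : K * ((r : ℝ) + s + 1) * (a + 1) ≤ K * (6 * (l * a)) * (a + 1) :=
    mul_le_mul_of_nonneg_right (mul_le_mul_of_nonneg_left hrs hK.le) (by linarith)
  rw [div_le_iff₀ (by positivity)]
  nlinarith

/-- from the core to the final inequality -/
private theorem fin_core {K : ℝ} (hK : 0 < K) {R a b l N1 N2 : ℝ} (hR : 1 ≤ R)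
    (ha : 24 / 25 ≤ a) (hb : R / 80 ≤ b) (hl : 1 / 2 ≤ l)
    (h : R / (600 * K) ≤ l * a * (a + 1))
    (h1 : 4 / 5 * (l * a) ≤ N1) (h2 : 4 / 5 * (l * b) ≤ N2) :
    2 * l / (N1 * N2) ≤ (640 + 384000 * K) * R ^ (-(3 / 2) : ℝ) := by
  have hR0 : 0 < R := by linarith
  have hl0 : 0 < l := by linarith
  have ha0 : 0 < a := by linarith
  have hb0 : 0 < b := by
    have : 0 < R / 80 := by positivity
    linarith
  set q := Real.sqrt R with hq
  have hq2 : q * q = R := Real.mul_self_sqrt hR0.le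
  have hq1 : 1 ≤ q := by
    rw [hq]; exact Real.one_le_sqrt.2 hR
  have hq0 : 0 < q := by linarith
  have hpow : R ^ (-(3 / 2) : ℝ) = 1 / (R * q) := by
    rw [Real.rpow_neg hR0.le, one_div]
    congr 1
    rw [hq, Real.sqrt_eq_rpow]
    nth_rewrite 2 [← Real.rpow_one R]
    rw [← Real.rpow_add hR0]
    norm_num
  have hla : q ≤ (2 + 1200 * K) * (l * a) := by
    rcases le_or_gt q a with hqa | hqa
    · have : q ≤ 2 * (l * a) := by nlinarith
      have h3 : 0 < K * (l * a) := by positivity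
      nlinarith
    · have h4 : l * a * (a + 1) ≤ l * a * (2 * q) :=
        mul_le_mul_of_nonneg_left (by linarith) (by positivity)
      have h5 : R ≤ l * a * (2 * q) * (600 * K) := by
        rw [div_le_iff₀ (by positivity)] at h
        calc R ≤ l * a * (a + 1) * (600 * K) := h
          _ ≤ _ := mul_le_mul_of_nonneg_right h4 (by positivity)
      have h6 : q * q ≤ (1200 * K * (l * a)) * q := by rw [hq2]; linarith
      have h7 : q ≤ 1200 * K * (l * a) := le_of_mul_le_mul_right h6 hq0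
      nlinarith [mul_pos hl0 ha0]
  have hN : 16 / 25 * (l * a * (l * b)) ≤ N1 * N2 := by
    have : 4 / 5 * (l * a) * (4 / 5 * (l * b)) ≤ N1 * N2 :=
      mul_le_mul h1 h2 (by positivity) (le_trans (by positivity) h1)
    linarith
  have hNpos : 0 < N1 * N2 := lt_of_lt_of_le (by positivity) hN
  rw [hpow, div_le_iff₀ hNpos]
  have hRq : R * q ≤ (160 + 96000 * K) * (l * a * b) := by
    have h8 : R * q ≤ (80 * b) * ((2 + 1200 * K) * (l * a)) :=
      mul_le_mul (by linarith) hla hq0.le (by positivity)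
    linarith
  have hRq0 : 0 < R * q := by positivity
  rw [mul_one_div, div_mul_eq_mul_div, le_div_iff₀ hRq0]
  calc 2 * l * (R * q) ≤ 2 * l * ((160 + 96000 * K) * (l * a * b)) :=
        mul_le_mul_of_nonneg_left hRq (by positivity)
    _ = (320 + 192000 * K) * (l * a * (l * b)) := by ring
    _ ≤ (640 + 384000 * K) * (16 / 25 * (l * a * (l * b))) := by
        have : 0 < l * a * (l * b) := by positivity
        have h9 : 0 < K * (l * a * (l * b)) := by positivity
        linarith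
    _ ≤ (640 + 384000 * K) * (N1 * N2) := mul_le_mul_of_nonneg_left hN (by positivity)

private theorem fa_chain (t : Nd) (k : ℕ) : fa (nd t (List.replicate k true)) = fa t := by
  induction k generalizing t with
  | zero => rfl
  | succ k ih =>
    rw [List.replicate_succ]
    show fa (nd (lc t) (List.replicate k true)) = fa t
    rw [ih, fa_lc]

private theorem fb_chain (t : Nd) (k : ℕ) : fb (nd t (List.replicate k false)) = fb t := by
  induction k generalizing t with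
  | zero => rfl
  | succ k ih =>
    rw [List.replicate_succ]
    show fb (nd (rc t) (List.replicate k false)) = fb t
    rw [ih, fb_rc]

private theorem pull_chain (k : ℕ) (N : ℤ × ℤ) :
    pull (List.replicate k true) N = (N.1, N.2 - k * N.1) := by
  induction k with
  | zero => simp [pull]
  | succ k ih =>
    rw [List.replicate_succ]
    simp only [pull, ih]
    ext
    · rfl
    · push_cast; ring

private theorem pull_chain' (k : ℕ) (N : ℤ × ℤ) :
    pull (List.replicate k false) N = (N.1 - k * N.2, N.2) := by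
  induction k with
  | zero => simp [pull]
  | succ k ih =>
    rw [List.replicate_succ]
    simp only [pull, ih]
    ext
    · push_cast; ring
    · rfl

theorem low_lemma : ∃ K : ℝ, 0 < K ∧ ∃ R0 : ℝ, ∀ R : ℝ, R0 ≤ R →
    ∀ (p₀ p : List Bool) (n : ℤ × ℤ),
    R / 40 ≤ fa (nd root p₀) + fb (nd root p₀) →
    fa (nd (nd root p₀) p) + fb (nd (nd root p₀) p) ≤ 2 * R →
    Bad (R ^ 3) (Real.exp (-R / 5)) (nd (nd root p₀) p) n →
    ∃ M : ℝ, ((pull p n).1 : ℝ) ≤ M * (fa (nd root p₀) - ep (nd root p₀)) ∧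
      ((pull p n).2 : ℝ) ≤ M * (fb (nd root p₀) - ep (nd root p₀)) ∧
      M / (((pull p n).1 : ℝ) * ((pull p n).2 : ℝ)) ≤ K * R ^ (-(3 / 2) : ℝ) := by
  obtain ⟨K, hK, hL⟩ := liou_chain
  obtain ⟨R1, hR1⟩ := small_ev K hK
  obtain ⟨R2, hR2⟩ := lam_ge
  obtain ⟨R3, hR3⟩ := pull_pos'
  refine ⟨640 + 384000 * K, by positivity, max (max R1 R2) R3, fun R hR p₀ p n hlo hhi hbad => ?_⟩
  have hR1' : R1 ≤ R := le_trans (le_trans (le_max_left _ _) (le_max_left _ _)) hR
  have hR2' : R2 ≤ R := le_trans (le_trans (le_max_right _ _) (le_max_left _ _)) hR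
  have hR3' : R3 ≤ R := le_trans (le_max_right _ _) hR
  obtain ⟨h1R, hρ, hsm⟩ := hR1 R hR1'
  have hR0 : 0 < R := by linarith
  have hW : (1 : ℝ) ≤ R ^ 3 := one_le_pow₀ h1R
  have hD0 : 0 ≤ Real.exp (-R / 5) := (Real.exp_pos _).le
  have hD1 : Real.exp (-R / 5) ≤ 1 / 2 := by
    have : Real.exp (-R / 5) ≤ 5 * R * Real.exp (-R / 5) := by nlinarith
    linarith
  set t := nd root p₀ with ht
  have hg : Good t := good_nd good_root p₀
  have ha := fa_ge hg
  have hb := fb_ge hg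
  have hε0 := ep_pos hg
  have hε1 := ep_small hg
  have hε2 := ep_le hg
  obtain ⟨-, hl3, hr1, hr2, hr3, hr4⟩ := rep h1R hD0 hD1 hW hg p n hhi hbad
  have hlam : 1 / 2 ≤ (n.1 : ℝ) / fa (nd t p) := by
    have := hR2 R hR2' (p₀ ++ p) n (by rw [nd_append]; exact hhi) (by rw [nd_append]; exact hbad)
    rw [nd_append] at this
    exact this
  set l := (n.1 : ℝ) / fa (nd t p) with hl
  set ρ := 5 * R * Real.exp (-R / 5) with hρd
  have hρ0 : 0 ≤ ρ := by positivity
  set N := pull p n with hN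
  have hl0 : 0 < l := by linarith
  have hhi2 : fa t + fb t ≤ 2 * R := le_trans (fab_le_nd hg p) hhi
  have hN1 : 4 / 5 * (l * fa t) ≤ (N.1 : ℝ) := by nlinarith
  have hN2 : 4 / 5 * (l * fb t) ≤ (N.2 : ℝ) := by nlinarith
  refine ⟨2 * l, by nlinarith, by nlinarith, ?_⟩
  rcases le_or_gt (fa t) (fb t) with hab | hab
  · obtain ⟨p₁, k, hp, hfb⟩ := chain_form p₀
    set t₀ := nd root p₁ with ht₀
    have hg0 : Good t₀ := good_nd good_root p₁
    have htt : t = nd t₀ (List.replicate k true) := by rw [ht, hp, nd_append]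
    have hfa : fa t = fa t₀ := by rw [htt, fa_chain]
    have hnd : nd t₀ (List.replicate k true ++ p) = nd t p := by rw [nd_append, ← htt]
    have hpull : pull (List.replicate k true ++ p) n = (N.1, N.2 - k * N.1) := by
      rw [pull_append, ← hN, pull_chain]
    have hpos := hR3 R hR3' t₀ hg0 (List.replicate k true ++ p) n (by rw [hnd]; exact hhi)
      (by rw [hnd]; exact hbad)
    rw [hpull] at hpos
    obtain ⟨hp1, hp2⟩ := hpos
    simp only at hp1 hp2
    obtain ⟨-, -, -, -, -, hs4⟩ := rep h1R hD0 hD1 hW hg0 (List.replicate k true ++ p) n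
      (by rw [hnd]; exact hhi) (by rw [hnd]; exact hbad)
    rw [hnd, hpull, ← hl] at hs4
    simp only at hs4
    obtain ⟨r, hr⟩ : ∃ r : ℕ, (r : ℤ) = N.1 := ⟨N.1.toNat, Int.toNat_of_nonneg hp1.le⟩
    obtain ⟨s, hs⟩ : ∃ s : ℕ, (s : ℤ) = N.2 - k * N.1 :=
      ⟨(N.2 - k * N.1).toNat, Int.toNat_of_nonneg hp2.le⟩
    have hrr : (N.1 : ℝ) = r := by rw [← hr]; simp
    have hss : ((N.2 - k * N.1 : ℤ) : ℝ) = s := by rw [← hs]; simp
    have hr1n : 1 ≤ r := by omega
    have hLL := hL t₀ hg0 k r s hr1n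
    rw [← htt, ← hfa] at hLL
    have hN2e : (N.2 : ℝ) = s + k * r := by
      rw [← hss, ← hrr]; push_cast; ring
    have hs5 : (s : ℝ) ≤ l * (fa t + 1) + ρ := by
      rw [hss] at hs4
      rw [hfa]
      have : l * fb t₀ ≤ l * (fa t₀ + 1) := mul_le_mul_of_nonneg_left hfb hl0.le
      linarith
    have := core (r := r) (s := s) (k := k) hK h1R hρ0 hρd hρ hsm ha hab hlo hhi2 hε0 hε2 hlam hl3
      hN2e (by rw [← hrr]; exact hr1) (by rw [← hrr]; exact hr2) hr3 hr4 hs5 hLL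
    exact fin_core hK h1R ha (by linarith) hlam this hN1 hN2
  · obtain ⟨p₁, k, hp, hfb⟩ := chain_form' p₀
    set t₀ := nd root p₁ with ht₀
    have hg0 : Good t₀ := good_nd good_root p₁
    have htt : t = nd t₀ (List.replicate k false) := by rw [ht, hp, nd_append]
    have hfa : fb t = fb t₀ := by rw [htt, fb_chain]
    have hnd : nd t₀ (List.replicate k false ++ p) = nd t p := by rw [nd_append, ← htt]
    have hpull : pull (List.replicate k false ++ p) n = (N.1 - k * N.2, N.2) := by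
      rw [pull_append, ← hN, pull_chain']
    have hpos := hR3 R hR3' t₀ hg0 (List.replicate k false ++ p) n (by rw [hnd]; exact hhi)
      (by rw [hnd]; exact hbad)
    rw [hpull] at hpos
    obtain ⟨hp1, hp2⟩ := hpos
    simp only at hp1 hp2
    obtain ⟨-, -, -, hs4, -, -⟩ := rep h1R hD0 hD1 hW hg0 (List.replicate k false ++ p) n
      (by rw [hnd]; exact hhi) (by rw [hnd]; exact hbad)
    rw [hnd, hpull, ← hl] at hs4
    simp only at hs4
    obtain ⟨r, hr⟩ : ∃ r : ℕ, (r : ℤ) = N.2 := ⟨N.2.toNat, Int.toNat_of_nonneg hp2.le⟩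
    obtain ⟨s, hs⟩ : ∃ s : ℕ, (s : ℤ) = N.1 - k * N.2 :=
      ⟨(N.1 - k * N.2).toNat, Int.toNat_of_nonneg hp1.le⟩
    have hrr : (N.2 : ℝ) = r := by rw [← hr]; simp
    have hss : ((N.1 - k * N.2 : ℤ) : ℝ) = s := by rw [← hs]; simp
    have hr1n : 1 ≤ r := by omega
    have hsw : nd (sw t₀) (List.replicate k true) = sw t := by
      rw [nd_sw, htt]; congr 2; simp
    have hLL := hL (sw t₀) (good_sw hg0) k r s hr1n
    rw [hsw, fb_sw, fa_sw, ← hfa] at hLL
    have hN2e : (N.1 : ℝ) = s + k * r := by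
      rw [← hss, ← hrr]; push_cast; ring
    have hs5 : (s : ℝ) ≤ l * (fb t + 1) + ρ := by
      rw [hss] at hs4
      rw [hfa]
      have : l * fa t₀ ≤ l * (fb t₀ + 1) := mul_le_mul_of_nonneg_left hfb hl0.le
      linarith
    have hε3 : ep t ≤ 8 * Real.exp (-2 * (fb t + fa t)) := by rw [add_comm (fb t)]; exact hε2
    have := core (r := r) (s := s) (k := k) hK h1R hρ0 hρd hρ hsm hb hab.le (by linarith)
      (by linarith) hε0 hε3 hlam hl3
      hN2e (by rw [← hrr]; exact hr3) (by rw [← hrr]; exact hr4) hr1 hr2 hs5 hLL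
    have h2 := fin_core hK h1R hb (by linarith) hlam this hN2 hN1
    rw [mul_comm (N.1 : ℝ)]
    exact h2

end Pool.Agent.Lib.MP_94ab62_nt
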