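import Pool.Agent.Lib.MP_94ab62_nt.Stab

/-!
# NUML: bounds for the number of leaves

For a cut `τ` at level `R` below a good `t`, every internal node `s` has `fc s ≤ fa s + fb s < R`, so
`nl τ ≤ 1 + tsm (phiP R) (dep τ) t ≤ 1 + tsm (phiN R) _ t ≤ 1 + T (91/100) (91/100) R ≤ 1 + 1.21 R² ≤ 3 R²`.
Same for `cc T τ t` (nodes with `fa + fb < T` only).  `cut_exists`: induction on a fuel bounding
`(R - fa t - fb t)/(9/10)`.
-/

set_option autoImplicit false

namespace Pool.Agent.Lib.MP_94ab62_nt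

theorem numL_phiP_nonneg (y : ℝ) (z : ℕ) : 0 ≤ phiP y z := by
  unfold phiP stp
  split_ifs <;> norm_num

theorem numL_phiP_one {S : ℝ} {t : Nd} (h : Good t) (ht : fa t + fb t < S) :
    phiP S t.2.2 = 1 := by
  have e0 := ep_pos h
  have e1 := fc_eq t
  have e2 : F t.2.2 ≤ S := by
    show fc t ≤ S
    linarith
  unfold phiP stp
  rw [if_pos e2]

theorem numL_tsm_nonneg (S : ℝ) (n : ℕ) : ∀ t : Nd, 0 ≤ tsm (phiP S) n t := by
  induction n with
  | zero => intro t; exact le_refl _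
  | succ n ih =>
    intro t
    simp only [tsm]
    have := numL_phiP_nonneg S t.2.2
    have := ih (lc t)
    have := ih (rc t)
    linarith

theorem numL_tsm_le {S : ℝ} (hS : 0 ≤ S) (n : ℕ) : ∀ {t : Nd}, Good t →
    tsm (phiP S) n t ≤ tsm (phiN S) n t := by
  induction n with
  | zero => intro t _; exact le_refl _
  | succ n ih =>
    intro t h
    simp only [tsm]
    have h0 : 1 ≤ t.2.2 := by
      obtain ⟨h1, h2, h3, h4, h5, h6⟩ := h
      omega
    have h1 := phiP_le_phiN hS h0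
    have h2 := ih (good_lc h)
    have h3 := ih (good_rc h)
    linarith

theorem numL_tsm_bound {S : ℝ} (hS : 1 ≤ S) (n : ℕ) {t : Nd} (h : Good t) :
    1 + tsm (phiP S) n t ≤ 3 * S ^ 2 := by
  have g1 := fa_ge h
  have g2 := fb_ge h
  have g3 := ep_small h
  have h1 := numL_tsm_le (by linarith : (0 : ℝ) ≤ S) n h
  have h2 := tsm_le_T (y := S) (by linarith) h (a' := 9 / 10) (b' := 9 / 10) (by norm_num)
    (by norm_num) (by linarith) (by linarith) n
  have h3 := T_le (a := 9 / 10) (b := 9 / 10) (y := S) (by norm_num) (by norm_num) (by linarith)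
  have h4 : S ^ 2 / (9 / 10 * (9 / 10)) ≤ 3 / 2 * S ^ 2 := by
    rw [div_le_iff₀ (by norm_num)]
    nlinarith [sq_nonneg S]
  nlinarith

theorem numL_nl_aux {R : ℝ} (τ : Cut) : ∀ {t : Nd}, Good t → IsCut R τ t → ∀ n : ℕ, dep τ ≤ n →
    (nl τ : ℝ) ≤ 1 + tsm (phiP R) n t := by
  induction τ with
  | leaf =>
    intro t _ _ n _
    have := numL_tsm_nonneg R n t
    simp only [nl]
    push_cast
    linarith
  | node l r ihl ihr =>
    intro t h hc n hn
    obtain ⟨m, rfl⟩ : ∃ m, n = m + 1 := ⟨n - 1, by simp only [dep] at hn; omega⟩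
    simp only [dep] at hn
    have h1 := ihl (good_lc h) hc.2.1 m (by omega)
    have h2 := ihr (good_rc h) hc.2.2 m (by omega)
    have h3 := numL_phiP_one h hc.1
    simp only [nl, tsm]
    push_cast
    linarith

theorem numL_cc_aux {S : ℝ} (τ : Cut) : ∀ {t : Nd}, Good t → ∀ n : ℕ, dep τ ≤ n →
    (cc S τ t : ℝ) ≤ 1 + tsm (phiP S) n t := by
  induction τ with
  | leaf =>
    intro t _ n _
    have := numL_tsm_nonneg S n t
    simp only [cc]
    push_cast
    linarith
  | node l r ihl ihr =>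
    intro t h n hn
    by_cases hS : S ≤ fa t + fb t
    · have := numL_tsm_nonneg S n t
      simp only [cc]
      rw [if_pos hS]
      push_cast
      linarith
    · obtain ⟨m, rfl⟩ : ∃ m, n = m + 1 := ⟨n - 1, by simp only [dep] at hn; omega⟩
      simp only [dep] at hn
      have h1 := ihl (good_lc h) m (by omega)
      have h2 := ihr (good_rc h) m (by omega)
      have h3 := numL_phiP_one h (not_le.1 hS)
      simp only [cc, tsm]
      rw [if_neg hS]
      push_cast
      linarith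

theorem nl_le {R : ℝ} (hR : 1 ≤ R) {t : Nd} (h : Good t) {τ : Cut} (hτ : IsCut R τ t) :
    (nl τ : ℝ) ≤ 3 * R ^ 2 :=
  (numL_nl_aux τ h hτ (dep τ) le_rfl).trans (numL_tsm_bound hR _ h)

theorem cc_le {S : ℝ} (hS : 1 ≤ S) {t : Nd} (h : Good t) (τ : Cut) :
    (cc S τ t : ℝ) ≤ 3 * S ^ 2 :=
  (numL_cc_aux τ h (dep τ) le_rfl).trans (numL_tsm_bound hS _ h)

theorem numL_cut_aux (R : ℝ) (n : ℕ) : ∀ {t : Nd}, Good t → R ≤ fa t + fb t + 9 / 10 * n →
    ∃ τ, IsCut R τ t := by
  induction n with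
  | zero =>
    intro t _ hR
    refine ⟨.leaf, ?_⟩
    simp only [IsCut]
    push_cast at hR
    linarith
  | succ n ih =>
    intro t h hR
    by_cases h1 : R ≤ fa t + fb t
    · exact ⟨.leaf, h1⟩
    · have g1 := fa_ge h
      have g2 := fb_ge h
      have g3 := ep_small h
      have g4 := fc_eq t
      push_cast at hR
      obtain ⟨l, hl⟩ := ih (good_lc h) (by rw [fa_lc, fb_lc]; linarith)
      obtain ⟨r, hr⟩ := ih (good_rc h) (by rw [fa_rc, fb_rc]; linarith)
      exact ⟨.node l r, not_le.1 h1, hl, hr⟩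

theorem cut_exists (R : ℝ) {t : Nd} (h : Good t) : ∃ τ, IsCut R τ t := by
  obtain ⟨n, hn⟩ := exists_nat_ge ((R - fa t - fb t) / (9 / 10))
  apply numL_cut_aux R n h
  rw [div_le_iff₀ (by norm_num)] at hn
  linarith

end Pool.Agent.Lib.MP_94ab62_nt
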