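import Pool.Agent.Lib.MP_94ab62_nt.Rep

/-!
# SPLIT: near the top of the tree two bad descendants in different subtrees have different covectors

Suppose equal: `(N₁, N₂)` the common value at `t`; at `lc t` the value is `(N₁, N₁+N₂)`
(it is `pull p₁ n₁`, see the definition of `pull`), at `rc t` it is `(N₁+N₂, N₂)`.  By `rep` at `lc t` and `rc t`
(`ρ = 5RD`): `λ₁(a - 2ε_L) - ρ ≤ N₁`, `N₁+N₂ ≤ λ₁ c + ρ`, `λ₂(b - 2ε_R) - ρ ≤ N₂`, `N₁+N₂ ≤ λ₂ c + ρ`.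
With `s = N₁+N₂ ≥ 2`: `N₁ ≥ (s-ρ)(a-2ε_L)/c - ρ`, `N₂ ≥ (s-ρ)(b-2ε_R)/c - ρ`; add, with `a+b = c+ε` and
`2(ε_L+ε_R) ≤ ε/2`: `s ≥ (s-ρ)(1 + ε/(2c)) - 2ρ`, so `ε/c ≤ 4ρ` roughly; but `ε ≥ e^(-2(a+b)) ≥ e^(-R/20)`,
`c ≤ R`, `ρ = 5R e^(-R/5)`: contradiction for large `R`.
-/

set_option autoImplicit false

namespace Pool.Agent.Lib.MP_94ab62_nt

private theorem split_real {a b c e eL eR l1 l2 ρ s N1 N2 : ℝ} (hc : 0 < c)
    (hs : N1 + N2 = s) (hs2 : 2 ≤ s) (hρ1 : ρ ≤ 1)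
    (hce : c = a + b - e) (he : 0 < e) (hLR : eL + eR ≤ e / 4)
    (haL : 2 * eL ≤ a) (hbR : 2 * eR ≤ b)
    (h1 : l1 * (a - 2 * eL) - ρ ≤ N1) (h2 : s ≤ l1 * c + ρ)
    (h3 : l2 * (b - 2 * eR) - ρ ≤ N2) (h4 : s ≤ l2 * c + ρ) : e ≤ 6 * c * ρ := by
  have k1 : (s - ρ) * (a - 2 * eL) ≤ (N1 + ρ) * c := by
    have : (s - ρ) * (a - 2 * eL) ≤ l1 * c * (a - 2 * eL) :=
      mul_le_mul_of_nonneg_right (by linarith) (by linarith)
    have h5 : l1 * (a - 2 * eL) * c ≤ (N1 + ρ) * c :=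
      mul_le_mul_of_nonneg_right (by linarith) hc.le
    nlinarith
  have k2 : (s - ρ) * (b - 2 * eR) ≤ (N2 + ρ) * c := by
    have : (s - ρ) * (b - 2 * eR) ≤ l2 * c * (b - 2 * eR) :=
      mul_le_mul_of_nonneg_right (by linarith) (by linarith)
    have h5 : l2 * (b - 2 * eR) * c ≤ (N2 + ρ) * c :=
      mul_le_mul_of_nonneg_right (by linarith) hc.le
    nlinarith
  have k3 : (s - ρ) * (a + b - 2 * (eL + eR)) ≤ (s + 2 * ρ) * c := by nlinarith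
  have k4 : c + e / 2 ≤ a + b - 2 * (eL + eR) := by linarith
  have k5 : (s - ρ) * (c + e / 2) ≤ (s + 2 * ρ) * c :=
    (mul_le_mul_of_nonneg_left k4 (by linarith)).trans k3
  have k6 : (s - ρ) * (e / 2) ≤ 3 * ρ * c := by nlinarith
  have k7 : 1 * (e / 2) ≤ (s - ρ) * (e / 2) := mul_le_mul_of_nonneg_right (by linarith) (by linarith)
  linarith

theorem split_lemma : ∃ R0 : ℝ, ∀ R : ℝ, R0 ≤ R → ∀ (t : Nd), Good t →
    fa t + fb t ≤ R / 40 →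
    ∀ (p₁ p₂ : List Bool) (n₁ n₂ : ℤ × ℤ),
    fa (nd (lc t) p₁) + fb (nd (lc t) p₁) ≤ 2 * R →
    fa (nd (rc t) p₂) + fb (nd (rc t) p₂) ≤ 2 * R →
    Bad (R ^ 3) (Real.exp (-R / 5)) (nd (lc t) p₁) n₁ →
    Bad (R ^ 3) (Real.exp (-R / 5)) (nd (rc t) p₂) n₂ →
    pull (true :: p₁) n₁ ≠ pull (false :: p₂) n₂ := by
  obtain ⟨R1, hR1⟩ := pull_pos'
  refine ⟨max R1 (10 ^ 6), fun R hR t ht hab p₁ p₂ n₁ n₂ hJ₁ hJ₂ hb₁ hb₂ heq => ?_⟩
  have hRa : R1 ≤ R := (le_max_left _ _).trans hR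
  have hRb : (10 : ℝ) ^ 6 ≤ R := (le_max_right _ _).trans hR
  have hRc : (10 : ℝ) ^ 6 = 1000000 := by norm_num
  have hR0 : 0 < R := by linarith
  have hDpos : 0 < Real.exp (-R / 5) := Real.exp_pos _
  -- `exp (R/20)` is large
  have hx : Real.exp (-R / 5) = Real.exp (-(R / 20)) * Real.exp (-(3 * R / 20)) := by
    rw [← Real.exp_add]; congr 1; ring
  have hy : Real.exp (-(3 * R / 20)) ≤ 48000 / (27 * R ^ 3) := by
    have h := Real.pow_div_factorial_le_exp (3 * R / 20) (by positivity) 3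
    have h3 : (0:ℝ) < (3 * R / 20) ^ 3 / (Nat.factorial 3 : ℝ) := by positivity
    have h4 : Real.exp (-(3 * R / 20)) ≤ 1 / ((3 * R / 20) ^ 3 / (Nat.factorial 3 : ℝ)) := by
      rw [Real.exp_neg, ← one_div]; exact one_div_le_one_div_of_le h3 h
    refine h4.trans (le_of_eq ?_)
    have h6 : (Nat.factorial 3 : ℝ) = 6 := by norm_num [Nat.factorial]
    rw [h6]
    field_simp
    norm_num
  have hz : Real.exp (-(R / 20)) ≤ 1 := Real.exp_le_one_iff.2 (by linarith)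
  have hz0 : 0 < Real.exp (-(R / 20)) := Real.exp_pos _
  have hw : R ^ 2 * Real.exp (-(3 * R / 20)) ≤ 1 / 100 := by
    have : R ^ 2 * Real.exp (-(3 * R / 20)) ≤ R ^ 2 * (48000 / (27 * R ^ 3)) :=
      mul_le_mul_of_nonneg_left hy (by positivity)
    refine this.trans ?_
    have h3 : R ^ 2 * (48000 / (27 * R ^ 3)) = 48000 / (27 * R) := by
      field_simp
    rw [h3, div_le_div_iff₀ (by positivity) (by norm_num)]
    linarith
  have hρ2 : R ^ 2 * Real.exp (-R / 5) ≤ 1 / 100 * Real.exp (-(R / 20)) := by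
    rw [hx]
    calc R ^ 2 * (Real.exp (-(R / 20)) * Real.exp (-(3 * R / 20)))
        = (R ^ 2 * Real.exp (-(3 * R / 20))) * Real.exp (-(R / 20)) := by ring
      _ ≤ 1 / 100 * Real.exp (-(R / 20)) := mul_le_mul_of_nonneg_right hw hz0.le
  have hRR : R ≤ R ^ 2 / 1000000 := by nlinarith
  have hρ1 : 5 * R * Real.exp (-R / 5) ≤ 1 / 100 := by
    have h1 : R * Real.exp (-R / 5) ≤ (R ^ 2 / 1000000) * Real.exp (-R / 5) :=
      mul_le_mul_of_nonneg_right hRR hDpos.le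
    nlinarith
  have hD : Real.exp (-R / 5) ≤ 1 / 2 := by nlinarith
  have hW : (1 : ℝ) ≤ R ^ 3 := one_le_pow₀ (by linarith)
  have htl := good_lc ht
  have htr := good_rc ht
  have q1 := rep (by linarith : (1:ℝ) ≤ R) hDpos.le hD hW htl p₁ n₁ hJ₁ hb₁
  have q2 := rep (by linarith : (1:ℝ) ≤ R) hDpos.le hD hW htr p₂ n₂ hJ₂ hb₂
  have pos1 := hR1 R hRa (lc t) htl p₁ n₁ hJ₁ hb₁
  have pos2 := hR1 R hRa (rc t) htr p₂ n₂ hJ₂ hb₂
  have ha := fa_ge ht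
  have hb := fb_ge ht
  have hc := fc_ge ht
  have he0 := ep_pos ht
  have heg := ep_ge ht
  have hes := ep_small ht
  have hsum := ep_sum ht
  have heL := ep_pos htl
  have heR := ep_pos htr
  have hce := fc_eq t
  rw [fa_lc, fb_lc] at q1
  rw [fa_rc, fb_rc] at q2
  obtain ⟨q10, q11, q12, q13, q14, q15⟩ := q1
  obtain ⟨q20, q21, q22, q23, q24, q25⟩ := q2
  have e1 : (pull p₁ n₁).1 = (pull p₂ n₂).1 - (pull p₂ n₂).2 := congrArg Prod.fst heq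
  have e2 : (pull p₁ n₁).2 - (pull p₁ n₁).1 = (pull p₂ n₂).2 := congrArg Prod.snd heq
  have e3 : (pull p₂ n₂).1 = (pull p₁ n₁).2 := by omega
  have hs : ((pull p₁ n₁).1 : ℝ) + ((pull p₂ n₂).2 : ℝ) = ((pull p₁ n₁).2 : ℝ) := by
    have : (pull p₁ n₁).1 + (pull p₂ n₂).2 = (pull p₁ n₁).2 := by omega
    exact_mod_cast this
  have hs2 : (2 : ℝ) ≤ ((pull p₁ n₁).2 : ℝ) := by
    have : 2 ≤ (pull p₁ n₁).2 := by omega
    exact_mod_cast this
  have key := split_real (a := fa t) (b := fb t) (c := fc t) (e := ep t) (eL := ep (lc t))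
    (eR := ep (rc t)) (l1 := (n₁.1 : ℝ) / fa (nd (lc t) p₁))
    (l2 := (n₂.1 : ℝ) / fa (nd (rc t) p₂)) (ρ := 5 * R * Real.exp (-R / 5)) (by linarith) hs hs2
    (by linarith) hce he0 hsum (by linarith) (by linarith) q12 q15 q24 (by rw [← e3]; exact q23)
  -- contradiction
  have hexp : Real.exp (-(R / 20)) ≤ ep t := by
    refine le_trans (Real.exp_le_exp.2 ?_) heg
    linarith
  have hcR : fc t ≤ R / 40 := by linarith
  have h1 : 6 * fc t * (5 * R * Real.exp (-R / 5)) ≤ 6 * (R / 40) * (5 * R * Real.exp (-R / 5)) :=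
    mul_le_mul_of_nonneg_right (by linarith) (by positivity)
  nlinarith

end Pool.Agent.Lib.MP_94ab62_nt
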