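import Pool.Agent.Lib.MP_94ab62_nt.Det
import Pool.Agent.Lib.MP_94ab62_nt.Split
import Pool.Agent.Lib.MP_94ab62_nt.Low
import Pool.Agent.Lib.MP_94ab62_nt.Group
import Pool.Agent.Lib.MP_94ab62_nt.NumL

/-!
# CLAIM: the sum of the errors over all leaves

Call a leaf path `p` of `τ` below `t = nd root p₀` bad if the second alternative holds for it (with some `n`).
Step 1 (`claim_low`): if `8 log R ≤ fa t + fb t`, then `lsum E τ t ≤ nl τ * G0 + Y K R^(-3/2)`.
Induction on `τ` (generalizing `p₀`).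
* If no leaf is bad: `lsum E τ t ≤ nl τ * G0` directly.
* If `R/40 ≤ fa t + fb t` and some leaf `p*` is bad with `n*`: put `N = pull p* n*`; by `det_lemma` every bad leaf `p`, `n`
  has `pull p n = N`, so `n = push p N` (`push_pull`) and `E (nd t p) ≤ G0 + Y/(fa (nd t p) (push p N).2)`; for the other leaves this
  holds as well (`push_pos`).  Apply `group_lemma` with `M` from `low_lemma`.
* If `fa t + fb t < R/40`, then `τ = node l r` (leaves have `fa + fb ≥ R`), and by `det_lemma` and `split_lemma` not both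
  subtrees contain a bad leaf; apply the induction hypothesis to one child and no-bad-leaf to the other.
Step 2 (`claim_top`): for arbitrary `t`: `lsum E τ t ≤ nl τ * G0 + cc (8 log R) τ t * (Y K R^(-3/2))`, by induction on `τ`
(if a leaf has `fa + fb < 8 log R` this contradicts `R ≤ fa + fb` for large `R`).
Step 3: `nl_le`, `cc_le`, `(log R)² ≤ C R^(1/4)`.
-/

set_option autoImplicit false

namespace Pool.Agent.Lib.MP_94ab62_nt

private theorem no_bad (E : Nd → ℝ) (G0 : ℝ) (τ : Cut) (t : Nd)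
    (h : ∀ p : List Bool, LP τ p → E (nd t p) ≤ G0) : lsum E τ t ≤ nl τ * G0 := by
  induction τ generalizing t with
  | leaf =>
    have : E t ≤ G0 := h [] trivial
    simpa [lsum, nl] using this
  | node l r ihl ihr =>
    have h1 := ihl (lc t) (fun p hp => h (true :: p) hp)
    have h2 := ihr (rc t) (fun p hp => h (false :: p) hp)
    simp only [lsum, nl, Nat.cast_add]
    linarith

/-- the alternative at the leaves of `τ` below `t` -/
private def Alt (R : ℝ) (E : Nd → ℝ) (G0 Y : ℝ) (τ : Cut) (t : Nd) : Prop :=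
  ∀ p : List Bool, LP τ p → E (nd t p) ≤ G0 ∨
    ∃ n : ℤ × ℤ, Bad (R ^ 3) (Real.exp (-R / 5)) (nd t p) n ∧
      E (nd t p) ≤ G0 + Y / (fa (nd t p) * n.2)

/-- sizes of leaves -/
private def Siz (R : ℝ) (τ : Cut) (t : Nd) : Prop :=
  ∀ p : List Bool, LP τ p → R ≤ fa (nd t p) + fb (nd t p) ∧ fa (nd t p) + fb (nd t p) ≤ 2 * R

private theorem high_case : ∃ K : ℝ, 0 < K ∧ ∃ R0 : ℝ, ∀ R : ℝ, R0 ≤ R → ∀ (τ : Cut)
    (E : Nd → ℝ) (G0 Y : ℝ), 0 ≤ G0 → 0 ≤ Y → ∀ p₀ : List Bool,
    8 * Real.log R ≤ fa (nd root p₀) + fb (nd root p₀) →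
    R / 40 ≤ fa (nd root p₀) + fb (nd root p₀) →
    Siz R τ (nd root p₀) → Alt R E G0 Y τ (nd root p₀) →
    lsum E τ (nd root p₀) ≤ nl τ * G0 + Y * (K * R ^ (-(3 / 2) : ℝ)) := by
  obtain ⟨K, hK, R1, hlow⟩ := low_lemma
  obtain ⟨R2, hdet⟩ := det_lemma
  obtain ⟨R4, hpos⟩ := pull_pos'
  refine ⟨K, hK, max (max R1 R2) (max R4 1), ?_⟩
  intro R hR τ E G0 Y hG hY p₀ hlog h40 hsiz halt
  have hR1 : R1 ≤ R := le_trans (le_trans (le_max_left _ _) (le_max_left _ _)) hR
  have hR2 : R2 ≤ R := le_trans (le_trans (le_max_right _ _) (le_max_left _ _)) hR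
  have hR4 : R4 ≤ R := le_trans (le_trans (le_max_left _ _) (le_max_right _ _)) hR
  have hR5 : 1 ≤ R := le_trans (le_trans (le_max_right _ _) (le_max_right _ _)) hR
  have hpw : 0 ≤ Y * (K * R ^ (-(3 / 2) : ℝ)) := by positivity
  have hgood : Good (nd root p₀) := good_nd good_root p₀
  by_cases hb : ∃ p n, LP τ p ∧ Bad (R ^ 3) (Real.exp (-R / 5)) (nd (nd root p₀) p) n
  · obtain ⟨ps, ns, hps, hns⟩ := hb
    obtain ⟨hN1, hN2⟩ := hpos R hR4 (nd root p₀) hgood ps ns (hsiz ps hps).2 hns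
    obtain ⟨M, hM1, hM2, hM3⟩ := hlow R hR1 p₀ ps ns h40 (hsiz ps hps).2 hns
    have hN1' : (0 : ℝ) < ((pull ps ns).1 : ℝ) := by exact_mod_cast hN1
    have hN2' : (0 : ℝ) < ((pull ps ns).2 : ℝ) := by exact_mod_cast hN2
    have key : ∀ p : List Bool, LP τ p → E (nd (nd root p₀) p) ≤
        G0 + Y / (fa (nd (nd root p₀) p) *
          (push p (((pull ps ns).1 : ℝ), ((pull ps ns).2 : ℝ))).2) := by
      intro p hp
      have hfa : 0 < fa (nd (nd root p₀) p) := by
        have := fa_ge (good_nd hgood p)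
        linarith
      have hpp := push_pos p (m := (((pull ps ns).1 : ℝ), ((pull ps ns).2 : ℝ))) hN1' hN2'
      rcases halt p hp with h | ⟨n, hn, h⟩
      · have : 0 ≤ Y / (fa (nd (nd root p₀) p) *
          (push p (((pull ps ns).1 : ℝ), ((pull ps ns).2 : ℝ))).2) :=
          div_nonneg hY (mul_nonneg hfa.le hpp.2.le)
        linarith
      · have h1 := hdet R hR2 (nd root p₀) hgood hlog p ps n ns (hsiz p hp).2 (hsiz ps hps).2 hn hns
        have h2 : n = push p (pull ps ns) := by rw [← h1, push_pull]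
        have h3 := (push_cast p (pull ps ns)).2
        rw [← h3, ← h2]
        exact h
    have hfin := group_lemma E hG hY M τ (nd root p₀) hgood
      (((pull ps ns).1 : ℝ), ((pull ps ns).2 : ℝ)) hN1' hN2' hM1 hM2 key
    refine hfin.trans ?_
    have h5 : Y * M / (((pull ps ns).1 : ℝ) * ((pull ps ns).2 : ℝ)) =
        Y * (M / (((pull ps ns).1 : ℝ) * ((pull ps ns).2 : ℝ))) := by ring
    simp only
    rw [h5]
    have := mul_le_mul_of_nonneg_left hM3 hY
    linarith
  · have : lsum E τ (nd root p₀) ≤ nl τ * G0 := by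
      apply no_bad
      intro p hp
      rcases halt p hp with h | ⟨n, hn, h⟩
      · exact h
      · exact absurd ⟨p, n, hp, hn⟩ hb
    linarith

private theorem claim_low : ∃ K : ℝ, 0 < K ∧ ∃ R0 : ℝ, ∀ R : ℝ, R0 ≤ R → ∀ (τ : Cut)
    (E : Nd → ℝ) (G0 Y : ℝ), 0 ≤ G0 → 0 ≤ Y → ∀ p₀ : List Bool,
    8 * Real.log R ≤ fa (nd root p₀) + fb (nd root p₀) →
    Siz R τ (nd root p₀) → Alt R E G0 Y τ (nd root p₀) →
    lsum E τ (nd root p₀) ≤ nl τ * G0 + Y * (K * R ^ (-(3 / 2) : ℝ)) := by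
  obtain ⟨K, hK, R1, hhigh⟩ := high_case
  obtain ⟨R2, hdet⟩ := det_lemma
  obtain ⟨R3, hspl⟩ := split_lemma
  refine ⟨K, hK, max (max R1 R2) (max R3 1), ?_⟩
  intro R hR τ E G0 Y hG hY
  have hR1 : R1 ≤ R := le_trans (le_trans (le_max_left _ _) (le_max_left _ _)) hR
  have hR2 : R2 ≤ R := le_trans (le_trans (le_max_right _ _) (le_max_left _ _)) hR
  have hR3 : R3 ≤ R := le_trans (le_trans (le_max_left _ _) (le_max_right _ _)) hR
  have hR5 : 1 ≤ R := le_trans (le_trans (le_max_right _ _) (le_max_right _ _)) hR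
  have hpw : 0 ≤ Y * (K * R ^ (-(3 / 2) : ℝ)) := by positivity
  induction τ with
  | leaf =>
    intro p₀ hlog hsiz halt
    refine hhigh R hR1 Cut.leaf E G0 Y hG hY p₀ hlog ?_ hsiz halt
    have h1 : R ≤ fa (nd root p₀) + fb (nd root p₀) := (hsiz [] trivial).1
    linarith
  | node l r ihl ihr =>
    intro p₀ hlog hsiz halt
    by_cases h40 : R / 40 ≤ fa (nd root p₀) + fb (nd root p₀)
    · exact hhigh R hR1 _ E G0 Y hG hY p₀ hlog h40 hsiz halt
    · have hgood : Good (nd root p₀) := good_nd good_root p₀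
      have hL : nd root (p₀ ++ [true]) = lc (nd root p₀) := by rw [nd_append]; rfl
      have hRr : nd root (p₀ ++ [false]) = rc (nd root p₀) := by rw [nd_append]; rfl
      have hsl : Siz R l (lc (nd root p₀)) := fun p hp => hsiz (true :: p) hp
      have hsr : Siz R r (rc (nd root p₀)) := fun p hp => hsiz (false :: p) hp
      have hal : Alt R E G0 Y l (lc (nd root p₀)) := fun p hp => halt (true :: p) hp
      have har : Alt R E G0 Y r (rc (nd root p₀)) := fun p hp => halt (false :: p) hp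
      have hgl : 8 * Real.log R ≤ fa (lc (nd root p₀)) + fb (lc (nd root p₀)) :=
        hlog.trans (fab_le_nd hgood [true])
      have hgr : 8 * Real.log R ≤ fa (rc (nd root p₀)) + fb (rc (nd root p₀)) :=
        hlog.trans (fab_le_nd hgood [false])
      simp only [lsum, nl, Nat.cast_add]
      by_cases hbl : ∃ p n, LP l p ∧
          Bad (R ^ 3) (Real.exp (-R / 5)) (nd (lc (nd root p₀)) p) n
      · have hnr : lsum E r (rc (nd root p₀)) ≤ nl r * G0 := by
          apply no_bad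
          intro p hp
          rcases har p hp with h | ⟨n, hn, h⟩
          · exact h
          · exfalso
            obtain ⟨ps, ns, hps, hns⟩ := hbl
            refine hspl R hR3 (nd root p₀) hgood (not_le.mp h40).le ps p ns n (hsl ps hps).2
              (hsr p hp).2 hns hn ?_
            exact hdet R hR2 (nd root p₀) hgood hlog (true :: ps) (false :: p) ns n
              (hsl ps hps).2 (hsr p hp).2 hns hn
        have h1 := ihl (p₀ ++ [true])
        rw [hL] at h1
        have h2 := h1 hgl hsl hal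
        linarith
      · have hnl : lsum E l (lc (nd root p₀)) ≤ nl l * G0 := by
          apply no_bad
          intro p hp
          rcases hal p hp with h | ⟨n, hn, h⟩
          · exact h
          · exact absurd ⟨p, n, hp, hn⟩ hbl
        have h1 := ihr (p₀ ++ [false])
        rw [hRr] at h1
        have h2 := h1 hgr hsr har
        linarith

private theorem log_le_self {R : ℝ} (hR : 256 ≤ R) : 8 * Real.log R ≤ R := by
  have h0 : 0 < R := by linarith
  have h1 : Real.log R = 2 * Real.log (Real.sqrt R) := by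
    rw [Real.log_sqrt h0.le]; ring
  have h2 : Real.log (Real.sqrt R) ≤ Real.sqrt R := by
    have := Real.log_le_sub_one_of_pos (Real.sqrt_pos.mpr h0)
    linarith
  have h3 : 16 ≤ Real.sqrt R := by
    rw [show (16 : ℝ) = Real.sqrt (16 ^ 2) by rw [Real.sqrt_sq (by norm_num)]]
    exact Real.sqrt_le_sqrt (by linarith)
  have h4 : Real.sqrt R * Real.sqrt R = R := Real.mul_self_sqrt h0.le
  nlinarith

private theorem claim_top : ∃ K : ℝ, 0 < K ∧ ∃ R0 : ℝ, ∀ R : ℝ, R0 ≤ R → ∀ (τ : Cut)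
    (E : Nd → ℝ) (G0 Y : ℝ), 0 ≤ G0 → 0 ≤ Y → ∀ p₀ : List Bool,
    Siz R τ (nd root p₀) → Alt R E G0 Y τ (nd root p₀) →
    lsum E τ (nd root p₀) ≤ nl τ * G0 +
      cc (8 * Real.log R) τ (nd root p₀) * (Y * (K * R ^ (-(3 / 2) : ℝ))) := by
  obtain ⟨K, hK, R1, hlow⟩ := claim_low
  refine ⟨K, hK, max R1 256, ?_⟩
  intro R hR τ E G0 Y hG hY
  have hR1 : R1 ≤ R := le_trans (le_max_left _ _) hR
  have hR2 : 256 ≤ R := le_trans (le_max_right _ _) hR
  induction τ with
  | leaf =>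
    intro p₀ hsiz halt
    have h1 : R ≤ fa (nd root p₀) + fb (nd root p₀) := (hsiz [] trivial).1
    have h2 := log_le_self hR2
    have h3 := hlow R hR1 Cut.leaf E G0 Y hG hY p₀ (h2.trans h1) hsiz halt
    have h4 : cc (8 * Real.log R) Cut.leaf (nd root p₀) = 1 := rfl
    rw [h4, Nat.cast_one, one_mul]
    exact h3
  | node l r ihl ihr =>
    intro p₀ hsiz halt
    by_cases h8 : 8 * Real.log R ≤ fa (nd root p₀) + fb (nd root p₀)
    · have h3 := hlow R hR1 _ E G0 Y hG hY p₀ h8 hsiz halt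
      have h4 : cc (8 * Real.log R) (Cut.node l r) (nd root p₀) = 1 := by
        simp only [cc]
        rw [if_pos h8]
      rw [h4, Nat.cast_one, one_mul]
      exact h3
    · have hL : nd root (p₀ ++ [true]) = lc (nd root p₀) := by rw [nd_append]; rfl
      have hRr : nd root (p₀ ++ [false]) = rc (nd root p₀) := by rw [nd_append]; rfl
      have h4 : cc (8 * Real.log R) (Cut.node l r) (nd root p₀) =
          cc (8 * Real.log R) l (lc (nd root p₀)) + cc (8 * Real.log R) r (rc (nd root p₀)) := by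
        simp only [cc]
        rw [if_neg h8]
      have h1 := ihl (p₀ ++ [true])
      have h2 := ihr (p₀ ++ [false])
      rw [hL] at h1
      rw [hRr] at h2
      have h1' := h1 (fun p hp => hsiz (true :: p) hp) (fun p hp => halt (true :: p) hp)
      have h2' := h2 (fun p hp => hsiz (false :: p) hp) (fun p hp => halt (false :: p) hp)
      rw [h4]
      simp only [lsum, nl, Nat.cast_add]
      linarith

theorem claim_main : ∃ K : ℝ, 0 < K ∧ ∃ R0 : ℝ, ∀ R : ℝ, R0 ≤ R → ∀ τ : Cut, IsCut R τ root →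
    ∀ (E : Nd → ℝ) (G0 Y : ℝ), 0 ≤ G0 → 0 ≤ Y →
    (∀ p : List Bool, LP τ p → E (nd root p) ≤ G0 ∨
      ∃ n : ℤ × ℤ, Bad (R ^ 3) (Real.exp (-R / 5)) (nd root p) n ∧
        E (nd root p) ≤ G0 + Y / (fa (nd root p) * n.2)) →
    lsum E τ root ≤ K * R ^ 2 * G0 + K * Y * R ^ (-(5 / 4) : ℝ) := by
  obtain ⟨K, hK, R1, htop⟩ := claim_top
  refine ⟨3 + 12288 * K, by positivity, max R1 256, ?_⟩
  intro R hR τ hτ E G0 Y hG hY halt
  have hR1 : R1 ≤ R := le_trans (le_max_left _ _) hR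
  have hR2 : 256 ≤ R := le_trans (le_max_right _ _) hR
  have hR0 : 0 < R := by linarith
  have hroot : fa root + fb root < R := by
    have h1 : fa root = F 1 := rfl
    have h2 : fb root = F 2 := rfl
    have h3 := F_one.2
    have h4 := F_two.2
    rw [h1, h2]
    linarith
  have hsiz : Siz R τ (nd root []) := fun p hp => leaf_size good_root hτ hroot hp
  have h1 := htop R hR1 τ E G0 Y hG hY [] hsiz halt
  have h1' : lsum E τ root ≤ nl τ * G0 +
      cc (8 * Real.log R) τ root * (Y * (K * R ^ (-(3 / 2) : ℝ))) := h1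
  have hnl := nl_le (by linarith : (1 : ℝ) ≤ R) good_root hτ
  have hlog1 : 1 ≤ 8 * Real.log R := by
    have : Real.log (Real.exp 1) ≤ Real.log R := by
      apply Real.log_le_log (Real.exp_pos 1)
      have := Real.exp_one_lt_d9
      linarith
    rw [Real.log_exp] at this
    linarith
  have hcc := cc_le hlog1 good_root τ
  have hlog : Real.log R ≤ 8 * R ^ (1 / 8 : ℝ) := by
    have := Real.log_le_rpow_div hR0.le (by norm_num : (0 : ℝ) < 1 / 8)
    have h2 : R ^ (1 / 8 : ℝ) / (1 / 8) = 8 * R ^ (1 / 8 : ℝ) := by ring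
    linarith
  have hlog0 : 0 ≤ Real.log R := by linarith
  have hsq : (Real.log R) ^ 2 ≤ 64 * R ^ (1 / 4 : ℝ) := by
    have h2 : (Real.log R) ^ 2 ≤ (8 * R ^ (1 / 8 : ℝ)) ^ 2 := by
      apply pow_le_pow_left₀ hlog0 hlog
    have h3 : (8 * R ^ (1 / 8 : ℝ)) ^ 2 = 64 * R ^ (1 / 4 : ℝ) := by
      rw [mul_pow, ← Real.rpow_natCast (R ^ (1 / 8 : ℝ)) 2, ← Real.rpow_mul hR0.le]
      norm_num
    linarith
  have hcc2 : (cc (8 * Real.log R) τ root : ℝ) ≤ 12288 * R ^ (1 / 4 : ℝ) := by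
    calc (cc (8 * Real.log R) τ root : ℝ) ≤ 3 * (8 * Real.log R) ^ 2 := hcc
      _ = 192 * (Real.log R) ^ 2 := by ring
      _ ≤ 192 * (64 * R ^ (1 / 4 : ℝ)) := by linarith
      _ = 12288 * R ^ (1 / 4 : ℝ) := by ring
  have hmul : R ^ (1 / 4 : ℝ) * R ^ (-(3 / 2) : ℝ) = R ^ (-(5 / 4) : ℝ) := by
    rw [← Real.rpow_add hR0]
    norm_num
  have hpw : 0 ≤ Y * (K * R ^ (-(3 / 2) : ℝ)) := by positivity
  have hpw2 : 0 ≤ Y * R ^ (-(5 / 4) : ℝ) := by positivity
  have h6 : (cc (8 * Real.log R) τ root : ℝ) * (Y * (K * R ^ (-(3 / 2) : ℝ))) ≤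
      12288 * K * (Y * R ^ (-(5 / 4) : ℝ)) := by
    calc (cc (8 * Real.log R) τ root : ℝ) * (Y * (K * R ^ (-(3 / 2) : ℝ)))
        ≤ 12288 * R ^ (1 / 4 : ℝ) * (Y * (K * R ^ (-(3 / 2) : ℝ))) :=
          mul_le_mul_of_nonneg_right hcc2 hpw
      _ = 12288 * K * (Y * (R ^ (1 / 4 : ℝ) * R ^ (-(3 / 2) : ℝ))) := by ring
      _ = 12288 * K * (Y * R ^ (-(5 / 4) : ℝ)) := by rw [hmul]
  have h7 : (nl τ : ℝ) * G0 ≤ 3 * R ^ 2 * G0 := mul_le_mul_of_nonneg_right hnl hG
  have h8 : 0 ≤ 12288 * K * (R ^ 2 * G0) := by positivity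
  nlinarith [h1', h6, h7, h8, hpw2]

end Pool.Agent.Lib.MP_94ab62_nt
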