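import Pool.Agent.Lib.MP_94ab62_nt.Basic

/-!
# TFUN: the counting function `T a b y` of lattice points in a triangle

`T a b y = #{(i,j) ∈ ℕ², i, j ≥ 1, i a + j b ≤ y}` (finite sets, `Set.ncard`).
* `T_rec`: split according to `i < j`, `i > j`, `i = j`: `(i, j) ↦ (i, j - i)` etc.
* `T_sum`: for fixed `j` the number of `i ≥ 1` with `i a ≤ y - j b` is `⌊(y - j b)/a⌋`.
-/

set_option autoImplicit false

namespace Pool.Agent.Lib.MP_94ab62_nt

private abbrev tset (a b y : ℝ) : Set (ℕ × ℕ) :=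
  {p : ℕ × ℕ | 0 < p.1 ∧ 0 < p.2 ∧ (p.1 : ℝ) * a + (p.2 : ℝ) * b ≤ y}

private theorem tset_sub {a b y : ℝ} (ha : 0 < a) (hb : 0 < b) :
    tset a b y ⊆ ((Finset.Icc 1 ⌊y / a⌋₊ ×ˢ Finset.Icc 1 ⌊y / b⌋₊ : Finset (ℕ × ℕ)) :
      Set (ℕ × ℕ)) := by
  rintro ⟨i, j⟩ ⟨hi, hj, h⟩
  simp only at hi hj h
  have hi' : (1 : ℝ) ≤ i := by exact_mod_cast hi
  have hj' : (1 : ℝ) ≤ j := by exact_mod_cast hj
  simp only [Finset.coe_product, Finset.coe_Icc, Set.mem_prod, Set.mem_Icc]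
  refine ⟨⟨hi, ?_⟩, hj, ?_⟩
  · apply Nat.le_floor
    rw [le_div_iff₀ ha]
    nlinarith
  · apply Nat.le_floor
    rw [le_div_iff₀ hb]
    nlinarith

theorem T_finite {a b y : ℝ} (ha : 0 < a) (hb : 0 < b) :
    {p : ℕ × ℕ | 0 < p.1 ∧ 0 < p.2 ∧ (p.1 : ℝ) * a + (p.2 : ℝ) * b ≤ y}.Finite :=
  (Finset.finite_toSet _).subset (tset_sub ha hb)

theorem T_nonneg (a b y : ℝ) : 0 ≤ T a b y := Nat.cast_nonneg _

theorem T_zero {a b y : ℝ} (ha : 0 < a) (hb : 0 < b) (h : y < a + b) : T a b y = 0 := by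
  have he : tset a b y = ∅ := by
    ext ⟨i, j⟩
    simp only [Set.mem_setOf_eq, Set.mem_empty_iff_false, iff_false]
    rintro ⟨hi, hj, h'⟩
    have hi' : (1 : ℝ) ≤ i := by exact_mod_cast hi
    have hj' : (1 : ℝ) ≤ j := by exact_mod_cast hj
    nlinarith
  show (((tset a b y).ncard : ℕ) : ℝ) = 0
  rw [he]
  simp

theorem T_symm (a b y : ℝ) : T a b y = T b a y := by
  unfold T
  congr 1
  have he : tset a b y = Prod.swap '' tset b a y := by
    ext ⟨i, j⟩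
    simp only [Set.mem_setOf_eq, Set.mem_image, Prod.exists, Prod.swap_prod_mk, Prod.mk.injEq]
    constructor
    · rintro ⟨h1, h2, h3⟩
      exact ⟨j, i, ⟨h2, h1, by linarith⟩, rfl, rfl⟩
    · rintro ⟨i', j', ⟨h1, h2, h3⟩, rfl, rfl⟩
      exact ⟨h2, h1, by linarith⟩
  show (tset a b y).ncard = (tset b a y).ncard
  rw [he, Set.ncard_image_of_injective _ Prod.swap_injective]

theorem T_anti {a b a' b' y : ℝ} (ha : 0 < a') (hb : 0 < b') (h1 : a' ≤ a) (h2 : b' ≤ b) :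
    T a b y ≤ T a' b' y := by
  unfold T
  have : (tset a b y).ncard ≤ (tset a' b' y).ncard := by
    apply Set.ncard_le_ncard _ (T_finite ha hb)
    rintro ⟨i, j⟩ ⟨hi, hj, h⟩
    refine ⟨hi, hj, ?_⟩
    simp only at h ⊢
    have hi' : (0 : ℝ) ≤ i := Nat.cast_nonneg _
    have hj' : (0 : ℝ) ≤ j := Nat.cast_nonneg _
    nlinarith
  exact_mod_cast this

theorem T_rec {a b y : ℝ} (ha : 0 < a) (hb : 0 < b) :
    T a b y = (⌊y / (a + b)⌋₊ : ℝ) + T a (a + b) y + T (a + b) b y := by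
  have hab : 0 < a + b := by linarith
  have hd : (((Finset.Icc 1 ⌊y / (a + b)⌋₊).image (fun i => (i, i)) : Finset (ℕ × ℕ)) :
      Set (ℕ × ℕ)).ncard = ⌊y / (a + b)⌋₊ := by
    rw [Set.ncard_coe_finset, Finset.card_image_of_injective]
    · simp
    · intro x y h
      exact (Prod.mk.inj h).1
  have h1 : ((fun p : ℕ × ℕ => (p.1 + p.2, p.2)) '' tset a (a + b) y).ncard =
      (tset a (a + b) y).ncard := by
    apply Set.ncard_image_of_injective
    rintro ⟨x, y⟩ ⟨x', y'⟩ h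
    simp only [Prod.mk.injEq] at h ⊢
    omega
  have h2 : ((fun p : ℕ × ℕ => (p.1, p.1 + p.2)) '' tset (a + b) b y).ncard =
      (tset (a + b) b y).ncard := by
    apply Set.ncard_image_of_injective
    rintro ⟨x, y⟩ ⟨x', y'⟩ h
    simp only [Prod.mk.injEq] at h ⊢
    omega
  have hf1 : ((fun p : ℕ × ℕ => (p.1 + p.2, p.2)) '' tset a (a + b) y).Finite :=
    (T_finite ha hab).image _
  have hf2 : ((fun p : ℕ × ℕ => (p.1, p.1 + p.2)) '' tset (a + b) b y).Finite :=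
    (T_finite hab hb).image _
  have he : tset a b y = (((Finset.Icc 1 ⌊y / (a + b)⌋₊).image (fun i => (i, i)) :
      Finset (ℕ × ℕ)) : Set (ℕ × ℕ)) ∪
      ((fun p : ℕ × ℕ => (p.1 + p.2, p.2)) '' tset a (a + b) y ∪
      (fun p : ℕ × ℕ => (p.1, p.1 + p.2)) '' tset (a + b) b y) := by
    ext ⟨i, j⟩
    simp only [Set.mem_setOf_eq, Set.mem_union, Set.mem_image, Finset.coe_image, Finset.coe_Icc,
      Set.mem_Icc, Prod.mk.injEq, Prod.exists]
    constructor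
    · rintro ⟨hi, hj, h⟩
      rcases lt_trichotomy i j with hij | hij | hij
      · right; right
        refine ⟨i, j - i, ⟨hi, by omega, ?_⟩, rfl, by omega⟩
        rw [Nat.cast_sub hij.le]
        linarith
      · left
        subst hij
        refine ⟨i, ⟨hi, ?_⟩, rfl, rfl⟩
        apply Nat.le_floor
        rw [le_div_iff₀ hab]
        linarith
      · right; left
        refine ⟨i - j, j, ⟨by omega, hj, ?_⟩, by omega, rfl⟩
        rw [Nat.cast_sub hij.le]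
        linarith
    · rintro (⟨k, ⟨hk1, hk2⟩, rfl, rfl⟩ | ⟨i', j', ⟨h1, h2, h3⟩, rfl, rfl⟩ |
        ⟨i', j', ⟨h1, h2, h3⟩, rfl, rfl⟩)
      · refine ⟨hk1, hk1, ?_⟩
        have h4 : (k : ℝ) ≤ y / (a + b) := by
          rcases Nat.eq_zero_or_pos ⌊y / (a + b)⌋₊ with h0 | h0
          · omega
          · exact (Nat.le_floor_iff' (by omega)).1 hk2
        rw [le_div_iff₀ hab] at h4
        linarith
      · refine ⟨by omega, h2, ?_⟩
        push_cast
        linarith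
      · refine ⟨h1, by omega, ?_⟩
        push_cast
        linarith
  have hdis1 : Disjoint ((fun p : ℕ × ℕ => (p.1 + p.2, p.2)) '' tset a (a + b) y)
      ((fun p : ℕ × ℕ => (p.1, p.1 + p.2)) '' tset (a + b) b y) := by
    rw [Set.disjoint_left]
    rintro ⟨i, j⟩ ⟨⟨x, y⟩, ⟨h1, h2, _⟩, h3⟩ ⟨⟨x', y'⟩, ⟨h1', h2', _⟩, h3'⟩
    simp only [Prod.mk.injEq] at h1 h2 h3 h1' h2' h3'
    omega
  have hdis2 : Disjoint (((Finset.Icc 1 ⌊y / (a + b)⌋₊).image (fun i => (i, i)) :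
      Finset (ℕ × ℕ)) : Set (ℕ × ℕ))
      ((fun p : ℕ × ℕ => (p.1 + p.2, p.2)) '' tset a (a + b) y ∪
      (fun p : ℕ × ℕ => (p.1, p.1 + p.2)) '' tset (a + b) b y) := by
    rw [Set.disjoint_left]
    rintro ⟨i, j⟩ hd
    simp only [Finset.coe_image, Set.mem_image, Prod.mk.injEq] at hd
    obtain ⟨k, _, rfl, rfl⟩ := hd
    rintro (⟨⟨x, y⟩, ⟨h1, h2, _⟩, h3⟩ | ⟨⟨x', y'⟩, ⟨h1, h2, _⟩, h3⟩)
    · simp only [Prod.mk.injEq] at h1 h2 h3
      omega
    · simp only [Prod.mk.injEq] at h1 h2 h3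
      omega
  have hmain : (tset a b y).ncard = ⌊y / (a + b)⌋₊ + ((tset a (a + b) y).ncard +
      (tset (a + b) b y).ncard) := by
    rw [he, Set.ncard_union_eq hdis2 (Finset.finite_toSet _) (hf1.union hf2),
      Set.ncard_union_eq hdis1 hf1 hf2, hd, h1, h2]
  unfold T
  have h3 : (((tset a b y).ncard : ℕ) : ℝ) = ((⌊y / (a + b)⌋₊ + ((tset a (a + b) y).ncard +
      (tset (a + b) b y).ncard) : ℕ) : ℝ) := by rw [hmain]
  push_cast at h3
  linarith

theorem T_le {a b y : ℝ} (ha : 0 < a) (hb : 0 < b) (hy : 0 ≤ y) : T a b y ≤ y ^ 2 / (a * b) := by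
  have h1 : (tset a b y).ncard ≤ ⌊y / a⌋₊ * ⌊y / b⌋₊ := by
    have h2 := Set.ncard_le_ncard (tset_sub (y := y) ha hb) (Finset.finite_toSet _)
    rw [Set.ncard_coe_finset, Finset.card_product] at h2
    simpa using h2
  have h3 : (((tset a b y).ncard : ℕ) : ℝ) ≤ (⌊y / a⌋₊ : ℝ) * (⌊y / b⌋₊ : ℝ) := by
    exact_mod_cast h1
  have h4 : (⌊y / a⌋₊ : ℝ) ≤ y / a := Nat.floor_le (by positivity)
  have h5 : (⌊y / b⌋₊ : ℝ) ≤ y / b := Nat.floor_le (by positivity)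
  have h6 : (⌊y / a⌋₊ : ℝ) * (⌊y / b⌋₊ : ℝ) ≤ (y / a) * (y / b) :=
    mul_le_mul h4 h5 (Nat.cast_nonneg _) (by positivity)
  have h7 : (y / a) * (y / b) = y ^ 2 / (a * b) := by
    field_simp
  unfold T
  rw [← h7]
  exact h3.trans h6

theorem T_sum {a b y : ℝ} (ha : 0 < a) (hb : 0 < b) (hy : 0 ≤ y) :
    T a b y = ∑ k ∈ Finset.range ⌊y / b⌋₊, ((⌊(y - (k + 1) * b) / a⌋ : ℤ) : ℝ) := by
  classical
  have hk : ∀ k ∈ Finset.range ⌊y / b⌋₊, 0 ≤ (y - ((k : ℝ) + 1) * b) / a := by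
    intro k hk
    have h1 : k + 1 ≤ ⌊y / b⌋₊ := Finset.mem_range.1 hk
    have h2 : ((k + 1 : ℕ) : ℝ) ≤ y / b := (Nat.le_floor_iff' (by omega)).1 h1
    push_cast at h2
    rw [le_div_iff₀ hb] at h2
    apply div_nonneg _ ha.le
    linarith
  have he : tset a b y = (((Finset.range ⌊y / b⌋₊).biUnion (fun k =>
      (Finset.Icc 1 ⌊(y - ((k : ℝ) + 1) * b) / a⌋₊).image (fun i => (i, k + 1))) :
      Finset (ℕ × ℕ)) : Set (ℕ × ℕ)) := by
    ext ⟨i, j⟩
    simp only [Set.mem_setOf_eq, Finset.coe_biUnion, Finset.coe_image, Finset.coe_Icc,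
      Set.mem_iUnion, Set.mem_image, Set.mem_Icc, Prod.mk.injEq, Finset.coe_range, Set.mem_Iio]
    constructor
    · rintro ⟨hi, hj, h⟩
      have hi' : (1 : ℝ) ≤ i := by exact_mod_cast hi
      refine ⟨j - 1, ?_, i, ⟨hi, ?_⟩, rfl, by omega⟩
      · have h1 : j ≤ ⌊y / b⌋₊ := by
          apply Nat.le_floor
          rw [le_div_iff₀ hb]
          nlinarith
        omega
      · apply Nat.le_floor
        rw [le_div_iff₀ ha]
        have h2 : ((j - 1 : ℕ) : ℝ) + 1 = j := by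
          rw [Nat.cast_sub hj]
          push_cast
          ring
        rw [h2]
        linarith
    · rintro ⟨k, hk1, i', ⟨h1, h2⟩, rfl, rfl⟩
      refine ⟨h1, by omega, ?_⟩
      have h3 : (i' : ℝ) ≤ (y - ((k : ℝ) + 1) * b) / a := (Nat.le_floor_iff' (by omega)).1 h2
      rw [le_div_iff₀ ha] at h3
      push_cast
      linarith
  have hcard : (tset a b y).ncard =
      ∑ k ∈ Finset.range ⌊y / b⌋₊, ⌊(y - ((k : ℝ) + 1) * b) / a⌋₊ := by
    rw [he, Set.ncard_coe_finset, Finset.card_biUnion]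
    · apply Finset.sum_congr rfl
      intro k _
      rw [Finset.card_image_of_injective]
      · simp
      · intro x y h
        exact (Prod.mk.inj h).1
    · intro k _ k' _ hkk
      simp only [Function.onFun]
      rw [Finset.disjoint_left]
      rintro ⟨i, j⟩ h1 h2
      simp only [Finset.mem_image, Finset.mem_Icc, Prod.mk.injEq] at h1 h2
      obtain ⟨_, _, _, h3⟩ := h1
      obtain ⟨_, _, _, h4⟩ := h2
      omega
  unfold T
  show (((tset a b y).ncard : ℕ) : ℝ) = _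
  rw [hcard]
  push_cast
  apply Finset.sum_congr rfl
  intro k hk'
  exact (natCast_floor_eq_intCast_floor (hk k hk'))

end Pool.Agent.Lib.MP_94ab62_nt
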