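import Pool.Agent.Lib.MP_94ab62_nt.Saw
import Pool.Agent.Lib.MP_94ab62_nt.Tfun

/-!
# TASY: asymptotics of `T a b y`

`T_sum`, `⌊u⌋ = u - 1/2 - (fract u - 1/2)`, with `n = ⌊y/b⌋`, `y = n b + ρ`, `0 ≤ ρ < b`:
`∑_{j=1}^n (y - j b)/a = (n y - b n (n+1)/2)/a = y²/(2ab) - y/(2a) + ρ(b-ρ)/(2ab)`, `n/2 = y/(2b) - ρ/(2b)`, and
`saw_sum` with `θ = b/a`, `β = (y - b)/a` (`(y - (k+1) b)/a = β - kθ`).
-/

set_option autoImplicit false

namespace Pool.Agent.Lib.MP_94ab62_nt

private theorem sum_lin (β θ : ℝ) (n : ℕ) :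
    ∑ k ∈ Finset.range n, (β - k * θ) = n * β - θ * (n * (n - 1) / 2) := by
  induction n with
  | zero => simp
  | succ n ih =>
    rw [Finset.sum_range_succ, ih]
    push_cast
    ring

theorem T_asym {a b y : ℝ} (ha : 0 < a) (hb : 0 < b) (hy : 0 ≤ y) {q p : ℕ} (hq : 1 ≤ q)
    (hpq : Nat.Coprime p q) (h : |(q : ℝ) * b - p * a| ≤ 2 * a / q) :
    |T a b y - (y ^ 2 / (2 * a * b) - y / (2 * a) - y / (2 * b))| ≤
      b / a + 5 * y / (b * q) + q + 1 := by
  have hq0 : (0 : ℝ) < q := by exact_mod_cast hq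
  set n : ℕ := ⌊y / b⌋₊ with hn
  set ρ : ℝ := y - n * b with hρ
  have hyb : 0 ≤ y / b := div_nonneg hy hb.le
  have h1 : (n : ℝ) ≤ y / b := Nat.floor_le hyb
  have h2 : y / b < n + 1 := Nat.lt_floor_add_one _
  have hρ0 : 0 ≤ ρ := by
    have := (le_div_iff₀ hb).1 h1
    rw [hρ]; linarith
  have hρb : ρ ≤ b := by
    have := (div_lt_iff₀ hb).1 h2
    rw [hρ]; nlinarith
  have hyρ : y = n * b + ρ := by rw [hρ]; ring
  have hθ : |(q : ℝ) * (b / a) - p| ≤ 2 / q := by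
    have e : (q : ℝ) * (b / a) - p = ((q : ℝ) * b - p * a) / a := by
      field_simp
    rw [e, abs_div, abs_of_pos ha, div_le_iff₀ ha]
    calc |(q : ℝ) * b - p * a| ≤ 2 * a / q := h
      _ = 2 / q * a := by ring
  have hS := saw_sum hq hpq (b / a) ((y - b) / a) hθ n
  set E : ℝ := ∑ k ∈ Finset.range n, (Int.fract ((y - b) / a - k * (b / a)) - 1 / 2) with hE
  have hT : T a b y = n * ((y - b) / a) - b / a * (n * (n - 1) / 2) - n / 2 - E := by
    rw [T_sum ha hb hy, ← hn, hE, ← sum_lin]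
    have e2 : (n : ℝ) / 2 = ∑ k ∈ Finset.range n, (1 / 2 : ℝ) := by
      rw [Finset.sum_const, Finset.card_range, nsmul_eq_mul]; ring
    rw [e2, ← Finset.sum_sub_distrib, ← Finset.sum_sub_distrib]
    refine Finset.sum_congr rfl fun k _ => ?_
    have e3 : (y - ((k : ℝ) + 1) * b) / a = (y - b) / a - k * (b / a) := by
      field_simp
      ring
    rw [e3]
    have := Int.floor_add_fract ((y - b) / a - k * (b / a))
    linarith
  have hmain : T a b y - (y ^ 2 / (2 * a * b) - y / (2 * a) - y / (2 * b)) =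
      ρ * (b - ρ) / (2 * a * b) + ρ / (2 * b) - E := by
    rw [hT, hyρ]
    field_simp
    ring
  rw [hmain]
  have b1 : 0 ≤ ρ * (b - ρ) / (2 * a * b) :=
    div_nonneg (mul_nonneg hρ0 (by linarith)) (by positivity)
  have b2 : ρ * (b - ρ) / (2 * a * b) ≤ b / a := by
    rw [div_le_div_iff₀ (by positivity) ha]
    have : ρ * (b - ρ) ≤ b * b := mul_le_mul hρb (by linarith) (by linarith) hb.le
    nlinarith [mul_pos ha hb, mul_nonneg ha.le (mul_nonneg hb.le hb.le),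
      mul_le_mul_of_nonneg_left this ha.le]
  have b3 : 0 ≤ ρ / (2 * b) := by positivity
  have b4 : ρ / (2 * b) ≤ 1 := by
    rw [div_le_one (by positivity)]; linarith
  have b5 : 5 * ((n : ℝ) / q) ≤ 5 * y / (b * q) := by
    have : 5 * y / (b * q) = 5 * (y / b / q) := by
      rw [div_div, mul_div_assoc]
    rw [this]
    have := div_le_div_of_nonneg_right h1 hq0.le
    linarith
  have b6 := abs_le.1 hS
  rw [abs_le]
  constructor <;> linarith [b6.1, b6.2]

end Pool.Agent.Lib.MP_94ab62_nt
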