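import Pool.Agent.Lib.MP_94ab62_nt.Stab
import Pool.Agent.Lib.MP_94ab62_nt.Tasy

/-!
# LEAFERR: the error at a leaf

`R = 2 log y`, `a = fa t`, `b = fb t`, `ε = ep t ≤ 8 e^(-2R) = 8 y^(-4)`, `a' = a - ε`, `b' = b - ε`;
`T a b y ≤ Nf y t ≤ T a' b' y` (`Nf_ge`, `Nf_le`).
Case `a ≤ b`.  Dirichlet (`Real.exists_rat_abs_sub_le_and_den_le` or similar, with `⌊√y⌋`): coprime `p, q`,
`1 ≤ q ≤ √y`, `|q b - p a| ≤ a/√y`.  Then `T_asym` applies to `(a, b)` and also to `(a', b')` (`ε (p+q)` is tiny).  The two main terms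
differ by `O(y² ε) = O(1)`.  Error: `b/a + 5y/(bq) + q + 1 ≤ K y^(3/4) + 5y/(bq)`.
If `q ≥ R³` use `b ≥ R/2`.  If `q < R³` take `n = (q, p)`: `|q b - p a| ≤ a/√y ≤ 2R e^(-R/4) ≤ e^(-R/5)`, `p ≥ 1` as `b ≥ a`,
and `a p ≤ 2 b q`, so `5y/(bq) ≤ 10 y/(a p)`.
Case `b < a`: same with `T b a y = T a b y`, `|q a - p b| ≤ b/√y`, `n = (p, q)`, error `5y/(aq)`.
-/

set_option autoImplicit false

namespace Pool.Agent.Lib.MP_94ab62_nt

/-- Dirichlet approximation with natural numbers -/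
private theorem dirichlet_nat {ξ s : ℝ} (hξ : 1 ≤ ξ) (hs : 1 ≤ s) :
    ∃ p q : ℕ, 1 ≤ q ∧ 1 ≤ p ∧ Nat.Coprime p q ∧ (q : ℝ) ≤ s ∧ |(q : ℝ) * ξ - p| ≤ 1 / s := by
  have hn : 0 < ⌊s⌋₊ := Nat.floor_pos.2 hs
  obtain ⟨r, hr1, hr2⟩ := Real.exists_rat_abs_sub_le_and_den_le ξ hn
  have hden : (1 : ℝ) ≤ (r.den : ℝ) := by exact_mod_cast r.pos
  have hfl : s < (⌊s⌋₊ : ℝ) + 1 := Nat.lt_floor_add_one s
  have hfl1 : (1 : ℝ) ≤ (⌊s⌋₊ : ℝ) := by exact_mod_cast hn
  have hr : (r : ℝ) = (r.num : ℝ) / (r.den : ℝ) := by exact_mod_cast (Rat.num_div_den r).symm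
  have hlt : 1 / (((⌊s⌋₊ : ℝ) + 1) * (r.den : ℝ)) ≤ 1 / 2 := by
    apply one_div_le_one_div_of_le (by norm_num)
    nlinarith
  have hrpos : 0 < (r : ℝ) := by
    have := abs_le.1 (le_trans hr1 hlt)
    linarith [this.2]
  have hnum : 0 < r.num := by
    have : 0 < r := by exact_mod_cast hrpos
    exact Rat.num_pos.2 this
  obtain ⟨p, hp⟩ := Int.eq_ofNat_of_zero_le hnum.le
  refine ⟨p, r.den, r.pos, ?_, ?_, ?_, ?_⟩
  · have : 0 < (p : ℤ) := by rw [← hp]; exact hnum
    exact_mod_cast this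
  · have := r.reduced
    rw [hp] at this
    simpa using this
  · exact le_trans (by exact_mod_cast hr2) (Nat.floor_le (by linarith))
  · have h1 : (r.den : ℝ) * ξ - p = (r.den : ℝ) * (ξ - r) := by
      rw [hr, hp]; push_cast; field_simp
    rw [h1, abs_mul, abs_of_pos (by linarith : (0:ℝ) < r.den)]
    calc (r.den : ℝ) * |ξ - r| ≤ (r.den : ℝ) * (1 / (((⌊s⌋₊ : ℝ) + 1) * (r.den : ℝ))) :=
          mul_le_mul_of_nonneg_left hr1 (by linarith)
      _ = 1 / ((⌊s⌋₊ : ℝ) + 1) := by field_simp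
      _ ≤ 1 / s := one_div_le_one_div_of_le (by linarith) hfl.le

private theorem quad_le_exp {x : ℝ} (hx : 0 ≤ x) : x ^ 2 / 2 ≤ Real.exp x := by
  have := Real.quadratic_le_exp_of_nonneg hx
  nlinarith

private theorem main_terms {L a b ε y : ℝ} (hL : 800 ≤ L) (ha : 24 / 25 ≤ a) (hab : a ≤ b)
    (h2 : a + b ≤ 4 * L) (hε : 0 < ε) (hεL : ε ≤ 8 * Real.exp (-4 * L)) (hε10 : ε ≤ 1 / 100)
    (hypos : 0 < y) (hy2 : y ^ 2 = Real.exp (2 * L)) :
    y ^ 2 / (2 * (a - ε) * (b - ε)) - y / (2 * (a - ε)) - y / (2 * (b - ε)) ≤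
      y ^ 2 / (2 * a * b) - y / (2 * a) - y / (2 * b) + 1 := by
  have hL0 : (0 : ℝ) < L := by linarith
  have m1 : y / (2 * a) ≤ y / (2 * (a - ε)) :=
    div_le_div_of_nonneg_left hypos.le (by linarith) (by linarith)
  have m2 : y / (2 * b) ≤ y / (2 * (b - ε)) :=
    div_le_div_of_nonneg_left hypos.le (by linarith) (by linarith)
  have ha0 : 0 < a := by linarith
  have hb0 : 0 < b := by linarith
  have k2 : (9 / 10 : ℝ) ≤ a - ε := by linarith
  have k3 : (9 / 10 : ℝ) ≤ b - ε := by linarith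
  have ha' : 0 < a - ε := by linarith
  have hb' : 0 < b - ε := by linarith
  have n1 : (1 : ℝ) / ((a - ε) * (b - ε)) ≤ 1 / (a * b) + 8 * L * ε := by
    have k1 : a * b - (a - ε) * (b - ε) ≤ ε * (4 * L) := by nlinarith
    have k5 : (9 / 10 : ℝ) ≤ a * b := by nlinarith
    have k4 : (81 / 100 : ℝ) ≤ (a - ε) * (b - ε) := by nlinarith
    have k6 : (1 / 2 : ℝ) ≤ (a * b) * ((a - ε) * (b - ε)) := by nlinarith
    have e : 1 / ((a - ε) * (b - ε)) - 1 / (a * b) =
        (a * b - (a - ε) * (b - ε)) / ((a * b) * ((a - ε) * (b - ε))) := by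
      field_simp
    have e2 : (a * b - (a - ε) * (b - ε)) / ((a * b) * ((a - ε) * (b - ε))) ≤ 8 * L * ε := by
      rw [div_le_iff₀ (by linarith)]
      have : 0 ≤ L * ε := mul_nonneg hL0.le hε.le
      nlinarith
    linarith
  have n2 : y ^ 2 * (8 * L * ε) ≤ 2 := by
    have q1 : y ^ 2 * ε ≤ 8 * Real.exp (-2 * L) := by
      rw [hy2]
      calc Real.exp (2 * L) * ε ≤ Real.exp (2 * L) * (8 * Real.exp (-4 * L)) :=
            mul_le_mul_of_nonneg_left hεL (Real.exp_pos _).le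
        _ = 8 * (Real.exp (2 * L) * Real.exp (-4 * L)) := by ring
        _ = 8 * Real.exp (-2 * L) := by rw [← Real.exp_add]; congr 2; ring
    have q2 : Real.exp (-2 * L) ≤ 1 / (2 * L ^ 2) := by
      rw [show -2 * L = -(2 * L) by ring, Real.exp_neg, ← one_div]
      apply one_div_le_one_div_of_le (by positivity)
      have := quad_le_exp (show 0 ≤ 2 * L by linarith)
      nlinarith
    have q3 : 8 * L * (8 * (1 / (2 * L ^ 2))) = 32 / L := by field_simp; norm_num
    have q4 : 32 / L ≤ 2 := by rw [div_le_iff₀ hL0]; linarith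
    have q5 : 8 * L * (y ^ 2 * ε) ≤ 8 * L * (8 * (1 / (2 * L ^ 2))) := by
      apply mul_le_mul_of_nonneg_left _ (by positivity)
      linarith
    have q6 : y ^ 2 * (8 * L * ε) = 8 * L * (y ^ 2 * ε) := by ring
    linarith
  have m3 : y ^ 2 / (2 * (a - ε) * (b - ε)) ≤ y ^ 2 / (2 * a * b) + 1 := by
    have r1 : y ^ 2 / (2 * (a - ε) * (b - ε)) = y ^ 2 / 2 * (1 / ((a - ε) * (b - ε))) := by
      rw [mul_assoc, div_mul_div_comm, mul_one]
    have r2 : y ^ 2 / (2 * a * b) = y ^ 2 / 2 * (1 / (a * b)) := by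
      rw [mul_assoc, div_mul_div_comm, mul_one]
    have r3 := mul_le_mul_of_nonneg_left n1 (show 0 ≤ y ^ 2 / 2 by positivity)
    rw [r1, r2]
    nlinarith
  linarith

private theorem core_err {L a b ε N : ℝ} (hL : 800 ≤ L) (ha : 24 / 25 ≤ a) (hab : a ≤ b)
    (h1 : 2 * L ≤ a + b) (h2 : a + b ≤ 4 * L) (hε : 0 < ε)
    (hε2 : ε ≤ 8 * Real.exp (-2 * (a + b))) (hN1 : T a b (Real.exp L) ≤ N)
    (hN2 : N ≤ T (a - ε) (b - ε) (Real.exp L)) :
    ∃ p q : ℕ, 1 ≤ q ∧ 1 ≤ p ∧ Nat.Coprime p q ∧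
      |(q : ℝ) * b - p * a| ≤ Real.exp (-(2 * L) / 5) ∧
      |N - ((Real.exp L) ^ 2 / (2 * a * b) - (Real.exp L) / (2 * a) - (Real.exp L) / (2 * b))| ≤
        20 * Real.exp (3 / 4 * L) + 10 * (Real.exp L / (b * q)) := by
  have hL0 : (0 : ℝ) < L := by linarith
  set s := Real.exp (L / 2) with hs
  have hss : s * s = Real.exp L := by rw [hs, ← Real.exp_add]; congr 1; ring
  have hs0 : 0 < s := Real.exp_pos _
  have hsL : 50 * L ≤ s := by
    have := quad_le_exp (show 0 ≤ L / 2 by linarith)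
    nlinarith
  have hs1 : 1 ≤ s := by linarith
  have ha0 : 0 < a := by linarith
  have hb0 : 0 < b := by linarith
  obtain ⟨p, q, hq1, hp1, hpq, hqs, happ⟩ := dirichlet_nat (ξ := b / a) (s := s)
    ((one_le_div ha0).2 hab) hs1
  have hq1' : (1 : ℝ) ≤ q := by exact_mod_cast hq1
  have hp1' : (1 : ℝ) ≤ p := by exact_mod_cast hp1
  have happ2 : |(q : ℝ) * b - p * a| ≤ a / s := by
    have : (q : ℝ) * b - p * a = a * ((q : ℝ) * (b / a) - p) := by field_simp
    rw [this, abs_mul, abs_of_pos ha0]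
    calc a * |(q : ℝ) * (b / a) - p| ≤ a * (1 / s) := mul_le_mul_of_nonneg_left happ ha0.le
      _ = a / s := by ring
  have hale : a ≤ 2 * L := by linarith
  have hble : b ≤ 4 * L := by linarith
  -- p ≤ y
  have hple : (p : ℝ) ≤ Real.exp L := by
    have e1 := (abs_le.1 happ).1
    have e2 : (1 : ℝ) / s ≤ 1 := by rw [div_le_one hs0]; exact hs1
    have e3 : b / a ≤ 4 * L * (25 / 24) := by
      rw [div_le_iff₀ ha0]; nlinarith
    have e4 : (q : ℝ) * (b / a) ≤ s * (4 * L * (25 / 24)) := by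
      apply mul_le_mul hqs e3 (by positivity) hs0.le
    have e5 : (p : ℝ) ≤ s * (4 * L * (25 / 24)) + 1 := by linarith
    have e6 : s * (4 * L * (25 / 24)) + 1 ≤ s * s := by nlinarith
    rw [← hss]; linarith
  have hqle : (q : ℝ) ≤ Real.exp L := by
    rw [← hss]; nlinarith
  have hεL : ε ≤ 8 * Real.exp (-4 * L) := by
    refine hε2.trans ?_
    have : Real.exp (-2 * (a + b)) ≤ Real.exp (-4 * L) := Real.exp_le_exp.2 (by linarith)
    linarith
  have hexp3 : Real.exp (-4 * L) * Real.exp L = Real.exp (-3 * L) := by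
    rw [← Real.exp_add]; congr 1; ring
  have hεpq : ε * (p + q) ≤ 16 * Real.exp (-3 * L) := by
    have e1 : ε * (p + q) ≤ (8 * Real.exp (-4 * L)) * (2 * Real.exp L) := by
      apply mul_le_mul hεL (by linarith) (by positivity) (by positivity)
    calc _ ≤ _ := e1
      _ = 16 * (Real.exp (-4 * L) * Real.exp L) := by ring
      _ = _ := by rw [hexp3]
  have hε10 : ε ≤ 1 / 100 := by
    have e1 : Real.exp (-4 * L) = 1 / (Real.exp (4 * L)) := by
      rw [show -4 * L = -(4 * L) by ring, Real.exp_neg]; simp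
    have e2 : 800 ≤ Real.exp (4 * L) := by
      have := Real.add_one_le_exp (4 * L)
      linarith
    have e3 : Real.exp (-4 * L) ≤ 1 / 800 := by
      rw [e1]; exact one_div_le_one_div_of_le (by norm_num) e2
    linarith
  have ha' : 0 < a - ε := by linarith
  have hb' : 0 < b - ε := by linarith
  -- first application
  have hc1 : |(q : ℝ) * b - p * a| ≤ 2 * a / q := by
    refine happ2.trans ?_
    rw [div_le_div_iff₀ hs0 (by linarith)]
    nlinarith
  have hc2 : |(q : ℝ) * (b - ε) - p * (a - ε)| ≤ 2 * (a - ε) / q := by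
    have e1 : (q : ℝ) * (b - ε) - p * (a - ε) = ((q : ℝ) * b - p * a) + ε * ((p : ℝ) - q) := by ring
    have e2 : |ε * ((p : ℝ) - q)| ≤ ε * (p + q) := by
      rw [abs_mul, abs_of_pos hε]
      apply mul_le_mul_of_nonneg_left _ hε.le
      rw [abs_le]; constructor <;> linarith
    have e3 : |(q : ℝ) * (b - ε) - p * (a - ε)| ≤ a / s + 16 * Real.exp (-3 * L) := by
      rw [e1]
      exact (abs_add_le _ _).trans (by linarith)
    refine e3.trans ?_
    have e4 : 2 * (a - ε) / s ≤ 2 * (a - ε) / q := by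
      apply div_le_div_of_nonneg_left (by linarith) (by linarith) hqs
    refine le_trans ?_ e4
    have e5 : 16 * Real.exp (-3 * L) ≤ (1 / 2) / s := by
      rw [le_div_iff₀ hs0]
      have : Real.exp (-3 * L) * s = Real.exp (-(5 / 2 * L)) := by
        rw [hs, ← Real.exp_add]; congr 1; ring
      have h6 : Real.exp (-(5 / 2 * L)) ≤ 1 / 32 := by
        rw [Real.exp_neg, ← one_div]
        apply one_div_le_one_div_of_le (by norm_num)
        have := Real.add_one_le_exp (5 / 2 * L)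
        linarith
      calc 16 * Real.exp (-3 * L) * s = 16 * (Real.exp (-3 * L) * s) := by ring
        _ ≤ 16 * (1 / 32) := by rw [this]; linarith
        _ = 1 / 2 := by norm_num
    have e6 : (1 / 2) / s ≤ (a - 2 * ε) / s := by
      apply div_le_div_of_nonneg_right (by linarith) hs0.le
    calc a / s + 16 * Real.exp (-3 * L) ≤ a / s + (a - 2 * ε) / s := by linarith
      _ = 2 * (a - ε) / s := by ring
  have hy0 : 0 ≤ Real.exp L := (Real.exp_pos _).le
  have A1 := T_asym ha0 hb0 hy0 hq1 hpq hc1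
  have A2 := T_asym ha' hb' hy0 hq1 hpq hc2
  set y := Real.exp L with hy
  have hypos : 0 < y := Real.exp_pos _
  have hbq : 0 < b * q := by positivity
  have hY : 0 ≤ y / (b * q) := by positivity
  -- main terms
  have hmain := main_terms (y := y) hL ha hab h2 hε hεL hε10 hypos (by
    rw [hy, ← Real.exp_nat_mul]; congr 1)
  have hE1 : b / a ≤ 5 * L := by
    rw [div_le_iff₀ ha0]; nlinarith
  have hE2 : (b - ε) / (a - ε) ≤ 10 * L := by
    rw [div_le_iff₀ ha']; nlinarith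
  have hE3 : 5 * y / ((b - ε) * q) ≤ 10 * (y / (b * q)) := by
    have : 5 * y / ((b - ε) * q) ≤ 5 * y / (b / 2 * q) := by
      apply div_le_div_of_nonneg_left (by positivity) (by positivity)
      apply mul_le_mul_of_nonneg_right (by linarith) (by linarith)
    refine this.trans (le_of_eq ?_)
    field_simp
    ring
  have hE4 : 5 * y / (b * q) = 5 * (y / (b * q)) := by ring
  have hse : s ≤ Real.exp (3 / 4 * L) := by
    rw [hs]; exact Real.exp_le_exp.2 (by linarith)
  have hLe : L ≤ Real.exp (3 / 4 * L) := by linarith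
  have h1e : 1 ≤ Real.exp (3 / 4 * L) := by linarith
  refine ⟨p, q, hq1, hp1, hpq, ?_, ?_⟩
  · refine happ2.trans ?_
    rw [div_le_iff₀ hs0, hs, ← Real.exp_add]
    have : -(2 * L) / 5 + L / 2 = L / 10 := by ring
    rw [this]
    have := quad_le_exp (show 0 ≤ L / 10 by linarith)
    nlinarith
  · rw [abs_le] at A1 A2 ⊢
    constructor <;> nlinarith [A1.1, A2.2]

theorem leaf_err : ∃ K : ℝ, 0 < K ∧ ∃ y0 : ℝ, ∀ y : ℝ, y0 ≤ y → ∀ t : Nd, Good t →
    2 * Real.log y ≤ fa t + fb t → fa t + fb t ≤ 4 * Real.log y →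
    |Nf y t - (y ^ 2 / (2 * fa t * fb t) - y / (2 * fa t) - y / (2 * fb t))| ≤
        K * (y ^ (3 / 4 : ℝ) + y / (2 * Real.log y) ^ 4) ∨
      ∃ n : ℤ × ℤ, Bad ((2 * Real.log y) ^ 3) (Real.exp (-(2 * Real.log y) / 5)) t n ∧
        |Nf y t - (y ^ 2 / (2 * fa t * fb t) - y / (2 * fa t) - y / (2 * fb t))| ≤
          K * (y ^ (3 / 4 : ℝ) + y / (2 * Real.log y) ^ 4) + K * y / (fa t * n.2) := by
  refine ⟨20, by norm_num, Real.exp 800, ?_⟩
  intro y hy t ht h1 h2
  have hy0 : 0 < y := lt_of_lt_of_le (Real.exp_pos _) hy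
  set L := Real.log y with hLdef
  have hL : 800 ≤ L := by
    rw [hLdef, Real.le_log_iff_exp_le hy0]; exact hy
  have hyL : y = Real.exp L := (Real.exp_log hy0).symm
  have hy34 : y ^ (3 / 4 : ℝ) = Real.exp (3 / 4 * L) := by
    rw [Real.rpow_def_of_pos hy0, ← hLdef]; congr 1; ring
  have hep := ep_pos ht
  have hep2 := ep_le ht
  have hfa := fa_ge ht
  have hfb := fb_ge ht
  have hsm := ep_small ht
  have hN1 := Nf_ge hy0.le ht
  have hN2 := Nf_le hy0.le ht (a' := fa t - ep t) (b' := fb t - ep t) (by linarith) (by linarith)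
    le_rfl le_rfl
  have hR : 0 < 2 * L := by linarith
  have key : ∀ a b : ℝ, 24 / 25 ≤ a → a ≤ b → 2 * L ≤ a + b → ∀ q : ℕ, 1 ≤ q →
      (2 * L) ^ 3 ≤ q → 10 * (y / (b * q)) ≤ 20 * (y / (2 * L) ^ 4) := by
    intro a b _ hab hRab q hq hRq
    have hb : 2 * L / 2 ≤ b := by linarith
    have : y / (b * q) ≤ y / ((2 * L) / 2 * (2 * L) ^ 3) := by
      apply div_le_div_of_nonneg_left hy0.le (by positivity)
      apply mul_le_mul hb hRq (by positivity) (by linarith)
    have h3 : y / ((2 * L) / 2 * (2 * L) ^ 3) = 2 * (y / (2 * L) ^ 4) := by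
      field_simp
    linarith
  have hD : Real.exp (-(2 * L) / 5) ≤ 1 / 2 := by
    rw [show -(2 * L) / 5 = -(2 * L / 5) by ring, Real.exp_neg, ← one_div]
    apply one_div_le_one_div_of_le (by norm_num)
    have := Real.add_one_le_exp (2 * L / 5)
    linarith
  rcases le_total (fa t) (fb t) with hab | hab
  · rw [hyL] at hN1 hN2
    obtain ⟨p, q, hq, hp, hpq, hd, herr⟩ := core_err hL hfa hab h1 h2 hep hep2 hN1 hN2
    rw [← hyL] at herr
    have hq1 : (1 : ℝ) ≤ q := by exact_mod_cast hq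
    have hp1 : (1 : ℝ) ≤ p := by exact_mod_cast hp
    by_cases hqR : (2 * L) ^ 3 ≤ (q : ℝ)
    · left
      have := key (fa t) (fb t) hfa hab h1 q hq hqR
      rw [hy34]
      linarith
    · right
      push Not at hqR
      refine ⟨((q : ℤ), (p : ℤ)), ⟨by simp only; exact_mod_cast hq, by simp only; exact_mod_cast hp, ?_, Or.inl ?_, ?_⟩, ?_⟩
      · exact (Nat.isCoprime_iff_coprime.2 hpq).symm
      · simpa using hqR
      · simpa using hd
      · have hpa : fa t * p ≤ 2 * (fb t * q) := by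
          have := (abs_le.1 (hd.trans hD)).1
          nlinarith
        have h5 : 10 * (y / (fb t * q)) ≤ 20 * y / (fa t * (((p : ℤ)) : ℝ)) := by
          have e1 : (0 : ℝ) < fb t * q := by nlinarith
          have e2 : (0 : ℝ) < fa t * (((p : ℤ)) : ℝ) := by
            push_cast; nlinarith
          rw [← mul_div_assoc, div_le_div_iff₀ e1 e2]
          push_cast
          nlinarith
        have h6 : 0 ≤ y / (2 * L) ^ 4 := by positivity
        rw [hy34]
        simp only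
        linarith
  · have hN1' : T (fb t) (fa t) y ≤ Nf y t := by rw [T_symm]; exact hN1
    have hN2' : Nf y t ≤ T (fb t - ep t) (fa t - ep t) y := by rw [T_symm]; exact hN2
    rw [hyL] at hN1' hN2'
    have h1' : 2 * L ≤ fb t + fa t := by linarith
    have h2' : fb t + fa t ≤ 4 * L := by linarith
    have hep2' : ep t ≤ 8 * Real.exp (-2 * (fb t + fa t)) := by rw [add_comm]; exact hep2
    obtain ⟨p, q, hq, hp, hpq, hd, herr⟩ := core_err hL hfb hab h1' h2' hep hep2' hN1' hN2'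
    rw [← hyL] at herr
    have hq1 : (1 : ℝ) ≤ q := by exact_mod_cast hq
    have hp1 : (1 : ℝ) ≤ p := by exact_mod_cast hp
    have hcomm : y ^ 2 / (2 * fb t * fa t) - y / (2 * fb t) - y / (2 * fa t) =
        y ^ 2 / (2 * fa t * fb t) - y / (2 * fa t) - y / (2 * fb t) := by
      rw [show 2 * fb t * fa t = 2 * fa t * fb t by ring]; ring
    rw [hcomm] at herr
    by_cases hqR : (2 * L) ^ 3 ≤ (q : ℝ)
    · left
      have := key (fb t) (fa t) hfb hab h1' q hq hqR
      rw [hy34]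
      linarith
    · right
      push Not at hqR
      refine ⟨((p : ℤ), (q : ℤ)), ⟨by simp only; exact_mod_cast hp, by simp only; exact_mod_cast hq, ?_, Or.inr ?_, ?_⟩, ?_⟩
      · exact (Nat.isCoprime_iff_coprime.2 hpq)
      · simpa using hqR
      · rw [abs_sub_comm]
        simpa using hd
      · have h6 : 0 ≤ y / (2 * L) ^ 4 := by positivity
        have h7 : 0 ≤ y / (fa t * q) := by positivity
        have h8 : 20 * y / (fa t * (((q : ℤ)) : ℝ)) = 20 * (y / (fa t * q)) := by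
          push_cast; ring
        rw [hy34]
        simp only
        rw [h8]
        linarith

end Pool.Agent.Lib.MP_94ab62_nt
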