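import Pool.Agent.Lib.MP_94ab62_nt.Claim
import Pool.Agent.Lib.MP_94ab62_nt.LeafErr
import Pool.Agent.Lib.MP_94ab62_nt.Area

/-!
# COUNT: the number of lattice points

`R = 2 log y`, `τ` a cut at level `R` of `root` (`cut_exists`), `m(t) = y²/(2ab) - y/(2a) - y/(2b)`.
* `Nf y root = isum (phiN y ·.2.2) τ root + lsum (Nf y) τ root` (`Nf_rec`).
* `lsum (1/fa + 1/fb) τ t = 1/fa t + 1/fb t + 2 isum (1/fc) τ t` (induction: `1/a + 1/c + 1/c + 1/b`).
* `A root = lsum A τ root`, `0 ≤ lsum A - lsum (1/(2ab)) ≤ lsum ep ≤ nl τ · 8 e^(-2R)`.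
* So `Nplus y - A y² = ∑_{internal} (⌊y/c⌋ - y/c) + (⌊y/F 1⌋ - y/F 1)/2 + (⌊y/F 2⌋ - y/F 2)/2 + y² (lsum 1/(2ab) - A) + lsum (Nf - m)`,
  and `|lsum (Nf - m)| ≤ lsum |Nf - m|` is bounded by `claim_main` with `G0 = K(y^(3/4) + y/R⁴)`, `Y = K y` and `leaf_err`
  (`leaf_size`); `isum 1 ≤ nl τ ≤ 3R²`.
-/

set_option autoImplicit false

namespace Pool.Agent.Lib.MP_94ab62_nt

theorem count_Nf_isum {y : ℝ} (hy : 0 ≤ y) (τ : Cut) : ∀ t : Nd, Good t →
    Nf y t = isum (fun s => phiN y s.2.2) τ t + lsum (Nf y) τ t := by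
  induction τ with
  | leaf => intro t _; simp [isum, lsum]
  | node l r ihl ihr =>
    intro t h
    rw [Nf_rec hy h, ihl _ (good_lc h), ihr _ (good_rc h)]
    simp only [isum, lsum]
    ring

theorem count_inv (τ : Cut) : ∀ t : Nd,
    lsum (fun s => 1 / fa s + 1 / fb s) τ t =
      1 / fa t + 1 / fb t + 2 * isum (fun s => 1 / fc s) τ t := by
  induction τ with
  | leaf => intro t; simp [isum, lsum]
  | node l r ihl ihr =>
    intro t
    simp only [isum, lsum]
    rw [ihl, ihr, fa_lc, fb_lc, fa_rc, fb_rc]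
    ring

theorem count_area {A : Nd → ℝ} (hA : ∀ t, Good t → A t = A (lc t) + A (rc t)) (τ : Cut) :
    ∀ t : Nd, Good t → A t = lsum A τ t := by
  induction τ with
  | leaf => intro t _; rfl
  | node l r ihl ihr =>
    intro t h
    rw [hA t h, ihl _ (good_lc h), ihr _ (good_rc h)]
    rfl

theorem count_mono {R : ℝ} {g h : Nd → ℝ}
    (hgh : ∀ t, Good t → R ≤ fa t + fb t → g t ≤ h t) (τ : Cut) :
    ∀ t : Nd, Good t → IsCut R τ t → lsum g τ t ≤ lsum h τ t := by
  induction τ with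
  | leaf => intro t ht hc; exact hgh t ht hc
  | node l r ihl ihr =>
    intro t ht hc
    exact add_le_add (ihl _ (good_lc ht) hc.2.1) (ihr _ (good_rc ht) hc.2.2)

theorem count_lsum_add (g h : Nd → ℝ) (τ : Cut) : ∀ t : Nd,
    lsum (fun s => g s + h s) τ t = lsum g τ t + lsum h τ t := by
  induction τ with
  | leaf => intro t; rfl
  | node l r ihl ihr =>
    intro t
    simp only [lsum]
    rw [ihl, ihr]
    ring

theorem count_lsum_mul (c : ℝ) (g : Nd → ℝ) (τ : Cut) : ∀ t : Nd,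
    lsum (fun s => c * g s) τ t = c * lsum g τ t := by
  induction τ with
  | leaf => intro t; rfl
  | node l r ihl ihr =>
    intro t
    simp only [lsum]
    rw [ihl, ihr]
    ring

theorem count_lsum_const (c : ℝ) (τ : Cut) : ∀ t : Nd,
    lsum (fun _ => c) τ t = nl τ * c := by
  induction τ with
  | leaf => intro t; simp [lsum, nl]
  | node l r ihl ihr =>
    intro t
    simp only [lsum, nl]
    rw [ihl, ihr]
    push_cast
    ring

theorem count_lsum_abs (g : Nd → ℝ) (τ : Cut) : ∀ t : Nd,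
    |lsum g τ t| ≤ lsum (fun s => |g s|) τ t := by
  induction τ with
  | leaf => intro t; exact le_refl _
  | node l r ihl ihr =>
    intro t
    simp only [lsum]
    exact (abs_add_le _ _).trans (add_le_add (ihl _) (ihr _))

theorem count_isum_lin (g h : Nd → ℝ) (c : ℝ) (τ : Cut) : ∀ t : Nd,
    isum (fun s => g s - c * h s) τ t = isum g τ t - c * isum h τ t := by
  induction τ with
  | leaf => intro t; simp [isum]
  | node l r ihl ihr =>
    intro t
    simp only [isum]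
    rw [ihl, ihr]
    ring

theorem count_isum_abs {g : Nd → ℝ} (hg : ∀ t, Good t → |g t| ≤ 1) (τ : Cut) : ∀ t : Nd,
    Good t → |isum g τ t| ≤ nl τ - 1 := by
  induction τ with
  | leaf => intro t _; simp [isum, nl]
  | node l r ihl ihr =>
    intro t ht
    simp only [isum, nl]
    have h1 := ihl _ (good_lc ht)
    have h2 := ihr _ (good_rc ht)
    have h3 := hg t ht
    push_cast
    calc |g t + isum g l (lc t) + isum g r (rc t)|
        ≤ |g t + isum g l (lc t)| + |isum g r (rc t)| := abs_add_le _ _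
      _ ≤ |g t| + |isum g l (lc t)| + |isum g r (rc t)| := by gcongr; exact abs_add_le _ _
      _ ≤ (nl l : ℝ) + nl r - 1 := by linarith

theorem count_floor {u : ℝ} (hu : 0 ≤ u) : |(⌊u⌋₊ : ℝ) - u| ≤ 1 := by
  have h1 := Nat.floor_le hu
  have h2 := Nat.lt_floor_add_one u
  rw [abs_le]
  constructor <;> linarith

theorem count_phi {y : ℝ} (hy : 0 ≤ y) {z : ℕ} (hz : 1 ≤ z) : |phiN y z - y / F z| ≤ 1 := by
  unfold phiN
  exact count_floor (div_nonneg hy (F_pos hz).le)

/-- the identity and the estimate for one cut -/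
theorem count_one {A : Nd → ℝ} (hA : ∀ t, Good t → A t = A (lc t) + A (rc t))
    (hA2 : ∀ t, Good t → 1 / (2 * fa t * fb t) ≤ A t ∧ A t ≤ 1 / (2 * fa t * fb t) + ep t)
    {y R : ℝ} (hy : 0 ≤ y) (hyR : y ^ 2 * Real.exp (-2 * R) ≤ 1) (τ : Cut)
    (hτ : IsCut R τ root) :
    |Nplus y - A root * y ^ 2| ≤ 9 * nl τ +
      lsum (fun t => |Nf y t - (y ^ 2 / (2 * fa t * fb t) - y / (2 * fa t) - y / (2 * fb t))|)
        τ root := by
  have e1 := count_Nf_isum hy τ root good_root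
  have e2 := count_inv τ root
  have e3 := count_area hA τ root good_root
  have e4 := count_isum_lin (fun s => phiN y s.2.2) (fun s => 1 / fc s) y τ root
  have b1 : |isum (fun s => phiN y s.2.2 - y * (1 / fc s)) τ root| ≤ nl τ - 1 := by
    apply count_isum_abs _ τ root good_root
    intro t ht
    have h1 : 1 ≤ t.2.2 := by
      obtain ⟨h1, h2, h3, h4, h5, h6⟩ := ht
      omega
    have h2 := count_phi hy h1
    rw [mul_one_div]
    exact h2
  have b2 : |phiN y 1 - y / F 1| ≤ 1 := count_phi hy le_rfl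
  have b3 : |phiN y 2 - y / F 2| ≤ 1 := count_phi hy (by norm_num)
  -- the area
  have b4 : lsum (fun t => 1 / (2 * fa t * fb t)) τ root ≤ lsum A τ root :=
    count_mono (fun t ht _ => (hA2 t ht).1) τ root good_root hτ
  have b5 : lsum A τ root ≤ lsum (fun t => 1 / (2 * fa t * fb t)) τ root +
      nl τ * (8 * Real.exp (-2 * R)) := by
    rw [← count_lsum_const (8 * Real.exp (-2 * R)) τ root, ← count_lsum_add]
    apply count_mono _ τ root good_root hτ
    intro t ht hR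
    have h1 := (hA2 t ht).2
    have h2 := ep_le ht
    have h3 : Real.exp (-2 * (fa t + fb t)) ≤ Real.exp (-2 * R) := by
      apply Real.exp_le_exp.2
      linarith
    linarith
  -- the main term
  have e5 : lsum (fun t => y ^ 2 / (2 * fa t * fb t) - y / (2 * fa t) - y / (2 * fb t)) τ root =
      y ^ 2 * lsum (fun t => 1 / (2 * fa t * fb t)) τ root -
        y / 2 * lsum (fun s => 1 / fa s + 1 / fb s) τ root := by
    have h1 : (fun t => y ^ 2 / (2 * fa t * fb t) - y / (2 * fa t) - y / (2 * fb t)) =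
        fun t => y ^ 2 * (1 / (2 * fa t * fb t)) + (-(y / 2)) * (1 / fa t + 1 / fb t) := by
      funext t
      rw [mul_one_div, mul_add, mul_one_div, mul_one_div, neg_div, neg_div, div_div, div_div]
      ring
    rw [h1, count_lsum_add, count_lsum_mul, count_lsum_mul]
    ring
  have e6 : lsum (fun t => Nf y t -
      (y ^ 2 / (2 * fa t * fb t) - y / (2 * fa t) - y / (2 * fb t))) τ root =
      lsum (Nf y) τ root -
      lsum (fun t => y ^ 2 / (2 * fa t * fb t) - y / (2 * fa t) - y / (2 * fb t)) τ root := by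
    have h1 : (fun t => Nf y t -
        (y ^ 2 / (2 * fa t * fb t) - y / (2 * fa t) - y / (2 * fb t))) =
        fun t => Nf y t +
          (-1) * (y ^ 2 / (2 * fa t * fb t) - y / (2 * fa t) - y / (2 * fb t)) := by
      funext t; ring
    rw [h1, count_lsum_add, count_lsum_mul]
    ring
  have b6 := count_lsum_abs (fun t => Nf y t -
      (y ^ 2 / (2 * fa t * fb t) - y / (2 * fa t) - y / (2 * fb t))) τ root
  have fr : fa root = F 1 := rfl
  have fr2 : fb root = F 2 := rfl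
  have key : Nplus y - A root * y ^ 2 =
      isum (fun s => phiN y s.2.2 - y * (1 / fc s)) τ root +
      (phiN y 1 - y / F 1) / 2 + (phiN y 2 - y / F 2) / 2 +
      y ^ 2 * (lsum (fun t => 1 / (2 * fa t * fb t)) τ root - lsum A τ root) +
      lsum (fun t => Nf y t -
        (y ^ 2 / (2 * fa t * fb t) - y / (2 * fa t) - y / (2 * fb t))) τ root := by
    rw [e6, e5, e4, e2]
    unfold Nplus
    rw [e1, e3, fr, fr2]
    ring
  have b7 : |y ^ 2 * (lsum (fun t => 1 / (2 * fa t * fb t)) τ root - lsum A τ root)| ≤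
      8 * nl τ := by
    rw [abs_mul, abs_of_nonneg (sq_nonneg y)]
    have h1 : |lsum (fun t => 1 / (2 * fa t * fb t)) τ root - lsum A τ root| ≤
        nl τ * (8 * Real.exp (-2 * R)) := by
      rw [abs_le]
      constructor
      · linarith
      · have : 0 ≤ (nl τ : ℝ) * (8 * Real.exp (-2 * R)) := by positivity
        linarith
    calc y ^ 2 * |lsum (fun t => 1 / (2 * fa t * fb t)) τ root - lsum A τ root|
        ≤ y ^ 2 * (nl τ * (8 * Real.exp (-2 * R))) := by gcongr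
      _ = 8 * nl τ * (y ^ 2 * Real.exp (-2 * R)) := by ring
      _ ≤ 8 * nl τ * 1 := by gcongr
      _ = 8 * nl τ := mul_one _
  rw [key]
  have t1 := abs_add_le (isum (fun s => phiN y s.2.2 - y * (1 / fc s)) τ root +
      (phiN y 1 - y / F 1) / 2 + (phiN y 2 - y / F 2) / 2 +
      y ^ 2 * (lsum (fun t => 1 / (2 * fa t * fb t)) τ root - lsum A τ root))
      (lsum (fun t => Nf y t -
        (y ^ 2 / (2 * fa t * fb t) - y / (2 * fa t) - y / (2 * fb t))) τ root)
  have t2 := abs_add_le (isum (fun s => phiN y s.2.2 - y * (1 / fc s)) τ root +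
      (phiN y 1 - y / F 1) / 2 + (phiN y 2 - y / F 2) / 2)
      (y ^ 2 * (lsum (fun t => 1 / (2 * fa t * fb t)) τ root - lsum A τ root))
  have t3 := abs_add_le (isum (fun s => phiN y s.2.2 - y * (1 / fc s)) τ root +
      (phiN y 1 - y / F 1) / 2) ((phiN y 2 - y / F 2) / 2)
  have t4 := abs_add_le (isum (fun s => phiN y s.2.2 - y * (1 / fc s)) τ root)
      ((phiN y 1 - y / F 1) / 2)
  have t5 : |(phiN y 1 - y / F 1) / 2| ≤ 1 / 2 := by
    rw [abs_div, abs_of_pos (by norm_num : (0 : ℝ) < 2)]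
    linarith
  have t6 : |(phiN y 2 - y / F 2) / 2| ≤ 1 / 2 := by
    rw [abs_div, abs_of_pos (by norm_num : (0 : ℝ) < 2)]
    linarith
  linarith

theorem count_LP_good {τ : Cut} {p : List Bool} (_ : LP τ p) : Good (nd root p) :=
  good_nd good_root p

theorem count_main : ∃ A : ℝ, 0 < A ∧ ∃ K y0 : ℝ, ∀ y : ℝ, y0 ≤ y →
    |Nplus y - A * y ^ 2| ≤ K * (y / (Real.log y) ^ (5 / 4 : ℝ)) := by
  obtain ⟨A, hA, hA2⟩ := area_exists
  obtain ⟨K1, hK1, y1, h1⟩ := leaf_err
  obtain ⟨K2, hK2, R0, h2⟩ := claim_main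
  have hF1 : 0 < F 1 := F_pos le_rfl
  have hF2 : 0 < F 2 := F_pos (by norm_num)
  have hApos : 0 < A root := by
    refine lt_of_lt_of_le ?_ (hA2 root good_root).1
    have fr : fa root = F 1 := rfl
    have fr2 : fb root = F 2 := rfl
    rw [fr, fr2]
    positivity
  refine ⟨A root, hApos, 109 + 6 * (K1 * K2), ?_⟩
  have ev1 : ∀ᶠ y : ℝ in Filter.atTop, Real.log y ^ (13 / 4 : ℝ) ≤ y ^ (1 / 4 : ℝ) := by
    have := (isLittleO_log_rpow_rpow_atTop (13 / 4 : ℝ) (by norm_num : (0 : ℝ) < 1 / 4)).bound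
      (by norm_num : (0 : ℝ) < 1)
    filter_upwards [this, Filter.eventually_ge_atTop (1 : ℝ)] with y hy hy1
    rw [one_mul] at hy
    have hl : 0 ≤ Real.log y := Real.log_nonneg hy1
    rw [Real.norm_of_nonneg (Real.rpow_nonneg hl _),
      Real.norm_of_nonneg (Real.rpow_nonneg (by linarith) _)] at hy
    exact hy
  have ev2 : ∀ᶠ y : ℝ in Filter.atTop, max 2 R0 ≤ Real.log y :=
    Real.tendsto_log_atTop.eventually_ge_atTop _
  have ev := (ev1.and ev2).and ((Filter.eventually_ge_atTop y1).and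
    (Filter.eventually_ge_atTop (1 : ℝ)))
  obtain ⟨y0, hy0⟩ := Filter.eventually_atTop.1 ev
  refine ⟨y0, fun y hy => ?_⟩
  obtain ⟨⟨c1, c2⟩, c3, c4⟩ := hy0 y hy
  have c5 : 2 ≤ Real.log y := (le_max_left _ _).trans c2
  have c6 : R0 ≤ Real.log y := (le_max_right _ _).trans c2
  obtain ⟨L, hL⟩ : ∃ L, L = Real.log y := ⟨_, rfl⟩
  have hy0' : 0 < y := by linarith
  have hRR : R0 ≤ 2 * Real.log y := by linarith
  obtain ⟨τ, hτ⟩ := cut_exists (2 * Real.log y) good_root
  -- the number of leaves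
  have hnl : (nl τ : ℝ) ≤ 3 * (2 * Real.log y) ^ 2 := nl_le (by linarith) good_root hτ
  have hyR : y ^ 2 * Real.exp (-2 * (2 * Real.log y)) ≤ 1 := by
    have e1 : y ^ 2 = Real.exp (2 * Real.log y) := by
      rw [mul_comm, Real.exp_mul, Real.exp_log hy0']
      norm_num
    rw [e1, ← Real.exp_add]
    apply Real.exp_le_one_iff.2
    linarith
  have hone := count_one hA hA2 hy0'.le hyR τ hτ
  have hroot : fa root + fb root < 2 * Real.log y := by
    have fr : fa root = F 1 := rfl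
    have fr2 : fb root = F 2 := rfl
    rw [fr, fr2]
    have := F_one.2
    have := F_two.2
    linarith
  have hcl := h2 (2 * Real.log y) hRR τ hτ
    (fun t => |Nf y t - (y ^ 2 / (2 * fa t * fb t) - y / (2 * fa t) - y / (2 * fb t))|)
    (K1 * (y ^ (3 / 4 : ℝ) + y / (2 * Real.log y) ^ 4)) (K1 * y) (by positivity) (by positivity)
    (by
      intro p hp
      have hs := leaf_size good_root hτ hroot hp
      rcases h1 y c3 (nd root p) (good_nd good_root p) hs.1 (by linarith [hs.2]) with h3 | h3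
      · exact Or.inl h3
      · exact Or.inr h3)
  refine hone.trans ?_
  -- numerical estimates
  have hLpos : 0 < Real.log y := by linarith
  have hX0 : 0 < Real.log y ^ (5 / 4 : ℝ) := Real.rpow_pos_of_pos hLpos _
  have x1 : Real.log y ^ 2 * y ^ (3 / 4 : ℝ) ≤ y / Real.log y ^ (5 / 4 : ℝ) := by
    rw [le_div_iff₀ hX0]
    have e1 : Real.log y ^ 2 * y ^ (3 / 4 : ℝ) * Real.log y ^ (5 / 4 : ℝ) =
        Real.log y ^ (13 / 4 : ℝ) * y ^ (3 / 4 : ℝ) := by
      have e2 : Real.log y ^ (13 / 4 : ℝ) = Real.log y ^ 2 * Real.log y ^ (5 / 4 : ℝ) := by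
        rw [← Real.rpow_natCast, ← Real.rpow_add hLpos]
        norm_num
      rw [e2]
      ring
    have e3 : y = y ^ (1 / 4 : ℝ) * y ^ (3 / 4 : ℝ) := by
      rw [← Real.rpow_add hy0']
      norm_num
    rw [e1]
    calc Real.log y ^ (13 / 4 : ℝ) * y ^ (3 / 4 : ℝ) ≤ y ^ (1 / 4 : ℝ) * y ^ (3 / 4 : ℝ) := by
          gcongr
      _ = y := e3.symm
  have x2 : (1 : ℝ) ≤ y ^ (3 / 4 : ℝ) := Real.one_le_rpow c4 (by norm_num)
  have x3 : Real.log y ^ 2 ≤ y / Real.log y ^ (5 / 4 : ℝ) := by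
    refine le_trans ?_ x1
    nlinarith [sq_nonneg (Real.log y)]
  have x4 : y / (2 * Real.log y) ^ 4 * (2 * Real.log y) ^ 2 ≤ y / Real.log y ^ (5 / 4 : ℝ) := by
    have e1 : y / (2 * Real.log y) ^ 4 * (2 * Real.log y) ^ 2 = y / (2 * Real.log y) ^ 2 := by
      field_simp
    rw [e1]
    apply div_le_div_of_nonneg_left hy0'.le hX0
    calc Real.log y ^ (5 / 4 : ℝ) ≤ Real.log y ^ (2 : ℝ) :=
          Real.rpow_le_rpow_of_exponent_le (by linarith) (by norm_num)
      _ = Real.log y ^ 2 := by norm_num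
      _ ≤ (2 * Real.log y) ^ 2 := by nlinarith
  have x5 : y * (2 * Real.log y) ^ (-(5 / 4) : ℝ) ≤ y / Real.log y ^ (5 / 4 : ℝ) := by
    rw [Real.rpow_neg (by linarith), ← div_eq_mul_inv]
    apply div_le_div_of_nonneg_left hy0'.le hX0
    exact Real.rpow_le_rpow hLpos.le (by linarith) (by norm_num)
  have x6 : (1 : ℝ) ≤ Real.log y ^ 2 := by nlinarith
  have hK12 : 0 < K1 * K2 := mul_pos hK1 hK2
  have z1 : 9 * (nl τ : ℝ) ≤ 108 * (y / Real.log y ^ (5 / 4 : ℝ)) := by
    nlinarith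
  have z2 : K2 * (2 * Real.log y) ^ 2 * (K1 * (y ^ (3 / 4 : ℝ) + y / (2 * Real.log y) ^ 4)) ≤
      5 * (K1 * K2) * (y / Real.log y ^ (5 / 4 : ℝ)) := by
    have e1 : K2 * (2 * Real.log y) ^ 2 * (K1 * (y ^ (3 / 4 : ℝ) + y / (2 * Real.log y) ^ 4)) =
        (K1 * K2) * (4 * (Real.log y ^ 2 * y ^ (3 / 4 : ℝ)) +
          y / (2 * Real.log y) ^ 4 * (2 * Real.log y) ^ 2) := by ring
    rw [e1]
    have e2 : 4 * (Real.log y ^ 2 * y ^ (3 / 4 : ℝ)) +
          y / (2 * Real.log y) ^ 4 * (2 * Real.log y) ^ 2 ≤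
          5 * (y / Real.log y ^ (5 / 4 : ℝ)) := by linarith
    calc (K1 * K2) * (4 * (Real.log y ^ 2 * y ^ (3 / 4 : ℝ)) +
          y / (2 * Real.log y) ^ 4 * (2 * Real.log y) ^ 2) ≤
          (K1 * K2) * (5 * (y / Real.log y ^ (5 / 4 : ℝ))) := by gcongr
      _ = _ := by ring
  have z3 : K2 * (K1 * y) * (2 * Real.log y) ^ (-(5 / 4) : ℝ) ≤
      (K1 * K2) * (y / Real.log y ^ (5 / 4 : ℝ)) := by
    calc K2 * (K1 * y) * (2 * Real.log y) ^ (-(5 / 4) : ℝ) =
        (K1 * K2) * (y * (2 * Real.log y) ^ (-(5 / 4) : ℝ)) := by ring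
      _ ≤ _ := by gcongr
  have z4 : 0 ≤ y / Real.log y ^ (5 / 4 : ℝ) := by positivity
  calc 9 * (nl τ : ℝ) + lsum (fun t => |Nf y t -
        (y ^ 2 / (2 * fa t * fb t) - y / (2 * fa t) - y / (2 * fb t))|) τ root
      ≤ 108 * (y / Real.log y ^ (5 / 4 : ℝ)) +
        (5 * (K1 * K2) * (y / Real.log y ^ (5 / 4 : ℝ)) +
        (K1 * K2) * (y / Real.log y ^ (5 / 4 : ℝ))) := by linarith
    _ ≤ (109 + 6 * (K1 * K2)) * (y / Real.log y ^ (5 / 4 : ℝ)) := by nlinarith

end Pool.Agent.Lib.MP_94ab62_nt
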