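import Mathlib

/-!
# Markoff tree: definitions (MP_94ab62_nt)

A node `t = (x, y, z)` is a Markoff triple with strict maximum `z` and `x ≠ y`.  Its children are
`(x, z, 3xz - y)` and `(z, y, 3zy - x)`.  `F z = arcosh (3z/2)`.
-/

set_option autoImplicit false

namespace Pool.Agent.Lib.MP_94ab62_nt

/-- `F z = arcosh (3z/2)`. -/
noncomputable def F (z : ℕ) : ℝ := Real.arcosh (3 * (z : ℝ) / 2)

/-- triples of naturals -/
abbrev Nd := ℕ × ℕ × ℕ

/-- Markoff triple with `x ≠ y`, `x < z`, `y < z`. -/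
def Good (t : Nd) : Prop :=
  0 < t.1 ∧ 0 < t.2.1 ∧ t.1 ≠ t.2.1 ∧ t.1 < t.2.2 ∧ t.2.1 < t.2.2 ∧
    t.1 ^ 2 + t.2.1 ^ 2 + t.2.2 ^ 2 = 3 * t.1 * t.2.1 * t.2.2

/-- left child -/
def lc (t : Nd) : Nd := (t.1, t.2.2, 3 * t.1 * t.2.2 - t.2.1)

/-- right child -/
def rc (t : Nd) : Nd := (t.2.2, t.2.1, 3 * t.2.2 * t.2.1 - t.1)

/-- the root of the tree -/
def root : Nd := (1, 2, 5)

noncomputable def fa (t : Nd) : ℝ := F t.1
noncomputable def fb (t : Nd) : ℝ := F t.2.1
noncomputable def fc (t : Nd) : ℝ := F t.2.2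

/-- the defect `F x + F y - F z` -/
noncomputable def ep (t : Nd) : ℝ := fa t + fb t - fc t

/-- the descendant of `t` along a path (`true` = left) -/
def nd : Nd → List Bool → Nd
  | t, [] => t
  | t, true :: l => nd (lc t) l
  | t, false :: l => nd (rc t) l

/-- values of a linear functional on the basis of the descendant, from its values on the basis -/
def push {A : Type*} [CommRing A] : List Bool → A × A → A × A
  | [], p => p
  | true :: l, p => push l (p.1, p.1 + p.2)
  | false :: l, p => push l (p.1 + p.2, p.2)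

/-- inverse of `push` -/
def pull {A : Type*} [CommRing A] : List Bool → A × A → A × A
  | [], p => p
  | true :: l, p => ((pull l p).1, (pull l p).2 - (pull l p).1)
  | false :: l, p => ((pull l p).1 - (pull l p).2, (pull l p).2)

/-- finite binary trees -/
inductive Cut where
  | leaf : Cut
  | node : Cut → Cut → Cut

/-- `c` is the cut at level `R` of the tree below `t`: internal nodes have `fa + fb < R`, leaves
have `R ≤ fa + fb`. -/
def IsCut (R : ℝ) : Cut → Nd → Prop
  | .leaf, t => R ≤ fa t + fb t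
  | .node l r, t => fa t + fb t < R ∧ IsCut R l (lc t) ∧ IsCut R r (rc t)

/-- sum over the leaves -/
noncomputable def lsum (g : Nd → ℝ) : Cut → Nd → ℝ
  | .leaf, t => g t
  | .node l r, t => lsum g l (lc t) + lsum g r (rc t)

/-- sum over the internal nodes -/
noncomputable def isum (g : Nd → ℝ) : Cut → Nd → ℝ
  | .leaf, _ => 0
  | .node l r, t => g t + isum g l (lc t) + isum g r (rc t)

/-- number of leaves -/
def nl : Cut → ℕ
  | .leaf => 1
  | .node l r => nl l + nl r

/-- depth -/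
def dep : Cut → ℕ
  | .leaf => 0
  | .node l r => max (dep l) (dep r) + 1

/-- paths leading to leaves -/
def LP : Cut → List Bool → Prop
  | .leaf, [] => True
  | .leaf, _ :: _ => False
  | .node _ _, [] => False
  | .node l _, true :: p => LP l p
  | .node _ r, false :: p => LP r p

/-- number of nodes of the cut `c` at which `T ≤ fa + fb` holds for the first time -/
noncomputable def cc (T : ℝ) : Cut → Nd → ℕ
  | .leaf, _ => 1
  | .node l r, t =>
    haveI := Classical.dec (T ≤ fa t + fb t)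
    if T ≤ fa t + fb t then 1 else cc T l (lc t) + cc T r (rc t)

/-- sum of `φ z` over the nodes of depth `< n` below `t` -/
noncomputable def tsm (φ : ℕ → ℝ) : ℕ → Nd → ℝ
  | 0, _ => 0
  | n + 1, t => φ t.2.2 + tsm φ n (lc t) + tsm φ n (rc t)

/-- number of lattice points -/
noncomputable def phiN (y : ℝ) (z : ℕ) : ℝ := (⌊y / F z⌋₊ : ℝ)

/-- step function -/
noncomputable def stp (c y : ℝ) : ℝ := if c ≤ y then 1 else 0

/-- indicator of `F z ≤ y` -/
noncomputable def phiP (y : ℝ) (z : ℕ) : ℝ := stp (F z) y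

/-- sum of `⌊y / F z⌋` over all nodes below `t` (the fuel is large enough) -/
noncomputable def Nf (y : ℝ) (t : Nd) : ℝ := tsm (phiN y) (⌈2 * y⌉₊ + 2) t

/-- number of nodes below `t` with `F z ≤ y` -/
noncomputable def Pf (y : ℝ) (t : Nd) : ℝ := tsm (phiP y) (⌈2 * y⌉₊ + 2) t

/-- the number of lattice points `(i, j)`, `i, j ≥ 1`, with `i a + j b ≤ y` -/
noncomputable def T (a b y : ℝ) : ℝ :=
  (Set.ncard {p : ℕ × ℕ | 0 < p.1 ∧ 0 < p.2 ∧ (p.1 : ℝ) * a + (p.2 : ℝ) * b ≤ y} : ℝ)

/-- `n` is a small integer covector nearly proportional to `(fa t, fb t)`. -/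
def Bad (W D : ℝ) (t : Nd) (n : ℤ × ℤ) : Prop :=
  0 < n.1 ∧ 0 < n.2 ∧ IsCoprime n.1 n.2 ∧ ((n.1 : ℝ) < W ∨ (n.2 : ℝ) < W) ∧
    |(n.1 : ℝ) * fb t - (n.2 : ℝ) * fa t| ≤ D

/-- number of all lattice classes of norm at most `y`, half weight on the two boundary rays -/
noncomputable def Nplus (y : ℝ) : ℝ := Nf y root + phiN y 1 / 2 + phiN y 2 / 2

/-- number of all primitive classes of norm at most `y`, half weight on the two boundary rays -/
noncomputable def Pplus (y : ℝ) : ℝ := Pf y root + phiP y 1 / 2 + phiP y 2 / 2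

/-- the Mertens function -/
noncomputable def Mert (x : ℝ) : ℝ :=
  ∑ d ∈ Finset.Icc 1 ⌊x⌋₊, (ArithmeticFunction.moebius d : ℝ)

/-- `∑ μ(d)/d²` -/
noncomputable def c2 : ℝ := ∑' d : ℕ, (ArithmeticFunction.moebius d : ℝ) / (d : ℝ) ^ 2

end Pool.Agent.Lib.MP_94ab62_nt
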