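import Pool.Agent.Lib.MP_94ab62_nt.Rep

/-!
# DET: two bad descendants of a node with `fa + fb ≥ 8 log R` come from the same covector

`N = pull p₁ n₁`, `N' = pull p₂ n₂`.  By `rep` (`W = R³`, `D = e^(-R/5)`), `N = λ(a-θ, b-θ') + (δ, δ')`
with `0 ≤ θ, θ' ≤ 2ε`, `|δ|, |δ'| ≤ 5RD`, `λ ≤ 3R³`, same for `N'`.  Hence
`|N.1 N'.2 - N.2 N'.1| ≤ 9R⁶ · 5ε(a+b)·(const) + (terms with D)`, where `ε ≤ 8 e^(-2(a+b))`,
`(a+b) e^(-2(a+b)) ≤ e^(-(a+b)) ≤ R^(-8)`, `a + b ≤ 2R` (`fab_le_nd`).  So the integer determinant is `0`; both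
pairs are coprime (`pull_coprime`) and positive (`pull_pos'`), so they are equal.
-/

set_option autoImplicit false

namespace Pool.Agent.Lib.MP_94ab62_nt

/-- elementary: proportional coprime positive pairs are equal -/
theorem eq_of_det {m n : ℤ × ℤ} (hm : IsCoprime m.1 m.2) (hn : IsCoprime n.1 n.2)
    (h1 : 0 < m.1) (h3 : 0 < n.1)
    (h : m.1 * n.2 = m.2 * n.1) : m = n := by
  have d1 : m.1 ∣ n.1 := hm.dvd_of_dvd_mul_left ⟨n.2, by rw [← h]⟩
  have d2 : n.1 ∣ m.1 := hn.dvd_of_dvd_mul_right ⟨m.2, by rw [h]; ring⟩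
  have e1 : m.1 = n.1 := Int.dvd_antisymm h1.le h3.le d1 d2
  have e2 : m.2 = n.2 := by
    have : m.1 * n.2 = m.1 * m.2 := by rw [h, e1]; ring
    exact (mul_left_cancel₀ h1.ne' this).symm
  exact Prod.ext e1 e2

private theorem det_real {a b K τ l l' x1 x2 y1 y2 : ℝ} (ha : 0 ≤ a) (hb : 0 ≤ b)
    (hl : 0 ≤ l) (hl' : 0 ≤ l') (hlK : l ≤ K) (hlK' : l' ≤ K)
    (h1 : |x1| ≤ τ) (h2 : |x2| ≤ τ) (h3 : |y1| ≤ τ) (h4 : |y2| ≤ τ) :
    |(l * a + x1) * (l' * b + y2) - (l * b + x2) * (l' * a + y1)| ≤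
      2 * K * τ * (a + b) + 2 * τ ^ 2 := by
  have hτ : 0 ≤ τ := (abs_nonneg x1).trans h1
  have e : (l * a + x1) * (l' * b + y2) - (l * b + x2) * (l' * a + y1) =
      (l * a * y2 + l' * b * x1 - l * b * y1 - l' * a * x2) + (x1 * y2 - x2 * y1) := by ring
  have b1 : |l * a * y2| ≤ K * a * τ := by
    rw [abs_mul, abs_of_nonneg (mul_nonneg hl ha)]
    exact mul_le_mul (mul_le_mul_of_nonneg_right hlK ha) h4 (abs_nonneg _)
      (mul_nonneg (hl.trans hlK) ha)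
  have b2 : |l' * b * x1| ≤ K * b * τ := by
    rw [abs_mul, abs_of_nonneg (mul_nonneg hl' hb)]
    exact mul_le_mul (mul_le_mul_of_nonneg_right hlK' hb) h1 (abs_nonneg _)
      (mul_nonneg (hl.trans hlK) hb)
  have b3 : |l * b * y1| ≤ K * b * τ := by
    rw [abs_mul, abs_of_nonneg (mul_nonneg hl hb)]
    exact mul_le_mul (mul_le_mul_of_nonneg_right hlK hb) h3 (abs_nonneg _)
      (mul_nonneg (hl.trans hlK) hb)
  have b4 : |l' * a * x2| ≤ K * a * τ := by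
    rw [abs_mul, abs_of_nonneg (mul_nonneg hl' ha)]
    exact mul_le_mul (mul_le_mul_of_nonneg_right hlK' ha) h2 (abs_nonneg _)
      (mul_nonneg (hl.trans hlK) ha)
  have b5 : |x1 * y2| ≤ τ * τ := by
    rw [abs_mul]; exact mul_le_mul h1 h4 (abs_nonneg _) hτ
  have b6 : |x2 * y1| ≤ τ * τ := by
    rw [abs_mul]; exact mul_le_mul h2 h3 (abs_nonneg _) hτ
  rw [e]
  rw [abs_le] at *
  constructor <;> linarith [b1.1, b1.2, b2.1, b2.2, b3.1, b3.2, b4.1, b4.2, b5.1, b5.2, b6.1, b6.2]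

private theorem exp_small {R : ℝ} (hR : 10 ^ 11 ≤ R) :
    5 * R * Real.exp (-R / 5) ≤ 1 / (1000 * R ^ 4) := by
  have hR0 : 0 < R := by linarith [show (0:ℝ) < 10 ^ 11 by norm_num]
  have h := Real.pow_div_factorial_le_exp (R / 5) (by positivity) 6
  have h2 : Real.exp (-R / 5) = 1 / Real.exp (R / 5) := by
    rw [neg_div, Real.exp_neg, one_div]
  have h3 : (0:ℝ) < (R / 5) ^ 6 / (Nat.factorial 6 : ℝ) := by positivity
  have h4 : Real.exp (-R / 5) ≤ 1 / ((R / 5) ^ 6 / (Nat.factorial 6 : ℝ)) := by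
    rw [h2]; exact one_div_le_one_div_of_le h3 h
  have h5 : 5 * R * Real.exp (-R / 5) ≤ 5 * R * (1 / ((R / 5) ^ 6 / (Nat.factorial 6 : ℝ))) :=
    mul_le_mul_of_nonneg_left h4 (by positivity)
  refine h5.trans ?_
  have h6 : (Nat.factorial 6 : ℝ) = 720 := by norm_num [Nat.factorial]
  rw [h6]
  have h7 : 5 * R * (1 / ((R / 5) ^ 6 / 720)) = 56250000 / R ^ 5 := by
    field_simp
    norm_num
  rw [h7, div_le_div_iff₀ (by positivity) (by positivity)]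
  have : R ^ 5 = R * R ^ 4 := by ring
  rw [this]
  have h8 : 0 < R ^ 4 := by positivity
  nlinarith [mul_le_mul_of_nonneg_right hR h8.le]

theorem det_lemma : ∃ R0 : ℝ, ∀ R : ℝ, R0 ≤ R → ∀ (t : Nd), Good t →
    8 * Real.log R ≤ fa t + fb t →
    ∀ (p₁ p₂ : List Bool) (n₁ n₂ : ℤ × ℤ),
    fa (nd t p₁) + fb (nd t p₁) ≤ 2 * R → fa (nd t p₂) + fb (nd t p₂) ≤ 2 * R →
    Bad (R ^ 3) (Real.exp (-R / 5)) (nd t p₁) n₁ →
    Bad (R ^ 3) (Real.exp (-R / 5)) (nd t p₂) n₂ →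
    pull p₁ n₁ = pull p₂ n₂ := by
  obtain ⟨R1, hR1⟩ := pull_pos'
  refine ⟨max R1 (10 ^ 11), fun R hR t ht hlog p₁ p₂ n₁ n₂ hJ₁ hJ₂ hb₁ hb₂ => ?_⟩
  have hRa : R1 ≤ R := (le_max_left _ _).trans hR
  have hRb : (10 : ℝ) ^ 11 ≤ R := (le_max_right _ _).trans hR
  have hRc : (10 : ℝ) ^ 11 = 100000000000 := by norm_num
  have hR0 : 0 < R := by linarith
  have hρ := exp_small hRb
  have hDpos : 0 < Real.exp (-R / 5) := Real.exp_pos _
  have hR4 : (1 : ℝ) ≤ R ^ 4 := one_le_pow₀ (by linarith)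
  have hρ1 : 5 * R * Real.exp (-R / 5) ≤ 1 / 1000 := by
    refine hρ.trans ?_
    exact one_div_le_one_div_of_le (by norm_num) (by linarith)
  have hD : Real.exp (-R / 5) ≤ 1 / 2 := by nlinarith
  have hW : (1 : ℝ) ≤ R ^ 3 := one_le_pow₀ (by linarith)
  have q1 := rep (by linarith : (1:ℝ) ≤ R) hDpos.le hD hW ht p₁ n₁ hJ₁ hb₁
  have q2 := rep (by linarith : (1:ℝ) ≤ R) hDpos.le hD hW ht p₂ n₂ hJ₂ hb₂
  have pos1 := hR1 R hRa t ht p₁ n₁ hJ₁ hb₁
  have pos2 := hR1 R hRa t ht p₂ n₂ hJ₂ hb₂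
  have hab := fab_le_nd ht p₁
  have ha := fa_ge ht
  have hb := fb_ge ht
  have he0 := ep_pos ht
  have he1 := ep_le ht
  set a := fa t with hadef
  set b := fb t with hbdef
  set ε := ep t with hedef
  set D := Real.exp (-R / 5) with hDdef
  set l := (n₁.1 : ℝ) / fa (nd t p₁) with hldef
  set l' := (n₂.1 : ℝ) / fa (nd t p₂) with hldef'
  set ρ := 5 * R * D with hρdef
  obtain ⟨q10, q11, q12, q13, q14, q15⟩ := q1
  obtain ⟨q20, q21, q22, q23, q24, q25⟩ := q2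
  have hl0 : 0 ≤ l := le_trans (by positivity) q10
  have hl0' : 0 ≤ l' := le_trans (by positivity) q20
  have hρ0 : 0 ≤ ρ := by positivity
  -- the exponential
  set E := Real.exp (-(a + b)) with hEdef
  have hE0 : 0 < E := Real.exp_pos _
  have hE1 : E ≤ 1 / R ^ 8 := by
    have : E ≤ Real.exp (-(8 * Real.log R)) := Real.exp_le_exp.2 (by linarith)
    refine this.trans (le_of_eq ?_)
    rw [Real.exp_neg, one_div]
    congr 1
    rw [show (8 : ℝ) * Real.log R = ((8 : ℕ) : ℝ) * Real.log R by norm_num, Real.exp_nat_mul,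
      Real.exp_log hR0]
  have hEab : (a + b) * E ≤ 1 := by
    have h1 : a + b ≤ Real.exp (a + b) := by linarith [Real.add_one_le_exp (a + b)]
    have h2 : Real.exp (a + b) * E = 1 := by
      rw [hEdef, ← Real.exp_add]; simp
    calc (a + b) * E ≤ Real.exp (a + b) * E := mul_le_mul_of_nonneg_right h1 hE0.le
      _ = 1 := h2
  have hεE : ε ≤ 8 * (E * E) := by
    refine he1.trans (le_of_eq ?_)
    rw [hEdef, ← Real.exp_add]
    congr 2
    ring
  have hεab : (a + b) * ε ≤ 8 * E := by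
    have h0 : 0 ≤ a + b := by linarith
    calc (a + b) * ε ≤ (a + b) * (8 * (E * E)) := mul_le_mul_of_nonneg_left hεE h0
      _ = 8 * E * ((a + b) * E) := by ring
      _ ≤ 8 * E * 1 := mul_le_mul_of_nonneg_left hEab (by positivity)
      _ = 8 * E := by ring
  set τ := 6 * R ^ 3 * ε + ρ with hτdef
  have hlε : 2 * ε * l ≤ 6 * R ^ 3 * ε := by
    have := mul_le_mul_of_nonneg_left q11 (by positivity : 0 ≤ 2 * ε)
    linarith
  have hlε' : 2 * ε * l' ≤ 6 * R ^ 3 * ε := by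
    have := mul_le_mul_of_nonneg_left q21 (by positivity : 0 ≤ 2 * ε)
    linarith
  have hRε : 0 ≤ 6 * R ^ 3 * ε := by positivity
  have x1 : |((pull p₁ n₁).1 : ℝ) - l * a| ≤ τ := by
    rw [abs_le]; constructor <;> linarith
  have x2 : |((pull p₁ n₁).2 : ℝ) - l * b| ≤ τ := by
    rw [abs_le]; constructor <;> linarith
  have y1 : |((pull p₂ n₂).1 : ℝ) - l' * a| ≤ τ := by
    rw [abs_le]; constructor <;> linarith
  have y2 : |((pull p₂ n₂).2 : ℝ) - l' * b| ≤ τ := by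
    rw [abs_le]; constructor <;> linarith
  have hdet := det_real (a := a) (b := b) (K := 3 * R ^ 3) (τ := τ) (l := l) (l' := l')
    (by linarith) (by linarith) hl0 hl0' q11 q21 x1 x2 y1 y2
  have hdet2 : |((pull p₁ n₁).1 : ℝ) * ((pull p₂ n₂).2 : ℝ) -
      ((pull p₁ n₁).2 : ℝ) * ((pull p₂ n₂).1 : ℝ)| ≤
      2 * (3 * R ^ 3) * τ * (a + b) + 2 * τ ^ 2 := by
    refine le_trans (le_of_eq ?_) hdet
    congr 1; ring
  -- numerical bounds
  have hR8 : 0 < R ^ 8 := by positivity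
  have n1 : 2 * (3 * R ^ 3) * (6 * R ^ 3 * ε) * (a + b) ≤ 1 / 10 := by
    have h1 : 2 * (3 * R ^ 3) * (6 * R ^ 3 * ε) * (a + b) = 36 * R ^ 6 * ((a + b) * ε) := by ring
    rw [h1]
    have h2 : 36 * R ^ 6 * ((a + b) * ε) ≤ 36 * R ^ 6 * (8 * (1 / R ^ 8)) :=
      mul_le_mul_of_nonneg_left (hεab.trans (by linarith)) (by positivity)
    refine h2.trans ?_
    have h3 : 36 * R ^ 6 * (8 * (1 / R ^ 8)) = 288 / R ^ 2 := by
      field_simp
      norm_num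
    rw [h3, div_le_div_iff₀ (by positivity) (by norm_num)]
    nlinarith
  have n2 : 2 * (3 * R ^ 3) * ρ * (a + b) ≤ 1 / 10 := by
    have h1 : a + b ≤ 2 * R := hab.trans hJ₁
    have h2 : 2 * (3 * R ^ 3) * ρ * (a + b) ≤
        2 * (3 * R ^ 3) * (1 / (1000 * R ^ 4)) * (2 * R) := by
      apply mul_le_mul (mul_le_mul_of_nonneg_left hρ (by positivity)) h1 (by linarith)
        (by positivity)
    refine h2.trans ?_
    have h3 : 2 * (3 * R ^ 3) * (1 / (1000 * R ^ 4)) * (2 * R) = 12 / 1000 := by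
      field_simp
      norm_num
    rw [h3]; norm_num
  have n3 : 6 * R ^ 3 * ε ≤ 1 / 10 := by
    have h1 : E * E ≤ 1 / R ^ 8 * 1 := by
      apply mul_le_mul hE1 ?_ hE0.le (by positivity)
      rw [hEdef]; exact Real.exp_le_one_iff.2 (by linarith)
    have h2 : 6 * R ^ 3 * ε ≤ 6 * R ^ 3 * (8 * (1 / R ^ 8)) :=
      mul_le_mul_of_nonneg_left (by linarith) (by positivity)
    refine h2.trans ?_
    have h3 : 6 * R ^ 3 * (8 * (1 / R ^ 8)) = 48 / R ^ 5 := by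
      field_simp
      norm_num
    rw [h3, div_le_div_iff₀ (by positivity) (by norm_num)]
    have h5 : R ≤ R ^ 5 := by
      calc R = R * 1 := by ring
        _ ≤ R * R ^ 4 := mul_le_mul_of_nonneg_left hR4 hR0.le
        _ = R ^ 5 := by ring
    linarith
  have hτ0 : 0 ≤ τ := by positivity
  have hτ1 : τ ≤ 1 / 5 := by linarith
  have n4 : 2 * τ ^ 2 ≤ 2 / 25 := by nlinarith
  have n5 : 2 * (3 * R ^ 3) * τ * (a + b) + 2 * τ ^ 2 < 1 := by
    have : 2 * (3 * R ^ 3) * τ * (a + b) =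
      2 * (3 * R ^ 3) * (6 * R ^ 3 * ε) * (a + b) + 2 * (3 * R ^ 3) * ρ * (a + b) := by
      rw [hτdef]; ring
    rw [this]
    linarith
  have hz : (pull p₁ n₁).1 * (pull p₂ n₂).2 - (pull p₁ n₁).2 * (pull p₂ n₂).1 = 0 := by
    have h1 : |(((pull p₁ n₁).1 * (pull p₂ n₂).2 -
        (pull p₁ n₁).2 * (pull p₂ n₂).1 : ℤ) : ℝ)| < 1 := by
      push_cast
      exact lt_of_le_of_lt hdet2 n5
    have h2 : |(pull p₁ n₁).1 * (pull p₂ n₂).2 - (pull p₁ n₁).2 * (pull p₂ n₂).1| < 1 := by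
      exact_mod_cast h1
    exact Int.abs_lt_one_iff.1 h2
  exact eq_of_det (pull_coprime p₁ n₁ hb₁.2.2.1) (pull_coprime p₂ n₂ hb₂.2.2.1) pos1.1 pos2.1
    (by linarith)

end Pool.Agent.Lib.MP_94ab62_nt
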