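import Mathlib

/-!
# Definitions used in the statement for MP_94ab62_nt
-/

set_option autoImplicit false

namespace Pool.Agent.Lib.MP_94ab62_nt

/-- `M(N)`: the number of triples `1 ≤ x ≤ y ≤ z ≤ N` with `x² + y² + z² = 3xyz`. -/
def tripleCount (N : ℕ) : ℕ :=
  ((Finset.Icc 1 N ×ˢ Finset.Icc 1 N ×ˢ Finset.Icc 1 N).filter
    (fun p : ℕ × ℕ × ℕ =>
      p.1 ≤ p.2.1 ∧ p.2.1 ≤ p.2.2 ∧
        p.1 ^ 2 + p.2.1 ^ 2 + p.2.2 ^ 2 = 3 * p.1 * p.2.1 * p.2.2)).card

/-- `m` is a Markoff number. -/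
def IsMarkoff (m : ℕ) : Prop :=
  ∃ x y : ℕ, 0 < x ∧ 0 < y ∧ 0 < m ∧ x ^ 2 + y ^ 2 + m ^ 2 = 3 * x * y * m

/-- The largest entry of the `n`th Markoff triple, `n = 0, 1, 2, …`, when the triples are ordered
by their largest entry: the least `N` with `n < M(N)`. -/
noncomputable def tripleMax (n : ℕ) : ℕ := sInf {N : ℕ | n < tripleCount N}

open Classical in
/-- The number of Markoff numbers up to `N`. -/
noncomputable def numberCount (N : ℕ) : ℕ := ((Finset.Icc 1 N).filter IsMarkoff).card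

end Pool.Agent.Lib.MP_94ab62_nt
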