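import Pool.Agent.Lib.MP_94ab62_nt.Stab
import Pool.Agent.Lib.MP_94ab62_nt.Stmt

/-!
# ENUM: the tree contains every Markoff triple exactly once

Triples `x ≤ y ≤ z` other than `(1,1,1)`, `(1,1,2)` have `x < y < z` (if `x = y`: `2x² + z² = 3x²z` gives `x ∣ z`, `z = xk`,
`2 + k² = 3xk`, `k ∣ 2`; etc.), and then `(x, y, z)` and `(y, x, z)` are `Good`.
For a good `t = (x, y, z)` other than `(1,2,5)`, `(2,1,5)`: if `x < y` then `t = lc (x, 3xy - z, y)`, if `x > y` then
`t = rc (3xy - z, y, x)`, and this parent is good with smaller maximum; and `lc s` has first entry `<` second entry, `rc s` has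
first entry `>` second.  So every good triple is, up to `sw`, a descendant of `root`, for exactly one of `t`, `sw t` and exactly one
path.  Hence for `n` large `∑` over the descendants of depth `< n` with `z ≤ N` counts the good triples with `x < y`, `z ≤ N`:
`tripleCount N = 2 + tsm (phiP (F N)) n root` (`N ≥ 2`), where `F z ≤ F N ↔ z ≤ N` (`F_lt`).
-/

set_option autoImplicit false

namespace Pool.Agent.Lib.MP_94ab62_nt

private theorem enum_snoc_true (t : Nd) (p : List Bool) : nd t (p ++ [true]) = lc (nd t p) := by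
  rw [nd_append]; rfl

private theorem enum_snoc_false (t : Nd) (p : List Bool) : nd t (p ++ [false]) = rc (nd t p) := by
  rw [nd_append]; rfl

private theorem enum_len {t : Nd} (h : Good t) (p : List Bool) :
    t.2.2 + p.length ≤ (nd t p).2.2 := by
  induction p generalizing t with
  | nil => simp [nd]
  | cons b l ih =>
    cases b with
    | true =>
      have h1 := ih (good_lc h)
      have h2 : t.2.2 < (lc t).2.2 := (good_lc h).2.2.2.2.1
      simp only [nd, List.length_cons]
      omega
    | false =>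
      have h1 := ih (good_rc h)
      have h2 : t.2.2 < (rc t).2.2 := (good_rc h).2.2.2.1
      simp only [nd, List.length_cons]
      omega

private theorem enum_lc_inj {u v : Nd} (hu : Good u) (hv : Good v) (h : lc u = lc v) : u = v := by
  have h1 := (good_lc hu).2.2.2.2.1
  have h2 := (good_lc hv).2.2.2.2.1
  obtain ⟨x, y, z⟩ := u
  obtain ⟨x', y', z'⟩ := v
  simp only [lc, Prod.mk.injEq] at h h1 h2 ⊢
  obtain ⟨rfl, rfl, h3⟩ := h
  refine ⟨rfl, by omega, rfl⟩

private theorem enum_rc_inj {u v : Nd} (hu : Good u) (hv : Good v) (h : rc u = rc v) : u = v := by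
  have h1 := (good_rc hu).2.2.2.2.1
  have h2 := (good_rc hv).2.2.2.2.1
  obtain ⟨x, y, z⟩ := u
  obtain ⟨x', y', z'⟩ := v
  simp only [rc, Prod.mk.injEq] at h h1 h2 ⊢
  obtain ⟨rfl, rfl, h3⟩ := h
  refine ⟨by omega, rfl, rfl⟩

private theorem enum_lc_lt {u : Nd} (hu : Good u) : (lc u).1 < (lc u).2.1 := hu.2.2.2.1

private theorem enum_rc_lt {u : Nd} (hu : Good u) : (rc u).2.1 < (rc u).1 := hu.2.2.2.2.1

private theorem enum_uniq (p : List Bool) : ∀ (q : List Bool) (s t : Nd), Good s → Good t →
    s.2.2 = t.2.2 → nd s p = nd t q → s = t ∧ p = q := by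
  induction p using List.reverseRecOn with
  | nil =>
    intro q s t hs ht hz he
    have h1 := enum_len ht q
    rw [← he] at h1
    simp only [nd] at h1
    have h2 : q = [] := by
      apply List.eq_nil_of_length_eq_zero
      omega
    subst h2
    exact ⟨he, rfl⟩
  | append_singleton p b ih =>
    intro q s t hs ht hz he
    rcases List.eq_nil_or_concat q with rfl | ⟨q', b', rfl⟩
    · exfalso
      have h1 := enum_len hs (p ++ [b])
      rw [he] at h1
      simp only [nd, List.length_append, List.length_singleton] at h1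
      omega
    · rw [List.concat_eq_append] at he ⊢
      have hgp := good_nd hs p
      have hgq := good_nd ht q'
      cases b <;> cases b'
      · rw [enum_snoc_false, enum_snoc_false] at he
        obtain ⟨h1, h2⟩ := ih q' s t hs ht hz (enum_rc_inj hgp hgq he)
        exact ⟨h1, by rw [h2]⟩
      · exfalso
        rw [enum_snoc_false, enum_snoc_true] at he
        have h1 := enum_rc_lt hgp
        have h2 := enum_lc_lt hgq
        rw [he] at h1
        omega
      · exfalso
        rw [enum_snoc_false, enum_snoc_true] at he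
        have h1 := enum_lc_lt hgp
        have h2 := enum_rc_lt hgq
        rw [he] at h1
        omega
      · rw [enum_snoc_true, enum_snoc_true] at he
        obtain ⟨h1, h2⟩ := ih q' s t hs ht hz (enum_lc_inj hgp hgq he)
        exact ⟨h1, by rw [h2]⟩

/-- solutions with two equal entries -/
private theorem enum_eq {x z : ℕ} (hx : 0 < x) (hz : 0 < z) (he : x ^ 2 + x ^ 2 + z ^ 2 = 3 * x * x * z) :
    x = 1 ∧ (z = 1 ∨ z = 2) := by
  have h1 : x ^ 2 ∣ z ^ 2 := by
    have h2 : x ^ 2 ∣ x ^ 2 + x ^ 2 + z ^ 2 := by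
      rw [he]
      exact ⟨3 * z, by ring⟩
    have h3 : x ^ 2 ∣ x ^ 2 + x ^ 2 := ⟨2, by ring⟩
    exact (Nat.dvd_add_right h3).1 h2
  rw [Nat.pow_dvd_pow_iff (by norm_num)] at h1
  obtain ⟨k, rfl⟩ := h1
  have h4 : 2 + k ^ 2 = 3 * x * k := by
    have h5 : x ^ 2 * (2 + k ^ 2) = x ^ 2 * (3 * x * k) := by
      calc x ^ 2 * (2 + k ^ 2) = x ^ 2 + x ^ 2 + (x * k) ^ 2 := by ring
        _ = 3 * x * x * (x * k) := he
        _ = x ^ 2 * (3 * x * k) := by ring
    exact Nat.eq_of_mul_eq_mul_left (by positivity) h5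
  have hk : 0 < k := Nat.pos_of_mul_pos_left hz |> fun h => by
    rcases Nat.eq_zero_or_pos k with h0 | h0
    · subst h0; simp at hz
    · exact h0
  have h6 : k ∣ 2 := by
    have h7 : k ∣ 2 + k ^ 2 := by
      rw [h4]
      exact ⟨3 * x, by ring⟩
    have h8 : k ∣ k ^ 2 := ⟨k, by ring⟩
    exact (Nat.dvd_add_left h8).1 h7
  have h9 : k ≤ 2 := Nat.le_of_dvd (by norm_num) h6
  interval_cases k
  · have : x = 1 := by omega
    subst this
    simp
  · have : x = 1 := by omega
    subst this
    simp

/-- the parent -/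
private theorem enum_parent {x y z : ℕ} (hx : 0 < x) (hxy : x < y) (hyz : y < z)
    (he : x ^ 2 + y ^ 2 + z ^ 2 = 3 * x * y * z) :
    (x, y, z) = root ∨ ∃ u : Nd, Good u ∧ u.2.2 < z ∧ lc u = (x, y, z) := by
  have h1 : z < 3 * x * y := by
    by_contra hcon
    push Not at hcon
    have h2 : 3 * x * y * z ≤ z * z := Nat.mul_le_mul_right _ hcon
    nlinarith [Nat.mul_pos hx hx, Nat.mul_pos (hx.trans hxy) (hx.trans hxy)]
  obtain ⟨w, hw⟩ : ∃ w, w = 3 * x * y - z := ⟨_, rfl⟩
  have hsum : z + w = 3 * x * y := by omega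
  have hprod : z * w = x ^ 2 + y ^ 2 := by
    have h3 : z * (z + w) = 3 * x * y * z := by rw [hsum]; ring
    nlinarith
  have hw0 : 0 < w := by omega
  have hwy : w < y := by
    by_contra hcon
    push Not at hcon
    zify at *
    have h4 : ((y : ℤ) - z) * (y - w) = 2 * y ^ 2 + x ^ 2 - 3 * x * y ^ 2 := by
      have : ((y : ℤ) - z) * (y - w) = y ^ 2 - y * (z + w) + z * w := by ring
      rw [this, hsum, hprod]; ring
    have h5 : 0 ≤ ((y : ℤ) - z) * (y - w) := by nlinarith
    nlinarith [mul_nonneg (by linarith : (0 : ℤ) ≤ (x : ℤ) - 1) (sq_nonneg (y : ℤ)),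
      mul_pos (by linarith : (0 : ℤ) < (y : ℤ) - x) (by linarith : (0 : ℤ) < (y : ℤ) + x)]
  have hew : x ^ 2 + w ^ 2 + y ^ 2 = 3 * x * w * y := by
    have h6 : w * (z + w) = 3 * x * w * y := by rw [hsum]; ring
    nlinarith
  by_cases hxw : x = w
  · left
    subst hxw
    obtain ⟨h7, h8⟩ := enum_eq (x := x) (z := y) hx (by omega) (by
      rw [hew])
    subst h7
    rcases h8 with h8 | h8
    · omega
    · subst h8
      simp only [root, Prod.mk.injEq, true_and]
      omega
  · right
    refine ⟨(x, w, y), ⟨hx, hw0, hxw, hxy, hwy, hew⟩, hyz, ?_⟩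
    simp only [lc, Prod.mk.injEq, true_and]
    omega

private theorem enum_sw_sw (t : Nd) : sw (sw t) = t := rfl

/-- every good triple is a descendant of the root, up to `sw` -/
private theorem enum_exists (n : ℕ) : ∀ s : Nd, s.2.2 = n → Good s →
    ∃ p, nd root p = s ∨ nd root p = sw s := by
  induction n using Nat.strong_induction_on with
  | _ n ih =>
    have key : ∀ s : Nd, s.2.2 = n → Good s → s.1 < s.2.1 →
        ∃ p, nd root p = s ∨ nd root p = sw s := by
      intro s hs hg hlt
      obtain ⟨x, y, z⟩ := s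
      rcases enum_parent hg.1 hlt hg.2.2.2.2.1 hg.2.2.2.2.2 with h | ⟨u, hu, huz, hlc⟩
      · exact ⟨[], Or.inl h.symm⟩
      · obtain ⟨p, hp | hp⟩ := ih u.2.2 (by simp only at hs huz; omega) u rfl hu
        · refine ⟨p ++ [true], Or.inl ?_⟩
          rw [enum_snoc_true, hp]
          exact hlc
        · refine ⟨p ++ [false], Or.inr ?_⟩
          rw [enum_snoc_false, hp, rc_sw]
          exact congrArg sw hlc
    intro s hs hg
    rcases lt_or_gt_of_ne hg.2.2.1 with h | h
    · exact key s hs hg h
    · obtain ⟨p, hp⟩ := key (sw s) hs (good_sw hg) h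
      exact ⟨p, by rw [enum_sw_sw] at hp; exact hp.symm⟩

/-- paths of length `< n` -/
private def enumP : ℕ → Finset (List Bool)
  | 0 => ∅
  | n + 1 => insert [] ((enumP n).image (List.cons true) ∪ (enumP n).image (List.cons false))

private theorem mem_enumP (n : ℕ) (p : List Bool) : p ∈ enumP n ↔ p.length < n := by
  induction n generalizing p with
  | zero => simp [enumP]
  | succ n ih =>
    rw [enumP, Finset.mem_insert, Finset.mem_union, Finset.mem_image, Finset.mem_image]
    cases p with
    | nil => simp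
    | cons b l =>
      cases b <;> simp [ih]

private theorem tsm_eq_sum (φ : ℕ → ℝ) (n : ℕ) (t : Nd) :
    tsm φ n t = ∑ p ∈ enumP n, φ (nd t p).2.2 := by
  induction n generalizing t with
  | zero => simp [tsm, enumP]
  | succ n ih =>
    rw [enumP, Finset.sum_insert, Finset.sum_union, Finset.sum_image, Finset.sum_image, tsm,
      ih, ih, add_assoc]
    · rfl
    · intro a _ b _ h
      exact (List.cons.inj h).2
    · intro a _ b _ h
      exact (List.cons.inj h).2
    · rw [Finset.disjoint_left]
      intro a ha hb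
      rw [Finset.mem_image] at ha hb
      obtain ⟨u, _, rfl⟩ := ha
      obtain ⟨v, _, hv⟩ := hb
      exact absurd (List.cons.inj hv).1 (by simp)
    · simp

private def enumA (N : ℕ) : Finset Nd :=
  (Finset.Icc 1 N ×ˢ Finset.Icc 1 N ×ˢ Finset.Icc 1 N).filter
    (fun p : ℕ × ℕ × ℕ =>
      p.1 < p.2.1 ∧ p.2.1 < p.2.2 ∧
        p.1 ^ 2 + p.2.1 ^ 2 + p.2.2 ^ 2 = 3 * p.1 * p.2.1 * p.2.2)

private theorem mem_enumA (N : ℕ) (s : Nd) : s ∈ enumA N ↔
    0 < s.1 ∧ s.1 < s.2.1 ∧ s.2.1 < s.2.2 ∧ s.2.2 ≤ N ∧
      s.1 ^ 2 + s.2.1 ^ 2 + s.2.2 ^ 2 = 3 * s.1 * s.2.1 * s.2.2 := by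
  unfold enumA
  simp only [Finset.mem_filter, Finset.mem_product, Finset.mem_Icc]
  constructor
  · rintro ⟨⟨⟨h1, h2⟩, ⟨h3, h4⟩, h5, h6⟩, h7, h8, h9⟩
    exact ⟨by omega, h7, h8, h6, h9⟩
  · rintro ⟨h1, h2, h3, h4, h5⟩
    exact ⟨⟨⟨by omega, by omega⟩, ⟨by omega, by omega⟩, by omega, by omega⟩, h2, h3, h5⟩

private theorem enum_count {N : ℕ} (hN : 2 ≤ N) : tripleCount N = 2 + (enumA N).card := by
  classical
  have h1 : (Finset.Icc 1 N ×ˢ Finset.Icc 1 N ×ˢ Finset.Icc 1 N).filter
    (fun p : ℕ × ℕ × ℕ =>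
      p.1 ≤ p.2.1 ∧ p.2.1 ≤ p.2.2 ∧
        p.1 ^ 2 + p.2.1 ^ 2 + p.2.2 ^ 2 = 3 * p.1 * p.2.1 * p.2.2) =
      ({(1, 1, 1), (1, 1, 2)} : Finset Nd) ∪ enumA N := by
    ext ⟨x, y, z⟩
    rw [Finset.mem_union, mem_enumA]
    simp only [Finset.mem_filter, Finset.mem_product, Finset.mem_Icc, Finset.mem_insert,
      Finset.mem_singleton, Prod.mk.injEq]
    constructor
    · rintro ⟨⟨⟨h1, h2⟩, ⟨h3, h4⟩, h5, h6⟩, h7, h8, h9⟩
      rcases Nat.lt_or_ge x y with hxy | hxy
      · rcases Nat.lt_or_ge y z with hyz | hyz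
        · right
          exact ⟨by omega, hxy, hyz, h6, h9⟩
        · exfalso
          have hyz' : y = z := le_antisymm h8 hyz
          subst hyz'
          have := enum_eq (x := y) (z := x) (by omega) (by omega) (by
            have e1 : x ^ 2 + y ^ 2 + y ^ 2 = y ^ 2 + y ^ 2 + x ^ 2 := by ring
            have e2 : 3 * x * y * y = 3 * y * y * x := by ring
            rw [← e1, h9, e2])
          omega
      · have hxy' : x = y := le_antisymm h7 hxy
        subst hxy'
        left
        have := enum_eq (x := x) (z := z) (by omega) (by omega) h9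
        omega
    · rintro ((⟨rfl, rfl, rfl⟩ | ⟨rfl, rfl, rfl⟩) | ⟨h1, h2, h3, h4, h5⟩)
      · exact ⟨⟨⟨by omega, by omega⟩, ⟨by omega, by omega⟩, by omega, by omega⟩, by omega, by omega,
          by norm_num⟩
      · exact ⟨⟨⟨by omega, by omega⟩, ⟨by omega, by omega⟩, by omega, by omega⟩, by omega, by omega,
          by norm_num⟩
      · exact ⟨⟨⟨by omega, by omega⟩, ⟨by omega, by omega⟩, by omega, by omega⟩, by omega, by omega,
          h5⟩
  unfold tripleCount
  rw [h1, Finset.card_union_of_disjoint]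
  · congr 1
  · rw [Finset.disjoint_left]
    intro a ha hb
    rw [mem_enumA] at hb
    simp only [Finset.mem_insert, Finset.mem_singleton] at ha
    rcases ha with rfl | rfl
    · exact absurd hb.2.1 (by simp)
    · exact absurd hb.2.1 (by simp)

private def enumO (t : Nd) : Nd := if t.1 < t.2.1 then t else sw t

private theorem enum_bij {N M : ℕ} (hM : N ≤ M) :
    ((enumP M).filter (fun p => (nd root p).2.2 ≤ N)).card = (enumA N).card := by
  classical
  refine Finset.card_bij (fun p _ => enumO (nd root p)) ?_ ?_ ?_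
  · intro p hp
    rw [Finset.mem_filter] at hp
    have hg := good_nd good_root p
    rw [mem_enumA]
    unfold enumO
    split_ifs with h
    · exact ⟨hg.1, h, hg.2.2.2.2.1, hp.2, hg.2.2.2.2.2⟩
    · have hg' := good_sw hg
      have hlt : (nd root p).2.1 < (nd root p).1 := lt_of_le_of_ne (not_lt.1 h) (fun e => hg.2.2.1 e.symm)
      exact ⟨hg'.1, hlt, hg'.2.2.2.2.1, hp.2, hg'.2.2.2.2.2⟩
  · intro p hp q hq he
    have hgp := good_nd good_root p
    have hgq := good_nd good_root q
    have hcase : nd root p = nd root q ∨ nd root p = sw (nd root q) := by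
      simp only [enumO] at he
      split_ifs at he with h1 h2 h2
      · exact Or.inl he
      · exact Or.inr he
      · right
        rw [← he, enum_sw_sw]
      · left
        have := congrArg sw he
        rwa [enum_sw_sw, enum_sw_sw] at this
    rcases hcase with h | h
    · exact (enum_uniq p q root root good_root good_root rfl h).2
    · exfalso
      have h3 : nd root p = nd (sw root) (q.map (!·)) := by
        have hq : (q.map (!·)).map (!·) = q := by
          rw [List.map_map]
          conv_rhs => rw [← List.map_id q]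
          apply List.map_congr_left
          intro a _
          simp
        rw [nd_sw, hq, h]
      have h4 := (enum_uniq p _ root (sw root) good_root (good_sw good_root) rfl h3).1
      simp [root, sw] at h4
  · intro s hs
    rw [mem_enumA] at hs
    obtain ⟨h1, h2, h3, h4, h5⟩ := hs
    have hg : Good s := ⟨h1, h1.trans h2, h2.ne, h2.trans h3, h3, h5⟩
    obtain ⟨p, hp⟩ := enum_exists _ s rfl hg
    have hz : (nd root p).2.2 = s.2.2 := by
      rcases hp with hp | hp <;> rw [hp]
      rfl
    refine ⟨p, ?_, ?_⟩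
    · rw [Finset.mem_filter, mem_enumP]
      have := enum_len good_root p
      rw [hz] at this
      refine ⟨?_, by rw [hz]; exact h4⟩
      simp only [root] at this
      omega
    · rcases hp with hp | hp
      · simp only [hp, enumO]
        rw [if_pos h2]
      · simp only [hp, enumO]
        rw [if_neg, enum_sw_sw]
        simp only [sw]
        omega

theorem enum_main {N : ℕ} (hN : 2 ≤ N) : (tripleCount N : ℝ) = 2 + Pf (F N) root := by
  classical
  have hF0 : 0 < F N := F_pos (by omega)
  have hstable := tsm_stable (φ := phiP (F N)) (y := F N) (fun z _ h => phiP_zero h) good_root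
    (n := ⌈2 * F N⌉₊ + 2) (m := max (⌈2 * F N⌉₊ + 2) N) (by
      have h1 : 2 * F N ≤ (⌈2 * F N⌉₊ : ℝ) := Nat.le_ceil _
      have h2 : fa root = F 1 := rfl
      have h3 : fb root = F 2 := rfl
      rw [h2, h3]
      have h4 := F_one.1
      have h5 := F_two.1
      push_cast
      linarith) (le_max_left _ _)
  rw [Pf, ← hstable, tsm_eq_sum, enum_count hN, ← enum_bij (le_max_right (⌈2 * F N⌉₊ + 2) N)]
  push_cast
  congr 1
  rw [Finset.card_filter]
  push_cast
  apply Finset.sum_congr rfl
  intro p _
  have hg := good_nd good_root p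
  have hz1 : 1 ≤ (nd root p).2.2 := by
    have := enum_len good_root p
    simp only [root] at this ⊢
    omega
  unfold phiP stp
  by_cases hc : (nd root p).2.2 ≤ N
  · rw [if_pos hc, if_pos (F_le hz1 hc)]
  · rw [if_neg hc, if_neg]
    push Not at hc ⊢
    exact F_lt (by omega) hc

end Pool.Agent.Lib.MP_94ab62_nt
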