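import Pool.Agent.Lib.MP_94ab62_nt.Basic

/-!
# EPS1: the function `F z = arcosh (3z/2)`
Use `Real.arcosh` (Mathlib.Analysis.SpecialFunctions.Arcosh): `Real.cosh_arcosh`, `Real.arcosh x = log (x + √(x^2-1))`.
F 1 = 0.96242, F 2 = 1.76274, F 5 = 2.7036.  For `F_log`: `F z = log ((3z + √(9z²-4))/2)` and `√(1-u) ≥ 1-u`.
-/

set_option autoImplicit false

namespace Pool.Agent.Lib.MP_94ab62_nt

private theorem eps1_one_le {z : ℕ} (hz : 1 ≤ z) : (1 : ℝ) < 3 * (z : ℝ) / 2 := by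
  have : (1 : ℝ) ≤ (z : ℝ) := by exact_mod_cast hz
  linarith

theorem cosh_F {z : ℕ} (hz : 1 ≤ z) : Real.cosh (F z) = 3 * (z : ℝ) / 2 :=
  Real.cosh_arcosh (eps1_one_le hz).le

theorem sinh_F {z : ℕ} (hz : 1 ≤ z) :
    Real.sinh (F z) = Real.sqrt ((3 * (z : ℝ) / 2) ^ 2 - 1) :=
  Real.sinh_arcosh (eps1_one_le hz).le

theorem F_pos {z : ℕ} (hz : 1 ≤ z) : 0 < F z := Real.arcosh_pos (eps1_one_le hz)

theorem F_lt {z w : ℕ} (hz : 1 ≤ z) (h : z < w) : F z < F w := by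
  have h1 := eps1_one_le hz
  have h2 := eps1_one_le (hz.trans h.le)
  unfold F
  rw [Real.arcosh_lt_arcosh (by linarith) (by linarith)]
  have : (z : ℝ) < (w : ℝ) := by exact_mod_cast h
  linarith

theorem F_le {z w : ℕ} (hz : 1 ≤ z) (h : z ≤ w) : F z ≤ F w := by
  rcases h.eq_or_lt with rfl | h
  · exact le_rfl
  · exact (F_lt hz h).le

private theorem eps1_exp {z : ℕ} (hz : 1 ≤ z) :
    Real.exp (F z) = 3 * (z : ℝ) / 2 + Real.sqrt ((3 * (z : ℝ) / 2) ^ 2 - 1) :=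
  Real.exp_arcosh (eps1_one_le hz).le

theorem F_one : 24 / 25 ≤ F 1 ∧ F 1 ≤ 97 / 100 := by
  have he := eps1_exp (z := 1) le_rfl
  have h1 := Real.exp_one_gt_d9
  have h2 := Real.exp_one_lt_d9
  norm_num at he
  have hs1 : (1.118 : ℝ) ≤ Real.sqrt (5 / 4) := Real.le_sqrt_of_sq_le (by norm_num)
  have hs2 : Real.sqrt (5 / 4) ≤ (1.1181 : ℝ) := by
    rw [Real.sqrt_le_left (by norm_num)]; norm_num
  constructor
  · rw [← Real.exp_le_exp, he]
    have h3 : Real.exp (24 / 25) * Real.exp (1 / 25) = Real.exp 1 := by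
      rw [← Real.exp_add]; norm_num
    have h4 : (1 : ℝ) / 25 + 1 ≤ Real.exp (1 / 25) := Real.add_one_le_exp _
    have h5 : Real.exp (24 / 25) * (1 / 25 + 1) ≤ Real.exp 1 := by
      rw [← h3]
      exact mul_le_mul_of_nonneg_left h4 (Real.exp_pos _).le
    norm_num at hs1 h2 ⊢
    linarith
  · rw [← Real.exp_le_exp, he]
    have h3 : Real.exp (97 / 100) = Real.exp 1 * Real.exp (-(3 / 100)) := by
      rw [← Real.exp_add]; norm_num
    have h4 : -(3 / 100 : ℝ) + 1 ≤ Real.exp (-(3 / 100)) := Real.add_one_le_exp _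
    rw [h3]
    have h5 : Real.exp 1 * (-(3 / 100 : ℝ) + 1) ≤ Real.exp 1 * Real.exp (-(3 / 100)) :=
      mul_le_mul_of_nonneg_left h4 (Real.exp_pos _).le
    norm_num at hs2 h1 h5 ⊢
    linarith

theorem F_two : 7 / 4 ≤ F 2 ∧ F 2 ≤ 9 / 5 := by
  have he := eps1_exp (z := 2) (by norm_num)
  have h1 := Real.exp_one_gt_d9
  have h2 := Real.exp_one_lt_d9
  norm_num at he
  have hs1 : (2.828 : ℝ) ≤ Real.sqrt 8 := Real.le_sqrt_of_sq_le (by norm_num)
  have hs2 : Real.sqrt 8 ≤ (2.829 : ℝ) := by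
    rw [Real.sqrt_le_left (by norm_num)]; norm_num
  have h6 : Real.exp 2 = Real.exp 1 ^ 2 := by
    rw [← Real.exp_nat_mul]; norm_num
  constructor
  · rw [← Real.exp_le_exp, he]
    have h3 : Real.exp (7 / 4) * Real.exp (1 / 4) = Real.exp 1 ^ 2 := by
      rw [← h6, ← Real.exp_add]; norm_num
    have h4 : (1 : ℝ) + 1 / 4 + (1 / 4) ^ 2 / 2 ≤ Real.exp (1 / 4) :=
      Real.quadratic_le_exp_of_nonneg (by norm_num)
    have h5 : Real.exp (7 / 4) * (1 + 1 / 4 + (1 / 4) ^ 2 / 2) ≤ Real.exp 1 ^ 2 := by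
      rw [← h3]
      exact mul_le_mul_of_nonneg_left h4 (Real.exp_pos _).le
    have h7 : Real.exp 1 ^ 2 ≤ 7.3891 := by
      norm_num at h2 ⊢
      nlinarith [Real.exp_pos 1]
    norm_num at hs1 h7 h5 ⊢
    linarith
  · rw [← Real.exp_le_exp, he]
    have h3 : Real.exp (9 / 5) = Real.exp 1 ^ 2 * Real.exp (-(1 / 5)) := by
      rw [← h6, ← Real.exp_add]; norm_num
    have h4 : -(1 / 5 : ℝ) + 1 ≤ Real.exp (-(1 / 5)) := Real.add_one_le_exp _
    have h5 : Real.exp 1 ^ 2 * (-(1 / 5 : ℝ) + 1) ≤ Real.exp 1 ^ 2 * Real.exp (-(1 / 5)) :=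
      mul_le_mul_of_nonneg_left h4 (by positivity)
    have h7 : 7.389 ≤ Real.exp 1 ^ 2 := by
      norm_num at h1 ⊢
      nlinarith [Real.exp_pos 1]
    rw [h3]
    norm_num at hs2 h7 h5 ⊢
    linarith

theorem F_five : 27 / 10 ≤ F 5 := by
  have he := eps1_exp (z := 5) (by norm_num)
  have h2 := Real.exp_one_lt_d9
  norm_num at he
  have hs1 : (7.433 : ℝ) ≤ Real.sqrt (221 / 4) := Real.le_sqrt_of_sq_le (by norm_num)
  have h6 : Real.exp 3 = Real.exp 1 ^ 3 := by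
    rw [← Real.exp_nat_mul]; norm_num
  rw [← Real.exp_le_exp, he]
  have h3 : Real.exp (27 / 10) * Real.exp (3 / 10) = Real.exp 1 ^ 3 := by
    rw [← h6, ← Real.exp_add]; norm_num
  have h4 : (1.3495 : ℝ) ≤ Real.exp (3 / 10) := by
    have := Real.sum_le_exp_of_nonneg (x := 3 / 10) (by norm_num) 4
    norm_num [Finset.sum_range_succ, Nat.factorial] at this
    norm_num
    linarith
  have h5 : Real.exp (27 / 10) * 1.3495 ≤ Real.exp 1 ^ 3 := by
    rw [← h3]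
    exact mul_le_mul_of_nonneg_left h4 (Real.exp_pos _).le
  have h7 : Real.exp 1 ^ 3 ≤ 20.0856 := by
    have h8 : Real.exp 1 ^ 3 ≤ (2.7182818286 : ℝ) ^ 3 :=
      pow_le_pow_left₀ (Real.exp_pos _).le h2.le 3
    refine h8.trans (by norm_num)
  norm_num at hs1 h7 h5 ⊢
  linarith

theorem F_log {z : ℕ} (hz : 1 ≤ z) :
    F z ≤ Real.log (3 * z) ∧ Real.log (3 * z) - 1 / (z : ℝ) ^ 2 ≤ F z := by
  have hz1 : (1 : ℝ) ≤ (z : ℝ) := by exact_mod_cast hz
  have he := eps1_exp hz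
  have hF : F z = Real.log (3 * (z : ℝ) / 2 + Real.sqrt ((3 * (z : ℝ) / 2) ^ 2 - 1)) := by
    rw [← he, Real.log_exp]
  set x : ℝ := 3 * (z : ℝ) / 2 with hx
  have hx1 : 3 / 2 ≤ x := by rw [hx]; linarith
  have hs1 : Real.sqrt (x ^ 2 - 1) ≤ x := by
    rw [Real.sqrt_le_left (by linarith)]; linarith
  have hs0 : 0 ≤ Real.sqrt (x ^ 2 - 1) := Real.sqrt_nonneg _
  have h2x : 3 * (z : ℝ) = 2 * x := by rw [hx]; ring
  rw [hF, h2x]
  constructor
  · apply Real.log_le_log (by linarith)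
    linarith
  · -- `√(x² - 1) ≥ x - 1/x`
    have hs2 : x - 1 / x ≤ Real.sqrt (x ^ 2 - 1) := by
      apply Real.le_sqrt_of_sq_le
      have h3 : (x - 1 / x) ^ 2 = x ^ 2 - 2 + 1 / x ^ 2 := by
        field_simp
        ring
      rw [h3]
      have h4 : 1 / x ^ 2 ≤ 1 := by
        rw [div_le_one (by positivity)]
        nlinarith
      linarith
    have h5 : 2 * x * (1 - 1 / (2 * x ^ 2)) ≤ x + Real.sqrt (x ^ 2 - 1) := by
      have h6 : 2 * x * (1 - 1 / (2 * x ^ 2)) = x + (x - 1 / x) := by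
        field_simp
        ring
      rw [h6]
      linarith
    have hu : 1 / (2 * x ^ 2) ≤ 2 / 9 := by
      rw [div_le_div_iff₀ (by positivity) (by norm_num)]
      nlinarith
    have hu0 : 0 < 1 / (2 * x ^ 2) := by positivity
    set u := 1 / (2 * x ^ 2) with hudef
    have h7 : Real.log (2 * x) + Real.log (1 - u) ≤ Real.log (x + Real.sqrt (x ^ 2 - 1)) := by
      rw [← Real.log_mul (by linarith) (by linarith)]
      exact Real.log_le_log (mul_pos (by linarith) (by linarith)) h5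
    have h8 : -(u / (1 - u)) ≤ Real.log (1 - u) := by
      have h9 := Real.one_sub_inv_le_log_of_pos (x := 1 - u) (by linarith)
      have h10 : 1 - (1 - u)⁻¹ = -(u / (1 - u)) := by
        have : (1 - u) ≠ 0 := by linarith
        field_simp
        ring
      rw [h10] at h9
      exact h9
    have h11 : u / (1 - u) ≤ 1 / (z : ℝ) ^ 2 := by
      have h12 : (z : ℝ) ^ 2 = 2 / (9 * u) := by
        rw [hudef, hx]
        field_simp
        ring
      rw [h12, one_div_div, div_le_div_iff₀ (by linarith) (by norm_num)]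
      nlinarith
    linarith

end Pool.Agent.Lib.MP_94ab62_nt
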