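import Pool.Agent.Lib.MP_94ab62_nt.Eps1

/-!
# EPS2: the exact formula for `cosh (fc t)` and first estimates

With `X = 3x/2 = cosh a` etc. the Markoff equation reads `X² + Y² + Z² = 2XYZ`, so
`(Z - XY)² = (X² - 1)(Y² - 1) - 1 = sinh² a sinh² b - 1`; and `Z > XY`, because `z` is the larger
root of `T² - 3xyT + x² + y²` (if `x < y`, the polynomial is negative at `T = y`, and `z > y`).
`{x, y}` are distinct positive integers, so `sinh a sinh b ≥ √(5/4) √8 = √10 ≥ 3`.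
-/

set_option autoImplicit false

namespace Pool.Agent.Lib.MP_94ab62_nt

/-- `z` is the larger root of its quadratic equation -/
theorem eps2_large {x y z : ℕ} (hx : 0 < x) (hy : 0 < y) (hxy : x ≠ y) (hxz : x < z)
    (hyz : y < z) (he : x ^ 2 + y ^ 2 + z ^ 2 = 3 * x * y * z) : 3 * x * y < 2 * z := by
  by_contra hcon
  have hcon' : 2 * z ≤ 3 * x * y := not_lt.1 hcon
  zify at hx hy hxz hyz he hcon'
  rcases lt_or_gt_of_ne hxy with h | h
  · zify at h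
    have h1 : 0 < ((y : ℤ) - z) * (y + z - 3 * x * y) := by
      apply mul_pos_of_neg_of_neg <;> linarith
    have h2 : (y : ℤ) ^ 2 ≤ x * y ^ 2 := by nlinarith [sq_nonneg (y : ℤ)]
    nlinarith
  · zify at h
    have h1 : 0 < ((x : ℤ) - z) * (x + z - 3 * x * y) := by
      apply mul_pos_of_neg_of_neg <;> linarith
    have h2 : (x : ℤ) ^ 2 ≤ y * x ^ 2 := by nlinarith [sq_nonneg (x : ℤ)]
    nlinarith

theorem cosh_fc {t : Nd} (h : Good t) :
    Real.cosh (fc t) = Real.cosh (fa t) * Real.cosh (fb t) +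
      Real.sqrt ((Real.sinh (fa t) * Real.sinh (fb t)) ^ 2 - 1) := by
  obtain ⟨x, y, z⟩ := t
  obtain ⟨hx, hy, hxy, hxz, hyz, he⟩ := h
  simp only at hx hy hxy hxz hyz he
  have hl := eps2_large hx hy hxy hxz hyz he
  have hx1 : 1 ≤ x := hx
  have hy1 : 1 ≤ y := hy
  have hz1 : 1 ≤ z := by omega
  have heR : (x : ℝ) ^ 2 + (y : ℝ) ^ 2 + (z : ℝ) ^ 2 = 3 * x * y * z := by exact_mod_cast he
  have hlR : 3 * (x : ℝ) * y < 2 * z := by exact_mod_cast hl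
  show Real.cosh (F z) = Real.cosh (F x) * Real.cosh (F y) +
      Real.sqrt ((Real.sinh (F x) * Real.sinh (F y)) ^ 2 - 1)
  rw [cosh_F hz1, cosh_F hx1, cosh_F hy1]
  have hsx : Real.sinh (F x) ^ 2 = (3 * (x : ℝ) / 2) ^ 2 - 1 := by
    rw [← cosh_F hx1, Real.cosh_sq]
    ring
  have hsy : Real.sinh (F y) ^ 2 = (3 * (y : ℝ) / 2) ^ 2 - 1 := by
    rw [← cosh_F hy1, Real.cosh_sq]
    ring
  have h1 : (Real.sinh (F x) * Real.sinh (F y)) ^ 2 - 1 =
      (3 * (z : ℝ) / 2 - 3 * (x : ℝ) / 2 * (3 * (y : ℝ) / 2)) ^ 2 := by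
    rw [mul_pow, hsx, hsy]
    nlinarith
  rw [h1, Real.sqrt_sq (by linarith)]
  ring

theorem eps2_cases {x y : ℕ} (hx : 0 < x) (hy : 0 < y) (hxy : x ≠ y) :
    (1 ≤ x ∧ 2 ≤ y) ∨ (2 ≤ x ∧ 1 ≤ y) := by omega

theorem S_ge {t : Nd} (h : Good t) : 3 ≤ Real.sinh (fa t) * Real.sinh (fb t) := by
  obtain ⟨x, y, z⟩ := t
  obtain ⟨hx, hy, hxy, hxz, hyz, he⟩ := h
  simp only at hx hy hxy hxz hyz he
  show 3 ≤ Real.sinh (F x) * Real.sinh (F y)
  have hx1 : 1 ≤ x := hx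
  have hy1 : 1 ≤ y := hy
  rw [sinh_F hx1, sinh_F hy1, ← Real.sqrt_mul]
  · apply Real.le_sqrt_of_sq_le
    rcases eps2_cases hx hy hxy with ⟨h1, h2⟩ | ⟨h1, h2⟩
    · have h1' : (1 : ℝ) ≤ x := by exact_mod_cast h1
      have h2' : (2 : ℝ) ≤ y := by exact_mod_cast h2
      have e1 : (5 : ℝ) / 4 ≤ (3 * (x : ℝ) / 2) ^ 2 - 1 := by nlinarith
      have e2 : (8 : ℝ) ≤ (3 * (y : ℝ) / 2) ^ 2 - 1 := by nlinarith
      nlinarith
    · have h1' : (2 : ℝ) ≤ x := by exact_mod_cast h1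
      have h2' : (1 : ℝ) ≤ y := by exact_mod_cast h2
      have e1 : (8 : ℝ) ≤ (3 * (x : ℝ) / 2) ^ 2 - 1 := by nlinarith
      have e2 : (5 : ℝ) / 4 ≤ (3 * (y : ℝ) / 2) ^ 2 - 1 := by nlinarith
      nlinarith
  · have h1' : (1 : ℝ) ≤ x := by exact_mod_cast hx1
    nlinarith

theorem fa_ge {t : Nd} (h : Good t) : 24 / 25 ≤ fa t :=
  F_one.1.trans (F_le le_rfl h.1)

theorem fb_ge {t : Nd} (h : Good t) : 24 / 25 ≤ fb t :=
  F_one.1.trans (F_le le_rfl h.2.1)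

theorem fab_ge {t : Nd} (h : Good t) : 27 / 10 ≤ fa t + fb t := by
  obtain ⟨hx, hy, hxy, _⟩ := h
  have h1 := F_one.1
  have h2 := F_two.1
  rcases eps2_cases hx hy hxy with ⟨h3, h4⟩ | ⟨h3, h4⟩
  · have h5 : F 1 ≤ fa t := F_le le_rfl h3
    have h6 : F 2 ≤ fb t := F_le (by norm_num) h4
    linarith
  · have h5 : F 2 ≤ fa t := F_le (by norm_num) h3
    have h6 : F 1 ≤ fb t := F_le le_rfl h4
    linarith

/-- one of the two is at least `F 2` -/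
theorem fab_cases {t : Nd} (h : Good t) : 7 / 4 ≤ fa t ∨ 7 / 4 ≤ fb t := by
  obtain ⟨hx, hy, hxy, _⟩ := h
  rcases eps2_cases hx hy hxy with ⟨h3, h4⟩ | ⟨h3, h4⟩
  · right
    exact F_two.1.trans (F_le (by norm_num) h4)
  · left
    exact F_two.1.trans (F_le (by norm_num) h3)

theorem eps2_five {x y z : ℕ} (hx : 0 < x) (hy : 0 < y) (hxy : x ≠ y) (hxz : x < z)
    (hyz : y < z) (he : x ^ 2 + y ^ 2 + z ^ 2 = 3 * x * y * z) : 5 ≤ z := by
  have hl := eps2_large hx hy hxy hxz hyz he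
  by_contra hcon
  have hz : z < 5 := not_le.1 hcon
  interval_cases z <;> interval_cases x <;> interval_cases y <;> omega

theorem fc_ge {t : Nd} (h : Good t) : 27 / 10 ≤ fc t := by
  obtain ⟨hx, hy, hxy, hxz, hyz, he⟩ := h
  exact F_five.trans (F_le (by norm_num) (eps2_five hx hy hxy hxz hyz he))

theorem fa_lt_fc {t : Nd} (h : Good t) : fa t < fc t := F_lt h.1 h.2.2.2.1

theorem fb_lt_fc {t : Nd} (h : Good t) : fb t < fc t := F_lt h.2.1 h.2.2.2.2.1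

end Pool.Agent.Lib.MP_94ab62_nt
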