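import Pool.Agent.Lib.MP_94ab62_nt.Eps2

/-!
# EPS3: estimates for the defect `ep t = a + b - c`

With `S = sinh a sinh b`: `cosh (a+b) - cosh c = S - √(S²-1) = 1/(S + √(S²-1))`, and
`cosh (a+b) - cosh c = 2 sinh ((a+b+c)/2) sinh (ε/2)`.  Hence `ε > 0` and
`2 sinh(ε/2) = 1/((S + √(S²-1)) sinh((a+b+c)/2))`.
* `ep_small`: `S ≥ 3`, `(a+b+c)/2 ≥ 2.7`, `sinh 2.7 ≥ 7.3`, `ε ≤ 2 sinh(ε/2)`.
* `ep_ge`: `S ≤ e^(a+b)/4`, `sinh((a+b+c)/2) ≤ e^(a+b)/2`, and `sinh u ≤ 2u` for `0 ≤ u ≤ 1`.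
* `ep_le`: `sinh u ≥ (1-e^(-2·0.96)) e^u/2` for `u ≥ 0.96`, so `S ≥ 0.18 e^(a+b)`,
  `√(S²-1) ≥ 0.9 S`, `sinh((a+b+c)/2) ≥ 0.45 e^(a+b)`: `ε ≤ 6.6 e^(-2(a+b))`.
-/

set_option autoImplicit false

namespace Pool.Agent.Lib.MP_94ab62_nt

/-- `sinh u ≤ u (1 - u/2)/(1 - u)` for `u < 1` -/
theorem eps3_sinh_le {u : ℝ} (h1 : u < 1) :
    Real.sinh u * (1 - u) ≤ u * (1 - u / 2) := by
  have e1 : Real.exp u * (1 - u) ≤ 1 := by
    have h2 : 1 - u ≤ Real.exp (-u) := by
      have := Real.add_one_le_exp (-u)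
      linarith
    calc Real.exp u * (1 - u) ≤ Real.exp u * Real.exp (-u) :=
          mul_le_mul_of_nonneg_left h2 (Real.exp_pos _).le
      _ = 1 := by rw [← Real.exp_add]; simp
  have e2 : 1 - u ≤ Real.exp (-u) := by
    have := Real.add_one_le_exp (-u)
    linarith
  rw [Real.sinh_eq]
  have e3 : (1 - u) * (1 - u) ≤ Real.exp (-u) * (1 - u) :=
    mul_le_mul_of_nonneg_right e2 (by linarith)
  nlinarith

theorem eps3_sinh_le_two {u : ℝ} (h0 : 0 ≤ u) (h1 : u ≤ 1 / 2) : Real.sinh u ≤ 2 * u := by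
  have h2 := eps3_sinh_le (u := u) (by linarith)
  have h3 : 0 ≤ Real.sinh u := Real.sinh_nonneg_iff.2 h0
  nlinarith

theorem eps3_sinh_le_exp (u : ℝ) : Real.sinh u ≤ Real.exp u / 2 := by
  rw [Real.sinh_eq]
  have := Real.exp_pos (-u)
  linarith

/-- exact formula -/
theorem ep_formula {t : Nd} (h : Good t) :
    2 * Real.sinh (ep t / 2) * ((Real.sinh (fa t) * Real.sinh (fb t) +
      Real.sqrt ((Real.sinh (fa t) * Real.sinh (fb t)) ^ 2 - 1)) *
        Real.sinh ((fa t + fb t + fc t) / 2)) = 1 := by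
  have h1 := cosh_fc h
  have h2 := S_ge h
  have hS : (0:ℝ) ≤ (Real.sinh (fa t) * Real.sinh (fb t)) ^ 2 - 1 := by nlinarith
  have h3 := Real.mul_self_sqrt hS
  have h4 : Real.cosh (fa t + fb t) = Real.cosh ((fa t + fb t + fc t) / 2) * Real.cosh (ep t / 2) +
      Real.sinh ((fa t + fb t + fc t) / 2) * Real.sinh (ep t / 2) := by
    rw [← Real.cosh_add]; congr 1; unfold ep; ring
  have h5 : Real.cosh (fc t) = Real.cosh ((fa t + fb t + fc t) / 2) * Real.cosh (ep t / 2) -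
      Real.sinh ((fa t + fb t + fc t) / 2) * Real.sinh (ep t / 2) := by
    rw [← Real.cosh_sub]; congr 1; unfold ep; ring
  rw [Real.cosh_add] at h4
  set S := Real.sinh (fa t) * Real.sinh (fb t) with hSdef
  set Q := Real.sqrt (S ^ 2 - 1) with hQ
  have h6 : 2 * (Real.sinh ((fa t + fb t + fc t) / 2) * Real.sinh (ep t / 2)) = S - Q := by
    linarith
  calc _ = (2 * (Real.sinh ((fa t + fb t + fc t) / 2) * Real.sinh (ep t / 2))) * (S + Q) := by ring
    _ = (S - Q) * (S + Q) := by rw [h6]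
    _ = 1 := by nlinarith

theorem eps3_half_ge {t : Nd} (h : Good t) : 27 / 10 ≤ (fa t + fb t + fc t) / 2 := by
  have h1 := fab_ge h
  have h2 := fc_ge h
  linarith

theorem ep_pos {t : Nd} (h : Good t) : 0 < ep t := by
  have h1 := ep_formula h
  have h2 := S_ge h
  have h3 : 0 < Real.sinh ((fa t + fb t + fc t) / 2) :=
    Real.sinh_pos_iff.2 (by linarith [eps3_half_ge h])
  have h4 := Real.sqrt_nonneg ((Real.sinh (fa t) * Real.sinh (fb t)) ^ 2 - 1)
  by_contra hn
  have h5 : Real.sinh (ep t / 2) ≤ 0 := Real.sinh_nonpos_iff.2 (by linarith)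
  have h6 : 0 < (Real.sinh (fa t) * Real.sinh (fb t) +
      Real.sqrt ((Real.sinh (fa t) * Real.sinh (fb t)) ^ 2 - 1)) *
        Real.sinh ((fa t + fb t + fc t) / 2) := by
    apply mul_pos _ h3
    linarith
  nlinarith [mul_nonneg (neg_nonneg.2 h5) h6.le]

theorem eps3_two_sinh {t : Nd} (h : Good t) : ep t ≤ 2 * Real.sinh (ep t / 2) := by
  have h1 := ep_pos h
  have h2 : ep t / 2 ≤ Real.sinh (ep t / 2) := Real.self_le_sinh_iff.2 (by linarith)
  linarith

theorem ep_small {t : Nd} (h : Good t) : ep t ≤ 1 / 20 := by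
  have h1 := ep_formula h
  have h2 := S_ge h
  have h0 := ep_pos h
  have h3 : 5 ≤ Real.sinh ((fa t + fb t + fc t) / 2) := by
    have e1 : Real.sinh (27 / 10) ≤ Real.sinh ((fa t + fb t + fc t) / 2) :=
      Real.sinh_le_sinh.2 (eps3_half_ge h)
    have e2 : (12 : ℝ) ≤ Real.exp (27 / 10) := by
      have f1 : Real.exp (27 / 10) = Real.exp 1 * Real.exp 1 * Real.exp (7 / 10) := by
        rw [← Real.exp_add, ← Real.exp_add]; norm_num
      have f2 := Real.exp_one_gt_d9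
      have f3 := Real.add_one_le_exp (7 / 10 : ℝ)
      rw [f1]
      have f4 : (7 : ℝ) ≤ Real.exp 1 * Real.exp 1 := by nlinarith
      nlinarith
    have e3 : Real.exp (-(27 / 10)) ≤ 1 := Real.exp_le_one_iff.2 (by norm_num)
    have e4 := Real.sinh_eq (27 / 10)
    linarith
  have h4 : (2:ℝ) ≤ Real.sqrt ((Real.sinh (fa t) * Real.sinh (fb t)) ^ 2 - 1) := by
    apply Real.le_sqrt_of_sq_le
    nlinarith
  have h5 := eps3_two_sinh h
  have h6 : (25 : ℝ) ≤ (Real.sinh (fa t) * Real.sinh (fb t) +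
      Real.sqrt ((Real.sinh (fa t) * Real.sinh (fb t)) ^ 2 - 1)) *
        Real.sinh ((fa t + fb t + fc t) / 2) := by
    have : (5:ℝ) ≤ Real.sinh (fa t) * Real.sinh (fb t) +
      Real.sqrt ((Real.sinh (fa t) * Real.sinh (fb t)) ^ 2 - 1) := by linarith
    nlinarith
  have h7 : 0 ≤ 2 * Real.sinh (ep t / 2) := by linarith
  nlinarith [mul_le_mul_of_nonneg_left h6 h7]

theorem ep_ge {t : Nd} (h : Good t) : Real.exp (-2 * (fa t + fb t)) ≤ ep t := by
  have h1 := ep_formula h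
  have h2 := S_ge h
  have h0 := ep_pos h
  have hs := ep_small h
  have ha := fa_ge h
  have hb := fb_ge h
  have hS1 : Real.sinh (fa t) * Real.sinh (fb t) ≤ Real.exp (fa t + fb t) / 4 := by
    have e1 := eps3_sinh_le_exp (fa t)
    have e2 := eps3_sinh_le_exp (fb t)
    have e3 : 0 ≤ Real.sinh (fa t) := Real.sinh_nonneg_iff.2 (by linarith)
    have e4 : 0 ≤ Real.sinh (fb t) := Real.sinh_nonneg_iff.2 (by linarith)
    rw [Real.exp_add]
    nlinarith [mul_le_mul e1 e2 e4 (by positivity)]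
  have hQ : Real.sqrt ((Real.sinh (fa t) * Real.sinh (fb t)) ^ 2 - 1) ≤
      Real.sinh (fa t) * Real.sinh (fb t) := by
    rw [Real.sqrt_le_left (by linarith)]
    linarith
  have h3 : Real.sinh ((fa t + fb t + fc t) / 2) ≤ Real.exp (fa t + fb t) / 2 := by
    refine (eps3_sinh_le_exp _).trans ?_
    have : Real.exp ((fa t + fb t + fc t) / 2) ≤ Real.exp (fa t + fb t) := by
      apply Real.exp_le_exp.2
      have : fc t = fa t + fb t - ep t := fc_eq t
      linarith
    linarith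
  have h3' : 0 ≤ Real.sinh ((fa t + fb t + fc t) / 2) :=
    Real.sinh_nonneg_iff.2 (by linarith [eps3_half_ge h])
  have h4 := Real.sqrt_nonneg ((Real.sinh (fa t) * Real.sinh (fb t)) ^ 2 - 1)
  have hE : 0 < Real.exp (fa t + fb t) := Real.exp_pos _
  have h6 : (Real.sinh (fa t) * Real.sinh (fb t) +
      Real.sqrt ((Real.sinh (fa t) * Real.sinh (fb t)) ^ 2 - 1)) *
        Real.sinh ((fa t + fb t + fc t) / 2) ≤
      (Real.exp (fa t + fb t) / 2) * (Real.exp (fa t + fb t) / 2) := by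
    apply mul_le_mul _ h3 h3' (by positivity)
    linarith
  have h5 : Real.sinh (ep t / 2) ≤ 2 * (ep t / 2) := eps3_sinh_le_two (by linarith) (by linarith)
  have h7 : 1 ≤ 2 * ep t * ((Real.exp (fa t + fb t) / 2) * (Real.exp (fa t + fb t) / 2)) := by
    rw [← h1]
    apply mul_le_mul (by linarith) h6 _ (by linarith)
    apply mul_nonneg _ h3'
    linarith
  have h8 : Real.exp (-2 * (fa t + fb t)) * (Real.exp (fa t + fb t) * Real.exp (fa t + fb t)) = 1 := by
    rw [← Real.exp_add, ← Real.exp_add, ← Real.exp_zero]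
    congr 1; ring
  have h9 : 0 < Real.exp (fa t + fb t) * Real.exp (fa t + fb t) := by positivity
  by_contra hn
  push Not at hn
  have h10 := mul_lt_mul_of_pos_right hn h9
  rw [h8] at h10
  nlinarith

theorem eps3_sinh_ge {u c k : ℝ} (hu : c ≤ u) (hc : 0 < 2 * k) (hk : 2 * k ≤ Real.exp (2 * c)) :
    (1 - 1 / (2 * k)) / 2 * Real.exp u ≤ Real.sinh u := by
  have h1 : Real.exp (-u) ≤ 1 / (2 * k) * Real.exp u := by
    have e1 : 2 * k ≤ Real.exp (2 * u) := hk.trans (Real.exp_le_exp.2 (by linarith))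
    have e2 : Real.exp u = Real.exp (-u) * Real.exp (2 * u) := by
      rw [← Real.exp_add]; congr 1; ring
    rw [e2, mul_comm, mul_assoc]
    have e3 : 1 ≤ Real.exp (2 * u) * (1 / (2 * k)) := by
      rw [mul_one_div, le_div_iff₀ hc]; linarith
    have e4 := Real.exp_pos (-u)
    nlinarith
  rw [Real.sinh_eq]
  nlinarith [Real.exp_pos u]

theorem eps3_sinh_ge_a {u : ℝ} (hu : 24 / 25 ≤ u) : 2 / 5 * Real.exp u ≤ Real.sinh u := by
  have f2 := Real.exp_one_gt_d9
  have f3 := Real.add_one_le_exp (23 / 50 : ℝ)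
  have f1 : Real.exp (2 * (24 / 25)) = Real.exp 1 * (Real.exp (23 / 50) * Real.exp (23 / 50)) := by
    rw [← Real.exp_add, ← Real.exp_add]; norm_num
  have f4 : (1.46 : ℝ) * 1.46 ≤ Real.exp (23 / 50) * Real.exp (23 / 50) := by
    apply mul_le_mul _ _ (by norm_num) (by positivity) <;> linarith
  have f6 : (2 * (5 / 2) : ℝ) ≤ Real.exp (2 * (24 / 25)) := by
    rw [f1]; nlinarith
  have := eps3_sinh_ge hu (by norm_num) f6
  norm_num at this ⊢
  linarith

theorem eps3_sinh_ge_b {u : ℝ} (hu : 27 / 10 ≤ u) : 49 / 100 * Real.exp u ≤ Real.sinh u := by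
  have e2 : (12 : ℝ) ≤ Real.exp (27 / 10) := by
    have f1 : Real.exp (27 / 10) = Real.exp 1 * Real.exp 1 * Real.exp (7 / 10) := by
      rw [← Real.exp_add, ← Real.exp_add]; norm_num
    have f2 := Real.exp_one_gt_d9
    have f3 := Real.add_one_le_exp (7 / 10 : ℝ)
    rw [f1]
    have f4 : (7 : ℝ) ≤ Real.exp 1 * Real.exp 1 := by nlinarith
    nlinarith
  have f6 : (2 * 50 : ℝ) ≤ Real.exp (2 * (27 / 10)) := by
    rw [two_mul (27 / 10 : ℝ), Real.exp_add]; nlinarith
  have := eps3_sinh_ge hu (by norm_num) f6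
  refine le_trans ?_ this
  apply mul_le_mul_of_nonneg_right _ (Real.exp_pos _).le
  norm_num

theorem ep_le {t : Nd} (h : Good t) : ep t ≤ 8 * Real.exp (-2 * (fa t + fb t)) := by
  have h1 := ep_formula h
  have h2 := S_ge h
  have h0 := ep_pos h
  have hs := ep_small h
  have ha := fa_ge h
  have hb := fb_ge h
  have hE : 0 < Real.exp (fa t + fb t) := Real.exp_pos _
  have hS1 : 4 / 25 * Real.exp (fa t + fb t) ≤ Real.sinh (fa t) * Real.sinh (fb t) := by
    have e1 := eps3_sinh_ge_a ha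
    have e2 := eps3_sinh_ge_a hb
    have e3 : 0 ≤ Real.sinh (fa t) := Real.sinh_nonneg_iff.2 (by linarith)
    rw [Real.exp_add]
    have := mul_le_mul e1 e2 (by positivity) e3
    linarith
  have hQ : 9 / 10 * (Real.sinh (fa t) * Real.sinh (fb t)) ≤
      Real.sqrt ((Real.sinh (fa t) * Real.sinh (fb t)) ^ 2 - 1) := by
    apply Real.le_sqrt_of_sq_le
    nlinarith
  have h3 : 45 / 100 * Real.exp (fa t + fb t) ≤ Real.sinh ((fa t + fb t + fc t) / 2) := by
    refine le_trans ?_ (eps3_sinh_ge_b (eps3_half_ge h))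
    have e1 : Real.exp ((fa t + fb t + fc t) / 2) =
        Real.exp (fa t + fb t) * Real.exp (-(ep t / 2)) := by
      rw [← Real.exp_add]; congr 1; unfold ep; ring
    have e2 : 39 / 40 ≤ Real.exp (-(ep t / 2)) := by
      have := Real.add_one_le_exp (-(ep t / 2))
      linarith
    rw [e1]
    nlinarith
  have h6 : (152 / 500 * Real.exp (fa t + fb t)) * (45 / 100 * Real.exp (fa t + fb t)) ≤
      (Real.sinh (fa t) * Real.sinh (fb t) +
      Real.sqrt ((Real.sinh (fa t) * Real.sinh (fb t)) ^ 2 - 1)) *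
        Real.sinh ((fa t + fb t + fc t) / 2) := by
    apply mul_le_mul _ h3 (by positivity) (by linarith)
    linarith
  have h5 := eps3_two_sinh h
  have h7 : ep t * ((152 / 500 * Real.exp (fa t + fb t)) * (45 / 100 * Real.exp (fa t + fb t)))
      ≤ 1 := by
    rw [← h1]
    exact mul_le_mul h5 h6 (by positivity) (by linarith)
  have h8 : Real.exp (-2 * (fa t + fb t)) * (Real.exp (fa t + fb t) * Real.exp (fa t + fb t)) = 1 := by
    rw [← Real.exp_add, ← Real.exp_add, ← Real.exp_zero]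
    congr 1; ring
  have h9 : 0 < Real.exp (fa t + fb t) * Real.exp (fa t + fb t) := by positivity
  by_contra hn
  push Not at hn
  have h10 := mul_lt_mul_of_pos_right hn h9
  rw [mul_assoc, h8] at h10
  nlinarith

end Pool.Agent.Lib.MP_94ab62_nt
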