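import Mathlib

/-!
# INV: inverting counting functions

`t n = sInf {N | n < f N}`.  For `n` large `f (t n - 1) ≤ n < f (t n)`, so `n = C log²(3 t n) + o(log (t n))` (as
`log²(3t) - log²(3(t-1)) → 0` divided by log), hence `√(n/C) = log (3 t n) + o(1)`.
Converse: `t (f N - 1) ≤ N < t (f N)` and `log (3 t n) = √n/√C + o(1)`, `√(m/C) - √((m-1)/C) → 0`, so `log (3N) = √(f N/C) + o(1)`,
`f N = C (log (3N) + o(1))²`.
-/

set_option autoImplicit false
open Filter Topology

namespace Pool.Agent.Lib.MP_94ab62_nt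

private theorem inv_sq (m : ℕ) {C : ℝ} (hC : 0 < C) :
    (Real.sqrt m / Real.sqrt C) ^ 2 = (m : ℝ) / C := by
  rw [div_pow, Real.sq_sqrt (Nat.cast_nonneg m), Real.sq_sqrt hC.le]

private theorem inv_logadd {N : ℕ} (hN : 1 ≤ N) :
    Real.log (3 * N) = Real.log 3 + Real.log N := by
  have : (N : ℝ) ≠ 0 := by exact_mod_cast (by omega : N ≠ 0)
  exact Real.log_mul (by norm_num) this

private theorem inv_logtend : Tendsto (fun N : ℕ => Real.log (N : ℝ)) atTop atTop :=
  Real.tendsto_log_atTop.comp tendsto_natCast_atTop_atTop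

private theorem invA (f : ℕ → ℕ) {C : ℝ} (hC : 0 < C)
    (h : Tendsto (fun N : ℕ => ((f N : ℝ) - C * (Real.log (3 * N)) ^ 2) / Real.log N) atTop
      (𝓝 0)) :
    Tendsto (fun N : ℕ => Real.sqrt (f N) / Real.sqrt C - Real.log (3 * N)) atTop (𝓝 0) := by
  have h2 : Tendsto (fun N : ℕ => |((f N : ℝ) - C * (Real.log (3 * N)) ^ 2) / Real.log N| / C)
      atTop (𝓝 0) := by
    have := (h.abs).div_const C
    simpa using this
  refine squeeze_zero_norm' ?_ h2
  filter_upwards [eventually_ge_atTop 2] with N hN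
  have hl : 0 < Real.log (N : ℝ) := Real.log_pos (by exact_mod_cast (by omega : 1 < N))
  have hL : Real.log (3 * (N : ℝ)) = Real.log 3 + Real.log N := inv_logadd (by omega)
  have hl3 : 0 < Real.log (3 : ℝ) := Real.log_pos (by norm_num)
  set L := Real.log (3 * (N : ℝ)) with hLdef
  have hlL : Real.log (N : ℝ) ≤ L := by rw [hL]; linarith
  have hLpos : 0 < L := lt_of_lt_of_le hl hlL
  set s := Real.sqrt (f N) / Real.sqrt C with hs
  have hs0 : 0 ≤ s := by positivity
  have hs2 : s ^ 2 = (f N : ℝ) / C := inv_sq (f N) hC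
  have hfs : (f N : ℝ) = C * s ^ 2 := by
    rw [hs2]; field_simp
  rw [Real.norm_eq_abs, le_div_iff₀ hC, abs_div, abs_of_pos hl, le_div_iff₀ hl, hfs]
  have h3 : C * s ^ 2 - C * L ^ 2 = C * (s - L) * (s + L) := by ring
  rw [h3, abs_mul, abs_mul, abs_of_pos hC, abs_of_nonneg (by linarith : 0 ≤ s + L)]
  have h4 : Real.log (N : ℝ) ≤ s + L := by linarith
  have h5 : 0 ≤ C * |s - L| := by positivity
  calc |s - L| * C * Real.log (N : ℝ) = C * |s - L| * Real.log (N : ℝ) := by ring
    _ ≤ C * |s - L| * (s + L) := mul_le_mul_of_nonneg_left h4 h5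

private theorem invB (f : ℕ → ℕ) {C : ℝ} (hC : 0 < C)
    (h : Tendsto (fun N : ℕ => Real.sqrt (f N) / Real.sqrt C - Real.log (3 * N)) atTop (𝓝 0)) :
    Tendsto (fun N : ℕ => ((f N : ℝ) - C * (Real.log (3 * N)) ^ 2) / Real.log N) atTop
      (𝓝 0) := by
  have h1 : Tendsto (fun N : ℕ => (Real.log (N : ℝ))⁻¹) atTop (𝓝 0) :=
    inv_logtend.inv_tendsto_atTop
  have h2 : Tendsto (fun N : ℕ => C * (Real.sqrt (f N) / Real.sqrt C - Real.log (3 * N)) *
      ((Real.sqrt (f N) / Real.sqrt C - Real.log (3 * N)) * (Real.log (N : ℝ))⁻¹ +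
        2 * (Real.log 3 * (Real.log (N : ℝ))⁻¹ + 1))) atTop (𝓝 (C * 0 * (0 * 0 +
          2 * (Real.log 3 * 0 + 1)))) := by
    exact (h.const_mul C).mul ((h.mul h1).add (((h1.const_mul _).add tendsto_const_nhds).const_mul 2))
  have h3 : C * 0 * (0 * 0 + 2 * (Real.log 3 * 0 + 1)) = 0 := by ring
  rw [h3] at h2
  refine h2.congr' ?_
  filter_upwards [eventually_ge_atTop 2] with N hN
  have hl : 0 < Real.log (N : ℝ) := Real.log_pos (by exact_mod_cast (by omega : 1 < N))
  have hL : Real.log (3 * (N : ℝ)) = Real.log 3 + Real.log N := inv_logadd (by omega)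
  have hs2 : (Real.sqrt (f N) / Real.sqrt C) ^ 2 = (f N : ℝ) / C := inv_sq (f N) hC
  set s := Real.sqrt (f N) / Real.sqrt C with hs
  have hfs : (f N : ℝ) = C * s ^ 2 := by
    rw [hs2]; field_simp
  rw [hfs, hL]
  field_simp
  ring

private theorem inv_mem {f : ℕ → ℕ} (hu : ∀ n, ∃ N, n < f N) (n : ℕ) :
    n < f (sInf {N : ℕ | n < f N}) := by
  have : (sInf {N : ℕ | n < f N}) ∈ {N : ℕ | n < f N} := Nat.sInf_mem (hu n)
  exact this

private theorem inv_tendsto {f : ℕ → ℕ} (hf : Monotone f) (hu : ∀ n, ∃ N, n < f N) :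
    Tendsto (fun n => sInf {N : ℕ | n < f N}) atTop atTop := by
  rw [tendsto_atTop]
  intro N0
  filter_upwards [eventually_ge_atTop (f N0)] with n hn
  by_contra hcon
  push Not at hcon
  have h1 := inv_mem hu n
  have h2 := hf hcon.le
  omega

theorem inv_asymp (f : ℕ → ℕ) (hf : Monotone f) {C : ℝ} (hC : 0 < C)
    (h : Tendsto (fun N : ℕ => ((f N : ℝ) - C * (Real.log (3 * N)) ^ 2) / Real.log N) atTop
      (𝓝 0)) :
    Tendsto (fun n : ℕ => ((sInf {N : ℕ | n < f N} : ℕ) : ℝ) /
      Real.exp (Real.sqrt n / Real.sqrt C)) atTop (𝓝 (1 / 3)) := by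
  have hA := invA f hC h
  -- unboundedness
  have hu : ∀ n, ∃ N, n < f N := by
    intro n
    by_contra hcon
    push Not at hcon
    have h1 : Tendsto (fun N : ℕ => Real.log (3 * (N : ℝ))) atTop atTop := by
      have : Tendsto (fun N : ℕ => Real.log 3 + Real.log (N : ℝ)) atTop atTop :=
        tendsto_atTop_add_const_left _ _ inv_logtend
      refine this.congr' ?_
      filter_upwards [eventually_ge_atTop 1] with N hN
      exact (inv_logadd hN).symm
    have h2 : Tendsto (fun N : ℕ => Real.sqrt (f N) / Real.sqrt C) atTop atTop := by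
      have := hA.add_atTop h1
      refine this.congr ?_
      intro N
      ring
    obtain ⟨N, hN⟩ := ((tendsto_atTop.1 h2) (Real.sqrt n / Real.sqrt C + 1)).exists
    have h3 : Real.sqrt (f N) ≤ Real.sqrt n := Real.sqrt_le_sqrt (by exact_mod_cast hcon N)
    have h4 : Real.sqrt (f N) / Real.sqrt C ≤ Real.sqrt n / Real.sqrt C :=
      div_le_div_of_nonneg_right h3 (Real.sqrt_nonneg _)
    linarith
  have ht := inv_tendsto hf hu
  set t : ℕ → ℕ := fun n => sInf {N : ℕ | n < f N} with htdef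
  -- upper bound
  have hU : Tendsto (fun n : ℕ => Real.sqrt (f (t n)) / Real.sqrt C - Real.log (3 * (t n : ℝ)))
      atTop (𝓝 0) := hA.comp ht
  have ht1 : Tendsto (fun n => t n - 1) atTop atTop := by
    rw [tendsto_atTop] at ht ⊢
    intro b
    filter_upwards [ht (b + 1)] with n hn
    omega
  have hLo : Tendsto (fun n : ℕ => Real.sqrt (f (t n - 1)) / Real.sqrt C -
      Real.log (3 * ((t n - 1 : ℕ) : ℝ))) atTop (𝓝 0) := hA.comp ht1
  have hd : Tendsto (fun n : ℕ => Real.log (3 * ((t n - 1 : ℕ) : ℝ)) - Real.log (3 * (t n : ℝ)))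
      atTop (𝓝 0) := by
    have h5 : Tendsto (fun n : ℕ => Real.log (1 - ((t n : ℝ))⁻¹)) atTop (𝓝 (Real.log (1 - 0))) := by
      have h6 : Tendsto (fun n : ℕ => ((t n : ℝ))⁻¹) atTop (𝓝 0) :=
        (tendsto_natCast_atTop_atTop.comp ht).inv_tendsto_atTop
      exact (tendsto_const_nhds.sub h6).log (by norm_num)
    rw [sub_zero, Real.log_one] at h5
    refine h5.congr' ?_
    filter_upwards [(tendsto_atTop.1 ht) 2] with n hn
    have h7 : (1 : ℝ) < (t n : ℝ) := by exact_mod_cast (by omega : 1 < t n)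
    have h8 : ((t n - 1 : ℕ) : ℝ) = (t n : ℝ) - 1 := by
      rw [Nat.cast_sub (by omega)]; simp
    rw [h8, ← Real.log_div (by linarith) (by linarith)]
    congr 1
    field_simp
  have hmain : Tendsto (fun n : ℕ => Real.sqrt n / Real.sqrt C - Real.log (3 * (t n : ℝ)))
      atTop (𝓝 0) := by
    have hLo2 : Tendsto (fun n : ℕ => Real.sqrt (f (t n - 1)) / Real.sqrt C -
        Real.log (3 * (t n : ℝ))) atTop (𝓝 0) := by
      have := hLo.add hd
      rw [add_zero] at this
      refine this.congr ?_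
      intro n
      ring
    refine tendsto_of_tendsto_of_tendsto_of_le_of_le' hLo2 hU ?_ ?_
    · filter_upwards [(tendsto_atTop.1 ht) 1] with n hn
      have h9 : f (t n - 1) ≤ n := by
        have : (t n - 1) ∉ {N : ℕ | n < f N} := Nat.notMem_of_lt_sInf (by
          show t n - 1 < t n
          omega)
        simpa using this
      have h10 : Real.sqrt (f (t n - 1)) ≤ Real.sqrt n := Real.sqrt_le_sqrt (by exact_mod_cast h9)
      have := div_le_div_of_nonneg_right h10 (Real.sqrt_nonneg C)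
      linarith
    · filter_upwards with n
      have h9 : n ≤ f (t n) := (inv_mem hu n).le
      have h10 : Real.sqrt n ≤ Real.sqrt (f (t n)) := Real.sqrt_le_sqrt (by exact_mod_cast h9)
      have := div_le_div_of_nonneg_right h10 (Real.sqrt_nonneg C)
      linarith
  have hexp : Tendsto (fun n : ℕ => Real.exp (-(Real.sqrt n / Real.sqrt C -
      Real.log (3 * (t n : ℝ))) - Real.log 3)) atTop (𝓝 (Real.exp (-0 - Real.log 3))) :=
    (Real.continuous_exp.tendsto _).comp (hmain.neg.sub_const _)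
  have h13 : Real.exp (-0 - Real.log 3) = 1 / 3 := by
    rw [neg_zero, zero_sub, Real.exp_neg, Real.exp_log (by norm_num)]
    norm_num
  rw [h13] at hexp
  refine hexp.congr' ?_
  filter_upwards [(tendsto_atTop.1 ht) 1] with n hn
  have hpos : (0 : ℝ) < (t n : ℝ) := by exact_mod_cast (by omega : 0 < t n)
  have h14 : -(Real.sqrt n / Real.sqrt C - Real.log (3 * (t n : ℝ))) - Real.log 3 =
      Real.log (t n) - Real.sqrt n / Real.sqrt C := by
    rw [inv_logadd hn]; ring
  rw [h14, Real.exp_sub, Real.exp_log hpos]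

theorem inv_conv (f : ℕ → ℕ) (hf : Monotone f) (hu : ∀ n, ∃ N, n < f N) {C : ℝ} (hC : 0 < C)
    (h : Tendsto (fun n : ℕ => ((sInf {N : ℕ | n < f N} : ℕ) : ℝ) /
      Real.exp (Real.sqrt n / Real.sqrt C)) atTop (𝓝 (1 / 3))) :
    Tendsto (fun N : ℕ => ((f N : ℝ) - C * (Real.log (3 * N)) ^ 2) / Real.log N) atTop
      (𝓝 0) := by
  apply invB f hC
  have ht := inv_tendsto hf hu
  set t : ℕ → ℕ := fun n => sInf {N : ℕ | n < f N} with htdef
  have h1 : Tendsto (fun n : ℕ => Real.log (3 * (t n : ℝ)) - Real.sqrt n / Real.sqrt C) atTop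
      (𝓝 0) := by
    have h2 : Tendsto (fun n : ℕ => Real.log ((t n : ℝ) / Real.exp (Real.sqrt n / Real.sqrt C)))
        atTop (𝓝 (Real.log (1 / 3))) := h.log (by norm_num)
    have h3 := h2.add_const (Real.log 3)
    have h4 : Real.log (1 / 3) + Real.log 3 = 0 := by
      rw [one_div, Real.log_inv]; ring
    rw [h4] at h3
    refine h3.congr' ?_
    filter_upwards [(tendsto_atTop.1 ht) 1] with n hn
    have hpos : (0 : ℝ) < (t n : ℝ) := by exact_mod_cast (by omega : 0 < t n)
    rw [Real.log_div hpos.ne' (Real.exp_pos _).ne', Real.log_exp, inv_logadd hn]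
    ring
  have hft : Tendsto f atTop atTop := by
    rw [tendsto_atTop]
    intro b
    obtain ⟨N, hN⟩ := hu b
    filter_upwards [eventually_ge_atTop N] with M hM
    exact hN.le.trans (hf hM)
  have hft1 : Tendsto (fun N => f N - 1) atTop atTop := by
    rw [tendsto_atTop] at hft ⊢
    intro b
    filter_upwards [hft (b + 1)] with n hn
    omega
  have hU : Tendsto (fun N : ℕ => Real.log (3 * (t (f N) : ℝ)) - Real.sqrt (f N) / Real.sqrt C)
      atTop (𝓝 0) := h1.comp hft
  have hLo : Tendsto (fun N : ℕ => Real.log (3 * (t (f N - 1) : ℝ)) -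
      Real.sqrt ((f N - 1 : ℕ) : ℝ) / Real.sqrt C) atTop (𝓝 0) := h1.comp hft1
  have hd : Tendsto (fun N : ℕ => Real.sqrt ((f N - 1 : ℕ) : ℝ) / Real.sqrt C -
      Real.sqrt (f N) / Real.sqrt C) atTop (𝓝 0) := by
    have h5 : Tendsto (fun N : ℕ => (Real.sqrt (f N))⁻¹ / Real.sqrt C) atTop (𝓝 0) := by
      have h6 : Tendsto (fun N : ℕ => Real.sqrt (f N : ℝ)) atTop atTop :=
        Real.tendsto_sqrt_atTop.comp (tendsto_natCast_atTop_atTop.comp hft)
      have := h6.inv_tendsto_atTop.div_const (Real.sqrt C)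
      simpa using this
    refine squeeze_zero_norm' ?_ h5
    filter_upwards [(tendsto_atTop.1 hft) 1] with N hN
    have h7 : ((f N - 1 : ℕ) : ℝ) = (f N : ℝ) - 1 := by
      rw [Nat.cast_sub (by omega)]; simp
    have hpos : (1 : ℝ) ≤ (f N : ℝ) := by exact_mod_cast hN
    rw [← sub_div, Real.norm_eq_abs, abs_div, abs_of_nonneg (Real.sqrt_nonneg C)]
    apply div_le_div_of_nonneg_right _ (Real.sqrt_nonneg C)
    rw [h7]
    set a := Real.sqrt ((f N : ℝ) - 1) with ha
    set b := Real.sqrt (f N : ℝ) with hb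
    have hbpos : 0 < b := Real.sqrt_pos.2 (by linarith)
    have ha0 : 0 ≤ a := Real.sqrt_nonneg _
    have ha2 : a ^ 2 = (f N : ℝ) - 1 := Real.sq_sqrt (by linarith)
    have hb2 : b ^ 2 = (f N : ℝ) := Real.sq_sqrt (by linarith)
    have hab : a ≤ b := Real.sqrt_le_sqrt (by linarith)
    rw [abs_sub_comm, abs_of_nonneg (by linarith : 0 ≤ b - a), ← one_div, le_div_iff₀ hbpos]
    nlinarith [mul_nonneg ha0 (by linarith : 0 ≤ b - a)]
  have hLo2 : Tendsto (fun N : ℕ => Real.sqrt (f N) / Real.sqrt C -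
      Real.log (3 * (t (f N - 1) : ℝ))) atTop (𝓝 0) := by
    have := (hLo.add hd).neg
    rw [add_zero, neg_zero] at this
    refine this.congr ?_
    intro N
    ring
  have hU2 : Tendsto (fun N : ℕ => Real.sqrt (f N) / Real.sqrt C -
      Real.log (3 * (t (f N) : ℝ))) atTop (𝓝 0) := by
    have := hU.neg
    rw [neg_zero] at this
    refine this.congr ?_
    intro N
    ring
  refine tendsto_of_tendsto_of_tendsto_of_le_of_le' hU2 hLo2 ?_ ?_
  · filter_upwards [eventually_ge_atTop 1] with N hN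
    have h8 : N ≤ t (f N) := by
      by_contra hcon
      push Not at hcon
      have h9 := inv_mem hu (f N)
      have h10 := hf hcon.le
      exact absurd (lt_of_lt_of_le h9 h10) (lt_irrefl _)
    have hpos : (0 : ℝ) < (N : ℝ) := by exact_mod_cast (by omega : 0 < N)
    have h11 : Real.log (3 * (N : ℝ)) ≤ Real.log (3 * (t (f N) : ℝ)) := by
      apply Real.log_le_log (by positivity)
      have : (N : ℝ) ≤ (t (f N) : ℝ) := by exact_mod_cast h8
      linarith
    linarith
  · filter_upwards [eventually_ge_atTop 1, (tendsto_atTop.1 hft) 1,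
      hft1.eventually ((tendsto_atTop.1 ht) 1)] with N hN hfN htN
    have h8 : t (f N - 1) ≤ N := Nat.sInf_le (by
      show f N - 1 < f N
      omega)
    have hpos : (0 : ℝ) < (t (f N - 1) : ℝ) := by exact_mod_cast (by omega : 0 < t (f N - 1))
    have h11 : Real.log (3 * (t (f N - 1) : ℝ)) ≤ Real.log (3 * (N : ℝ)) := by
      apply Real.log_le_log (by positivity)
      have : (t (f N - 1) : ℝ) ≤ (N : ℝ) := by exact_mod_cast h8
      linarith
    linarith

end Pool.Agent.Lib.MP_94ab62_nt
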