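import Mathlib

/-!
# TAUB: a Tauberian theorem (Wiener–Ikehara type, via the Riemann–Lebesgue lemma)

Let `φ : ℝ → ℂ` be smooth with compact support and `φ 0 = 1` (`ContDiffBump`), `K = 𝓕 φ` (a Schwartz function, so
`∫ |K| < ∞`, `∫ |w| |K w| dw < ∞`, `∫ K = φ 0 = 1` by Fourier inversion).  For `l > 0` put
`K_l w = l K (l w) = ∫ φ(t/l) e^(-2πi t w) dt`.
1. For `e > 0`: `∫_{u>0} g u e^(-e u) K_l (v-u) du = ∫ φ(t/l) e^(-2πi t v) G(1+e-2πi t) dt` (Fubini).
2. `e → 0+`: dominated convergence on both sides (`G` is bounded on compact subsets of `Re s ≥ 1`):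
   `∫_{u>0} g u K_l (v-u) du = ∫ φ(t/l) G(1-2πi t) e^(-2πi t v) dt`.
3. `v → ∞`: the right side tends to `0` by the Riemann–Lebesgue lemma (`Real.tendsto_integral_exp_smul_cocompact`).
4. `|g v - ∫ g(v-w) K_l(w) dw| ≤ ∫ |K_l w| |g v - g (v-w)| dw ≤ (3/l) ∫ |w||K w| dw + 3 e^(-v/2) ∫ |K|` for `v ≥ 2`
   (for `w ≤ v/2` use `hL`; for `w > v/2 ≥ 1` use `|g v - g(v-w)| ≤ 2 ≤ 3 w`).
So `limsup |g v| ≤ C/l` for every `l > 0`.
-/

set_option autoImplicit false
open MeasureTheory Filter Topology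

namespace Pool.Agent.Lib.MP_94ab62_nt

open Real FourierTransform SchwartzMap

/-- The kernel of the Fourier transform. -/
private theorem taub_exp (x : ℝ) : ‖Complex.exp ((x : ℂ) * Complex.I)‖ = 1 :=
  Complex.norm_exp_ofReal_mul_I x

private theorem taub_re (e t : ℝ) : ((1 : ℂ) + (e : ℂ) - 2 * π * t * Complex.I).re = 1 + e := by
  simp

private theorem taub_key {g : ℝ → ℝ} (hg : Measurable g) (hb : ∀ u, |g u| ≤ 1)
    {G : ℂ → ℂ} (hGL : ∀ s : ℂ, 1 < s.re →
      G s = ∫ u in Set.Ioi (0 : ℝ), (g u : ℂ) * Complex.exp (-(s - 1) * u))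
    {φ : ℝ → ℂ} (hφ : Continuous φ) (hc : HasCompactSupport φ) {e : ℝ} (he : 0 < e) (v : ℝ) :
    ∫ u in Set.Ioi (0 : ℝ), ((g u * Real.exp (-e * u) : ℝ) : ℂ) * 𝓕 φ (v - u) =
      ∫ t : ℝ, Complex.exp (((-2 * π * t * v : ℝ) : ℂ) * Complex.I) •
        (φ t * G (1 + e - 2 * π * t * Complex.I)) := by
  have hφi : Integrable φ := hφ.integrable_of_hasCompactSupport hc
  have hexp : IntegrableOn (fun u : ℝ => Real.exp (-e * u)) (Set.Ioi 0) :=
    integrableOn_exp_mul_Ioi (by linarith) 0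
  have e1 : ∀ u : ℝ, ((g u * Real.exp (-e * u) : ℝ) : ℂ) * 𝓕 φ (v - u) =
      ∫ t : ℝ, ((g u * Real.exp (-e * u) : ℝ) : ℂ) *
        (Complex.exp (((-2 * π * t * (v - u) : ℝ) : ℂ) * Complex.I) * φ t) := by
    intro u
    rw [Real.fourier_real_eq_integral_exp_smul]
    simp only [smul_eq_mul]
    rw [← integral_const_mul]
  simp_rw [e1]
  rw [integral_integral_swap]
  · apply integral_congr_ae
    refine Filter.Eventually.of_forall (fun t => ?_)
    simp only [smul_eq_mul]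
    rw [hGL _ (by simp; exact he)]
    rw [← integral_const_mul, ← integral_const_mul]
    apply setIntegral_congr_fun measurableSet_Ioi
    intro u _
    have h1 : Complex.exp (((-2 * π * t * (v - u) : ℝ) : ℂ) * Complex.I) *
        Complex.exp (-e * u) =
        Complex.exp (((-2 * π * t * v : ℝ) : ℂ) * Complex.I) *
          Complex.exp (-(1 + e - 2 * π * t * Complex.I - 1) * u) := by
      rw [← Complex.exp_add, ← Complex.exp_add]
      congr 1
      push_cast
      ring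
    simp only
    push_cast at h1 ⊢
    linear_combination (g u : ℂ) * φ t * h1
  · have hbd : Integrable (fun p : ℝ × ℝ => Real.exp (-e * p.1) * ‖φ p.2‖)
        ((volume.restrict (Set.Ioi 0)).prod volume) :=
      Integrable.mul_prod hexp hφi.norm
    refine hbd.mono' ?_ ?_
    · apply Measurable.aestronglyMeasurable
      have hφm := hφ.measurable
      unfold Function.uncurry
      fun_prop
    · refine Filter.Eventually.of_forall ?_
      rintro ⟨u, t⟩
      simp only [Function.uncurry]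
      rw [norm_mul, norm_mul, taub_exp, one_mul, Complex.norm_real, Real.norm_eq_abs, abs_mul,
        abs_of_pos (Real.exp_pos _)]
      have h2 := hb u
      have h3 := Real.exp_pos (-e * u)
      have h4 := norm_nonneg (φ t)
      have h5 : |g u| * Real.exp (-e * u) ≤ Real.exp (-e * u) := by nlinarith
      exact mul_le_mul_of_nonneg_right h5 h4

private theorem taub_bound {G : ℂ → ℂ} (hG : ContinuousOn G {s : ℂ | 1 ≤ s.re})
    {φ : ℝ → ℂ} (hc : HasCompactSupport φ) :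
    ∃ M, ∀ e ∈ Set.Icc (0 : ℝ) 1, ∀ t : ℝ, ‖φ t * G (1 + e - 2 * π * t * Complex.I)‖ ≤ ‖φ t‖ * M := by
  have hcomp : IsCompact ((fun p : ℝ × ℝ => (1 + p.1 - 2 * π * p.2 * Complex.I : ℂ)) ''
      (Set.Icc (0 : ℝ) 1 ×ˢ tsupport φ)) := by
    apply (isCompact_Icc.prod hc).image
    fun_prop
  have hsub : ((fun p : ℝ × ℝ => (1 + p.1 - 2 * π * p.2 * Complex.I : ℂ)) ''
      (Set.Icc (0 : ℝ) 1 ×ˢ tsupport φ)) ⊆ {s : ℂ | 1 ≤ s.re} := by
    rintro _ ⟨⟨e, t⟩, ⟨he, _⟩, rfl⟩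
    simp only [Set.mem_setOf_eq]
    have : (1 + (e : ℂ) - 2 * π * t * Complex.I).re = 1 + e := by simp
    rw [this]
    linarith [he.1]
  obtain ⟨M, hM⟩ := (hcomp.exists_bound_of_continuousOn (hG.mono hsub))
  refine ⟨M, ?_⟩
  intro e he t
  rw [norm_mul]
  by_cases ht : t ∈ tsupport φ
  · exact mul_le_mul_of_nonneg_left (hM _ ⟨(e, t), ⟨he, ht⟩, rfl⟩) (norm_nonneg _)
  · rw [image_eq_zero_of_notMem_tsupport ht]
    simp

private theorem taub_cont {G : ℂ → ℂ} (hG : ContinuousOn G {s : ℂ | 1 ≤ s.re})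
    {φ : ℝ → ℂ} (hφ : Continuous φ) {e : ℝ} (he : 0 ≤ e) :
    Continuous (fun t : ℝ => φ t * G (1 + e - 2 * π * t * Complex.I)) := by
  apply hφ.mul
  apply hG.comp_continuous (by fun_prop)
  intro t
  simp only [Set.mem_setOf_eq]
  have : (1 + (e : ℂ) - 2 * π * t * Complex.I).re = 1 + e := by simp
  rw [this]
  linarith

private theorem taub_limit {g : ℝ → ℝ} (hg : Measurable g) (hb : ∀ u, |g u| ≤ 1)
    {G : ℂ → ℂ} (hG : ContinuousOn G {s : ℂ | 1 ≤ s.re}) (hGL : ∀ s : ℂ, 1 < s.re →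
      G s = ∫ u in Set.Ioi (0 : ℝ), (g u : ℂ) * Complex.exp (-(s - 1) * u))
    {φ : ℝ → ℂ} (hφ : Continuous φ) (hc : HasCompactSupport φ) (hK : Integrable (𝓕 φ)) (v : ℝ) :
    ∫ u in Set.Ioi (0 : ℝ), (g u : ℂ) * 𝓕 φ (v - u) =
      𝓕 (fun t : ℝ => φ t * G (1 - 2 * π * t * Complex.I)) v := by
  have hφi : Integrable φ := hφ.integrable_of_hasCompactSupport hc
  obtain ⟨M, hM⟩ := taub_bound hG hc
  have hen : ∀ n : ℕ, (0 : ℝ) < 1 / ((n : ℝ) + 1) := fun n => by positivity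
  have hen1 : ∀ n : ℕ, (1 : ℝ) / ((n : ℝ) + 1) ≤ 1 := fun n => by
    rw [div_le_one (by positivity)]
    have : (0 : ℝ) ≤ n := Nat.cast_nonneg n
    linarith
  have hlim0 : Tendsto (fun n : ℕ => (1 : ℝ) / ((n : ℝ) + 1)) atTop (𝓝 0) :=
    tendsto_one_div_add_atTop_nhds_zero_nat
  have hKv : Integrable (fun u : ℝ => 𝓕 φ (v - u)) := hK.comp_sub_left v
  have hL1 : Tendsto (fun n : ℕ => ∫ u in Set.Ioi (0 : ℝ),
      ((g u * Real.exp (-(1 / ((n : ℝ) + 1)) * u) : ℝ) : ℂ) * 𝓕 φ (v - u)) atTop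
      (𝓝 (∫ u in Set.Ioi (0 : ℝ), (g u : ℂ) * 𝓕 φ (v - u))) := by
    refine tendsto_integral_of_dominated_convergence (fun u => ‖𝓕 φ (v - u)‖) ?_ ?_ ?_ ?_
    · intro n
      refine AEStronglyMeasurable.mul ?_ hKv.aestronglyMeasurable.restrict
      apply Measurable.aestronglyMeasurable
      fun_prop
    · exact hKv.norm.restrict
    · intro n
      refine (ae_restrict_iff' measurableSet_Ioi).2 (Filter.Eventually.of_forall ?_)
      intro u hu
      rw [norm_mul, Complex.norm_real, Real.norm_eq_abs, abs_mul, abs_of_pos (Real.exp_pos _)]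
      have h1 : Real.exp (-(1 / ((n : ℝ) + 1)) * u) ≤ 1 := by
        rw [Real.exp_le_one_iff]
        have := hen n
        have hu' : (0 : ℝ) < u := hu
        nlinarith
      have h2 := hb u
      have h3 := Real.exp_pos (-(1 / ((n : ℝ) + 1)) * u)
      have h4 : |g u| * Real.exp (-(1 / ((n : ℝ) + 1)) * u) ≤ 1 := by
        have := abs_nonneg (g u)
        nlinarith
      calc _ ≤ 1 * ‖𝓕 φ (v - u)‖ := mul_le_mul_of_nonneg_right h4 (norm_nonneg _)
        _ = _ := one_mul _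
    · refine Filter.Eventually.of_forall ?_
      intro u
      apply Tendsto.mul_const
      have h1 : Tendsto (fun n : ℕ => g u * Real.exp (-(1 / ((n : ℝ) + 1)) * u)) atTop
          (𝓝 (g u * Real.exp (-0 * u))) := by
        apply Tendsto.const_mul
        apply (Real.continuous_exp.tendsto _).comp
        exact (hlim0.neg).mul_const u
      rw [neg_zero, zero_mul, Real.exp_zero, mul_one] at h1
      exact (Complex.continuous_ofReal.tendsto _).comp h1
  have hL2 : Tendsto (fun n : ℕ => ∫ t : ℝ,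
      Complex.exp (((-2 * π * t * v : ℝ) : ℂ) * Complex.I) •
        (φ t * G (1 + (1 / ((n : ℝ) + 1) : ℝ) - 2 * π * t * Complex.I))) atTop
      (𝓝 (∫ t : ℝ, Complex.exp (((-2 * π * t * v : ℝ) : ℂ) * Complex.I) •
        (φ t * G (1 - 2 * π * t * Complex.I)))) := by
    refine tendsto_integral_of_dominated_convergence (fun t => ‖φ t‖ * M) ?_ ?_ ?_ ?_
    · intro n
      apply Continuous.aestronglyMeasurable
      exact (by fun_prop : Continuous (fun t : ℝ =>
        Complex.exp (((-2 * π * t * v : ℝ) : ℂ) * Complex.I))).smul (taub_cont hG hφ (hen n).le)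
    · exact hφi.norm.mul_const M
    · intro n
      refine Filter.Eventually.of_forall ?_
      intro t
      rw [norm_smul, taub_exp, one_mul]
      exact hM _ ⟨(hen n).le, hen1 n⟩ t
    · refine Filter.Eventually.of_forall ?_
      intro t
      apply Tendsto.const_smul
      apply Tendsto.const_mul
      have h1 : ContinuousWithinAt G {s : ℂ | 1 ≤ s.re} (1 - 2 * π * t * Complex.I) := by
        apply hG
        simp
      apply h1.tendsto.comp
      rw [tendsto_nhdsWithin_iff]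
      constructor
      · have h2 : Tendsto (fun n : ℕ => ((1 : ℂ) + ((1 / ((n : ℝ) + 1) : ℝ) : ℂ) -
            2 * π * t * Complex.I)) atTop (𝓝 (1 + ((0 : ℝ) : ℂ) - 2 * π * t * Complex.I)) :=
          (((Complex.continuous_ofReal.tendsto _).comp hlim0).const_add 1).sub_const _
        rw [Complex.ofReal_zero, add_zero] at h2
        exact h2
      · refine Filter.Eventually.of_forall ?_
        intro n
        simp only [Set.mem_setOf_eq]
        rw [taub_re]
        linarith [hen n]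
  have hL3 : (fun n : ℕ => ∫ u in Set.Ioi (0 : ℝ),
      ((g u * Real.exp (-(1 / ((n : ℝ) + 1)) * u) : ℝ) : ℂ) * 𝓕 φ (v - u)) =
      (fun n : ℕ => ∫ t : ℝ,
      Complex.exp (((-2 * π * t * v : ℝ) : ℂ) * Complex.I) •
        (φ t * G (1 + (1 / ((n : ℝ) + 1) : ℝ) - 2 * π * t * Complex.I))) := by
    funext n
    exact taub_key hg hb hGL hφ hc (hen n) v
  rw [hL3] at hL1
  rw [tendsto_nhds_unique hL1 hL2, Real.fourier_real_eq_integral_exp_smul]

/-- Steps 1-3. -/
private theorem taub_conv {g : ℝ → ℝ} (hg : Measurable g) (hb : ∀ u, |g u| ≤ 1)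
    {G : ℂ → ℂ} (hG : ContinuousOn G {s : ℂ | 1 ≤ s.re}) (hGL : ∀ s : ℂ, 1 < s.re →
      G s = ∫ u in Set.Ioi (0 : ℝ), (g u : ℂ) * Complex.exp (-(s - 1) * u))
    {φ : ℝ → ℂ} (hφ : Continuous φ) (hc : HasCompactSupport φ) (hK : Integrable (𝓕 φ)) :
    Tendsto (fun v : ℝ => ∫ u in Set.Ioi (0 : ℝ), (g u : ℂ) * 𝓕 φ (v - u)) atTop (𝓝 0) := by
  simp_rw [taub_limit hg hb hG hGL hφ hc hK]
  exact (Real.zero_at_infty_fourier _).mono_left atTop_le_cocompact

/-- Scaling of the Fourier transform. -/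
private theorem taub_scale (φ : ℝ → ℂ) {l : ℝ} (hl : 0 < l) (w : ℝ) :
    𝓕 (fun t => φ (t / l)) w = (l : ℂ) * 𝓕 φ (l * w) := by
  rw [Real.fourier_real_eq_integral_exp_smul, Real.fourier_real_eq_integral_exp_smul]
  have h := MeasureTheory.Measure.integral_comp_div
    (fun s : ℝ => Complex.exp (((-2 * π * (l * s) * w : ℝ) : ℂ) * Complex.I) • φ s) l
  have e1 : ∀ x : ℝ, l * (x / l) = x := fun x => by field_simp
  simp only [e1] at h
  rw [h, abs_of_pos hl, Complex.real_smul]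
  congr 1
  apply integral_congr_ae
  refine Filter.Eventually.of_forall (fun s => ?_)
  simp only
  congr 3
  push_cast
  ring

theorem tauber (g : ℝ → ℝ) (hg : Measurable g) (hb : ∀ u, |g u| ≤ 1) (h0 : ∀ u, u < 0 → g u = 0)
    (hL : ∀ u v, 0 ≤ u → u ≤ v → |g v - g u| ≤ 3 * (v - u) + 3 * Real.exp (-u))
    (G : ℂ → ℂ) (hG : ContinuousOn G {s : ℂ | 1 ≤ s.re})
    (hGL : ∀ s : ℂ, 1 < s.re →
      G s = ∫ u in Set.Ioi (0 : ℝ), (g u : ℂ) * Complex.exp (-(s - 1) * u)) :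
    Tendsto g atTop (𝓝 0) := by
  let b : ContDiffBump (0 : ℝ) := default
  let φ : ℝ → ℂ := fun t => ((b t : ℝ) : ℂ)
  have hφs : ContDiff ℝ ((⊤ : ℕ∞) : WithTop ℕ∞) φ := Complex.ofRealCLM.contDiff.comp b.contDiff
  have hφc : HasCompactSupport φ := b.hasCompactSupport.comp_left (g := Complex.ofReal) rfl
  have hφ : Continuous φ := hφs.continuous
  have hφ0 : φ 0 = 1 := by
    show ((b 0 : ℝ) : ℂ) = 1
    rw [b.one_of_mem_closedBall (Metric.mem_closedBall_self b.rIn_pos.le)]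
    simp
  let S : 𝓢(ℝ, ℂ) := hφc.toSchwartzMap hφs
  have hS : (S : ℝ → ℂ) = φ := rfl
  have hFS : ((𝓕 S : 𝓢(ℝ, ℂ)) : ℝ → ℂ) = 𝓕 φ := by rw [SchwartzMap.fourier_coe, hS]
  have hK : Integrable (𝓕 φ) := by
    rw [← hFS]
    exact (𝓕 S).integrable
  have hK1 : Integrable (fun w : ℝ => |w| * ‖𝓕 φ w‖) := by
    have h1 := (𝓕 S).integrable_pow_mul volume 1
    simp only [pow_one, hFS, Real.norm_eq_abs] at h1
    exact h1
  have hint : ∫ w : ℝ, 𝓕 φ w = 1 := by
    have h1 := congrFun (hφ.fourierInv_fourier_eq (hφ.integrable_of_hasCompactSupport hφc) hK) 0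
    rw [hφ0, Real.fourierInv_eq] at h1
    simpa using h1
  -- the scaled kernels
  have hKl : ∀ l : ℝ, 0 < l → Integrable (fun w => (l : ℂ) * 𝓕 φ (l * w)) := fun l hl =>
    (hK.comp_mul_left' hl.ne').const_mul _
  have hKlint : ∀ l : ℝ, 0 < l → ∫ w : ℝ, (l : ℂ) * 𝓕 φ (l * w) = 1 := by
    intro l hl
    rw [integral_const_mul, MeasureTheory.Measure.integral_comp_mul_left (fun w => 𝓕 φ w) l, hint,
      abs_of_pos (inv_pos.2 hl)]
    simp [hl.ne']
  have hKlnorm : ∀ l : ℝ, 0 < l → ∫ w : ℝ, ‖(l : ℂ) * 𝓕 φ (l * w)‖ = ∫ w : ℝ, ‖𝓕 φ w‖ := by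
    intro l hl
    simp only [norm_mul, Complex.norm_real, Real.norm_eq_abs, abs_of_pos hl]
    rw [integral_const_mul, MeasureTheory.Measure.integral_comp_mul_left (fun w => ‖𝓕 φ w‖) l,
      abs_of_pos (inv_pos.2 hl), smul_eq_mul, ← mul_assoc, mul_inv_cancel₀ hl.ne', one_mul]
  have hKl1 : ∀ l : ℝ, 0 < l → Integrable (fun w : ℝ => |w| * ‖(l : ℂ) * 𝓕 φ (l * w)‖) := by
    intro l hl
    have h1 := hK1.comp_mul_left' hl.ne'
    refine h1.congr (Filter.Eventually.of_forall (fun w => ?_))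
    simp only [norm_mul, Complex.norm_real, Real.norm_eq_abs, abs_of_pos hl, abs_mul]
    ring
  have hKl1' : ∀ l : ℝ, 0 < l → ∫ w : ℝ, |w| * ‖(l : ℂ) * 𝓕 φ (l * w)‖ =
      l⁻¹ * ∫ w : ℝ, |w| * ‖𝓕 φ w‖ := by
    intro l hl
    have h1 := MeasureTheory.Measure.integral_comp_mul_left (fun w => |w| * ‖𝓕 φ w‖) l
    rw [abs_of_pos (inv_pos.2 hl), smul_eq_mul] at h1
    rw [← h1]
    apply integral_congr_ae
    refine Filter.Eventually.of_forall (fun w => ?_)
    simp only [norm_mul, Complex.norm_real, Real.norm_eq_abs, abs_of_pos hl, abs_mul]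
    ring
  set C0 : ℝ := ∫ w : ℝ, ‖𝓕 φ w‖ with hC0
  set C1 : ℝ := ∫ w : ℝ, |w| * ‖𝓕 φ w‖ with hC1
  have hC0n : 0 ≤ C0 := integral_nonneg (fun w => norm_nonneg _)
  have hC1n : 0 ≤ C1 := integral_nonneg (fun w => by positivity)
  -- the local estimate
  have hloc : ∀ v : ℝ, 2 ≤ v → ∀ w : ℝ, |g v - g (v - w)| ≤ 3 * |w| + 3 * Real.exp (-(v / 2)) := by
    intro v hv w
    have hexp : 0 < Real.exp (-(v / 2)) := Real.exp_pos _
    rcases le_or_gt w (v / 2) with hw | hw
    · rcases le_or_gt 0 w with hw0 | hw0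
      · have h1 := hL (v - w) v (by linarith) (by linarith)
        have h2 : Real.exp (-(v - w)) ≤ Real.exp (-(v / 2)) := Real.exp_le_exp.2 (by linarith)
        rw [abs_of_nonneg hw0]
        linarith
      · have h1 := hL v (v - w) (by linarith) (by linarith)
        have h2 : Real.exp (-v) ≤ Real.exp (-(v / 2)) := Real.exp_le_exp.2 (by linarith)
        rw [abs_sub_comm, abs_of_neg hw0]
        linarith
    · have h1 : |g v - g (v - w)| ≤ |g v| + |g (v - w)| := abs_sub _ _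
      have h2 := hb v
      have h3 := hb (v - w)
      have h4 : w ≤ |w| := le_abs_self w
      linarith
  -- the main estimate
  have hmain : ∀ l : ℝ, 0 < l → ∀ v : ℝ, 2 ≤ v →
      |g v| ≤ ‖∫ u in Set.Ioi (0 : ℝ), (g u : ℂ) * 𝓕 (fun t => φ (t / l)) (v - u)‖ +
        (3 * (l⁻¹ * C1) + 3 * Real.exp (-(v / 2)) * C0) := by
    intro l hl v hv
    have e1 : ∫ u in Set.Ioi (0 : ℝ), (g u : ℂ) * 𝓕 (fun t => φ (t / l)) (v - u) =
        ∫ w : ℝ, (g (v - w) : ℂ) * ((l : ℂ) * 𝓕 φ (l * w)) := by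
      rw [← integral_Ici_eq_integral_Ioi, setIntegral_eq_integral_of_forall_compl_eq_zero]
      · rw [← integral_sub_left_eq_self (fun w : ℝ => (g (v - w) : ℂ) *
          ((l : ℂ) * 𝓕 φ (l * w))) volume v]
        apply integral_congr_ae
        refine Filter.Eventually.of_forall (fun u => ?_)
        simp only [taub_scale φ hl, sub_sub_cancel]
      · intro u hu
        have hu' : u < 0 := by simpa using hu
        rw [h0 u hu']
        simp
    have i1 : Integrable (fun w : ℝ => (g (v - w) : ℂ) * ((l : ℂ) * 𝓕 φ (l * w))) := by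
      refine (hKl l hl).norm.mono' ?_ ?_
      · refine AEStronglyMeasurable.mul ?_ (hKl l hl).aestronglyMeasurable
        apply Measurable.aestronglyMeasurable
        fun_prop
      · refine Filter.Eventually.of_forall (fun w => ?_)
        rw [norm_mul, Complex.norm_real, Real.norm_eq_abs]
        calc _ ≤ 1 * ‖(l : ℂ) * 𝓕 φ (l * w)‖ :=
              mul_le_mul_of_nonneg_right (hb _) (norm_nonneg _)
          _ = _ := one_mul _
    have i2 : Integrable (fun w : ℝ => (g v : ℂ) * ((l : ℂ) * 𝓕 φ (l * w))) :=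
      (hKl l hl).const_mul _
    have e2 : (g v : ℂ) = ∫ w : ℝ, (g v : ℂ) * ((l : ℂ) * 𝓕 φ (l * w)) := by
      rw [integral_const_mul, hKlint l hl, mul_one]
    have e3 : (g v : ℂ) - ∫ w : ℝ, (g (v - w) : ℂ) * ((l : ℂ) * 𝓕 φ (l * w)) =
        ∫ w : ℝ, ((g v - g (v - w) : ℝ) : ℂ) * ((l : ℂ) * 𝓕 φ (l * w)) := by
      conv_lhs => rw [e2]
      rw [← integral_sub i2 i1]
      apply integral_congr_ae
      refine Filter.Eventually.of_forall (fun w => ?_)
      simp only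
      push_cast
      ring
    have e4 : ‖(g v : ℂ) - ∫ w : ℝ, (g (v - w) : ℂ) * ((l : ℂ) * 𝓕 φ (l * w))‖ ≤
        3 * (l⁻¹ * C1) + 3 * Real.exp (-(v / 2)) * C0 := by
      rw [e3]
      refine (norm_integral_le_integral_norm _).trans ?_
      have i3 : Integrable (fun w : ℝ => 3 * (|w| * ‖(l : ℂ) * 𝓕 φ (l * w)‖) +
          3 * Real.exp (-(v / 2)) * ‖(l : ℂ) * 𝓕 φ (l * w)‖) :=
        ((hKl1 l hl).const_mul 3).add ((hKl l hl).norm.const_mul _)
      have h5 : ∫ w : ℝ, ‖((g v - g (v - w) : ℝ) : ℂ) * ((l : ℂ) * 𝓕 φ (l * w))‖ ≤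
          ∫ w : ℝ, (3 * (|w| * ‖(l : ℂ) * 𝓕 φ (l * w)‖) +
          3 * Real.exp (-(v / 2)) * ‖(l : ℂ) * 𝓕 φ (l * w)‖) := by
        refine integral_mono_of_nonneg (Filter.Eventually.of_forall (fun w => norm_nonneg _)) i3
          (Filter.Eventually.of_forall (fun w => ?_))
        simp only
        rw [norm_mul, Complex.norm_real, Real.norm_eq_abs]
        have h6 := mul_le_mul_of_nonneg_right (hloc v hv w)
          (norm_nonneg ((l : ℂ) * 𝓕 φ (l * w)))
        linarith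
      refine h5.trans (le_of_eq ?_)
      rw [integral_add ((hKl1 l hl).const_mul 3) ((hKl l hl).norm.const_mul _),
        integral_const_mul, integral_const_mul, hKl1' l hl, hKlnorm l hl]
    rw [e1]
    have h7 : |g v| = ‖(g v : ℂ)‖ := by rw [Complex.norm_real, Real.norm_eq_abs]
    rw [h7]
    calc ‖(g v : ℂ)‖ = ‖(∫ w : ℝ, (g (v - w) : ℂ) * ((l : ℂ) * 𝓕 φ (l * w))) +
          ((g v : ℂ) - ∫ w : ℝ, (g (v - w) : ℂ) * ((l : ℂ) * 𝓕 φ (l * w)))‖ := by
          rw [add_sub_cancel]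
      _ ≤ _ := (norm_add_le _ _).trans (by gcongr)
  -- conclusion
  rw [Metric.tendsto_atTop']
  intro ε hε
  set l : ℝ := 9 * (C1 + 1) / ε with hl
  have hlpos : 0 < l := by positivity
  have h1 : 3 * (l⁻¹ * C1) < ε / 3 := by
    rw [hl, inv_div]
    have h2 : 3 * (ε / (9 * (C1 + 1)) * C1) = (ε / 3) * (C1 / (C1 + 1)) := by
      field_simp
      ring
    rw [h2]
    have h3 : C1 / (C1 + 1) < 1 := by
      rw [div_lt_one (by linarith)]
      linarith
    have h4 : 0 < ε / 3 := by positivity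
    nlinarith
  have hconv : Tendsto (fun v : ℝ => ‖∫ u in Set.Ioi (0 : ℝ), (g u : ℂ) *
      𝓕 (fun t => φ (t / l)) (v - u)‖) atTop (𝓝 0) := by
    have h2 := (taub_conv hg hb hG hGL (φ := fun t => φ (t / l)) (by fun_prop) ?_ ?_).norm
    · rwa [norm_zero] at h2
    · have h3 : HasCompactSupport (φ ∘ (Homeomorph.mulRight₀ l⁻¹ (inv_ne_zero hlpos.ne'))) :=
        hφc.comp_homeomorph _
      have h4 : (fun t => φ (t / l)) =
          (φ ∘ (Homeomorph.mulRight₀ l⁻¹ (inv_ne_zero hlpos.ne'))) := by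
        funext t
        simp [div_eq_mul_inv]
      rw [h4]
      exact h3
    · have h3 : 𝓕 (fun t => φ (t / l)) = fun w => (l : ℂ) * 𝓕 φ (l * w) := by
        funext w
        exact taub_scale φ hlpos w
      rw [h3]
      exact hKl l hlpos
  have hexp0 : Tendsto (fun v : ℝ => 3 * Real.exp (-(v / 2)) * C0) atTop (𝓝 0) := by
    have h2 : Tendsto (fun v : ℝ => Real.exp (-(v / 2))) atTop (𝓝 0) := by
      apply Real.tendsto_exp_atBot.comp
      apply tendsto_neg_atTop_atBot.comp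
      exact tendsto_id.atTop_div_const (by norm_num)
    have h3 := (h2.const_mul 3).mul_const C0
    simpa using h3
  have hev1 : ∀ᶠ v : ℝ in atTop, ‖∫ u in Set.Ioi (0 : ℝ), (g u : ℂ) *
      𝓕 (fun t => φ (t / l)) (v - u)‖ < ε / 3 :=
    hconv.eventually (gt_mem_nhds (by positivity))
  have hev2 : ∀ᶠ v : ℝ in atTop, 3 * Real.exp (-(v / 2)) * C0 < ε / 3 :=
    hexp0.eventually (gt_mem_nhds (by positivity))
  obtain ⟨N, hN⟩ := (hev1.and (hev2.and (eventually_ge_atTop 2))).exists_forall_of_atTop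
  refine ⟨N, fun v hv => ?_⟩
  obtain ⟨h2, h3, h4⟩ := hN v hv.le
  rw [dist_zero_right, Real.norm_eq_abs]
  have h5 := hmain l hlpos v h4
  linarith

end Pool.Agent.Lib.MP_94ab62_nt
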