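import Pool.Agent.Lib.MP_94ab62_nt.MertA
import Pool.Agent.Lib.MP_94ab62_nt.Taub

/-!
# MERT: `Mert x = o(x)`

Apply `tauber` to `g u = e^(-u) Mert (e^u)` for `u ≥ 0`, `0` for `u < 0`, `G = Gz`:
`|g v - g u| ≤ e^(-v) (e^v - e^u + 1) + (e^(-u) - e^(-v)) e^u ≤ 2 (v-u) + e^(-v)`.
-/

set_option autoImplicit false
open Filter Topology

namespace Pool.Agent.Lib.MP_94ab62_nt

private noncomputable def mertG (u : ℝ) : ℝ := if 0 ≤ u then Real.exp (-u) * Mert (Real.exp u) else 0

private theorem mertG_meas : Measurable mertG := by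
  unfold mertG
  have h := mert_measurable
  refine Measurable.ite measurableSet_Ici ?_ measurable_const
  exact (Real.measurable_exp.comp measurable_neg).mul (h.comp Real.measurable_exp)

private theorem mertG_bound (u : ℝ) : |mertG u| ≤ 1 := by
  unfold mertG
  by_cases h : 0 ≤ u
  · rw [if_pos h, abs_mul, abs_of_pos (Real.exp_pos _)]
    have h1 := mert_le (Real.exp_pos u).le
    have h2 : Real.exp (-u) * Real.exp u = 1 := by rw [← Real.exp_add]; simp
    calc Real.exp (-u) * |Mert (Real.exp u)| ≤ Real.exp (-u) * Real.exp u :=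
          mul_le_mul_of_nonneg_left h1 (Real.exp_pos _).le
      _ = 1 := h2
  · rw [if_neg h]
    simp

private theorem mertG_lip (u v : ℝ) (hu : 0 ≤ u) (huv : u ≤ v) :
    |mertG v - mertG u| ≤ 3 * (v - u) + 3 * Real.exp (-u) := by
  unfold mertG
  rw [if_pos hu, if_pos (hu.trans huv)]
  have hle : Real.exp u ≤ Real.exp v := Real.exp_le_exp.2 huv
  have h1 := mert_sub_le (Real.exp_pos u).le hle
  have h2 := mert_le (Real.exp_pos u).le
  have e1 : Real.exp (-v) * Mert (Real.exp v) - Real.exp (-u) * Mert (Real.exp u) =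
      Real.exp (-v) * (Mert (Real.exp v) - Mert (Real.exp u)) -
        (Real.exp (-u) - Real.exp (-v)) * Mert (Real.exp u) := by ring
  have hle' : Real.exp (-v) ≤ Real.exp (-u) := Real.exp_le_exp.2 (by linarith)
  have h3 : |Real.exp (-v) * (Mert (Real.exp v) - Mert (Real.exp u))| ≤
      Real.exp (-v) * (Real.exp v - Real.exp u + 1) := by
    rw [abs_mul, abs_of_pos (Real.exp_pos _)]
    exact mul_le_mul_of_nonneg_left h1 (Real.exp_pos _).le
  have h4 : |(Real.exp (-u) - Real.exp (-v)) * Mert (Real.exp u)| ≤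
      (Real.exp (-u) - Real.exp (-v)) * Real.exp u := by
    rw [abs_mul, abs_of_nonneg (by linarith)]
    exact mul_le_mul_of_nonneg_left h2 (by linarith)
  have h5 : Real.exp (-v) * Real.exp v = 1 := by rw [← Real.exp_add]; simp
  have h6 : Real.exp (-u) * Real.exp u = 1 := by rw [← Real.exp_add]; simp
  have h7 : Real.exp (-v) * Real.exp u = Real.exp (-(v - u)) := by
    rw [← Real.exp_add]; congr 1; ring
  have h8 : 1 - (v - u) ≤ Real.exp (-(v - u)) := by
    have := Real.add_one_le_exp (-(v - u))
    linarith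
  have h9 : 0 < Real.exp (-u) := Real.exp_pos _
  rw [e1]
  refine (abs_sub _ _).trans ?_
  have h10 : Real.exp (-v) * (Real.exp v - Real.exp u + 1) +
      (Real.exp (-u) - Real.exp (-v)) * Real.exp u = 2 - 2 * Real.exp (-(v - u)) + Real.exp (-v) := by
    rw [← h7]
    linear_combination h5 + h6
  linarith

theorem mert_tendsto : Tendsto (fun x : ℝ => Mert x / x) atTop (𝓝 0) := by
  have h := tauber mertG mertG_meas mertG_bound
    (fun u hu => by unfold mertG; rw [if_neg (not_le.2 hu)]) mertG_lip Gz Gz_continuousOn (by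
      intro s hs
      rw [mert_dirichlet s hs]
      apply MeasureTheory.setIntegral_congr_fun measurableSet_Ioi
      intro u hu
      have hu' : (0 : ℝ) ≤ u := le_of_lt hu
      simp only [mertG, if_pos hu'])
  have h2 := h.comp Real.tendsto_log_atTop
  refine h2.congr' ?_
  filter_upwards [eventually_ge_atTop (1 : ℝ)] with x hx
  have hx0 : 0 < x := by linarith
  simp only [Function.comp, mertG]
  rw [if_pos (Real.log_nonneg hx), Real.exp_neg, Real.exp_log hx0]
  field_simp

end Pool.Agent.Lib.MP_94ab62_nt
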