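import Pool.Agent.Lib.MP_94ab62_nt.MobA

/-!
# MOBB: from all lattice points to primitive ones

For `x ≥ 0` take the list `l` for `Y = x`: by `moeb_floor` (with `D = ⌊x/δ⌋₊`, `x/p.2 ≤ x/δ`... take `D = ⌈x/δ⌉₊`)
`P x = ∑_{d ≤ D} μ(d) N(x/d)`.  Fix `0 < η < min (1, 1/y0, …)` and split at `ηx`:
* `d > ηx`: `x/d < 1/η`; take the list for `Y = 1/η`; a fixed finite combination of sums as in `far_sum`
  (terms with `d > x/p.2` vanish), so `o(x)`.
* `d ≤ ηx`: `N(x/d) = A x²/d² + O(K (x/d)/(log(x/d))^(5/4))`.  The main terms give `A x² (c2 + o(1/x))` by `c2_tail`, the error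
  terms at most `C x (log (1/η))^(-1/4)`: dyadic blocks `x 2^(-k-1) < d ≤ x 2^(-k)`, each at most `2x/(k log 2)^(5/4)`, `2^k ≥ 1/(2η)`, or
  comparison with `∫ dt/(t (log(x/t))^(5/4)) = 4 (log(x/t))^(-1/4)`.
`near_err` is this last bound: there is `C` with, for all `0 < η ≤ 1/4` and `x ≥ 1/η`,
`∑_{d ≤ ηx} (x/d)/(log(x/d))^(5/4) ≤ C x (log(1/η))^(-1/4)`.
-/

set_option autoImplicit false
open Filter Topology

namespace Pool.Agent.Lib.MP_94ab62_nt

private theorem key_rpow {L δ : ℝ} (hL : 0 < L) (hδ : 0 < δ) (hδ2 : δ ≤ L / 2) :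
    δ / L ^ (5 / 4 : ℝ) ≤ 6 * (L ^ (-(1 / 4) : ℝ) - (L + δ) ^ (-(1 / 4) : ℝ)) := by
  have hu : 0 < L + δ := by positivity
  have hA : 0 < L ^ (-(1 / 4) : ℝ) := Real.rpow_pos_of_pos hL _
  have hs := rpow_one_add_le_one_add_mul_self (s := L / (L + δ) - 1) (by
    have : 0 ≤ L / (L + δ) := by positivity
    linarith) (p := 1 / 4) (by norm_num) (by norm_num)
  rw [add_sub_cancel] at hs
  have h1 : (L + δ) ^ (-(1 / 4) : ℝ) = L ^ (-(1 / 4) : ℝ) * (L / (L + δ)) ^ (1 / 4 : ℝ) := by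
    rw [Real.div_rpow hL.le hu.le, Real.rpow_neg hL.le, Real.rpow_neg hu.le]
    have : L ^ (1 / 4 : ℝ) ≠ 0 := (Real.rpow_pos_of_pos hL _).ne'
    field_simp
  have h2 : L / (L + δ) - 1 = -(δ / (L + δ)) := by field_simp; ring
  rw [h2] at hs
  have h3 : δ / (L + δ) ≥ δ / (3 / 2 * L) := by
    apply div_le_div_of_nonneg_left hδ.le hu
    linarith
  have h4 : (L / (L + δ)) ^ (1 / 4 : ℝ) ≤ 1 - δ / (6 * L) := by
    have : δ / (6 * L) = 1 / 4 * (δ / (3 / 2 * L)) := by field_simp; ring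
    rw [this]
    linarith
  have h5 : δ / L ^ (5 / 4 : ℝ) = 6 * (L ^ (-(1 / 4) : ℝ) * (δ / (6 * L))) := by
    have e : L ^ (5 / 4 : ℝ) = L * L ^ (1 / 4 : ℝ) := by
      rw [show (5 / 4 : ℝ) = 1 + 1 / 4 by norm_num, Real.rpow_add hL, Real.rpow_one]
    rw [e, Real.rpow_neg hL.le]
    have : L ^ (1 / 4 : ℝ) ≠ 0 := (Real.rpow_pos_of_pos hL _).ne'
    field_simp
  rw [h5, h1]
  have := mul_le_mul_of_nonneg_left h4 hA.le
  linarith

private theorem near_ind {η x : ℝ} (hη : 0 < η) (hη4 : η ≤ 1 / 4) (hx : 1 / η ≤ x) (N : ℕ) (hN : 1 ≤ N)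
    (hNx : (N : ℝ) ≤ η * x) :
    ∑ d ∈ Finset.Icc 1 N, (x / d) / (Real.log (x / d)) ^ (5 / 4 : ℝ) ≤
      x * (1 / (Real.log x) ^ (5 / 4 : ℝ) +
        6 * ((Real.log (x / N)) ^ (-(1 / 4) : ℝ) - (Real.log x) ^ (-(1 / 4) : ℝ))) := by
  have hxpos : 0 < x := lt_of_lt_of_le (by positivity) hx
  induction N, hN using Nat.le_induction with
  | base => simp [div_eq_mul_inv]
  | succ d hd ih =>
    have hd1 : (1 : ℝ) ≤ d := by exact_mod_cast hd
    have hdx : ((d : ℝ) + 1) ≤ η * x := by push_cast at hNx; exact hNx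
    have ih' := ih (by linarith)
    rw [Finset.sum_Icc_succ_top (by omega)]
    push_cast
    set L : ℝ := Real.log (x / (d + 1)) with hLdef
    have hx4 : 4 ≤ x / (d + 1) := by
      rw [le_div_iff₀ (by positivity)]
      nlinarith
    have hL4 : Real.log 4 ≤ L := Real.log_le_log (by norm_num) hx4
    have hlog4 : Real.log 4 = 2 * Real.log 2 := by
      rw [show (4 : ℝ) = 2 ^ 2 by norm_num, Real.log_pow]; norm_num
    have hlog2 : 0 < Real.log 2 := Real.log_pos one_lt_two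
    have hLpos : 0 < L := by linarith
    have hδ1 : Real.log (((d : ℝ) + 1) / d) ≤ Real.log 2 := by
      apply Real.log_le_log (by positivity)
      rw [div_le_iff₀ (by positivity)]
      linarith
    have hδ0 : 1 / ((d : ℝ) + 1) ≤ Real.log (((d : ℝ) + 1) / d) := by
      have h1 := Real.log_le_sub_one_of_pos (show (0 : ℝ) < d / (d + 1) by positivity)
      have h2 : Real.log (((d : ℝ) + 1) / d) = -Real.log ((d : ℝ) / (d + 1)) := by
        rw [← Real.log_inv, inv_div]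
      have h3 : (d : ℝ) / (d + 1) - 1 = -(1 / ((d : ℝ) + 1)) := by field_simp; ring
      rw [h2]; linarith
    have hadd : Real.log (x / d) = L + Real.log (((d : ℝ) + 1) / d) := by
      rw [hLdef, ← Real.log_mul (by positivity) (by positivity)]
      congr 1
      field_simp
    have hδpos : 0 < Real.log (((d : ℝ) + 1) / d) := lt_of_lt_of_le (by positivity) hδ0
    have hk := key_rpow hLpos hδpos (by linarith)
    rw [← hadd] at hk
    have hLp : 0 < L ^ (5 / 4 : ℝ) := Real.rpow_pos_of_pos hLpos _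
    have hterm : x / (d + 1) / L ^ (5 / 4 : ℝ) ≤
        x * (6 * (L ^ (-(1 / 4) : ℝ) - Real.log (x / d) ^ (-(1 / 4) : ℝ))) := by
      calc x / (d + 1) / L ^ (5 / 4 : ℝ) = x * ((1 / ((d : ℝ) + 1)) / L ^ (5 / 4 : ℝ)) := by ring
        _ ≤ x * (Real.log (((d : ℝ) + 1) / d) / L ^ (5 / 4 : ℝ)) := by gcongr
        _ ≤ _ := by gcongr
    calc _ ≤ x * (1 / (Real.log x) ^ (5 / 4 : ℝ) +
        6 * ((Real.log (x / d)) ^ (-(1 / 4) : ℝ) - (Real.log x) ^ (-(1 / 4) : ℝ))) +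
        x * (6 * (L ^ (-(1 / 4) : ℝ) - Real.log (x / d) ^ (-(1 / 4) : ℝ))) := add_le_add ih' hterm
      _ = _ := by ring

theorem near_err : ∃ C : ℝ, 0 < C ∧ ∀ η x : ℝ, 0 < η → η ≤ 1 / 4 → 1 / η ≤ x →
    ∑ d ∈ Finset.Icc 1 ⌊η * x⌋₊, (x / d) / (Real.log (x / d)) ^ (5 / 4 : ℝ) ≤
      C * x * (Real.log (1 / η)) ^ (-(1 / 4) : ℝ) := by
  refine ⟨7, by norm_num, fun η x hη hη4 hx => ?_⟩
  have hxpos : 0 < x := lt_of_lt_of_le (by positivity) hx
  have hηx : 1 ≤ η * x := by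
    rw [div_le_iff₀ hη] at hx
    linarith
  have h4 : 4 ≤ 1 / η := by
    rw [le_div_iff₀ hη]; linarith
  have hN1 : 1 ≤ ⌊η * x⌋₊ := by
    rw [Nat.le_floor_iff (by positivity)]; simpa using hηx
  have hNx : (⌊η * x⌋₊ : ℝ) ≤ η * x := Nat.floor_le (by positivity)
  have hNpos : (0 : ℝ) < ⌊η * x⌋₊ := by exact_mod_cast hN1
  have h := near_ind hη hη4 hx ⌊η * x⌋₊ hN1 hNx
  have hlog4 : 1 ≤ Real.log 4 := by
    rw [show (4 : ℝ) = 2 ^ 2 by norm_num, Real.log_pow]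
    have := Real.log_two_gt_d9
    norm_num; linarith
  have hℓ : 1 ≤ Real.log (1 / η) := hlog4.trans (Real.log_le_log (by norm_num) h4)
  have hℓx : Real.log (1 / η) ≤ Real.log x := Real.log_le_log (by positivity) hx
  have hℓN : Real.log (1 / η) ≤ Real.log (x / ⌊η * x⌋₊) := by
    apply Real.log_le_log (by positivity)
    rw [div_le_div_iff₀ hη hNpos]
    linarith
  have a1 : (Real.log (x / ⌊η * x⌋₊)) ^ (-(1 / 4) : ℝ) ≤ (Real.log (1 / η)) ^ (-(1 / 4) : ℝ) :=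
    Real.rpow_le_rpow_of_nonpos (by linarith) hℓN (by norm_num)
  have a2 : 1 / (Real.log x) ^ (5 / 4 : ℝ) ≤ (Real.log (1 / η)) ^ (-(1 / 4) : ℝ) := by
    calc 1 / (Real.log x) ^ (5 / 4 : ℝ) = (Real.log x) ^ (-(5 / 4) : ℝ) := by
          rw [Real.rpow_neg (by linarith), one_div]
      _ ≤ (Real.log x) ^ (-(1 / 4) : ℝ) := Real.rpow_le_rpow_of_exponent_le (by linarith) (by norm_num)
      _ ≤ _ := Real.rpow_le_rpow_of_nonpos (by linarith) hℓx (by norm_num)
  have a3 : 0 ≤ (Real.log x) ^ (-(1 / 4) : ℝ) := Real.rpow_nonneg (by linarith) _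
  refine h.trans ?_
  have : 1 / (Real.log x) ^ (5 / 4 : ℝ) +
        6 * ((Real.log (x / ⌊η * x⌋₊)) ^ (-(1 / 4) : ℝ) - (Real.log x) ^ (-(1 / 4) : ℝ)) ≤
      7 * (Real.log (1 / η)) ^ (-(1 / 4) : ℝ) := by linarith
  calc _ ≤ x * (7 * (Real.log (1 / η)) ^ (-(1 / 4) : ℝ)) := by gcongr
    _ = _ := by ring

private theorem list_comm (l : List (ℝ × ℝ)) (s : Finset ℕ) (m : ℕ → ℝ) (f : ℝ → ℕ → ℝ) :
    (l.map (fun p => p.1 * ∑ d ∈ s, m d * f p.2 d)).sum =
      ∑ d ∈ s, m d * (l.map (fun p => p.1 * f p.2 d)).sum := by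
  induction l with
  | nil => simp
  | cons p l ih =>
    simp only [List.map_cons, List.sum_cons]
    rw [ih, Finset.mul_sum, ← Finset.sum_add_distrib]
    exact Finset.sum_congr rfl fun d _ => by ring

private theorem list_far (hM : Tendsto (fun x : ℝ => Mert x / x) atTop (𝓝 0)) {η : ℝ} (hη : 0 < η)
    (l : List (ℝ × ℝ)) (hl : ∀ p ∈ l, 0 < p.2) :
    Tendsto (fun x : ℝ => (l.map (fun p => p.1 * ∑ d ∈ Finset.Ioc ⌊η * x⌋₊ ⌊x / p.2⌋₊,
      (ArithmeticFunction.moebius d : ℝ) * (⌊x / d / p.2⌋₊ : ℝ))).sum / x) atTop (𝓝 0) := by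
  induction l with
  | nil => simp
  | cons p l ih =>
    have h1 := (far_sum hM (hl p (by simp)) hη).const_mul p.1
    have h2 := ih fun q hq => hl q (by simp [hq])
    have h3 := h1.add h2
    simp only [mul_zero, add_zero] at h3
    refine h3.congr fun x => ?_
    simp only [List.map_cons, List.sum_cons]
    ring

private theorem list_congr {l : List (ℝ × ℝ)} {f g : ℝ × ℝ → ℝ} (h : ∀ p ∈ l, f p = g p) :
    (l.map f).sum = (l.map g).sum := by
  rw [List.map_congr_left h]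

theorem mobius_asymp (hM : Tendsto (fun x : ℝ => Mert x / x) atTop (𝓝 0)) (N P : ℝ → ℝ)
    {A K y0 δ : ℝ} (hδ : 0 < δ)
    (hN : ∀ y : ℝ, y0 ≤ y → |N y - A * y ^ 2| ≤ K * (y / (Real.log y) ^ (5 / 4 : ℝ)))
    (hl : ∀ Y : ℝ, ∃ l : List (ℝ × ℝ), (∀ p ∈ l, δ ≤ p.2) ∧ ∀ y : ℝ, 0 ≤ y → y ≤ Y →
      N y = (l.map (fun p => p.1 * (⌊y / p.2⌋₊ : ℝ))).sum ∧
      P y = (l.map (fun p => p.1 * stp p.2 y)).sum) :
    Tendsto (fun x : ℝ => (P x - A * c2 * x ^ 2) / x) atTop (𝓝 0) := by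
  obtain ⟨C, hC, herr⟩ := near_err
  rw [Metric.tendsto_atTop]
  intro ε hε
  -- choice of `Y = 1/η`
  have hY1 : Tendsto (fun y : ℝ => |K| * C * (Real.log y) ^ (-(1 / 4) : ℝ)) atTop (𝓝 0) := by
    have h := ((tendsto_rpow_neg_atTop (show (0 : ℝ) < 1 / 4 by norm_num)).comp
      Real.tendsto_log_atTop).const_mul (|K| * C)
    simpa using h
  obtain ⟨Y, hYK, hY4, hYy0, hYδ⟩ : ∃ Y : ℝ, |K| * C * (Real.log Y) ^ (-(1 / 4) : ℝ) < ε / 3 ∧
      4 ≤ Y ∧ y0 ≤ Y ∧ δ ≤ Y :=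
    ((hY1.eventually (gt_mem_nhds (by positivity : (0 : ℝ) < ε / 3))).and
      ((eventually_ge_atTop 4).and ((eventually_ge_atTop y0).and (eventually_ge_atTop δ)))).exists
  have hYpos : 0 < Y := by linarith
  set η : ℝ := 1 / Y with hηdef
  have hη : 0 < η := by positivity
  have hηY : 1 / η = Y := by rw [hηdef]; field_simp
  have hη4 : η ≤ 1 / 4 := by
    rw [hηdef]; exact one_div_le_one_div_of_le (by norm_num) hY4
  have hηδ : η ≤ 1 / δ := by
    rw [hηdef]; exact one_div_le_one_div_of_le hδ hYδ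
  obtain ⟨l', hl'δ, hl'⟩ := hl Y
  have hl'pos : ∀ p ∈ l', 0 < p.2 := fun p hp => lt_of_lt_of_le hδ (hl'δ p hp)
  have hfar := list_far hM hη l' hl'pos
  have hnear : Tendsto (fun x : ℝ => A * x * (∑ d ∈ Finset.Icc 1 ⌊η * x⌋₊,
      (ArithmeticFunction.moebius d : ℝ) / (d : ℝ) ^ 2 - c2)) atTop (𝓝 0) := by
    have h1 : Tendsto (fun x : ℝ => η * x) atTop atTop := tendsto_id.const_mul_atTop hη
    have h2 := ((c2_tail hM).comp h1).const_mul (A / η)
    rw [mul_zero] at h2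
    refine h2.congr fun x => ?_
    simp only [Function.comp]
    field_simp
  rw [Metric.tendsto_atTop] at hfar hnear
  obtain ⟨X1, hX1⟩ := hfar (ε / 3) (by positivity)
  obtain ⟨X2, hX2⟩ := hnear (ε / 3) (by positivity)
  refine ⟨max (max X1 X2) Y, fun x hx => ?_⟩
  have hxX1 : X1 ≤ x := (le_max_left _ _).trans ((le_max_left _ _).trans hx)
  have hxX2 : X2 ≤ x := (le_max_right _ _).trans ((le_max_left _ _).trans hx)
  have hxY : Y ≤ x := (le_max_right _ _).trans hx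
  have hxpos : 0 < x := by linarith
  have hF := hX1 x hxX1
  have hG := hX2 x hxX2
  rw [Real.dist_eq, sub_zero] at hF hG ⊢
  -- the Möbius formula
  set D : ℕ := ⌈x / δ⌉₊ with hD
  have hDle : x / δ ≤ D := Nat.le_ceil _
  have hP : P x = ∑ d ∈ Finset.Icc 1 D, (ArithmeticFunction.moebius d : ℝ) * N (x / d) := by
    obtain ⟨l, hlδ, hl2⟩ := hl x
    rw [(hl2 x hxpos.le le_rfl).2]
    have e1 : (l.map (fun p => p.1 * stp p.2 x)).sum =
        (l.map (fun p => p.1 * ∑ d ∈ Finset.Icc 1 D,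
          (ArithmeticFunction.moebius d : ℝ) * (⌊x / d / p.2⌋₊ : ℝ))).sum := by
      refine list_congr fun p hp => ?_
      have hp0 : 0 < p.2 := lt_of_lt_of_le hδ (hlδ p hp)
      rw [moeb_floor hp0 hxpos.le]
      exact (div_le_div_of_nonneg_left hxpos.le hδ (hlδ p hp)).trans hDle
    rw [e1, list_comm l _ (fun d => (ArithmeticFunction.moebius d : ℝ)) (fun c d => (⌊x / d / c⌋₊ : ℝ))]
    refine Finset.sum_congr rfl fun d hd => ?_
    rw [Finset.mem_Icc] at hd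
    have hd1 : (1 : ℝ) ≤ d := by exact_mod_cast hd.1
    rw [(hl2 (x / d) (by positivity) (div_le_self hxpos.le hd1)).1]
  -- splitting
  have haD : ⌊η * x⌋₊ ≤ D := by
    apply Nat.floor_le_of_le
    refine le_trans ?_ hDle
    calc η * x ≤ 1 / δ * x := by gcongr
      _ = x / δ := by ring
  have hsplit : Finset.Icc 1 D = Finset.Icc 1 ⌊η * x⌋₊ ∪ Finset.Ioc ⌊η * x⌋₊ D := by
    ext d
    simp only [Finset.mem_union, Finset.mem_Icc, Finset.mem_Ioc]
    omega
  have hdisj : Disjoint (Finset.Icc 1 ⌊η * x⌋₊) (Finset.Ioc ⌊η * x⌋₊ D) := by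
    rw [Finset.disjoint_left]
    intro d hd hd'
    simp only [Finset.mem_Icc, Finset.mem_Ioc] at hd hd'
    omega
  -- far part
  have hfareq : ∑ d ∈ Finset.Ioc ⌊η * x⌋₊ D, (ArithmeticFunction.moebius d : ℝ) * N (x / d) =
      (l'.map (fun p => p.1 * ∑ d ∈ Finset.Ioc ⌊η * x⌋₊ ⌊x / p.2⌋₊,
      (ArithmeticFunction.moebius d : ℝ) * (⌊x / d / p.2⌋₊ : ℝ))).sum := by
    have e1 : ∑ d ∈ Finset.Ioc ⌊η * x⌋₊ D, (ArithmeticFunction.moebius d : ℝ) * N (x / d) =
        (l'.map (fun p => p.1 * ∑ d ∈ Finset.Ioc ⌊η * x⌋₊ D,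
          (ArithmeticFunction.moebius d : ℝ) * (⌊x / d / p.2⌋₊ : ℝ))).sum := by
      rw [list_comm l' _ (fun d => (ArithmeticFunction.moebius d : ℝ)) (fun c d => (⌊x / d / c⌋₊ : ℝ))]
      refine Finset.sum_congr rfl fun d hd => ?_
      rw [Finset.mem_Ioc] at hd
      have hdpos : (0 : ℝ) < d := by
        have : 0 < d := by omega
        exact_mod_cast this
      have hdx : η * x < d := (Nat.floor_lt (by positivity)).1 hd.1
      have hle : x / d ≤ Y := by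
        rw [div_le_iff₀ hdpos]
        have : x = Y * (η * x) := by rw [hηdef]; field_simp
        rw [this]
        have : Y * (η * x) ≤ Y * d := by gcongr
        exact this
      rw [(hl' (x / d) (by positivity) hle).1]
    rw [e1]
    refine list_congr fun p hp => ?_
    have hp0 : 0 < p.2 := hl'pos p hp
    congr 1
    symm
    refine Finset.sum_subset ?_ ?_
    · intro d hd
      rw [Finset.mem_Ioc] at hd ⊢
      refine ⟨hd.1, hd.2.trans ?_⟩
      apply Nat.floor_le_of_le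
      exact (div_le_div_of_nonneg_left hxpos.le hδ (hl'δ p hp)).trans hDle
    · intro d hd hd'
      rw [Finset.mem_Ioc] at hd hd'
      have hlt : ⌊x / p.2⌋₊ < d := by
        by_contra hcon
        exact hd' ⟨hd.1, by omega⟩
      have hdpos : (0 : ℝ) < d := by
        have : 0 < d := by omega
        exact_mod_cast this
      have : ⌊x / d / p.2⌋₊ = 0 := by
        rw [Nat.floor_eq_zero, div_right_comm, div_lt_one hdpos]
        exact (Nat.floor_lt (by positivity)).1 hlt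
      rw [this]; simp
  -- near part
  set E : ℝ := ∑ d ∈ Finset.Icc 1 ⌊η * x⌋₊, (ArithmeticFunction.moebius d : ℝ) *
    (N (x / d) - A * (x / d) ^ 2) with hE
  have hneareq : ∑ d ∈ Finset.Icc 1 ⌊η * x⌋₊, (ArithmeticFunction.moebius d : ℝ) * N (x / d) =
      A * x ^ 2 * (∑ d ∈ Finset.Icc 1 ⌊η * x⌋₊, (ArithmeticFunction.moebius d : ℝ) / (d : ℝ) ^ 2) + E := by
    rw [hE, Finset.mul_sum, ← Finset.sum_add_distrib]
    refine Finset.sum_congr rfl fun d hd => ?_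
    rw [div_pow]
    ring
  have hEle : |E| ≤ |K| * C * (Real.log Y) ^ (-(1 / 4) : ℝ) * x := by
    have h1 := herr η x hη hη4 (by rw [hηY]; exact hxY)
    rw [hηY] at h1
    calc |E| ≤ ∑ d ∈ Finset.Icc 1 ⌊η * x⌋₊, |(ArithmeticFunction.moebius d : ℝ) *
          (N (x / d) - A * (x / d) ^ 2)| := Finset.abs_sum_le_sum_abs _ _
      _ ≤ ∑ d ∈ Finset.Icc 1 ⌊η * x⌋₊, |K| * ((x / d) / (Real.log (x / d)) ^ (5 / 4 : ℝ)) := by
          refine Finset.sum_le_sum fun d hd => ?_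
          rw [Finset.mem_Icc] at hd
          have hdpos : (0 : ℝ) < d := by exact_mod_cast hd.1
          have hdx : (d : ℝ) ≤ η * x := by
            have := hd.2
            rwa [Nat.le_floor_iff (by positivity)] at this
          have hge : Y ≤ x / d := by
            rw [le_div_iff₀ hdpos]
            calc Y * d ≤ Y * (η * x) := by gcongr
              _ = x := by rw [hηdef]; field_simp
          have hmu : |(ArithmeticFunction.moebius d : ℝ)| ≤ 1 := by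
            exact_mod_cast ArithmeticFunction.abs_moebius_le_one
          have hlogpos : 0 ≤ Real.log (x / d) := Real.log_nonneg (by linarith)
          have hq : 0 ≤ (x / d) / (Real.log (x / d)) ^ (5 / 4 : ℝ) :=
            div_nonneg (by positivity) (Real.rpow_nonneg hlogpos _)
          rw [abs_mul]
          calc |(ArithmeticFunction.moebius d : ℝ)| * |N (x / d) - A * (x / d) ^ 2|
              ≤ 1 * |N (x / d) - A * (x / d) ^ 2| := by gcongr
            _ = |N (x / d) - A * (x / d) ^ 2| := one_mul _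
            _ ≤ K * ((x / d) / (Real.log (x / d)) ^ (5 / 4 : ℝ)) := hN _ (hYy0.trans hge)
            _ ≤ |K| * ((x / d) / (Real.log (x / d)) ^ (5 / 4 : ℝ)) := by
                gcongr
                exact le_abs_self K
      _ = |K| * ∑ d ∈ Finset.Icc 1 ⌊η * x⌋₊, (x / d) / (Real.log (x / d)) ^ (5 / 4 : ℝ) := by
          rw [Finset.mul_sum]
      _ ≤ |K| * (C * x * (Real.log Y) ^ (-(1 / 4) : ℝ)) := by gcongr
      _ = _ := by ring
  have hEx : |E / x| < ε / 3 := by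
    rw [abs_div, abs_of_pos hxpos, div_lt_iff₀ hxpos]
    exact lt_of_le_of_lt hEle (by gcongr)
  have hfinal : (P x - A * c2 * x ^ 2) / x =
      (l'.map (fun p => p.1 * ∑ d ∈ Finset.Ioc ⌊η * x⌋₊ ⌊x / p.2⌋₊,
      (ArithmeticFunction.moebius d : ℝ) * (⌊x / d / p.2⌋₊ : ℝ))).sum / x +
      A * x * (∑ d ∈ Finset.Icc 1 ⌊η * x⌋₊, (ArithmeticFunction.moebius d : ℝ) / (d : ℝ) ^ 2 - c2) +
      E / x := by
    rw [hP, hsplit, Finset.sum_union hdisj, hfareq, hneareq]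
    field_simp
    ring
  rw [hfinal]
  calc _ ≤ |(l'.map (fun p => p.1 * ∑ d ∈ Finset.Ioc ⌊η * x⌋₊ ⌊x / p.2⌋₊,
      (ArithmeticFunction.moebius d : ℝ) * (⌊x / d / p.2⌋₊ : ℝ))).sum / x| +
      |A * x * (∑ d ∈ Finset.Icc 1 ⌊η * x⌋₊, (ArithmeticFunction.moebius d : ℝ) / (d : ℝ) ^ 2 - c2)| +
      |E / x| := by
        refine (abs_add_le _ _).trans ?_
        gcongr
        exact abs_add_le _ _
    _ < ε / 3 + ε / 3 + ε / 3 := by gcongr
    _ = ε := by ring

end Pool.Agent.Lib.MP_94ab62_nt
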