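import Pool.Agent.Lib.MP_94ab62_nt.Stmt

/-!
# NUMB: Markoff numbers and triples

* `exists_max`: every Markoff number `m` is the largest entry of some Markoff triple: if `(x, y, m)` is a
  triple with (say) `y = max > m`, replace `y` by `3xm - y < y`; induct on `x + y`.
* `numberCount_le`: inject `m ↦` a triple with largest entry `m`.
* `markoff_infinite`: from a triple `x ≤ y ≤ z` one gets `(y, z, 3yz - x)` with `3yz - x > z`.
* `nth_eq`: `Nat.nth IsMarkoff n` is the least `N` with `n < numberCount N` (`Nat.count`, `Nat.nth_count`, ...).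
-/

set_option autoImplicit false

namespace Pool.Agent.Lib.MP_94ab62_nt

private theorem numb_step {x y m : ℕ} (hx : 0 < x) (hm : 0 < m) (hxy : x ≤ y) (hmy : m < y)
    (he : x ^ 2 + y ^ 2 + m ^ 2 = 3 * x * y * m) :
    ∃ y' : ℕ, 0 < y' ∧ y' < y ∧ x ^ 2 + y' ^ 2 + m ^ 2 = 3 * x * y' * m := by
  have hy : 0 < y := lt_of_lt_of_le hx hxy
  have h1 : y < 3 * x * m := by
    by_contra hcon
    push Not at hcon
    have h2 : 3 * x * y * m ≤ y * y := by
      calc 3 * x * y * m = y * (3 * x * m) := by ring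
        _ ≤ y * y := Nat.mul_le_mul_left _ hcon
    nlinarith [Nat.mul_pos hx hx, Nat.mul_pos hm hm]
  obtain ⟨y', hy'⟩ : ∃ y', y' = 3 * x * m - y := ⟨_, rfl⟩
  have hsum : y + y' = 3 * x * m := by omega
  have hprod : y * y' = x ^ 2 + m ^ 2 := by
    have h3 : y * (y + y') = 3 * x * y * m := by rw [hsum]; ring
    nlinarith
  refine ⟨y', by omega, ?_, ?_⟩
  · by_contra hcon
    push Not at hcon
    zify at *
    rcases le_or_gt (x : ℤ) m with hc | hc
    · have h4 : ((m : ℤ) - y) * (m - y') = 2 * m ^ 2 + x ^ 2 - 3 * x * m ^ 2 := by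
        have : ((m : ℤ) - y) * (m - y') = m ^ 2 - m * (y + y') + y * y' := by ring
        rw [this, hsum, hprod]; ring
      have h5 : 1 ≤ ((m : ℤ) - y) * (m - y') := by nlinarith
      nlinarith [mul_nonneg (by linarith : (0 : ℤ) ≤ (x : ℤ) - 1) (sq_nonneg (m : ℤ)),
        mul_nonneg (by linarith : (0 : ℤ) ≤ (m : ℤ) - x) (by linarith : (0 : ℤ) ≤ (m : ℤ) + x)]
    · have h4 : ((x : ℤ) - y) * (x - y') = 2 * x ^ 2 + m ^ 2 - 3 * m * x ^ 2 := by
        have : ((x : ℤ) - y) * (x - y') = x ^ 2 - x * (y + y') + y * y' := by ring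
        rw [this, hsum, hprod]; ring
      have h5 : 0 ≤ ((x : ℤ) - y) * (x - y') := by nlinarith
      nlinarith [mul_nonneg (by linarith : (0 : ℤ) ≤ (m : ℤ) - 1) (sq_nonneg (x : ℤ)),
        mul_pos (by linarith : (0 : ℤ) < (x : ℤ) - m) (by linarith : (0 : ℤ) < (x : ℤ) + m)]
  · have h6 : y' * (y + y') = 3 * x * y' * m := by rw [hsum]; ring
    nlinarith

theorem exists_max {m : ℕ} (h : IsMarkoff m) : ∃ x y : ℕ, 0 < x ∧ x ≤ y ∧ y ≤ m ∧
    x ^ 2 + y ^ 2 + m ^ 2 = 3 * x * y * m := by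
  obtain ⟨x, y, hx, hy, hm, he⟩ := h
  have key : ∀ s x y : ℕ, x + y = s → 0 < x → 0 < y → x ^ 2 + y ^ 2 + m ^ 2 = 3 * x * y * m →
      ∃ x y : ℕ, 0 < x ∧ x ≤ y ∧ y ≤ m ∧ x ^ 2 + y ^ 2 + m ^ 2 = 3 * x * y * m := by
    intro s
    induction s using Nat.strong_induction_on with
    | _ s ih =>
      intro x y hs hx hy he
      rcases le_or_gt x y with hxy | hxy
      · rcases le_or_gt y m with hc | hc
        · exact ⟨x, y, hx, hxy, hc, he⟩
        · obtain ⟨y', h1, h2, h3⟩ := numb_step hx hm hxy hc he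
          exact ih (x + y') (by omega) x y' rfl hx h1 h3
      · have he' : y ^ 2 + x ^ 2 + m ^ 2 = 3 * y * x * m := by
          have : 3 * y * x * m = 3 * x * y * m := by ring
          omega
        rcases le_or_gt x m with hc | hc
        · exact ⟨y, x, hy, hxy.le, hc, he'⟩
        · obtain ⟨y', h1, h2, h3⟩ := numb_step hy hm hxy.le hc he'
          exact ih (y + y') (by omega) y y' rfl hy h1 h3
  exact key _ x y rfl hx hy he

theorem numberCount_le (N : ℕ) : numberCount N ≤ tripleCount N := by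
  classical
  unfold numberCount tripleCount
  have hsub : ((Finset.Icc 1 N).filter IsMarkoff) ⊆
      ((Finset.Icc 1 N ×ˢ Finset.Icc 1 N ×ˢ Finset.Icc 1 N).filter
        (fun p : ℕ × ℕ × ℕ =>
        p.1 ≤ p.2.1 ∧ p.2.1 ≤ p.2.2 ∧
          p.1 ^ 2 + p.2.1 ^ 2 + p.2.2 ^ 2 = 3 * p.1 * p.2.1 * p.2.2)).image (fun p => p.2.2) := by
    intro m hm
    rw [Finset.mem_filter, Finset.mem_Icc] at hm
    obtain ⟨x, y, hx, hxy, hym, he⟩ := exists_max hm.2
    rw [Finset.mem_image]
    refine ⟨(x, y, m), ?_, rfl⟩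
    simp only [Finset.mem_filter, Finset.mem_product, Finset.mem_Icc]
    refine ⟨⟨⟨by omega, by omega⟩, ⟨by omega, by omega⟩, by omega, by omega⟩, hxy, hym, he⟩
  convert (Finset.card_le_card hsub).trans Finset.card_image_le

theorem tripleCount_mono : Monotone tripleCount := by
  intro N M hNM
  unfold tripleCount
  apply Finset.card_le_card
  intro p hp
  simp only [Finset.mem_filter, Finset.mem_product, Finset.mem_Icc] at hp ⊢
  obtain ⟨⟨⟨h1, h2⟩, ⟨h3, h4⟩, h5, h6⟩, h7⟩ := hp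
  exact ⟨⟨⟨h1, h2.trans hNM⟩, ⟨h3, h4.trans hNM⟩, h5, h6.trans hNM⟩, h7⟩

theorem numberCount_mono : Monotone numberCount := by
  classical
  intro N M hNM
  unfold numberCount
  apply Finset.card_le_card
  intro p hp
  simp only [Finset.mem_filter, Finset.mem_Icc] at hp ⊢
  exact ⟨⟨hp.1.1, hp.1.2.trans hNM⟩, hp.2⟩

theorem markoff_infinite : (setOf IsMarkoff).Infinite := by
  have key : ∀ n : ℕ, ∃ x y z : ℕ, 0 < x ∧ x ≤ y ∧ y ≤ z ∧ n < z ∧
      x ^ 2 + y ^ 2 + z ^ 2 = 3 * x * y * z := by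
    intro n
    induction n with
    | zero => exact ⟨1, 1, 1, by norm_num, le_rfl, le_rfl, by norm_num, by norm_num⟩
    | succ n ih =>
      obtain ⟨x, y, z, hx, hxy, hyz, hn, he⟩ := ih
      have hz : 0 < z := by omega
      have hy : 0 < y := by omega
      have h1 : 3 * z ≤ 3 * y * z := by nlinarith
      have h2 : x ≤ 3 * y * z := by omega
      refine ⟨y, z, 3 * y * z - x, hy, hyz, by omega, by omega, ?_⟩
      zify [h2]
      zify at he
      nlinarith [he]
  rw [Set.infinite_iff_exists_gt]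
  intro a
  obtain ⟨x, y, z, hx, hxy, hyz, hn, he⟩ := key a
  exact ⟨z, ⟨x, y, hx, by omega, by omega, he⟩, hn⟩

private theorem numb_count (N : ℕ) : numberCount N = by
    classical exact Nat.count IsMarkoff (N + 1) := by
  classical
  rw [Nat.count_eq_card_filter_range]
  unfold numberCount
  congr 1
  ext m
  simp only [Finset.mem_filter, Finset.mem_Icc, Finset.mem_range]
  constructor
  · rintro ⟨⟨h1, h2⟩, h3⟩
    exact ⟨by omega, h3⟩
  · rintro ⟨h1, h2⟩
    obtain ⟨x, y, hx, hy, hm, he⟩ := h2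
    exact ⟨⟨by omega, by omega⟩, x, y, hx, hy, hm, he⟩

private theorem numb_lt (n N : ℕ) : n < numberCount N ↔ Nat.nth IsMarkoff n ≤ N := by
  classical
  rw [numb_count, Nat.lt_nth_iff_count_lt markoff_infinite, Nat.lt_succ_iff]

theorem numberCount_unbounded (n : ℕ) : ∃ N, n < numberCount N :=
  ⟨Nat.nth IsMarkoff n, (numb_lt n _).2 le_rfl⟩

theorem nth_eq (n : ℕ) : Nat.nth IsMarkoff n = sInf {N : ℕ | n < numberCount N} := by
  have h1 : {N : ℕ | n < numberCount N} = Set.Ici (Nat.nth IsMarkoff n) := by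
    ext N
    rw [Set.mem_setOf_eq, numb_lt, Set.mem_Ici]
  rw [h1, csInf_Ici]

end Pool.Agent.Lib.MP_94ab62_nt
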