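import Pool.Agent.Lib.MP_94ab62_nt.Stab

/-!
# PLIST: `Nplus` and `Pplus` as finite sums

With `n = ⌈2Y⌉₊ + 2`, `tsm_stable` gives `Nf y root = tsm (phiN y) n root` for all `0 ≤ y ≤ Y`, and `tsm φ n root` is
the sum of `φ z` over a list of numbers `z ≥ 1` (depending on `n` only).  Add the entries `(1/2, F 1)`, `(1/2, F 2)`.
-/

set_option autoImplicit false

namespace Pool.Agent.Lib.MP_94ab62_nt

/-- the list of largest entries of the nodes of depth `< n` below `t` -/
private def plistZ : ℕ → Nd → List ℕ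
  | 0, _ => []
  | n + 1, t => t.2.2 :: (plistZ n (lc t) ++ plistZ n (rc t))

private theorem plistZ_sum (φ : ℕ → ℝ) (n : ℕ) (t : Nd) :
    tsm φ n t = ((plistZ n t).map φ).sum := by
  induction n generalizing t with
  | zero => simp [tsm, plistZ]
  | succ n ih =>
    rw [tsm, plistZ, List.map_cons, List.sum_cons, List.map_append, List.sum_append, ih, ih,
      add_assoc]

private theorem plistZ_pos (n : ℕ) {t : Nd} (h : Good t) : ∀ z ∈ plistZ n t, 1 ≤ z := by
  induction n generalizing t with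
  | zero => intro z hz; simp [plistZ] at hz
  | succ n ih =>
    intro z hz
    rw [plistZ, List.mem_cons, List.mem_append] at hz
    rcases hz with rfl | hz | hz
    · have := h.1
      have := h.2.2.2.1
      omega
    · exact ih (good_lc h) z hz
    · exact ih (good_rc h) z hz

private theorem plist_stable {φ : ℕ → ℝ} {y Y : ℝ} (hφ : ∀ z, 1 ≤ z → y < F z → φ z = 0)
    (hY : y ≤ Y) :
    tsm φ (⌈2 * y⌉₊ + 2) root = tsm φ (⌈2 * Y⌉₊ + 2) root := by
  symm
  apply tsm_stable hφ good_root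
  · have h1 : 2 * y ≤ (⌈2 * y⌉₊ : ℝ) := Nat.le_ceil _
    have h2 : fa root = F 1 := rfl
    have h3 : fb root = F 2 := rfl
    rw [h2, h3]
    have h4 := F_one.1
    have h5 := F_two.1
    push_cast
    linarith
  · have : ⌈2 * y⌉₊ ≤ ⌈2 * Y⌉₊ := Nat.ceil_mono (by linarith)
    omega

theorem plus_list (Y : ℝ) : ∃ l : List (ℝ × ℝ), (∀ p ∈ l, (24 / 25 : ℝ) ≤ p.2) ∧
    ∀ y : ℝ, 0 ≤ y → y ≤ Y →
      Nplus y = (l.map (fun p => p.1 * (⌊y / p.2⌋₊ : ℝ))).sum ∧
      Pplus y = (l.map (fun p => p.1 * stp p.2 y)).sum := by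
  refine ⟨((1 / 2 : ℝ), F 1) :: ((1 / 2 : ℝ), F 2) ::
    (plistZ (⌈2 * Y⌉₊ + 2) root).map (fun z => ((1 : ℝ), F z)), ?_, ?_⟩
  · intro p hp
    rw [List.mem_cons, List.mem_cons, List.mem_map] at hp
    rcases hp with rfl | rfl | ⟨z, hz, rfl⟩
    · exact F_one.1
    · exact F_one.1.trans (F_le le_rfl (by norm_num))
    · exact F_one.1.trans (F_le le_rfl (plistZ_pos _ good_root z hz))
  · intro y hy hY
    constructor
    · rw [Nplus, Nf, plist_stable (fun z hz h => phiN_zero hz h) hY, plistZ_sum,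
        List.map_cons, List.map_cons, List.sum_cons, List.sum_cons, List.map_map]
      have : (plistZ (⌈2 * Y⌉₊ + 2) root).map (phiN y) = (plistZ (⌈2 * Y⌉₊ + 2) root).map
          ((fun p : ℝ × ℝ => p.1 * (⌊y / p.2⌋₊ : ℝ)) ∘ fun z => ((1 : ℝ), F z)) := by
        apply List.map_congr_left
        intro z _
        simp [phiN]
      rw [← this]
      generalize ((plistZ (⌈2 * Y⌉₊ + 2) root).map (phiN y)).sum = A
      simp only [phiN]
      ring
    · rw [Pplus, Pf, plist_stable (fun z _ h => phiP_zero h) hY, plistZ_sum,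
        List.map_cons, List.map_cons, List.sum_cons, List.sum_cons, List.map_map]
      have : (plistZ (⌈2 * Y⌉₊ + 2) root).map (phiP y) = (plistZ (⌈2 * Y⌉₊ + 2) root).map
          ((fun p : ℝ × ℝ => p.1 * stp p.2 y) ∘ fun z => ((1 : ℝ), F z)) := by
        apply List.map_congr_left
        intro z _
        simp [phiP]
      rw [← this]
      generalize ((plistZ (⌈2 * Y⌉₊ + 2) root).map (phiP y)).sum = A
      simp only [phiP]
      ring

end Pool.Agent.Lib.MP_94ab62_nt
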