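import Pool.Agent.Lib.MP_94ab62_nt.Count
import Pool.Agent.Lib.MP_94ab62_nt.Mert
import Pool.Agent.Lib.MP_94ab62_nt.MobB
import Pool.Agent.Lib.MP_94ab62_nt.Plist
import Pool.Agent.Lib.MP_94ab62_nt.Enum
import Pool.Agent.Lib.MP_94ab62_nt.Numb
import Pool.Agent.Lib.MP_94ab62_nt.Inv

/-!
# FIN: the main theorem
-/

set_option autoImplicit false
open Filter Topology

namespace Pool.Agent.Lib.MP_94ab62_nt

theorem pplus_asymp : ∃ A : ℝ, 0 < A ∧
    Tendsto (fun x : ℝ => (Pplus x - A * x ^ 2) / x) atTop (𝓝 0) := by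
  obtain ⟨A, hA, K, y0, h⟩ := count_main
  exact ⟨A * c2, mul_pos hA c2_pos,
    mobius_asymp mert_tendsto Nplus Pplus (by norm_num) h plus_list⟩

theorem tripleCount_eq {N : ℕ} (hN : 2 ≤ N) : (tripleCount N : ℝ) = Pplus (F N) + 1 := by
  have h1 : phiP (F N) 1 = 1 := by
    unfold phiP stp
    rw [if_pos (F_le (le_refl 1) (by omega))]
  have h2 : phiP (F N) 2 = 1 := by
    unfold phiP stp
    rw [if_pos (F_le (by norm_num) hN)]
  rw [enum_main hN, Pplus, h1, h2]
  ring

theorem log_tendsto_nat : Tendsto (fun N : ℕ => Real.log (N : ℝ)) atTop atTop :=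
  Real.tendsto_log_atTop.comp tendsto_natCast_atTop_atTop

theorem log3_sub (N : ℕ) (hN : 1 ≤ N) : Real.log (3 * N) = Real.log 3 + Real.log N := by
  rw [Real.log_mul (by norm_num) (by positivity)]

theorem F_ratio : Tendsto (fun N : ℕ => F N / Real.log N) atTop (𝓝 1) := by
  have hl := log_tendsto_nat
  have h1 : Tendsto (fun N : ℕ => 1 + (Real.log 3) / Real.log N) atTop (𝓝 1) := by
    have := (tendsto_const_nhds (x := Real.log 3)).div_atTop hl
    simpa using tendsto_const_nhds.add this
  have h2 : Tendsto (fun N : ℕ => 1 + (Real.log 3 - 1) / Real.log N) atTop (𝓝 1) := by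
    have := (tendsto_const_nhds (x := Real.log 3 - 1)).div_atTop hl
    simpa using tendsto_const_nhds.add this
  refine tendsto_of_tendsto_of_tendsto_of_le_of_le' h2 h1 ?_ ?_
  · filter_upwards [eventually_ge_atTop 2] with N hN
    have hlog : 0 < Real.log N := Real.log_pos (by exact_mod_cast hN)
    have h3 := (F_log (z := N) (by omega)).2
    rw [log3_sub N (by omega)] at h3
    have h4 : 1 / (N : ℝ) ^ 2 ≤ 1 := by
      rw [div_le_one (by positivity)]
      have : (1 : ℝ) ≤ N := by exact_mod_cast (by omega : 1 ≤ N)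
      nlinarith
    rw [le_div_iff₀ hlog, add_mul, div_mul_cancel₀ _ hlog.ne']
    linarith
  · filter_upwards [eventually_ge_atTop 2] with N hN
    have hlog : 0 < Real.log N := Real.log_pos (by exact_mod_cast hN)
    have h3 := (F_log (z := N) (by omega)).1
    rw [log3_sub N (by omega)] at h3
    rw [div_le_iff₀ hlog, add_mul, div_mul_cancel₀ _ hlog.ne']
    linarith

theorem F_tendsto : Tendsto (fun N : ℕ => F N) atTop atTop := by
  refine tendsto_atTop_mono' _ ?_ (tendsto_atTop_add_const_right _ (-1) log_tendsto_nat)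
  filter_upwards [eventually_ge_atTop 2] with N hN
  have h3 := (F_log (z := N) (by omega)).2
  rw [log3_sub N (by omega)] at h3
  have h4 : 1 / (N : ℝ) ^ 2 ≤ 1 := by
    rw [div_le_one (by positivity)]
    have : (1 : ℝ) ≤ N := by exact_mod_cast (by omega : 1 ≤ N)
    nlinarith
  have h5 : 0 ≤ Real.log 3 := Real.log_nonneg (by norm_num)
  linarith

/-- `M(N) = C log²(3N) + o(log N)` -/
theorem count_asymp : ∃ C : ℝ, 0 < C ∧
    Tendsto (fun N : ℕ => ((tripleCount N : ℝ) - C * (Real.log (3 * N)) ^ 2) / Real.log N) atTop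
      (𝓝 0) := by
  obtain ⟨A, hA, hP⟩ := pplus_asymp
  refine ⟨A, hA, ?_⟩
  have hP' := hP.comp F_tendsto
  have h1 : Tendsto (fun N : ℕ => ((Pplus (F N) - A * (F N) ^ 2) / F N) * (F N / Real.log N))
      atTop (𝓝 0) := by
    simpa using hP'.mul F_ratio
  have h2 : Tendsto (fun N : ℕ => (1 : ℝ) / Real.log N) atTop (𝓝 0) :=
    tendsto_const_nhds.div_atTop log_tendsto_nat
  have h3 : Tendsto (fun N : ℕ => A * ((F N) ^ 2 - (Real.log (3 * N)) ^ 2) / Real.log N)
      atTop (𝓝 0) := by
    have hinv : Tendsto (fun N : ℕ => 1 / (N : ℝ) ^ 2) atTop (𝓝 0) := by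
      have : Tendsto (fun N : ℕ => (N : ℝ) ^ 2) atTop atTop :=
        (tendsto_pow_atTop (by norm_num)).comp tendsto_natCast_atTop_atTop
      exact tendsto_const_nhds.div_atTop this
    have hratio : Tendsto (fun N : ℕ => Real.log (3 * N) / Real.log N) atTop (𝓝 1) := by
      have := (tendsto_const_nhds (x := Real.log 3)).div_atTop log_tendsto_nat
      have h' : Tendsto (fun N : ℕ => Real.log 3 / Real.log N + 1) atTop (𝓝 1) := by
        simpa using this.add (tendsto_const_nhds (x := (1 : ℝ)))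
      refine h'.congr' ?_
      filter_upwards [eventually_ge_atTop 2] with N hN
      have hlog : 0 < Real.log N := Real.log_pos (by exact_mod_cast hN)
      rw [log3_sub N (by omega), add_div, div_self hlog.ne']
    have hbig : Tendsto (fun N : ℕ => A * (1 / (N : ℝ) ^ 2 * (2 * (Real.log (3 * N) / Real.log N))))
        atTop (𝓝 0) := by
      have := (hinv.mul (hratio.const_mul 2)).const_mul A
      simpa using this
    refine squeeze_zero_norm' ?_ hbig
    filter_upwards [eventually_ge_atTop 2] with N hN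
    have hlog : 0 < Real.log N := Real.log_pos (by exact_mod_cast hN)
    obtain ⟨hu, hl⟩ := F_log (z := N) (by omega)
    have hF : 0 < F N := F_pos (by omega)
    have hab : |(F N) ^ 2 - (Real.log (3 * N)) ^ 2| ≤ 1 / (N : ℝ) ^ 2 * (2 * Real.log (3 * N)) := by
      have e1 : (F N) ^ 2 - (Real.log (3 * N)) ^ 2 =
          (F N - Real.log (3 * N)) * (F N + Real.log (3 * N)) := by ring
      rw [e1, abs_mul]
      refine mul_le_mul ?_ ?_ (abs_nonneg _) (by positivity)
      · have hpos : (0 : ℝ) ≤ 1 / (N : ℝ) ^ 2 := by positivity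
        rw [abs_le]; constructor <;> linarith
      · rw [abs_of_pos (by linarith)]; linarith
    rw [Real.norm_eq_abs, abs_div, abs_mul, abs_of_pos hA, abs_of_pos hlog]
    rw [div_le_iff₀ hlog]
    calc A * |(F N) ^ 2 - (Real.log (3 * N)) ^ 2| ≤
        A * (1 / (N : ℝ) ^ 2 * (2 * Real.log (3 * N))) := by gcongr
      _ = A * (1 / (N : ℝ) ^ 2 * (2 * (Real.log (3 * N) / Real.log N))) * Real.log N := by
        field_simp
  have h4 := (h1.add h2).add h3
  simp only [add_zero] at h4
  refine h4.congr' ?_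
  filter_upwards [eventually_ge_atTop 2] with N hN
  have hlog : 0 < Real.log N := Real.log_pos (by exact_mod_cast hN)
  have hF : 0 < F N := F_pos (by omega)
  rw [tripleCount_eq hN]
  field_simp
  ring

theorem ratio_log3 : Tendsto (fun N : ℕ => Real.log (3 * N) / Real.log N) atTop (𝓝 1) := by
  have := (tendsto_const_nhds (x := Real.log 3)).div_atTop log_tendsto_nat
  have h' : Tendsto (fun N : ℕ => Real.log 3 / Real.log N + 1) atTop (𝓝 1) := by
    simpa using this.add (tendsto_const_nhds (x := (1 : ℝ)))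
  refine h'.congr' ?_
  filter_upwards [eventually_ge_atTop 2] with N hN
  have hlog : 0 < Real.log N := Real.log_pos (by exact_mod_cast hN)
  rw [log3_sub N (by omega), add_div, div_self hlog.ne']

theorem main_theorem : ∃ C : ℝ, 0 < C ∧
    Tendsto (fun N : ℕ => (tripleCount N : ℝ) / (Real.log N) ^ 2) atTop (𝓝 C) ∧
    (fun N : ℕ => (tripleCount N : ℝ) - C * (Real.log (3 * N)) ^ 2) =o[atTop]
      (fun N : ℕ => Real.log N) ∧
    Tendsto (fun n : ℕ => (tripleMax n : ℝ) / Real.exp (Real.sqrt n / Real.sqrt C)) atTop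
      (𝓝 (1 / 3)) ∧
    (∀ ε : ℝ, 0 < ε → ∀ᶠ n : ℕ in atTop,
      1 / 3 - ε ≤ (Nat.nth IsMarkoff n : ℝ) / Real.exp (Real.sqrt n / Real.sqrt C)) ∧
    (Tendsto (fun n : ℕ => (Nat.nth IsMarkoff n : ℝ) / Real.exp (Real.sqrt n / Real.sqrt C)) atTop
        (𝓝 (1 / 3)) ↔
      (fun N : ℕ => (tripleCount N : ℝ) - numberCount N) =o[atTop]
        (fun N : ℕ => Real.log N)) := by
  obtain ⟨C, hC, h⟩ := count_asymp
  have hne : ∀ᶠ N : ℕ in atTop, Real.log (N : ℝ) ≠ 0 := by
    filter_upwards [eventually_ge_atTop 2] with N hN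
    exact (Real.log_pos (by exact_mod_cast hN)).ne'
  have hiff : ∀ f : ℕ → ℝ, f =o[atTop] (fun N : ℕ => Real.log (N : ℝ)) ↔
      Tendsto (fun N : ℕ => f N / Real.log N) atTop (𝓝 0) := by
    intro f
    refine Asymptotics.isLittleO_iff_tendsto' ?_
    filter_upwards [hne] with N hN h0
    exact absurd h0 hN
  have htri : Tendsto (fun n : ℕ => (tripleMax n : ℝ) / Real.exp (Real.sqrt n / Real.sqrt C)) atTop
      (𝓝 (1 / 3)) := inv_asymp tripleCount tripleCount_mono hC h
  have hnth : ∀ n, (Nat.nth IsMarkoff n) = sInf {N : ℕ | n < numberCount N} := nth_eq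
  refine ⟨C, hC, ?_, (hiff _).2 h, htri, ?_, ?_⟩
  · have h1 : Tendsto (fun N : ℕ => (((tripleCount N : ℝ) - C * (Real.log (3 * N)) ^ 2) /
        Real.log N) * (1 / Real.log N) + C * (Real.log (3 * N) / Real.log N) ^ 2) atTop (𝓝 C) := by
      have h2 : Tendsto (fun N : ℕ => (1 : ℝ) / Real.log N) atTop (𝓝 0) :=
        tendsto_const_nhds.div_atTop log_tendsto_nat
      simpa using (h.mul h2).add ((ratio_log3.pow 2).const_mul C)
    refine h1.congr' ?_
    filter_upwards [hne] with N hN
    field_simp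
    ring
  · intro ε hε
    have h1 := htri.eventually (lt_mem_nhds (show 1 / 3 - ε < 1 / 3 by linarith))
    filter_upwards [h1] with n hn
    refine le_trans hn.le ?_
    gcongr
    rw [hnth n]
    have hmem : n < numberCount (sInf {N : ℕ | n < numberCount N}) :=
      Nat.sInf_mem (s := {N : ℕ | n < numberCount N}) (numberCount_unbounded n)
    exact Nat.sInf_le (lt_of_lt_of_le hmem (numberCount_le _))
  · simp only [hnth]
    constructor
    · intro ht
      have h2 := inv_conv numberCount numberCount_mono numberCount_unbounded hC ht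
      rw [hiff]
      have h3 := h.sub h2
      simp only [sub_zero] at h3
      refine h3.congr' ?_
      filter_upwards with N
      ring
    · intro ho
      rw [hiff] at ho
      refine inv_asymp numberCount numberCount_mono hC ?_
      have h3 := h.sub ho
      simp only [sub_zero] at h3
      refine h3.congr' ?_
      filter_upwards with N
      ring

end Pool.Agent.Lib.MP_94ab62_nt
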