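import Pool.Agent.Lib.MP_94ab62_nt.Eps3

/-!
# LIOUA: a Liouville type inequality in `ℤ[γ]`, `γ + γ⁻¹ = 3x`

Let `x, y, z` be positive integers with `x² + y² + z² = 3xyz`, `γ = e^(F x)` (so `γ + γ⁻¹ = 3x`, `γ > 1`),
`Δ = 9x² - 4 = (γ-γ⁻¹)²`, `t₀ = 3y`, `t₁ = 3z`, `α = (t₁ - t₀γ⁻¹)/(γ-γ⁻¹)`, `β = (t₀γ - t₁)/(γ-γ⁻¹)`.
The set `S = {(m + nγ, m + nγ⁻¹) : m, n ∈ ℤ}` is closed under `+, -, *` and contains `(γ, γ⁻¹)`, `(γ⁻¹, γ)`, `(k, k)`
and `(Δα, Δβ)` (as `Δα = (γ-γ⁻¹)(t₁-t₀γ⁻¹)`, `Δβ = (γ⁻¹-γ)(t₁-t₀γ)`); for an element `(u, u')` of `S`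
the product `u u' = m² + 3x m n + n²` is an integer, and it is `0` only if `u = u' = 0` (`γ` is irrational since `9x²-4` is not
a square).  Apply this to `Y = (Δα)^r (γ⁻¹)^s - Δ^r`, `Y' = (Δβ)^r γ^s - Δ^r`: `Y = Y' = 0` would give
`(αβ)^r = 1`, but `αβ = 9x²/(9x²-4) > 1`.  So `|Y| ≥ 1/|Y'|`, `|Y'| ≤ Δ^r (β^r γ^s + 1)`.
-/

set_option autoImplicit false

namespace Pool.Agent.Lib.MP_94ab62_nt

/-- `γ` -/
noncomputable def gam (t : Nd) : ℝ := Real.exp (fa t)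

/-- `α` -/
noncomputable def alp (t : Nd) : ℝ :=
  (3 * (t.2.2 : ℝ) - 3 * t.2.1 * (gam t)⁻¹) / (gam t - (gam t)⁻¹)

/-- `β` -/
noncomputable def bet (t : Nd) : ℝ :=
  (3 * (t.2.1 : ℝ) * gam t - 3 * t.2.2) / (gam t - (gam t)⁻¹)

theorem gam_gt_one {t : Nd} (h : Good t) : 2 < gam t := by
  have h1 := fa_ge h
  have h2 : Real.exp (24 / 25) ≤ gam t := Real.exp_le_exp.mpr h1
  have h3 := Real.quadratic_le_exp_of_nonneg (x := 24 / 25) (by norm_num)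
  have h4 : (2 : ℝ) < 1 + 24 / 25 + (24 / 25) ^ 2 / 2 := by norm_num
  linarith

theorem gam_add_inv {t : Nd} (h : Good t) : gam t + (gam t)⁻¹ = 3 * (t.1 : ℝ) := by
  have h1 : Real.cosh (fa t) = 3 * (t.1 : ℝ) / 2 := cosh_F h.1
  rw [Real.cosh_eq] at h1
  have h2 : (gam t)⁻¹ = Real.exp (-(fa t)) := by
    unfold gam; rw [Real.exp_neg]
  rw [h2]
  unfold gam
  linarith

private theorem liouA_gam_pos (t : Nd) : 0 < gam t := Real.exp_pos _

private theorem liouA_inv_lt {t : Nd} (h : Good t) : (gam t)⁻¹ < 1 := by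
  have h1 := gam_gt_one h
  exact inv_lt_one_of_one_lt₀ (by linarith)

private theorem liouA_sub_pos {t : Nd} (h : Good t) : 0 < gam t - (gam t)⁻¹ := by
  have h1 := gam_gt_one h
  have h2 := liouA_inv_lt h
  linarith

private theorem liouA_mul_inv (t : Nd) : gam t * (gam t)⁻¹ = 1 :=
  mul_inv_cancel₀ (liouA_gam_pos t).ne'

private theorem liouA_delta {t : Nd} (h : Good t) :
    (gam t - (gam t)⁻¹) ^ 2 = 9 * (t.1 : ℝ) ^ 2 - 4 := by
  have h1 := gam_add_inv h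
  have h2 := liouA_mul_inv t
  have h3 : (gam t - (gam t)⁻¹) ^ 2 = (gam t + (gam t)⁻¹) ^ 2 - 4 * (gam t * (gam t)⁻¹) := by ring
  rw [h3, h1, h2]; ring

private theorem liouA_markoff {t : Nd} (h : Good t) :
    (t.1 : ℝ) ^ 2 + (t.2.1 : ℝ) ^ 2 + (t.2.2 : ℝ) ^ 2 = 3 * t.1 * t.2.1 * t.2.2 := by
  have h1 := h.2.2.2.2.2
  exact_mod_cast h1

theorem alp_add_bet (t : Nd) (h : Good t) : alp t + bet t = 3 * (t.2.1 : ℝ) := by
  have h1 := (liouA_sub_pos h).ne'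
  unfold alp bet
  rw [← add_div, div_eq_iff h1]
  ring

theorem alp_mul_bet {t : Nd} (h : Good t) :
    alp t * bet t = 9 * (t.1 : ℝ) ^ 2 / (9 * (t.1 : ℝ) ^ 2 - 4) := by
  have h1 := (liouA_sub_pos h).ne'
  have h2 := liouA_delta h
  unfold alp bet
  rw [div_mul_div_comm, ← pow_two (gam t - (gam t)⁻¹), h2]
  congr 1
  have h3 := liouA_mul_inv t
  have h4 := gam_add_inv h
  have h5 := liouA_markoff h
  have h6 : (3 * (t.2.2 : ℝ) - 3 * t.2.1 * (gam t)⁻¹) * (3 * (t.2.1 : ℝ) * gam t - 3 * t.2.2) =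
      9 * t.2.1 * t.2.2 * (gam t + (gam t)⁻¹) - 9 * t.2.2 ^ 2
        - 9 * t.2.1 ^ 2 * (gam t * (gam t)⁻¹) := by ring
  rw [h6, h3, h4]
  nlinarith [h5]

private theorem liouA_aux {x y z : ℝ} (hx : 1 ≤ x) (hxy : x < y) (hyz : y < z)
    (h5 : x ^ 2 + y ^ 2 + z ^ 2 = 3 * x * y * z) : 3 * x * y < 2 * z := by
  have h1 : 0 < (z - y) * (z + y - 3 * x * y) := by
    have h2 : (z - y) * (z + y - 3 * x * y) = 3 * x * y ^ 2 - 2 * y ^ 2 - x ^ 2 := by
      nlinarith [h5]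
    rw [h2]
    nlinarith [mul_nonneg (sub_nonneg.mpr hx) (sq_nonneg y)]
  have h3 : 0 < z + y - 3 * x * y := by
    by_contra hc
    push Not at hc
    have := mul_nonpos_of_nonneg_of_nonpos (by linarith : (0 : ℝ) ≤ z - y) hc
    linarith
  linarith

private theorem liouA_larger {t : Nd} (h : Good t) : 3 * (t.1 : ℝ) * t.2.1 < 2 * t.2.2 := by
  have h5 := liouA_markoff h
  obtain ⟨hx, hy, hxy, hxz, hyz, -⟩ := h
  have hx' : (1 : ℝ) ≤ t.1 := by exact_mod_cast hx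
  have hy' : (1 : ℝ) ≤ t.2.1 := by exact_mod_cast hy
  have hxz' : (t.1 : ℝ) < t.2.2 := by exact_mod_cast hxz
  have hyz' : (t.2.1 : ℝ) < t.2.2 := by exact_mod_cast hyz
  have hne : (t.1 : ℝ) ≠ t.2.1 := by exact_mod_cast hxy
  rcases lt_or_gt_of_ne hne with hlt | hgt
  · exact liouA_aux hx' hlt hyz' h5
  · have := liouA_aux (x := (t.2.1 : ℝ)) (y := t.1) (z := t.2.2) hy' hgt hxz' (by linarith)
    linarith

private theorem liouA_sub {t : Nd} (h : Good t) : 0 < alp t - bet t := by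
  have h1 := liouA_sub_pos h
  have h2 := liouA_larger h
  have h3 := gam_add_inv h
  have h4 : alp t - bet t = (6 * t.2.2 - 3 * t.2.1 * (gam t + (gam t)⁻¹)) / (gam t - (gam t)⁻¹) := by
    unfold alp bet
    rw [← sub_div]
    congr 1
    ring
  rw [h4, h3]
  apply div_pos _ h1
  linarith

/-- `α - β = (6z - 9xy)/(γ-γ⁻¹) > 0` as `z` is the larger root; with `α + β ≥ 3`, `αβ ≤ 9/5`. -/
theorem alp_ge {t : Nd} (h : Good t) : 3 / 2 ≤ alp t := by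
  have h1 := liouA_sub h
  have h2 := alp_add_bet t h
  have h3 : (1 : ℝ) ≤ t.2.1 := by exact_mod_cast h.2.1
  linarith

private theorem liouA_x {t : Nd} (h : Good t) : (1 : ℝ) ≤ t.1 := by exact_mod_cast h.1

private theorem liouA_dpos {t : Nd} (h : Good t) : (5 : ℝ) ≤ 9 * (t.1 : ℝ) ^ 2 - 4 := by
  have h3 := liouA_x h
  nlinarith

private theorem liouA_prod {t : Nd} (h : Good t) : 1 < alp t * bet t ∧ alp t * bet t ≤ 9 / 5 := by
  have h4 := liouA_dpos h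
  rw [alp_mul_bet h]
  constructor
  · rw [lt_div_iff₀ (by linarith)]; linarith
  · rw [div_le_iff₀ (by linarith)]; linarith

theorem bet_bounds {t : Nd} (h : Good t) : 0 < bet t ∧ bet t ≤ 2 := by
  have h1 := alp_ge h
  obtain ⟨h2, h3⟩ := liouA_prod h
  have h4 : 0 < bet t := by
    by_contra hc
    push Not at hc
    have := mul_nonpos_of_nonneg_of_nonpos (by linarith : (0 : ℝ) ≤ alp t) hc
    linarith
  refine ⟨h4, ?_⟩
  nlinarith

/-- membership in `ℤ[γ]`, together with the conjugate -/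
private def LiouS (t : Nd) (u v : ℝ) : Prop :=
  ∃ m n : ℤ, u = m + n * gam t ∧ v = m + n * (gam t)⁻¹

private theorem liouS_add {t : Nd} {u v u' v' : ℝ} (h1 : LiouS t u v) (h2 : LiouS t u' v') :
    LiouS t (u + u') (v + v') := by
  obtain ⟨m, n, rfl, rfl⟩ := h1
  obtain ⟨m', n', rfl, rfl⟩ := h2
  exact ⟨m + m', n + n', by push_cast; ring, by push_cast; ring⟩

private theorem liouS_neg {t : Nd} {u v : ℝ} (h1 : LiouS t u v) : LiouS t (-u) (-v) := by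
  obtain ⟨m, n, rfl, rfl⟩ := h1
  exact ⟨-m, -n, by push_cast; ring, by push_cast; ring⟩

private theorem liouS_sub {t : Nd} {u v u' v' : ℝ} (h1 : LiouS t u v) (h2 : LiouS t u' v') :
    LiouS t (u - u') (v - v') := by
  rw [sub_eq_add_neg, sub_eq_add_neg]
  exact liouS_add h1 (liouS_neg h2)

private theorem liouS_mul {t : Nd} (h : Good t) {u v u' v' : ℝ} (h1 : LiouS t u v)
    (h2 : LiouS t u' v') : LiouS t (u * u') (v * v') := by
  obtain ⟨m, n, rfl, rfl⟩ := h1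
  obtain ⟨m', n', rfl, rfl⟩ := h2
  have h3 := liouA_mul_inv t
  have h4 := gam_add_inv h
  have h5 : gam t * gam t = 3 * t.1 * gam t - 1 := by
    rw [← h4]; nlinarith
  have h6 : (gam t)⁻¹ * (gam t)⁻¹ = 3 * t.1 * (gam t)⁻¹ - 1 := by
    rw [← h4]; nlinarith
  refine ⟨m * m' - n * n', m * n' + m' * n + 3 * t.1 * (n * n'), ?_, ?_⟩
  · push_cast
    have : ((m : ℝ) + n * gam t) * (m' + n' * gam t) =
        m * m' + (m * n' + m' * n) * gam t + n * n' * (gam t * gam t) := by ring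
    rw [this, h5]; ring
  · push_cast
    have : ((m : ℝ) + n * (gam t)⁻¹) * (m' + n' * (gam t)⁻¹) =
        m * m' + (m * n' + m' * n) * (gam t)⁻¹ + n * n' * ((gam t)⁻¹ * (gam t)⁻¹) := by ring
    rw [this, h6]; ring

private theorem liouS_int (t : Nd) (k : ℤ) : LiouS t (k : ℝ) (k : ℝ) :=
  ⟨k, 0, by simp, by simp⟩

private theorem liouS_pow {t : Nd} (h : Good t) {u v : ℝ} (h1 : LiouS t u v) (k : ℕ) :
    LiouS t (u ^ k) (v ^ k) := by
  induction k with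
  | zero => simpa using liouS_int t 1
  | succ k ih => rw [pow_succ, pow_succ]; exact liouS_mul h ih h1

private theorem liouS_gam (t : Nd) : LiouS t (gam t) (gam t)⁻¹ := ⟨0, 1, by simp, by simp⟩

private theorem liouS_inv {t : Nd} (h : Good t) : LiouS t (gam t)⁻¹ (gam t) := by
  have h4 := gam_add_inv h
  refine ⟨3 * t.1, -1, ?_, ?_⟩
  · push_cast; linarith
  · push_cast; linarith

private theorem liouS_da {t : Nd} (h : Good t) :
    LiouS t ((9 * (t.1 : ℝ) ^ 2 - 4) * alp t) ((9 * (t.1 : ℝ) ^ 2 - 4) * bet t) := by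
  have h1 := (liouA_sub_pos h).ne'
  have h2 := liouA_delta h
  have h3 : (9 * (t.1 : ℝ) ^ 2 - 4) * alp t =
      (gam t - (gam t)⁻¹) * (((3 * t.2.2 : ℤ) : ℝ) - ((3 * t.2.1 : ℤ) : ℝ) * (gam t)⁻¹) := by
    rw [← h2]; unfold alp
    push_cast
    field_simp
  have h4 : (9 * (t.1 : ℝ) ^ 2 - 4) * bet t =
      ((gam t)⁻¹ - gam t) * (((3 * t.2.2 : ℤ) : ℝ) - ((3 * t.2.1 : ℤ) : ℝ) * gam t) := by
    rw [← h2]; unfold bet
    push_cast
    field_simp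
    ring
  rw [h3, h4]
  exact liouS_mul h (liouS_sub (liouS_gam t) (liouS_inv h))
    (liouS_sub (liouS_int t _) (liouS_mul h (liouS_int t _) (liouS_inv h)))

private theorem liouA_nonsq {t : Nd} (h : Good t) (k : ℤ) : k ^ 2 ≠ 9 * (t.1 : ℤ) ^ 2 - 4 := by
  intro hk
  have hx : (1 : ℤ) ≤ t.1 := by exact_mod_cast h.1
  have hk2 : |k| ^ 2 = 9 * (t.1 : ℤ) ^ 2 - 4 := by rw [sq_abs]; exact hk
  have hk0 := abs_nonneg k
  have h1 : |k| < 3 * t.1 := by nlinarith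
  have h2 : 3 * (t.1 : ℤ) - 1 < |k| := by nlinarith
  omega

private theorem liouS_prod {t : Nd} (h : Good t) {u v : ℝ} (h1 : LiouS t u v)
    (hne : ¬ (u = 0 ∧ v = 0)) : 1 ≤ |u| * |v| := by
  obtain ⟨m, n, hu, hv⟩ := h1
  have h3 := liouA_mul_inv t
  have h4 := gam_add_inv h
  have h5 : u * v = ((m ^ 2 + 3 * t.1 * (m * n) + n ^ 2 : ℤ) : ℝ) := by
    rw [hu, hv]; push_cast
    have : ((m : ℝ) + n * gam t) * (m + n * (gam t)⁻¹) =
      m ^ 2 + m * n * (gam t + (gam t)⁻¹) + n ^ 2 * (gam t * (gam t)⁻¹) := by ring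
    rw [this, h3, h4]; ring
  rw [← abs_mul, h5, ← Int.cast_abs]
  have h6 : m ^ 2 + 3 * (t.1 : ℤ) * (m * n) + n ^ 2 ≠ 0 := by
    intro h0
    have h7 : (2 * m + 3 * t.1 * n) ^ 2 = (9 * (t.1 : ℤ) ^ 2 - 4) * n ^ 2 := by nlinarith
    by_cases hn : n = 0
    · subst hn
      have hm : m = 0 := by
        have : m ^ 2 = 0 := by simpa using h0
        exact pow_eq_zero_iff (two_ne_zero) |>.mp this
      subst hm
      exact hne ⟨by rw [hu]; simp, by rw [hv]; simp⟩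
    · have h8 : n ^ 2 ∣ (2 * m + 3 * t.1 * n) ^ 2 := Dvd.intro_left _ h7.symm
      have h9 : n ∣ (2 * m + 3 * t.1 * n) := (Int.pow_dvd_pow_iff two_ne_zero).mp h8
      obtain ⟨k, hk⟩ := h9
      rw [hk] at h7
      apply liouA_nonsq h k
      have hn2 : n ^ 2 ≠ 0 := pow_ne_zero _ hn
      apply mul_right_cancel₀ hn2
      rw [← h7]; ring
  have h10 : (1 : ℤ) ≤ |m ^ 2 + 3 * (t.1 : ℤ) * (m * n) + n ^ 2| := Int.one_le_abs h6
  exact_mod_cast h10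

/-- The Liouville inequality. -/
theorem liouville_gam {t : Nd} (h : Good t) (r s : ℕ) (hr : 1 ≤ r) :
    1 / ((9 * (t.1 : ℝ) ^ 2 - 4) ^ (2 * r) * (2 ^ r * gam t ^ s + 1)) ≤
      |alp t ^ r * (gam t)⁻¹ ^ s - 1| := by
  have hD := liouA_dpos h
  have hg := liouA_gam_pos t
  have hb := bet_bounds h
  have hS := liouS_da h
  obtain ⟨hp1, -⟩ := liouA_prod h
  have hDS : LiouS t (9 * (t.1 : ℝ) ^ 2 - 4) (9 * (t.1 : ℝ) ^ 2 - 4) := by
    have := liouS_int t (9 * (t.1 : ℤ) ^ 2 - 4)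
    simpa using this
  generalize hDe : 9 * (t.1 : ℝ) ^ 2 - 4 = D at *
  have hD0 : 0 < D := by linarith
  have hY : LiouS t ((D * alp t) ^ r * (gam t)⁻¹ ^ s - D ^ r) ((D * bet t) ^ r * gam t ^ s - D ^ r) :=
    liouS_sub (liouS_mul h (liouS_pow h hS r) (liouS_pow h (liouS_inv h) s)) (liouS_pow h hDS r)
  have hne : ¬ ((D * alp t) ^ r * (gam t)⁻¹ ^ s - D ^ r = 0 ∧
      (D * bet t) ^ r * gam t ^ s - D ^ r = 0) := by
    rintro ⟨h1, h2⟩
    have h3 : ((D * alp t) ^ r * (gam t)⁻¹ ^ s) * ((D * bet t) ^ r * gam t ^ s) = D ^ r * D ^ r := by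
      rw [sub_eq_zero.mp h1, sub_eq_zero.mp h2]
    have h4 : ((D * alp t) ^ r * (gam t)⁻¹ ^ s) * ((D * bet t) ^ r * gam t ^ s) =
        D ^ r * D ^ r * (alp t * bet t) ^ r * (gam t * (gam t)⁻¹) ^ s := by
      rw [mul_pow, mul_pow, mul_pow, mul_pow]; ring
    rw [h4, liouA_mul_inv, one_pow, mul_one] at h3
    have h5 : (1 : ℝ) < (alp t * bet t) ^ r := one_lt_pow₀ hp1 (by omega)
    have h6 : 0 < D ^ r * D ^ r := by positivity
    nlinarith
  have hfin := liouS_prod h hY hne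
  have hY1 : |(D * alp t) ^ r * (gam t)⁻¹ ^ s - D ^ r| = D ^ r * |alp t ^ r * (gam t)⁻¹ ^ s - 1| := by
    rw [show (D * alp t) ^ r * (gam t)⁻¹ ^ s - D ^ r = D ^ r * (alp t ^ r * (gam t)⁻¹ ^ s - 1) by
      rw [mul_pow]; ring, abs_mul, abs_of_pos (by positivity)]
  have hY2 : |(D * bet t) ^ r * gam t ^ s - D ^ r| ≤ D ^ r * (2 ^ r * gam t ^ s + 1) := by
    rw [show (D * bet t) ^ r * gam t ^ s - D ^ r = D ^ r * (bet t ^ r * gam t ^ s - 1) by
      rw [mul_pow]; ring, abs_mul, abs_of_pos (by positivity : 0 < D ^ r)]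
    apply mul_le_mul_of_nonneg_left _ (by positivity)
    have h1 : 0 ≤ bet t ^ r * gam t ^ s := mul_nonneg (pow_nonneg hb.1.le _) (by positivity)
    have h2 : bet t ^ r * gam t ^ s ≤ 2 ^ r * gam t ^ s :=
      mul_le_mul_of_nonneg_right (pow_le_pow_left₀ hb.1.le hb.2 r) (by positivity)
    rw [abs_le]
    constructor <;> linarith
  rw [hY1] at hfin
  have hpos : 0 < D ^ (2 * r) * (2 ^ r * gam t ^ s + 1) := by positivity
  rw [div_le_iff₀ hpos]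
  calc 1 ≤ D ^ r * |alp t ^ r * (gam t)⁻¹ ^ s - 1| * |(D * bet t) ^ r * gam t ^ s - D ^ r| := hfin
    _ ≤ D ^ r * |alp t ^ r * (gam t)⁻¹ ^ s - 1| * (D ^ r * (2 ^ r * gam t ^ s + 1)) :=
        mul_le_mul_of_nonneg_left hY2 (by positivity)
    _ = |alp t ^ r * (gam t)⁻¹ ^ s - 1| * (D ^ (2 * r) * (2 ^ r * gam t ^ s + 1)) := by
        rw [two_mul, pow_add]; ring

end Pool.Agent.Lib.MP_94ab62_nt
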