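import Pool.Agent.Lib.MP_94ab62_nt.Defs

/-!
# MERTA: the Dirichlet integral of the Mertens function

For `Re s > 1`: `s ∫_1^∞ Mert(x) x^(-s-1) dx = ∑ μ(n) n^(-s) = 1/ζ(s)`
(`LSeries_eq_mul_integral` in Mathlib/NumberTheory/LSeries/SumCoeff.lean, and the identity
`LSeries ζ s * LSeries μ s = 1`), substitute `x = e^u`.
Continuity of `s ↦ 1/(s ζ(s))` (value `0` at `s = 1`) on `Re s ≥ 1`: `riemannZeta_ne_zero_of_one_le_re`,
`differentiableAt_riemannZeta`, and at `s = 1`: `(s-1) ζ(s) → 1` (`riemannZeta_residue_one`).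
-/

set_option autoImplicit false
open MeasureTheory Filter Topology

namespace Pool.Agent.Lib.MP_94ab62_nt

/-- `G s = 1/(s ζ(s))`, and `0` at `s = 1`. -/
noncomputable def Gz (s : ℂ) : ℂ := if s = 1 then 0 else (s * riemannZeta s)⁻¹

theorem Gz_continuousOn : ContinuousOn Gz {s : ℂ | 1 ≤ s.re} := by
  intro s hs
  apply ContinuousAt.continuousWithinAt
  rcases eq_or_ne s 1 with rfl | h1
  · -- at `s = 1`
    rw [continuousAt_iff_punctured_nhds]
    have h2 : Tendsto (fun s : ℂ => (s - 1) / s * ((s - 1) * riemannZeta s)⁻¹) (𝓝[≠] 1)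
        (𝓝 ((1 - 1) / 1 * (1 : ℂ)⁻¹)) := by
      refine Tendsto.mul ?_ (riemannZeta_residue_one.inv₀ one_ne_zero)
      have : ContinuousAt (fun s : ℂ => (s - 1) / s) 1 := by
        apply ContinuousAt.div
        · fun_prop
        · fun_prop
        · exact one_ne_zero
      exact this.tendsto.mono_left nhdsWithin_le_nhds
    have h3 : Gz 1 = (1 - 1) / 1 * (1 : ℂ)⁻¹ := by simp [Gz]
    rw [h3]
    refine h2.congr' ?_
    filter_upwards [self_mem_nhdsWithin] with z hz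
    have hz1 : z - 1 ≠ 0 := sub_ne_zero.mpr hz
    have hz' : z ≠ 1 := hz
    rw [Gz, if_neg hz', mul_inv, mul_inv, ← mul_assoc, div_eq_mul_inv]
    field_simp
  · have h2 : (fun z : ℂ => (z * riemannZeta z)⁻¹) =ᶠ[𝓝 s] Gz := by
      filter_upwards [isOpen_ne.mem_nhds h1] with z hz
      have hz' : z ≠ 1 := hz
      rw [Gz, if_neg hz']
    refine ContinuousAt.congr ?_ h2
    have hs' : (1 : ℝ) ≤ s.re := hs
    apply ContinuousAt.inv₀
    · exact continuousAt_id.mul (differentiableAt_riemannZeta h1).continuousAt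
    · refine mul_ne_zero ?_ (riemannZeta_ne_zero_of_one_le_re hs')
      intro h
      rw [h] at hs'
      simp at hs'
      linarith

theorem mert_measurable : Measurable Mert := by
  have : Mert = (fun n : ℕ => ∑ d ∈ Finset.Icc 1 n, (ArithmeticFunction.moebius d : ℝ)) ∘
      (fun x : ℝ => ⌊x⌋₊) := rfl
  rw [this]
  exact (measurable_from_nat).comp Nat.measurable_floor

theorem abs_moeb_le (d : ℕ) : |(ArithmeticFunction.moebius d : ℝ)| ≤ 1 := by
  have := ArithmeticFunction.abs_moebius_le_one (n := d)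
  have h2 : ((|ArithmeticFunction.moebius d| : ℤ) : ℝ) ≤ ((1 : ℤ) : ℝ) := by exact_mod_cast this
  simpa using h2

theorem mert_le {x : ℝ} (hx : 0 ≤ x) : |Mert x| ≤ x := by
  unfold Mert
  calc |∑ d ∈ Finset.Icc 1 ⌊x⌋₊, (ArithmeticFunction.moebius d : ℝ)|
      ≤ ∑ d ∈ Finset.Icc 1 ⌊x⌋₊, |(ArithmeticFunction.moebius d : ℝ)| :=
        Finset.abs_sum_le_sum_abs _ _
    _ ≤ ∑ d ∈ Finset.Icc 1 ⌊x⌋₊, (1 : ℝ) := Finset.sum_le_sum fun d _ => abs_moeb_le d
    _ = (⌊x⌋₊ : ℝ) := by simp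
    _ ≤ x := Nat.floor_le hx

theorem mert_sub_le {x y : ℝ} (hx : 0 ≤ x) (hxy : x ≤ y) : |Mert y - Mert x| ≤ y - x + 1 := by
  unfold Mert
  have hf : ⌊x⌋₊ ≤ ⌊y⌋₊ := Nat.floor_le_floor hxy
  have h1 : ∑ d ∈ Finset.Icc 1 ⌊y⌋₊, (ArithmeticFunction.moebius d : ℝ) =
      ∑ d ∈ Finset.Icc 1 ⌊x⌋₊, (ArithmeticFunction.moebius d : ℝ) +
      ∑ d ∈ Finset.Ioc ⌊x⌋₊ ⌊y⌋₊, (ArithmeticFunction.moebius d : ℝ) := by
    rw [← Finset.sum_union]
    · congr 1
      ext d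
      simp only [Finset.mem_Icc, Finset.mem_union, Finset.mem_Ioc]
      omega
    · rw [Finset.disjoint_left]
      intro d hd hd'
      simp only [Finset.mem_Icc, Finset.mem_Ioc] at hd hd'
      omega
  rw [h1, add_sub_cancel_left]
  calc |∑ d ∈ Finset.Ioc ⌊x⌋₊ ⌊y⌋₊, (ArithmeticFunction.moebius d : ℝ)|
      ≤ ∑ d ∈ Finset.Ioc ⌊x⌋₊ ⌊y⌋₊, |(ArithmeticFunction.moebius d : ℝ)| :=
        Finset.abs_sum_le_sum_abs _ _
    _ ≤ ∑ d ∈ Finset.Ioc ⌊x⌋₊ ⌊y⌋₊, (1 : ℝ) := Finset.sum_le_sum fun d _ => abs_moeb_le d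
    _ = (⌊y⌋₊ : ℝ) - ⌊x⌋₊ := by
        simp [Nat.card_Ioc, Nat.cast_sub hf]
    _ ≤ y - x + 1 := by
        have := Nat.floor_le (hx.trans hxy)
        have := Nat.lt_floor_add_one x
        linarith

theorem mert_dirichlet (s : ℂ) (hs : 1 < s.re) :
    Gz s = ∫ u in Set.Ioi (0 : ℝ), ((Real.exp (-u) * Mert (Real.exp u) : ℝ) : ℂ) *
      Complex.exp (-(s - 1) * u) := by
  have hs1 : s ≠ 1 := by
    rintro rfl
    simp at hs
  have hs0 : s ≠ 0 := by
    rintro rfl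
    simp at hs
    linarith
  have h1 : LSeries (fun n => (ArithmeticFunction.moebius n : ℂ)) s = s * ∫ t in Set.Ioi (1 : ℝ),
      (∑ k ∈ Finset.Icc 1 ⌊t⌋₊, (ArithmeticFunction.moebius k : ℂ)) * (t : ℂ) ^ (-(s + 1)) := by
    apply LSeries_eq_mul_integral' _ zero_le_one hs
    apply Asymptotics.IsBigO.of_bound 1
    filter_upwards with n
    rw [Real.rpow_one, one_mul, Real.norm_of_nonneg (Finset.sum_nonneg fun _ _ => norm_nonneg _),
      Real.norm_of_nonneg (Nat.cast_nonneg n)]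
    calc ∑ k ∈ Finset.Icc 1 n, ‖(ArithmeticFunction.moebius k : ℂ)‖
        ≤ ∑ k ∈ Finset.Icc 1 n, (1 : ℝ) := by
          refine Finset.sum_le_sum fun d _ => ?_
          have := abs_moeb_le d
          rw [← Complex.ofReal_intCast, Complex.norm_real]
          exact this
      _ = n := by simp
  have h2 : riemannZeta s * LSeries (fun n => (ArithmeticFunction.moebius n : ℂ)) s = 1 := by
    rw [← ArithmeticFunction.LSeries_zeta_eq_riemannZeta hs]
    exact ArithmeticFunction.LSeries_zeta_mul_Lseries_moebius hs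
  have h3 : Gz s = ∫ t in Set.Ioi (1 : ℝ),
      (∑ k ∈ Finset.Icc 1 ⌊t⌋₊, (ArithmeticFunction.moebius k : ℂ)) * (t : ℂ) ^ (-(s + 1)) := by
    rw [Gz, if_neg hs1]
    rw [h1] at h2
    symm
    apply eq_inv_of_mul_eq_one_right
    refine Eq.trans ?_ h2
    generalize (∫ t in Set.Ioi (1 : ℝ), (∑ k ∈ Finset.Icc 1 ⌊t⌋₊,
      (ArithmeticFunction.moebius k : ℂ)) * (t : ℂ) ^ (-(s + 1))) = A
    ring
  rw [h3]
  have h4 := integral_comp_exp_Ioi (fun t : ℝ =>
    (∑ k ∈ Finset.Icc 1 ⌊t⌋₊, (ArithmeticFunction.moebius k : ℂ)) * (t : ℂ) ^ (-(s + 1))) 0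
  rw [Real.exp_zero] at h4
  rw [← h4]
  refine setIntegral_congr_fun measurableSet_Ioi fun u _ => ?_
  have h5 : ((Real.exp u : ℝ) : ℂ) ^ (-(s + 1)) = Complex.exp (-(s + 1) * u) := by
    rw [Complex.cpow_def_of_ne_zero (by exact_mod_cast (Real.exp_pos u).ne'),
      ← Complex.ofReal_log (Real.exp_pos u).le, Real.log_exp, mul_comm]
  have h6 : (Mert (Real.exp u) : ℂ) =
      ∑ k ∈ Finset.Icc 1 ⌊Real.exp u⌋₊, (ArithmeticFunction.moebius k : ℂ) := by
    unfold Mert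
    push_cast
    rfl
  simp only [Complex.real_smul]
  rw [← h6, h5]
  push_cast
  rw [show -(s - 1) * (u : ℂ) = u + (u + -(s + 1) * u) by ring, Complex.exp_add, Complex.exp_add,
    Complex.exp_neg]
  have := Complex.exp_ne_zero (u : ℂ)
  field_simp

end Pool.Agent.Lib.MP_94ab62_nt
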