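import Pool.Agent.Lib.MP_94ab62_nt.Defs

/-!
# MOBA: elementary sums with the Möbius function

* `moeb_floor`: `⌊x/d/c⌋ = ⌊⌊x/c⌋/d⌋` and `∑_{d ≤ n} μ(d) ⌊n/d⌋ = 1` for `n ≥ 1` (`= ∑_{m ≤ n} ∑_{d ∣ m} μ(d)`).
* `far_sum`: `⌊x/d/c⌋ = ∑_{m ≥ 1, m ≤ x/(dc)} 1`, so the sum is `∑_{m ≤ 1/(ηc)} (Mert(x/(mc)) - Mert(ηx))` over those `m` with
  `x/(mc) > ηx` (up to nothing else), a bounded number of `o(x)` terms.
* `c2_tail`: partial summation: `∑_{z < d ≤ w} μ(d)/d² = Mert(w)/w² - Mert(z)/z² + 2∫_z^w Mert(t)/t³ dt` (or its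
  discrete version), hence `|∑_{d > z} μ(d)/d²| ≤ C sup_{t ≥ z} |Mert t / t| / z`.
* `c2_pos`: `c2 ≥ 1 - ∑_{d≥2} 1/d² > 0`.
-/

set_option autoImplicit false
open Filter Topology

namespace Pool.Agent.Lib.MP_94ab62_nt

private theorem sum_moeb_dvd (n : ℕ) (hn : 0 < n) :
    (∑ d ∈ n.divisors, (ArithmeticFunction.moebius d : ℝ)) = if n = 1 then 1 else 0 := by
  have h := ArithmeticFunction.moebius_mul_coe_zeta
  have h2 := congrArg (fun f : ArithmeticFunction ℤ => f n) h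
  simp only [ArithmeticFunction.coe_mul_zeta_apply, ArithmeticFunction.one_apply] at h2
  have h3 : ((∑ d ∈ n.divisors, ArithmeticFunction.moebius d : ℤ) : ℝ) =
      ((if n = 1 then 1 else 0 : ℤ) : ℝ) := by rw [h2]
  push_cast at h3
  exact h3

private theorem sum_moeb_div (D n : ℕ) (hD : n ≤ D) :
    (∑ d ∈ Finset.Icc 1 D, (ArithmeticFunction.moebius d : ℝ) * ((n / d : ℕ) : ℝ)) =
      if 1 ≤ n then 1 else 0 := by
  induction n with
  | zero => simp
  | succ n ih =>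
    have ih' := ih (by omega)
    have h1 : ∀ d ∈ Finset.Icc 1 D, (ArithmeticFunction.moebius d : ℝ) * (((n + 1) / d : ℕ) : ℝ) =
        (ArithmeticFunction.moebius d : ℝ) * ((n / d : ℕ) : ℝ) +
        (if d ∣ n + 1 then (ArithmeticFunction.moebius d : ℝ) else 0) := by
      intro d _
      rw [Nat.succ_div]
      split_ifs <;> push_cast <;> ring
    rw [Finset.sum_congr rfl h1, Finset.sum_add_distrib, ih', ← Finset.sum_filter]
    have h2 : (Finset.Icc 1 D).filter (fun d => d ∣ n + 1) = (n + 1).divisors := by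
      ext d
      simp only [Finset.mem_filter, Finset.mem_Icc, Nat.mem_divisors]
      constructor
      · rintro ⟨_, h⟩
        exact ⟨h, by omega⟩
      · rintro ⟨h, _⟩
        have := Nat.le_of_dvd (by omega) h
        have := Nat.pos_of_dvd_of_pos h (by omega)
        exact ⟨⟨by omega, by omega⟩, h⟩
    rw [h2, sum_moeb_dvd (n + 1) (by omega)]
    rcases Nat.eq_zero_or_pos n with h | h
    · subst h; simp
    · have h1n : 1 ≤ n := h
      rw [if_pos h1n, if_neg (by omega), if_pos (by omega), add_zero]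

private theorem floor_ddiv (c x : ℝ) (d : ℕ) : ⌊x / d / c⌋₊ = ⌊x / c⌋₊ / d := by
  rw [div_right_comm, Nat.floor_div_natCast]

theorem moeb_floor {c x : ℝ} (hc : 0 < c) (hx : 0 ≤ x) {D : ℕ} (hD : x / c ≤ D) :
    ∑ d ∈ Finset.Icc 1 D, (ArithmeticFunction.moebius d : ℝ) * (⌊x / d / c⌋₊ : ℝ) = stp c x := by
  have h0 : (0 : ℝ) ≤ x / c := by positivity
  have hn : ⌊x / c⌋₊ ≤ D := Nat.floor_le_of_le hD
  have := sum_moeb_div D ⌊x / c⌋₊ hn
  simp only [floor_ddiv]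
  rw [this, stp]
  have : (1 ≤ ⌊x / c⌋₊) ↔ c ≤ x := by
    rw [Nat.le_floor_iff h0]
    simp [le_div_iff₀ hc]
  simp [this]

private theorem mert_diff {u v : ℝ} (hu : 0 ≤ u) (huv : u ≤ v) :
    (∑ d ∈ Finset.Ioc ⌊u⌋₊ ⌊v⌋₊, (ArithmeticFunction.moebius d : ℝ)) = Mert v - Mert u := by
  unfold Mert
  have h1 : ⌊u⌋₊ ≤ ⌊v⌋₊ := Nat.floor_mono huv
  have h2 : Finset.Icc 1 ⌊v⌋₊ = Finset.Icc 1 ⌊u⌋₊ ∪ Finset.Ioc ⌊u⌋₊ ⌊v⌋₊ := by
    ext d
    simp only [Finset.mem_union, Finset.mem_Icc, Finset.mem_Ioc]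
    omega
  rw [h2, Finset.sum_union]
  · ring
  · rw [Finset.disjoint_left]
    intro d hd hd'
    simp only [Finset.mem_Icc, Finset.mem_Ioc] at hd hd'
    omega

private theorem far_eq {c η : ℝ} (hc : 0 < c) (hη : 0 < η) {x : ℝ} (hx : 0 ≤ x) :
    (∑ d ∈ Finset.Ioc ⌊η * x⌋₊ ⌊x / c⌋₊,
      (ArithmeticFunction.moebius d : ℝ) * (⌊x / d / c⌋₊ : ℝ)) =
    ∑ m ∈ Finset.Icc 1 ⌈1 / (η * c)⌉₊,
      (Mert (max (1 / (m * c)) η * x) - Mert (η * x)) := by
  set M : ℕ := ⌈1 / (η * c)⌉₊ with hM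
  have hMle : 1 / (η * c) ≤ M := Nat.le_ceil _
  have h1 : ∀ d ∈ Finset.Ioc ⌊η * x⌋₊ ⌊x / c⌋₊,
      (ArithmeticFunction.moebius d : ℝ) * (⌊x / d / c⌋₊ : ℝ) =
      ∑ m ∈ Finset.Icc 1 M, if (d : ℝ) ≤ x / (m * c) then (ArithmeticFunction.moebius d : ℝ) else 0 := by
    intro d hd
    rw [Finset.mem_Ioc] at hd
    have hdpos : 0 < d := by omega
    have hdpos' : (0 : ℝ) < d := by exact_mod_cast hdpos
    have hdx : η * x < d := (Nat.floor_lt (by positivity)).1 hd.1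
    have hq : 0 ≤ x / d / c := by positivity
    have hfl : ⌊x / d / c⌋₊ ≤ M := by
      have : x / d / c ≤ M := by
        refine le_trans ?_ hMle
        rw [div_div, div_le_div_iff₀ (by positivity) (by positivity)]
        nlinarith
      exact Nat.floor_le_of_le this
    rw [← Finset.sum_filter]
    have h2 : (Finset.Icc 1 M).filter (fun m : ℕ => (d : ℝ) ≤ x / (m * c)) =
        Finset.Icc 1 ⌊x / d / c⌋₊ := by
      ext m
      simp only [Finset.mem_filter, Finset.mem_Icc]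
      constructor
      · rintro ⟨⟨h1, h2⟩, h3⟩
        refine ⟨h1, ?_⟩
        rw [Nat.le_floor_iff hq]
        have hm : (0 : ℝ) < m := by exact_mod_cast h1
        rw [le_div_iff₀ (by positivity)] at h3
        rw [div_div, le_div_iff₀ (by positivity)]
        linarith
      · rintro ⟨h1, h2⟩
        refine ⟨⟨h1, h2.trans hfl⟩, ?_⟩
        rw [Nat.le_floor_iff hq] at h2
        have hm : (0 : ℝ) < m := by exact_mod_cast h1
        rw [div_div, le_div_iff₀ (by positivity)] at h2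
        rw [le_div_iff₀ (by positivity)]
        linarith
    rw [h2, Finset.sum_const, nsmul_eq_mul, Nat.card_Icc]
    simp [mul_comm]
  rw [Finset.sum_congr rfl h1, Finset.sum_comm]
  refine Finset.sum_congr rfl fun m hm => ?_
  rw [Finset.mem_Icc] at hm
  have hm0 : (0 : ℝ) < m := by exact_mod_cast hm.1
  have hm1 : (1 : ℝ) ≤ m := by exact_mod_cast hm.1
  rw [← Finset.sum_filter, ← mert_diff (by positivity)
    (mul_le_mul_of_nonneg_right (le_max_right _ _) hx)]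
  refine Finset.sum_congr ?_ fun _ _ => rfl
  ext d
  simp only [Finset.mem_filter, Finset.mem_Ioc]
  have hpos : 0 ≤ max (1 / (m * c)) η * x := by positivity
  constructor
  · rintro ⟨⟨h1, h2⟩, h3⟩
    refine ⟨h1, ?_⟩
    rw [Nat.le_floor_iff hpos]
    refine h3.trans ?_
    have : x / (m * c) = 1 / (m * c) * x := by ring
    rw [this]
    exact mul_le_mul_of_nonneg_right (le_max_left _ _) hx
  · rintro ⟨h1, h2⟩
    rw [Nat.le_floor_iff hpos] at h2
    have hdx : η * x < d := (Nat.floor_lt (by positivity)).1 h1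
    have h3 : (d : ℝ) ≤ x / (m * c) := by
      rcases le_total (1 / (m * c)) η with h | h
      · rw [max_eq_right h] at h2
        exact absurd h2 (not_le.2 hdx)
      · rw [max_eq_left h] at h2
        calc (d : ℝ) ≤ 1 / (m * c) * x := h2
          _ = x / (m * c) := by ring
    refine ⟨⟨h1, ?_⟩, h3⟩
    rw [Nat.le_floor_iff (by positivity)]
    refine h3.trans ?_
    apply div_le_div_of_nonneg_left hx hc
    nlinarith

private theorem mert_scale (hM : Tendsto (fun x : ℝ => Mert x / x) atTop (𝓝 0)) {k : ℝ} (hk : 0 < k) :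
    Tendsto (fun x : ℝ => Mert (k * x) / x) atTop (𝓝 0) := by
  have h1 : Tendsto (fun x : ℝ => k * x) atTop atTop := tendsto_id.const_mul_atTop hk
  have h2 := (hM.comp h1).const_mul k
  rw [mul_zero] at h2
  refine h2.congr' ?_
  filter_upwards [eventually_gt_atTop 0] with x hx
  simp only [Function.comp]
  field_simp

theorem far_sum (hM : Tendsto (fun x : ℝ => Mert x / x) atTop (𝓝 0)) {c η : ℝ} (hc : 0 < c)
    (hη : 0 < η) :
    Tendsto (fun x : ℝ => (∑ d ∈ Finset.Ioc ⌊η * x⌋₊ ⌊x / c⌋₊,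
      (ArithmeticFunction.moebius d : ℝ) * (⌊x / d / c⌋₊ : ℝ)) / x) atTop (𝓝 0) := by
  have h1 : Tendsto (fun x : ℝ => ∑ m ∈ Finset.Icc 1 ⌈1 / (η * c)⌉₊,
      (Mert (max (1 / (m * c)) η * x) / x - Mert (η * x) / x)) atTop (𝓝 0) := by
    have : (0 : ℝ) = ∑ m ∈ Finset.Icc 1 ⌈1 / (η * c)⌉₊, ((0 : ℝ) - 0) := by simp
    rw [this]
    refine tendsto_finsetSum _ fun m _ => ?_
    exact (mert_scale hM (lt_of_lt_of_le hη (le_max_right _ _))).sub (mert_scale hM hη)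
  refine h1.congr' ?_
  filter_upwards [eventually_ge_atTop 0] with x hx
  rw [far_eq hc hη hx, Finset.sum_div]
  exact Finset.sum_congr rfl fun m _ => by ring

private noncomputable def S2 (n : ℕ) : ℝ :=
  ∑ d ∈ Finset.Icc 1 n, (ArithmeticFunction.moebius d : ℝ) / (d : ℝ) ^ 2

private theorem summable_c2 : Summable fun d : ℕ =>
    (ArithmeticFunction.moebius d : ℝ) / (d : ℝ) ^ 2 := by
  refine Summable.of_norm_bounded (g := fun d : ℕ => 1 / (d : ℝ) ^ 2)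
    (Real.summable_one_div_nat_pow.2 one_lt_two) fun d => ?_
  rw [norm_div, norm_pow, Real.norm_natCast]
  have : ‖(ArithmeticFunction.moebius d : ℝ)‖ ≤ 1 := by
    rw [Real.norm_eq_abs]
    exact_mod_cast ArithmeticFunction.abs_moebius_le_one
  gcongr

private theorem S2_tendsto : Tendsto S2 atTop (𝓝 c2) := by
  have h := summable_c2.hasSum.tendsto_sum_nat
  have h2 := h.comp (tendsto_add_atTop_nat 1)
  refine h2.congr fun n => ?_
  simp only [Function.comp, S2]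
  rw [Finset.sum_range_succ']
  simp only [Nat.cast_zero, ArithmeticFunction.map_zero, Int.cast_zero, zero_div, add_zero]
  rw [Finset.range_eq_Ico, Finset.sum_Ico_add' (fun k : ℕ => (ArithmeticFunction.moebius k : ℝ) / (k : ℝ) ^ 2) 0 n 1]
  refine Finset.sum_congr ?_ fun _ _ => rfl
  ext d
  simp only [Finset.mem_Ico, Finset.mem_Icc]
  omega

private theorem S2_step {ε : ℝ} {N : ℕ} (hM : ∀ n : ℕ, N ≤ n → |Mert n| ≤ ε * n) (hN : 1 ≤ N) (W : ℕ)
    (hW : N ≤ W) :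
    |S2 W - S2 N + Mert N / ((N : ℝ) + 1) ^ 2 - Mert W / ((W : ℝ) + 1) ^ 2| ≤
      2 * ε * (1 / ((N : ℝ) + 1) - 1 / ((W : ℝ) + 1)) := by
  induction W, hW using Nat.le_induction with
  | base =>
    have : S2 N - S2 N + Mert N / ((N : ℝ) + 1) ^ 2 - Mert N / ((N : ℝ) + 1) ^ 2 = 0 := by ring
    rw [this]; simp
  | succ W hW ih =>
    have hS : S2 (W + 1) = S2 W + (ArithmeticFunction.moebius (W + 1) : ℝ) / ((W : ℝ) + 1) ^ 2 := by
      unfold S2
      rw [Finset.sum_Icc_succ_top (by omega)]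
      push_cast; ring
    have hMe : Mert ((W + 1 : ℕ) : ℝ) = Mert W + (ArithmeticFunction.moebius (W + 1) : ℝ) := by
      unfold Mert
      rw [Nat.floor_natCast, Nat.floor_natCast, Finset.sum_Icc_succ_top (by omega)]
    have hb := hM (W + 1) (by omega)
    have hWp : (0 : ℝ) ≤ W := Nat.cast_nonneg W
    have hb2 : |Mert ((W + 1 : ℕ) : ℝ) / ((W : ℝ) + 1) ^ 2 - Mert ((W + 1 : ℕ) : ℝ) / ((W : ℝ) + 2) ^ 2| ≤
        2 * ε * (1 / ((W : ℝ) + 1) - 1 / ((W : ℝ) + 2)) := by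
      have e1 : Mert ((W + 1 : ℕ) : ℝ) / ((W : ℝ) + 1) ^ 2 - Mert ((W + 1 : ℕ) : ℝ) / ((W : ℝ) + 2) ^ 2 =
          Mert ((W + 1 : ℕ) : ℝ) * ((2 * W + 3) / (((W : ℝ) + 1) ^ 2 * ((W : ℝ) + 2) ^ 2)) := by
        field_simp
        ring
      rw [e1, abs_mul]
      have e2 : (0 : ℝ) ≤ (2 * W + 3) / (((W : ℝ) + 1) ^ 2 * ((W : ℝ) + 2) ^ 2) := by positivity
      rw [abs_of_nonneg e2]
      have hb' : |Mert ((W + 1 : ℕ) : ℝ)| ≤ ε * ((W : ℝ) + 1) := by
        have := hb; push_cast at this ⊢; exact this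
      have hε : 0 ≤ ε := by
        have h0 := (abs_nonneg _).trans hb'
        by_contra hneg
        push Not at hneg
        have : ε * ((W : ℝ) + 1) < 0 := mul_neg_of_neg_of_pos hneg (by positivity)
        linarith
      calc |Mert ((W + 1 : ℕ) : ℝ)| * ((2 * W + 3) / (((W : ℝ) + 1) ^ 2 * ((W : ℝ) + 2) ^ 2))
          ≤ (ε * ((W : ℝ) + 1)) * ((2 * W + 4) / (((W : ℝ) + 1) ^ 2 * ((W : ℝ) + 2) ^ 2)) := by
            gcongr
            · linarith
        _ = 2 * ε * (1 / ((W : ℝ) + 1) - 1 / ((W : ℝ) + 2)) := by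
            field_simp
            ring
    have e3 : S2 (W + 1) - S2 N + Mert N / ((N : ℝ) + 1) ^ 2 -
        Mert ((W + 1 : ℕ) : ℝ) / (((W + 1 : ℕ) : ℝ) + 1) ^ 2 =
        (S2 W - S2 N + Mert N / ((N : ℝ) + 1) ^ 2 - Mert W / ((W : ℝ) + 1) ^ 2) +
        (Mert ((W + 1 : ℕ) : ℝ) / ((W : ℝ) + 1) ^ 2 - Mert ((W + 1 : ℕ) : ℝ) / ((W : ℝ) + 2) ^ 2) := by
      rw [hS]
      have : (ArithmeticFunction.moebius (W + 1) : ℝ) = Mert ((W + 1 : ℕ) : ℝ) - Mert W := by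
        rw [hMe]; ring
      rw [this]
      push_cast
      have : ((W : ℝ) + 1 + 1) = (W : ℝ) + 2 := by ring
      rw [this]
      ring
    rw [e3]
    refine (abs_add_le _ _).trans ?_
    have e4 : 2 * ε * (1 / ((N : ℝ) + 1) - 1 / (((W + 1 : ℕ) : ℝ) + 1)) =
        2 * ε * (1 / ((N : ℝ) + 1) - 1 / ((W : ℝ) + 1)) +
        2 * ε * (1 / ((W : ℝ) + 1) - 1 / ((W : ℝ) + 2)) := by
      push_cast
      have : ((W : ℝ) + 1 + 1) = (W : ℝ) + 2 := by ring
      rw [this]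
      ring
    rw [e4]
    exact add_le_add ih hb2

private theorem S2_tail {ε : ℝ} {N : ℕ} (hM : ∀ n : ℕ, N ≤ n → |Mert n| ≤ ε * n) (hN : 1 ≤ N) :
    |S2 N - c2| ≤ 3 * ε / ((N : ℝ) + 1) := by
  have hNp : (1 : ℝ) ≤ N := by exact_mod_cast hN
  have hε : 0 ≤ ε := by
    have h0 := (abs_nonneg _).trans (hM N le_rfl)
    by_contra hneg
    push Not at hneg
    have : ε * (N : ℝ) < 0 := mul_neg_of_neg_of_pos hneg (by positivity)
    linarith
  have hlim : Tendsto (fun W : ℕ => |S2 W - S2 N + Mert N / ((N : ℝ) + 1) ^ 2 -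
      Mert W / ((W : ℝ) + 1) ^ 2|) atTop
      (𝓝 |c2 - S2 N + Mert N / ((N : ℝ) + 1) ^ 2 - 0|) := by
    refine ((((S2_tendsto.sub_const _).add_const _).sub ?_)).abs
    refine squeeze_zero_norm' (a := fun W : ℕ => ε * (1 / ((W : ℝ) + 1))) ?_ ?_
    · filter_upwards [eventually_ge_atTop N] with W hW
      have hb := hM W hW
      have hWp : (0 : ℝ) ≤ W := Nat.cast_nonneg W
      rw [norm_div, norm_pow, Real.norm_eq_abs, Real.norm_eq_abs, abs_of_pos (by positivity : (0 : ℝ) < (W : ℝ) + 1)]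
      rw [div_le_iff₀ (by positivity)]
      calc |Mert W| ≤ ε * W := hb
        _ ≤ ε * ((W : ℝ) + 1) := by gcongr; linarith
        _ = ε * (1 / ((W : ℝ) + 1)) * ((W : ℝ) + 1) ^ 2 := by field_simp
    · have := (tendsto_one_div_add_atTop_nhds_zero_nat (𝕜 := ℝ)).const_mul ε
      simpa using this
  have hle : |c2 - S2 N + Mert N / ((N : ℝ) + 1) ^ 2 - 0| ≤ 2 * ε / ((N : ℝ) + 1) := by
    refine le_of_tendsto hlim ?_
    filter_upwards [eventually_ge_atTop N] with W hW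
    refine (S2_step hM hN W hW).trans ?_
    have : (0 : ℝ) ≤ 1 / ((W : ℝ) + 1) := by positivity
    calc 2 * ε * (1 / ((N : ℝ) + 1) - 1 / ((W : ℝ) + 1)) ≤ 2 * ε * (1 / ((N : ℝ) + 1)) := by
          gcongr; linarith
      _ = 2 * ε / ((N : ℝ) + 1) := by ring
  have hM' : |Mert N / ((N : ℝ) + 1) ^ 2| ≤ ε / ((N : ℝ) + 1) := by
    rw [abs_div, abs_of_pos (by positivity : (0 : ℝ) < ((N : ℝ) + 1) ^ 2), div_le_div_iff₀ (by positivity) (by positivity)]
    have := hM N le_rfl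
    have h2 : |Mert N| * ((N : ℝ) + 1) ≤ ε * N * ((N : ℝ) + 1) := by gcongr
    nlinarith [mul_nonneg hε (by positivity : (0 : ℝ) ≤ (N : ℝ) + 1)]
  have h4 : S2 N - c2 = -(c2 - S2 N + Mert N / ((N : ℝ) + 1) ^ 2 - 0) + Mert N / ((N : ℝ) + 1) ^ 2 := by ring
  rw [h4]
  refine (abs_add_le _ _).trans ?_
  rw [abs_neg]
  calc _ ≤ 2 * ε / ((N : ℝ) + 1) + ε / ((N : ℝ) + 1) := add_le_add hle hM'
    _ = 3 * ε / ((N : ℝ) + 1) := by ring

theorem c2_tail (hM : Tendsto (fun x : ℝ => Mert x / x) atTop (𝓝 0)) :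
    Tendsto (fun z : ℝ => z * (∑ d ∈ Finset.Icc 1 ⌊z⌋₊,
      (ArithmeticFunction.moebius d : ℝ) / (d : ℝ) ^ 2 - c2)) atTop (𝓝 0) := by
  rw [Metric.tendsto_atTop]
  intro e he
  have hε : 0 < e / 6 := by positivity
  rw [Metric.tendsto_atTop] at hM
  obtain ⟨Z, hZ⟩ := hM (e / 6) hε
  refine ⟨max Z 0 + 2, fun z hz => ?_⟩
  have hz0 : 0 ≤ z := by have := le_max_right Z 0; linarith
  have hfl : z < ⌊z⌋₊ + 1 := Nat.lt_floor_add_one z
  have hfl1 : max Z 0 + 1 < ⌊z⌋₊ := by linarith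
  have hN1 : 1 ≤ ⌊z⌋₊ := by
    have : (1 : ℝ) < ⌊z⌋₊ := by have := le_max_right Z 0; linarith
    exact_mod_cast this.le
  have hMn : ∀ n : ℕ, ⌊z⌋₊ ≤ n → |Mert n| ≤ e / 6 * n := by
    intro n hn
    have hn' : (⌊z⌋₊ : ℝ) ≤ n := by exact_mod_cast hn
    have hnZ : Z ≤ n := by have := le_max_left Z 0; linarith
    have hnp : (0 : ℝ) < n := by have := le_max_right Z 0; linarith
    have := hZ n hnZ
    rw [Real.dist_eq, sub_zero, abs_div, abs_of_pos hnp, div_lt_iff₀ hnp] at this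
    exact this.le
  have ht := S2_tail hMn hN1
  rw [Real.dist_eq, sub_zero, abs_mul, abs_of_nonneg hz0]
  have hlt : z * |S2 ⌊z⌋₊ - c2| ≤ e / 2 := by
    calc z * |S2 ⌊z⌋₊ - c2| ≤ ((⌊z⌋₊ : ℝ) + 1) * (3 * (e / 6) / ((⌊z⌋₊ : ℝ) + 1)) := by gcongr
      _ = e / 2 := by field_simp; ring
  have : z * |∑ d ∈ Finset.Icc 1 ⌊z⌋₊, (ArithmeticFunction.moebius d : ℝ) / (d : ℝ) ^ 2 - c2| =
    z * |S2 ⌊z⌋₊ - c2| := rfl
  rw [this]
  linarith

theorem c2_pos : 0 < c2 := by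
  have h1 : HasSum (fun d : ℕ => (if d = 1 then (2 : ℝ) else 0) - 1 / (d : ℝ) ^ 2) (2 - Real.pi ^ 2 / 6) :=
    (hasSum_ite_eq 1 (2 : ℝ)).sub hasSum_zeta_two
  have h2 : 2 - Real.pi ^ 2 / 6 ≤ c2 := by
    refine hasSum_le (fun d => ?_) h1 summable_c2.hasSum
    rcases eq_or_ne d 1 with h | h
    · subst h; simp; norm_num
    · simp only [h, if_false, zero_sub]
      rcases Nat.eq_zero_or_pos d with h0 | h0
      · subst h0; simp
      · have hd : (0 : ℝ) < (d : ℝ) ^ 2 := by positivity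
        rw [← neg_div, div_le_div_iff_of_pos_right hd]
        have : |(ArithmeticFunction.moebius d : ℝ)| ≤ 1 := by
          exact_mod_cast ArithmeticFunction.abs_moebius_le_one
        linarith [(abs_le.1 this).1]
  have h3 : Real.pi < 3.15 := Real.pi_lt_d2
  have h4 : Real.pi ^ 2 < 3.15 ^ 2 := by
    have := Real.pi_pos
    nlinarith
  norm_num at h4
  linarith

end Pool.Agent.Lib.MP_94ab62_nt
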