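import Pool.Agent.Lib.MP_94ab62_nt.Eps4

/-!
# PATH: comparison of the values of `F` along a path with linear functionals

All by induction on `p`, generalizing `t` (use `ep_pos`, `ep_sum` for `ep (lc t) ≤ ep t / 4`, `fc_eq`,
`fa_lc`, ..., `push_mono`).
* `push_bounds`: for `true :: l`: `push (true::l) (a-ε, b-ε) = push l (a-ε, a+b-2ε) = push l (a-ε, c-ε)`
  and `(a-ε, c-ε) ≤ (a-ε_L, c-ε_L)`.
* `pull_bounds`: for `true :: l` let `(α, γ) = pull l (..)`, by induction `a-2ε_L ≤ α ≤ a`,
  `c-2ε_L ≤ γ ≤ c`, and `β = γ - α` with `c - a = b - ε`.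
* `pull_err`: `pull p (0, η) = (-q η, p' η)` where `p' = (push p (1,0)).1`, `q = (push p (0,1)).1`
  (induction; stated with `push` applied to real pairs), and `0.9 (push p (1,1)).1 ≤ fa (nd t p)`.
-/

set_option autoImplicit false

namespace Pool.Agent.Lib.MP_94ab62_nt

theorem path_epl {t : Nd} (h : Good t) : ep (lc t) ≤ ep t / 4 := by
  have h1 := ep_sum h
  have h2 := ep_pos (good_rc h)
  linarith

theorem path_epr {t : Nd} (h : Good t) : ep (rc t) ≤ ep t / 4 := by
  have h1 := ep_sum h
  have h2 := ep_pos (good_lc h)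
  linarith

theorem push_bounds {t : Nd} (h : Good t) (p : List Bool) :
    (push p (fa t - ep t, fb t - ep t)).1 ≤ fa (nd t p) ∧
    (push p (fa t - ep t, fb t - ep t)).2 ≤ fb (nd t p) ∧
    fa (nd t p) ≤ (push p (fa t, fb t)).1 ∧ fb (nd t p) ≤ (push p (fa t, fb t)).2 := by
  induction p generalizing t with
  | nil =>
    have := ep_pos h
    simp only [push, nd]
    refine ⟨by linarith, by linarith, le_refl _, le_refl _⟩
  | cons b l ih =>
    have e0 := ep_pos h
    have efc := fc_eq t
    cases b with
    | true =>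
      have e1 := path_epl h
      obtain ⟨i1, i2, i3, i4⟩ := ih (good_lc h)
      rw [fa_lc, fb_lc] at i1 i2 i3 i4
      have m1 := push_mono l (m := (fa t - ep t, fa t - ep t + (fb t - ep t)))
        (n := (fa t - ep (lc t), fc t - ep (lc t))) (by simp only; linarith)
        (by simp only; linarith)
      have m2 := push_mono l (m := (fa t, fc t)) (n := (fa t, fa t + fb t)) (le_refl _)
        (by simp only; linarith)
      exact ⟨m1.1.trans i1, m1.2.trans i2, i3.trans m2.1, i4.trans m2.2⟩
    | false =>
      have e1 := path_epr h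
      obtain ⟨i1, i2, i3, i4⟩ := ih (good_rc h)
      rw [fa_rc, fb_rc] at i1 i2 i3 i4
      have m1 := push_mono l (m := (fa t - ep t + (fb t - ep t), fb t - ep t))
        (n := (fc t - ep (rc t), fb t - ep (rc t))) (by simp only; linarith)
        (by simp only; linarith)
      have m2 := push_mono l (m := (fc t, fb t)) (n := (fa t + fb t, fb t))
        (by simp only; linarith) (le_refl _)
      exact ⟨m1.1.trans i1, m1.2.trans i2, i3.trans m2.1, i4.trans m2.2⟩

theorem pull_bounds {t : Nd} (h : Good t) (p : List Bool) :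
    fa t - 2 * ep t ≤ (pull p (fa (nd t p), fb (nd t p))).1 ∧
    (pull p (fa (nd t p), fb (nd t p))).1 ≤ fa t ∧
    fb t - 2 * ep t ≤ (pull p (fa (nd t p), fb (nd t p))).2 ∧
    (pull p (fa (nd t p), fb (nd t p))).2 ≤ fb t := by
  induction p generalizing t with
  | nil =>
    have := ep_pos h
    simp only [pull, nd]
    refine ⟨by linarith, le_refl _, by linarith, le_refl _⟩
  | cons b l ih =>
    have e0 := ep_pos h
    have efc := fc_eq t
    cases b with
    | true =>
      have e1 := path_epl h
      have e2 := ep_pos (good_lc h)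
      obtain ⟨i1, i2, i3, i4⟩ := ih (good_lc h)
      rw [fa_lc] at i1 i2
      rw [fb_lc] at i3 i4
      simp only [pull, nd]
      refine ⟨by linarith, by linarith, by linarith, by linarith⟩
    | false =>
      have e1 := path_epr h
      have e2 := ep_pos (good_rc h)
      obtain ⟨i1, i2, i3, i4⟩ := ih (good_rc h)
      rw [fa_rc] at i1 i2
      rw [fb_rc] at i3 i4
      simp only [pull, nd]
      refine ⟨by linarith, by linarith, by linarith, by linarith⟩

theorem path_push_nonneg (p : List Bool) {m : ℝ × ℝ} (h1 : 0 ≤ m.1) (h2 : 0 ≤ m.2) :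
    0 ≤ (push p m).1 ∧ 0 ≤ (push p m).2 := by
  induction p generalizing m with
  | nil => exact ⟨h1, h2⟩
  | cons b l ih =>
    cases b
    · exact ih (add_nonneg h1 h2) h2
    · exact ih h1 (add_nonneg h1 h2)

theorem path_pull_eq (p : List Bool) (η : ℝ) :
    pull p ((0 : ℝ), η) = (-((push p ((0 : ℝ), (1 : ℝ))).1 * η), (push p ((1 : ℝ), (0 : ℝ))).1 * η) := by
  induction p with
  | nil => simp [pull, push]
  | cons b l ih =>
    have h1 : (push l ((1 : ℝ), (1 : ℝ))).1 =
        (push l ((1 : ℝ), (0 : ℝ))).1 + (push l ((0 : ℝ), (1 : ℝ))).1 := by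
      rw [← Prod.fst_add, ← push_add]
      simp
    cases b
    · simp only [pull, push]
      rw [ih]
      simp only [zero_add, add_zero, h1]
      ext
      · simp only; ring
      · rfl
    · simp only [pull, push]
      rw [ih]
      simp only [zero_add, add_zero, h1]
      ext
      · rfl
      · simp only; ring

theorem pull_err {t : Nd} (h : Good t) (p : List Bool) (η : ℝ) :
    |(pull p ((0 : ℝ), η)).1| ≤ 2 * |η| * (fa (nd t p) + fb (nd t p)) ∧
    |(pull p ((0 : ℝ), η)).2| ≤ 2 * |η| * (fa (nd t p) + fb (nd t p)) := by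
  have hb := push_bounds h p
  have g1 := fa_ge h
  have g2 := fb_ge h
  have g3 := ep_small h
  have g4 := push_mono p (m := ((9 : ℝ) / 10, (9 : ℝ) / 10)) (n := (fa t - ep t, fb t - ep t))
    (by simp only; linarith) (by simp only; linarith)
  have g5 : push p ((9 : ℝ) / 10, (9 : ℝ) / 10) =
      (9 / 10 * (push p ((1 : ℝ), (1 : ℝ))).1, 9 / 10 * (push p ((1 : ℝ), (1 : ℝ))).2) := by
    rw [← push_smul]
    simp
  have g6 : (push p ((1 : ℝ), (1 : ℝ))).1 =
      (push p ((1 : ℝ), (0 : ℝ))).1 + (push p ((0 : ℝ), (1 : ℝ))).1 := by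
    rw [← Prod.fst_add, ← push_add]
    simp
  rw [g5] at g4
  simp only at g4
  have q1 := (path_push_nonneg p (m := ((1 : ℝ), (0 : ℝ))) zero_le_one (le_refl _)).1
  have q2 := (path_push_nonneg p (m := ((0 : ℝ), (1 : ℝ))) (le_refl _) zero_le_one).1
  have g7 : 0 ≤ fb (nd t p) := by
    have := fb_ge (good_nd h p)
    linarith
  have g8 : 9 / 10 * ((push p ((1 : ℝ), (0 : ℝ))).1 + (push p ((0 : ℝ), (1 : ℝ))).1) ≤
      fa (nd t p) := by
    rw [← g6]; exact g4.1.trans hb.1
  rw [path_pull_eq]
  simp only
  have hη := abs_nonneg η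
  constructor
  · rw [abs_neg, abs_mul, abs_of_nonneg q2]
    nlinarith
  · rw [abs_mul, abs_of_nonneg q1]
    nlinarith

theorem fab_le_nd {t : Nd} (h : Good t) (p : List Bool) :
    fa t + fb t ≤ fa (nd t p) + fb (nd t p) := by
  induction p generalizing t with
  | nil => exact le_refl _
  | cons b l ih =>
    cases b with
    | true =>
      have h1 := ih (good_lc h)
      rw [fa_lc, fb_lc] at h1
      have h2 := fb_lt_fc h
      simp only [nd]
      linarith
    | false =>
      have h1 := ih (good_rc h)
      rw [fa_rc, fb_rc] at h1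
      have h2 := fa_lt_fc h
      simp only [nd]
      linarith

theorem ep_nd_le {t : Nd} (h : Good t) (p : List Bool) : ep (nd t p) ≤ ep t := by
  induction p generalizing t with
  | nil => exact le_refl _
  | cons b l ih =>
    have e0 := ep_pos h
    cases b with
    | true =>
      have h1 := ih (good_lc h)
      have h2 := path_epl h
      simp only [nd]
      linarith
    | false =>
      have h1 := ih (good_rc h)
      have h2 := path_epr h
      simp only [nd]
      linarith

theorem path_leaf_aux {R : ℝ} (c : Cut) : ∀ {t : Nd}, Good t → IsCut R c t → ∀ {p : List Bool},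
    LP c p → R ≤ fa (nd t p) + fb (nd t p) ∧
      (fa (nd t p) + fb (nd t p) ≤ 2 * R ∨ p = []) := by
  induction c with
  | leaf =>
    intro t h hc p hp
    cases p with
    | nil => exact ⟨hc, Or.inr rfl⟩
    | cons b q => exact absurd hp (by simp [LP])
  | node l r ihl ihr =>
    intro t h hc p hp
    cases p with
    | nil => exact absurd hp (by simp [LP])
    | cons b q =>
      have e0 := ep_pos h
      have efc := fc_eq t
      have g1 := fa_ge h
      have g2 := fb_ge h
      cases b with
      | true =>
        have hq : LP l q := hp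
        obtain ⟨h1, h2⟩ := ihl (good_lc h) hc.2.1 hq
        refine ⟨h1, Or.inl ?_⟩
        rcases h2 with h2 | h2
        · exact h2
        · subst h2
          simp only [nd]
          rw [fa_lc, fb_lc]
          have := hc.1
          linarith
      | false =>
        have hq : LP r q := hp
        obtain ⟨h1, h2⟩ := ihr (good_rc h) hc.2.2 hq
        refine ⟨h1, Or.inl ?_⟩
        rcases h2 with h2 | h2
        · exact h2
        · subst h2
          simp only [nd]
          rw [fa_rc, fb_rc]
          have := hc.1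
          linarith

/-- sizes of the leaves of a cut -/
theorem leaf_size {R : ℝ} {c : Cut} {t : Nd} (h : Good t) (hc : IsCut R c t)
    (ht : fa t + fb t < R) {p : List Bool} (hp : LP c p) :
    R ≤ fa (nd t p) + fb (nd t p) ∧ fa (nd t p) + fb (nd t p) ≤ 2 * R := by
  obtain ⟨h1, h2⟩ := path_leaf_aux c h hc hp
  refine ⟨h1, ?_⟩
  rcases h2 with h2 | h2
  · exact h2
  · subst h2
    simp only [nd] at h1 ⊢
    linarith

end Pool.Agent.Lib.MP_94ab62_nt
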