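import Pool.Agent.Lib.MP_94ab62_nt.Path

/-!
# REP: a small covector at a descendant, seen at the ancestor
-/

set_option autoImplicit false

namespace Pool.Agent.Lib.MP_94ab62_nt

theorem rep {R D W : ℝ} (hR : 1 ≤ R) (hD : 0 ≤ D) (hD1 : D ≤ 1 / 2) (hW : 1 ≤ W) {t : Nd}
    (h : Good t) (p : List Bool) (n : ℤ × ℤ)
    (hJ : fa (nd t p) + fb (nd t p) ≤ 2 * R) (hb : Bad W D (nd t p) n) :
    1 / (2 * R) ≤ (n.1 : ℝ) / fa (nd t p) ∧ (n.1 : ℝ) / fa (nd t p) ≤ 3 * W ∧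
    (n.1 : ℝ) / fa (nd t p) * (fa t - 2 * ep t) - 5 * R * D ≤ ((pull p n).1 : ℝ) ∧
    ((pull p n).1 : ℝ) ≤ (n.1 : ℝ) / fa (nd t p) * fa t + 5 * R * D ∧
    (n.1 : ℝ) / fa (nd t p) * (fb t - 2 * ep t) - 5 * R * D ≤ ((pull p n).2 : ℝ) ∧
    ((pull p n).2 : ℝ) ≤ (n.1 : ℝ) / fa (nd t p) * fb t + 5 * R * D := by
  obtain ⟨hn1, hn2, -, hW', hdet⟩ := hb
  have hg := good_nd h p
  set J := nd t p with hJdef
  have ha : 24 / 25 ≤ fa J := fa_ge hg
  have hbb : 24 / 25 ≤ fb J := fb_ge hg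
  have hn1' : (1 : ℝ) ≤ n.1 := by exact_mod_cast hn1
  have hn2' : (1 : ℝ) ≤ n.2 := by exact_mod_cast hn2
  have ha0 : 0 < fa J := by linarith
  set lam : ℝ := (n.1 : ℝ) / fa J with hlam
  have hlam0 : 0 < lam := by positivity
  have hlama : lam * fa J = n.1 := by rw [hlam]; field_simp
  set eta : ℝ := (n.2 : ℝ) - lam * fb J with heta
  have hetaD : |eta| ≤ D / (24 / 25) := by
    have e1 : eta = -(((n.1 : ℝ) * fb J - n.2 * fa J) / fa J) := by
      rw [heta, hlam]; field_simp; ring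
    rw [e1, abs_neg, abs_div, abs_of_pos ha0]
    exact div_le_div₀ hD hdet (by norm_num) ha
  -- the decomposition
  have hdec : pull p ((n.1 : ℝ), (n.2 : ℝ)) =
      (lam * (pull p (fa J, fb J)).1, lam * (pull p (fa J, fb J)).2) + pull p ((0 : ℝ), eta) := by
    have e1 : ((n.1 : ℝ), (n.2 : ℝ)) = (lam * (fa J, fb J).1, lam * (fa J, fb J).2) + ((0 : ℝ), eta) := by
      ext
      · simp [hlama]
      · simp [heta]
    rw [e1, pull_add, pull_smul]
  obtain ⟨c1, c2⟩ := pull_cast p n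
  obtain ⟨b1, b2, b3, b4⟩ := pull_bounds h p
  obtain ⟨d1, d2⟩ := pull_err h p eta
  rw [← hJdef] at b1 b2 b3 b4 d1 d2
  have hN1 : ((pull p n).1 : ℝ) = lam * (pull p (fa J, fb J)).1 + (pull p ((0 : ℝ), eta)).1 := by
    rw [c1, hdec]; rfl
  have hN2 : ((pull p n).2 : ℝ) = lam * (pull p (fa J, fb J)).2 + (pull p ((0 : ℝ), eta)).2 := by
    rw [c2, hdec]; rfl
  have herr : 2 * |eta| * (fa J + fb J) ≤ 5 * R * D := by
    have h1 : 2 * |eta| * (fa J + fb J) ≤ 2 * (D / (24 / 25)) * (2 * R) := by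
      have := abs_nonneg eta
      gcongr
    nlinarith
  have e1 := abs_le.1 (d1.trans herr)
  have e2 := abs_le.1 (d2.trans herr)
  refine ⟨?_, ?_, ?_, ?_, ?_, ?_⟩
  · rw [hlam]
    have : fa J ≤ 2 * R := by linarith
    exact div_le_div₀ (by linarith) hn1' ha0 this
  · rcases hW' with hW1 | hW2
    · rw [hlam, div_le_iff₀ ha0]
      nlinarith
    · -- n.1 fb ≤ n.2 fa + D
      have h1 := (abs_le.1 hdet).2
      have h2 : lam * fb J ≤ n.2 + D / (24 / 25) := by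
        have := (abs_le.1 hetaD).1
        rw [heta] at this
        linarith
      by_contra hcon
      push Not at hcon
      nlinarith
  · rw [hN1]
    have := mul_le_mul_of_nonneg_left b1 hlam0.le
    linarith
  · rw [hN1]
    have := mul_le_mul_of_nonneg_left b2 hlam0.le
    linarith
  · rw [hN2]
    have := mul_le_mul_of_nonneg_left b3 hlam0.le
    linarith
  · rw [hN2]
    have := mul_le_mul_of_nonneg_left b4 hlam0.le
    linarith

/-- eventual smallness of the parameters -/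
theorem small_params : ∃ R0 : ℝ, 1 ≤ R0 ∧ ∀ R : ℝ, R0 ≤ R →
    Real.exp (-R / 5) ≤ 1 / 2 ∧ 5 * R * Real.exp (-R / 5) ≤ 1 / 4 ∧
    5 * R * Real.exp (-R / 5) < 1 / (2 * R) * (2 / 5) := by
  have h : Filter.Tendsto (fun x : ℝ => x ^ 2 * Real.exp (-x)) Filter.atTop (nhds 0) :=
    Real.tendsto_pow_mul_exp_neg_atTop_nhds_zero 2
  have h2 := (h.comp (Filter.tendsto_id.atTop_div_const (show (0 : ℝ) < 5 by norm_num))).eventually
    (gt_mem_nhds (show (0 : ℝ) < 1 / 1000 by norm_num))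
  obtain ⟨R1, hR1⟩ := Filter.eventually_atTop.1 h2
  refine ⟨max R1 1, le_max_right _ _, fun R hR => ?_⟩
  have hR1' : 1 ≤ R := (le_max_right _ _).trans hR
  have h3 := hR1 R ((le_max_left _ _).trans hR)
  simp only [Function.comp, id] at h3
  have e : Real.exp (-R / 5) = Real.exp (-(R / 5)) := by ring_nf
  rw [e]
  set X := Real.exp (-(R / 5)) with hX
  have hX0 : 0 < X := Real.exp_pos _
  have h4 : R ^ 2 * X < 25 / 1000 := by nlinarith
  have h5 : R * X ≤ R ^ 2 * X := mul_le_mul_of_nonneg_right (by nlinarith) hX0.le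
  have h6 : X ≤ R * X := le_mul_of_one_le_left hX0.le hR1'
  refine ⟨by linarith, by linarith, ?_⟩
  rw [div_mul_eq_mul_div, lt_div_iff₀ (by linarith)]
  nlinarith

theorem pull_pos' : ∃ R0 : ℝ, ∀ R : ℝ, R0 ≤ R → ∀ (t : Nd), Good t →
    ∀ (p : List Bool) (n : ℤ × ℤ),
    fa (nd t p) + fb (nd t p) ≤ 2 * R →
    Bad (R ^ 3) (Real.exp (-R / 5)) (nd t p) n → 0 < (pull p n).1 ∧ 0 < (pull p n).2 := by
  obtain ⟨R0, hR0, hs⟩ := small_params
  refine ⟨R0, fun R hR t h p n hJ hb => ?_⟩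
  obtain ⟨s1, s2, s3⟩ := hs R hR
  have hR1 : 1 ≤ R := hR0.trans hR
  obtain ⟨r1, r2, r3, r4, r5, r6⟩ := rep hR1 (Real.exp_pos _).le s1 (one_le_pow₀ hR1) h p n hJ hb
  have ha := fa_ge h
  have hb' := fb_ge h
  have he := ep_small h
  have hX0 := Real.exp_pos (-R / 5)
  have hp : 0 < 1 / (2 * R) := by positivity
  constructor
  · have : (0 : ℝ) < (pull p n).1 := by nlinarith
    exact_mod_cast this
  · have : (0 : ℝ) < (pull p n).2 := by nlinarith
    exact_mod_cast this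

/-- positivity, and `λ ≥ 1/2` (apply `rep` with `t = root`: `(pull p n).1` is a positive integer
and `fa root ≤ 0.97`). -/
theorem lam_ge : ∃ R0 : ℝ, ∀ R : ℝ, R0 ≤ R → ∀ (p : List Bool) (n : ℤ × ℤ),
    fa (nd root p) + fb (nd root p) ≤ 2 * R →
    Bad (R ^ 3) (Real.exp (-R / 5)) (nd root p) n →
    1 / 2 ≤ (n.1 : ℝ) / fa (nd root p) := by
  obtain ⟨R0, hR0, hs⟩ := small_params
  obtain ⟨R2, hR2⟩ := pull_pos'
  refine ⟨max R0 R2, fun R hR p n hJ hb => ?_⟩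
  have hRR0 : R0 ≤ R := (le_max_left _ _).trans hR
  obtain ⟨s1, s2, s3⟩ := hs R hRR0
  have hR1 : 1 ≤ R := hR0.trans hRR0
  obtain ⟨r1, r2, r3, r4, r5, r6⟩ :=
    rep hR1 (Real.exp_pos _).le s1 (one_le_pow₀ hR1) good_root p n hJ hb
  have hpos := (hR2 R ((le_max_right _ _).trans hR) root good_root p n hJ hb).1
  have h1 : (1 : ℝ) ≤ (pull p n).1 := by exact_mod_cast hpos
  have hroot : fa root ≤ 97 / 100 := F_one.2
  have hroot0 : 24 / 25 ≤ fa root := F_one.1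
  by_contra hcon
  push Not at hcon
  have hpos' : 0 < (n.1 : ℝ) / fa (nd root p) := lt_of_lt_of_le (by positivity) r1
  nlinarith

end Pool.Agent.Lib.MP_94ab62_nt
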