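import Pool.Agent.Lib.MP_94ab62_nt.Defs

/-!
# SAW: sums of the sawtooth function over arithmetic progressions

`block_sum`: for `gcd(p,q) = 1` the numbers `k p mod q`, `0 ≤ k < q`, run over all residues, and Hermite's identity
`∑_{j<q} ⌊u + j/q⌋ = ⌊q u⌋` gives `∑_{k<q} (fract (u - k p/q) - 1/2) = fract (q u) - 1/2`.
For the perturbed sequence `x_k = β - kθ = (β - k p/q) + e_k`, `|e_k| ≤ k |θ - p/q| ≤ 2/q =: c`,
`⌊(β - kp/q) - c⌋ ≤ ⌊x_k⌋ ≤ ⌊(β - k p/q) + c⌋`, so the sum is between `-(q·2c + 1/2)` and `q·2c + 1/2`.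
`saw_sum`: cut `range n` into blocks of length `q` and a rest of length `< q`.
-/

set_option autoImplicit false

namespace Pool.Agent.Lib.MP_94ab62_nt

private theorem saw_fract {q : ℕ} (hq : 1 ≤ q) (m : ℤ) {f : ℝ} (h0 : 0 ≤ f) (h1 : f < 1) :
    Int.fract (((m : ℝ) + f) / q) = (((m % (q : ℤ) : ℤ) : ℝ) + f) / q := by
  have hq0 : (0 : ℝ) < q := by exact_mod_cast hq
  have hqz : (0 : ℤ) < q := by exact_mod_cast hq
  rw [Int.fract_eq_iff]
  have hm0 : (0 : ℤ) ≤ m % q := Int.emod_nonneg _ hqz.ne'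
  have hm1 : m % (q : ℤ) ≤ q - 1 := by
    have := Int.emod_lt_of_pos m hqz
    omega
  have hm0' : (0 : ℝ) ≤ ((m % (q : ℤ) : ℤ) : ℝ) := by exact_mod_cast hm0
  have hm1' : ((m % (q : ℤ) : ℤ) : ℝ) ≤ q - 1 := by exact_mod_cast hm1
  refine ⟨by positivity, ?_, ⟨m / q, ?_⟩⟩
  · rw [div_lt_one hq0]
    linarith
  · have h2 : (q : ℤ) * (m / q) + m % q = m := Int.mul_ediv_add_emod m q
    have h3 : (q : ℝ) * ((m / (q : ℤ) : ℤ) : ℝ) + ((m % (q : ℤ) : ℤ) : ℝ) = m := by
      exact_mod_cast h2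
    rw [← h3]
    field_simp
    ring

private theorem saw_perm {q p : ℕ} (hq : 1 ≤ q) (hpq : Nat.Coprime p q) (n : ℤ) (g : ℤ → ℝ) :
    ∑ k ∈ Finset.range q, g ((n - (k : ℤ) * p) % (q : ℤ)) = ∑ j ∈ Finset.range q, g (j : ℤ) := by
  have hqz : (0 : ℤ) < q := by exact_mod_cast hq
  have hmaps : ∀ k ∈ Finset.range q, ((n - (k : ℤ) * p) % (q : ℤ)).toNat ∈ Finset.range q := by
    intro k _
    rw [Finset.mem_range]
    have h1 := Int.emod_lt_of_pos (n - (k : ℤ) * p) hqz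
    have h2 := Int.emod_nonneg (n - (k : ℤ) * p) hqz.ne'
    omega
  have hinj : Set.InjOn (fun k : ℕ => ((n - (k : ℤ) * p) % (q : ℤ)).toNat)
      (Finset.range q : Set ℕ) := by
    intro k hk k' hk' h
    simp only [Finset.coe_range, Set.mem_Iio] at hk hk'
    have h2 := Int.emod_nonneg (n - (k : ℤ) * p) hqz.ne'
    have h3 := Int.emod_nonneg (n - (k' : ℤ) * p) hqz.ne'
    have h4 : (n - (k : ℤ) * p) % (q : ℤ) = (n - (k' : ℤ) * p) % (q : ℤ) := by
      simp only at h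
      omega
    have h5 : (q : ℤ) ∣ ((k : ℤ) - k') * p := by
      have h6 := Int.emod_emod_of_dvd
      have h7 : (q : ℤ) ∣ (n - (k' : ℤ) * p) - (n - (k : ℤ) * p) :=
        Int.ModEq.dvd h4
      have h8 : (n - (k' : ℤ) * p) - (n - (k : ℤ) * p) = ((k : ℤ) - k') * p := by ring
      rwa [h8] at h7
    have h9 : IsCoprime (q : ℤ) (p : ℤ) := (Nat.isCoprime_iff_coprime.2 hpq).symm
    have h10 : (q : ℤ) ∣ (k : ℤ) - k' := h9.dvd_of_dvd_mul_right h5
    obtain ⟨c, hc⟩ := h10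
    have h11 : c = 0 := by
      by_contra hne
      rcases lt_or_gt_of_ne hne with hlt | hgt
      · have : (q : ℤ) * c ≤ -q := by nlinarith
        omega
      · have : (q : ℤ) ≤ q * c := by nlinarith
        omega
    rw [h11] at hc
    omega
  refine Finset.sum_nbij (fun k : ℕ => ((n - (k : ℤ) * p) % (q : ℤ)).toNat) hmaps hinj ?_ ?_
  · apply Finset.surjOn_of_injOn_of_card_le _ (fun k hk => hmaps k hk) hinj
    simp
  · intro k _
    congr 1
    rw [Int.toNat_of_nonneg (Int.emod_nonneg _ hqz.ne')]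

private theorem saw_hermite {q p : ℕ} (hq : 1 ≤ q) (hpq : Nat.Coprime p q) (u : ℝ) :
    ∑ k ∈ Finset.range q, Int.fract (u - k * ((p : ℝ) / q)) =
      Int.fract (q * u) + ((q : ℝ) - 1) / 2 := by
  have hq0 : (0 : ℝ) < q := by exact_mod_cast hq
  have h1 : ∀ k : ℕ, Int.fract (u - k * ((p : ℝ) / q)) =
      ((((⌊(q : ℝ) * u⌋ - (k : ℤ) * p) % (q : ℤ) : ℤ) : ℝ) + Int.fract (q * u)) / q := by
    intro k
    rw [← saw_fract hq _ (Int.fract_nonneg _) (Int.fract_lt_one _)]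
    congr 1
    have h2 : (⌊(q : ℝ) * u⌋ : ℝ) + Int.fract ((q : ℝ) * u) = q * u := Int.floor_add_fract _
    have h3 : (k : ℝ) * ((p : ℝ) / q) * q = k * p := by field_simp
    push_cast
    rw [eq_div_iff hq0.ne']
    linear_combination -h2 - h3
  simp_rw [h1]
  rw [saw_perm hq hpq ⌊(q : ℝ) * u⌋ (fun m => ((m : ℝ) + Int.fract (q * u)) / q)]
  rw [← Finset.sum_div, Finset.sum_add_distrib]
  have h3 : ∑ j ∈ Finset.range q, (((j : ℕ) : ℤ) : ℝ) = (q : ℝ) * (q - 1) / 2 := by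
    have h4 := Finset.sum_range_id_mul_two q
    have h5 : (∑ j ∈ Finset.range q, (j : ℝ)) * 2 = q * (q - 1) := by
      have h6 : ((∑ j ∈ Finset.range q, j : ℕ) : ℝ) * 2 = (q : ℝ) * ((q - 1 : ℕ) : ℝ) := by
        exact_mod_cast h4
      rw [Nat.cast_sub hq] at h6
      push_cast at h6
      exact h6
    have h7 : ∑ j ∈ Finset.range q, (((j : ℕ) : ℤ) : ℝ) = ∑ j ∈ Finset.range q, (j : ℝ) := by
      apply Finset.sum_congr rfl
      intro j _
      push_cast
      rfl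
    rw [h7]
    linarith
  rw [h3]
  simp only [Finset.sum_const, Finset.card_range, nsmul_eq_mul]
  field_simp
  ring

theorem block_sum {q p : ℕ} (hq : 1 ≤ q) (hpq : Nat.Coprime p q) (θ β : ℝ)
    (hθ : |(q : ℝ) * θ - p| ≤ 2 / q) :
    |∑ k ∈ Finset.range q, (Int.fract (β - k * θ) - 1 / 2)| ≤ 5 := by
  have hq0 : (0 : ℝ) < q := by exact_mod_cast hq
  have hek : ∀ k ∈ Finset.range q, |(k : ℝ) * ((p : ℝ) / q) - k * θ| ≤ 2 / q := by
    intro k hk
    have hk' : (k : ℝ) ≤ q := by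
      have := Finset.mem_range.1 hk
      exact_mod_cast this.le
    have h1 : (k : ℝ) * ((p : ℝ) / q) - k * θ = -(k / q) * ((q : ℝ) * θ - p) := by
      field_simp
      ring
    rw [h1, abs_mul, abs_neg, abs_of_nonneg (by positivity)]
    have h2 : (k : ℝ) / q ≤ 1 := by rw [div_le_one hq0]; exact hk'
    have h3 : 0 ≤ (k : ℝ) / q := by positivity
    calc (k : ℝ) / q * |(q : ℝ) * θ - p| ≤ 1 * (2 / q) := by
          apply mul_le_mul h2 hθ (abs_nonneg _) zero_le_one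
      _ = 2 / q := one_mul _
  have hcq : (q : ℝ) * (2 / q) = 2 := by field_simp
  -- comparison of the floors
  have hup : ∀ k ∈ Finset.range q, Int.fract (β - k * θ) ≤
      Int.fract ((β - 2 / q) - k * ((p : ℝ) / q)) + (2 / q + 2 / q) := by
    intro k hk
    have h1 := abs_le.1 (hek k hk)
    have h2 : ⌊(β - 2 / q) - k * ((p : ℝ) / q)⌋ ≤ ⌊β - k * θ⌋ := Int.floor_le_floor (by linarith)
    have h3 : ((⌊(β - 2 / q) - k * ((p : ℝ) / q)⌋ : ℤ) : ℝ) ≤ ((⌊β - k * θ⌋ : ℤ) : ℝ) := by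
      exact_mod_cast h2
    unfold Int.fract
    linarith
  have hlo : ∀ k ∈ Finset.range q, Int.fract ((β + 2 / q) - k * ((p : ℝ) / q)) - (2 / q + 2 / q) ≤
      Int.fract (β - k * θ) := by
    intro k hk
    have h1 := abs_le.1 (hek k hk)
    have h2 : ⌊β - k * θ⌋ ≤ ⌊(β + 2 / q) - k * ((p : ℝ) / q)⌋ := Int.floor_le_floor (by linarith)
    have h3 : ((⌊β - k * θ⌋ : ℤ) : ℝ) ≤ ((⌊(β + 2 / q) - k * ((p : ℝ) / q)⌋ : ℤ) : ℝ) := by
      exact_mod_cast h2
    unfold Int.fract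
    linarith
  have hU := Finset.sum_le_sum hup
  have hD := Finset.sum_le_sum hlo
  rw [Finset.sum_add_distrib, saw_hermite hq hpq] at hU
  rw [Finset.sum_sub_distrib, saw_hermite hq hpq] at hD
  simp only [Finset.sum_const, Finset.card_range, nsmul_eq_mul] at hU hD
  have h1 := Int.fract_nonneg ((q : ℝ) * (β + 2 / q))
  have h2 := Int.fract_lt_one ((q : ℝ) * (β - 2 / q))
  rw [Finset.sum_sub_distrib]
  simp only [Finset.sum_const, Finset.card_range, nsmul_eq_mul]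
  rw [abs_le]
  constructor <;> nlinarith

private theorem saw_short (θ β : ℝ) (n : ℕ) :
    |∑ k ∈ Finset.range n, (Int.fract (β - k * θ) - 1 / 2)| ≤ n := by
  refine (Finset.abs_sum_le_sum_abs _ _).trans ?_
  have : ∀ k ∈ Finset.range n, |Int.fract (β - k * θ) - 1 / 2| ≤ 1 := by
    intro k _
    have h1 := Int.fract_nonneg (β - k * θ)
    have h2 := Int.fract_lt_one (β - k * θ)
    rw [abs_le]
    constructor <;> linarith
  refine (Finset.sum_le_sum this).trans ?_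
  simp

theorem saw_sum {q p : ℕ} (hq : 1 ≤ q) (hpq : Nat.Coprime p q) (θ β : ℝ)
    (hθ : |(q : ℝ) * θ - p| ≤ 2 / q) (n : ℕ) :
    |∑ k ∈ Finset.range n, (Int.fract (β - k * θ) - 1 / 2)| ≤ 5 * ((n : ℝ) / q) + q := by
  have hq0 : (0 : ℝ) < q := by exact_mod_cast hq
  induction n using Nat.strong_induction_on generalizing β with
  | _ n ih =>
    rcases lt_or_ge n q with hn | hn
    · have h1 := saw_short θ β n
      have h2 : (n : ℝ) ≤ q := by exact_mod_cast hn.le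
      have h3 : 0 ≤ 5 * ((n : ℝ) / q) := by positivity
      linarith
    · obtain ⟨m, rfl⟩ := Nat.exists_eq_add_of_le hn
      rw [Finset.sum_range_add]
      have h1 := ih m (by omega) (β - q * θ)
      have h2 := block_sum hq hpq θ β hθ
      have h3 : ∑ k ∈ Finset.range m, (Int.fract (β - ((q + k : ℕ) : ℝ) * θ) - 1 / 2) =
          ∑ k ∈ Finset.range m, (Int.fract (β - q * θ - k * θ) - 1 / 2) := by
        apply Finset.sum_congr rfl
        intro k _
        congr 2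
        push_cast
        ring
      rw [h3]
      refine (abs_add_le _ _).trans ?_
      push_cast
      have h4 : 5 * (((q : ℝ) + m) / q) = 5 + 5 * ((m : ℝ) / q) := by
        field_simp
      rw [h4]
      linarith

end Pool.Agent.Lib.MP_94ab62_nt
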