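import Pool.Agent.Lib.MP_94ab62_nt.Path
import Pool.Agent.Lib.MP_94ab62_nt.Tfun

/-!
# STAB: the sums `tsm` over the tree, and the comparison with `T`

* `tsm_zero`: if `φ z = 0` for `F z > y` and `y < fc t`, all terms vanish (`fc` increases along the
  tree).
* `tsm_stable`: induction on `n` (`fa + fb` grows by at least `9/10` at each step, `fc t ≥ fa t + fb t - 1/20`).
* `tsm_le_T`: induction on `n` with `T_rec`; for `lc t` the pair `(a', a'+b')` satisfies
  `a' + b' ≤ fa t + fb t - 2 ep t = fc t - ep t`.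
* `T_le_tsm`: induction on `n` with `T_rec`, `T_anti` (`fc t ≤ fa t + fb t`), base case `T_zero`.
-/

set_option autoImplicit false

namespace Pool.Agent.Lib.MP_94ab62_nt

private theorem stab_z {t : Nd} (h : Good t) : 1 ≤ t.2.2 := by
  have h1 := h.1
  have h2 := h.2.2.2.1
  omega

private theorem stab_ep_lc {t : Nd} (h : Good t) : ep (lc t) ≤ ep t := by
  have h1 := ep_sum h
  have h2 := ep_pos (good_rc h)
  have h3 := ep_pos h
  linarith

private theorem stab_ep_rc {t : Nd} (h : Good t) : ep (rc t) ≤ ep t := by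
  have h1 := ep_sum h
  have h2 := ep_pos (good_lc h)
  have h3 := ep_pos h
  linarith

theorem tsm_zero {φ : ℕ → ℝ} {y : ℝ} (hφ : ∀ z, 1 ≤ z → y < F z → φ z = 0) {t : Nd} (h : Good t)
    (hy : y < fc t) (n : ℕ) : tsm φ n t = 0 := by
  induction n generalizing t with
  | zero => rfl
  | succ n ih =>
    rw [tsm, hφ _ (stab_z h) hy, ih (good_lc h), ih (good_rc h)]
    · simp
    · have := fa_lt_fc (good_rc h)
      rw [fa_rc] at this
      linarith
    · have := fb_lt_fc (good_lc h)
      rw [fb_lc] at this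
      linarith

private theorem stab_lc {t : Nd} (h : Good t) :
    fa t + fb t + 4 / 5 ≤ fa (lc t) + fb (lc t) := by
  rw [fa_lc, fb_lc, fc_eq]
  have h1 := fa_ge h
  have h2 := ep_small h
  linarith

private theorem stab_rc {t : Nd} (h : Good t) :
    fa t + fb t + 4 / 5 ≤ fa (rc t) + fb (rc t) := by
  rw [fa_rc, fb_rc, fc_eq]
  have h1 := fb_ge h
  have h2 := ep_small h
  linarith

theorem tsm_stable {φ : ℕ → ℝ} {y : ℝ} (hφ : ∀ z, 1 ≤ z → y < F z → φ z = 0) {t : Nd}
    (h : Good t) {n m : ℕ} (hn : y + 1 / 20 < fa t + fb t + 4 / 5 * n) (hm : n ≤ m) :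
    tsm φ m t = tsm φ n t := by
  induction n generalizing t m with
  | zero =>
    rw [tsm_zero hφ h _ m, tsm]
    rw [fc_eq]
    have := ep_small h
    simp only [Nat.cast_zero, mul_zero, add_zero] at hn
    linarith
  | succ n ih =>
    obtain ⟨m, rfl⟩ : ∃ m', m = m' + 1 := ⟨m - 1, by omega⟩
    push_cast at hn
    rw [tsm, tsm, ih (good_lc h) _ (by omega), ih (good_rc h) _ (by omega)]
    · have := stab_rc h
      linarith
    · have := stab_lc h
      linarith

theorem tsm_le_T {y : ℝ} (hy : 0 ≤ y) {t : Nd} (h : Good t) {a' b' : ℝ} (ha : 0 < a')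
    (hb : 0 < b') (h1 : a' ≤ fa t - ep t) (h2 : b' ≤ fb t - ep t) (n : ℕ) :
    tsm (phiN y) n t ≤ T a' b' y := by
  induction n generalizing t a' b' with
  | zero => exact T_nonneg _ _ _
  | succ n ih =>
    rw [tsm, T_rec ha hb]
    have hfc := fc_eq t
    have hep := ep_pos h
    have hl := stab_ep_lc h
    have hr := stab_ep_rc h
    refine add_le_add (add_le_add ?_ ?_) ?_
    · unfold phiN
      have h3 : a' + b' ≤ F t.2.2 := by
        have h4 : fc t = F t.2.2 := rfl
        rw [← h4, hfc]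
        linarith
      have h5 : y / F t.2.2 ≤ y / (a' + b') := div_le_div_of_nonneg_left hy (by linarith) h3
      exact_mod_cast Nat.floor_mono h5
    · apply ih (good_lc h) ha (by linarith)
      · rw [fa_lc]; linarith
      · rw [fb_lc, hfc]; linarith
    · apply ih (good_rc h) (by linarith) hb
      · rw [fa_rc, hfc]; linarith
      · rw [fb_rc]; linarith

theorem T_le_tsm {y : ℝ} (hy : 0 ≤ y) {t : Nd} (h : Good t) {n : ℕ}
    (hn : y < fa t + fb t + 4 / 5 * n) : T (fa t) (fb t) y ≤ tsm (phiN y) n t := by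
  induction n generalizing t with
  | zero =>
    have ha := fa_ge h
    have hb := fb_ge h
    simp only [Nat.cast_zero, mul_zero, add_zero] at hn
    rw [T_zero (by linarith) (by linarith) hn]
    exact le_rfl
  | succ n ih =>
    have ha := fa_ge h
    have hb := fb_ge h
    have hc := fc_ge h
    have hfc := fc_eq t
    have hep := ep_pos h
    push_cast at hn
    rw [tsm, T_rec (by linarith) (by linarith)]
    refine add_le_add (add_le_add ?_ ?_) ?_
    · unfold phiN
      have h3 : F t.2.2 ≤ fa t + fb t := by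
        have h4 : fc t = F t.2.2 := rfl
        rw [← h4, hfc]
        linarith
      have h5 : y / (fa t + fb t) ≤ y / F t.2.2 :=
        div_le_div_of_nonneg_left hy (F_pos (stab_z h)) h3
      exact_mod_cast Nat.floor_mono h5
    · have h6 := ih (good_lc h) (by have := stab_lc h; linarith)
      rw [fa_lc, fb_lc] at h6
      exact (T_anti (by linarith) (by linarith) le_rfl (by rw [hfc]; linarith)).trans h6
    · have h6 := ih (good_rc h) (by have := stab_rc h; linarith)
      rw [fa_rc, fb_rc] at h6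
      exact (T_anti (by linarith) (by linarith) (by rw [hfc]; linarith) le_rfl).trans h6

theorem phiN_zero {y : ℝ} {z : ℕ} (hz : 1 ≤ z) (h : y < F z) : phiN y z = 0 := by
  unfold phiN
  have h1 : ⌊y / F z⌋₊ = 0 := by
    rw [Nat.floor_eq_zero, div_lt_one (F_pos hz)]
    exact h
  rw [h1, Nat.cast_zero]

theorem phiP_zero {y : ℝ} {z : ℕ} (h : y < F z) : phiP y z = 0 := by
  unfold phiP stp
  rw [if_neg (not_le.2 h)]

theorem phiP_le_phiN {y : ℝ} (hy : 0 ≤ y) {z : ℕ} (hz : 1 ≤ z) : phiP y z ≤ phiN y z := by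
  unfold phiP stp phiN
  split_ifs with h
  · have h1 : 1 ≤ ⌊y / F z⌋₊ := by
      rw [Nat.one_le_floor_iff, le_div_iff₀ (F_pos hz), one_mul]
      exact h
    exact_mod_cast h1
  · positivity

theorem Nf_rec {y : ℝ} (hy : 0 ≤ y) {t : Nd} (h : Good t) :
    Nf y t = phiN y t.2.2 + Nf y (lc t) + Nf y (rc t) := by
  have hK : 2 * y ≤ (⌈2 * y⌉₊ : ℝ) := Nat.le_ceil _
  unfold Nf
  have h1 := tsm_stable (φ := phiN y) (y := y) (fun z hz hh => phiN_zero hz hh) (good_lc h)
    (n := ⌈2 * y⌉₊ + 1) (m := ⌈2 * y⌉₊ + 2) (by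
      have := fab_ge (good_lc h)
      push_cast
      linarith) (by omega)
  have h2 := tsm_stable (φ := phiN y) (y := y) (fun z hz hh => phiN_zero hz hh) (good_rc h)
    (n := ⌈2 * y⌉₊ + 1) (m := ⌈2 * y⌉₊ + 2) (by
      have := fab_ge (good_rc h)
      push_cast
      linarith) (by omega)
  rw [h1, h2]
  rfl

theorem Nf_ge {y : ℝ} (hy : 0 ≤ y) {t : Nd} (h : Good t) : T (fa t) (fb t) y ≤ Nf y t := by
  have hK : 2 * y ≤ (⌈2 * y⌉₊ : ℝ) := Nat.le_ceil _
  apply T_le_tsm hy h
  have := fab_ge h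
  push_cast
  linarith

theorem Nf_le {y : ℝ} (hy : 0 ≤ y) {t : Nd} (h : Good t) {a' b' : ℝ} (ha : 0 < a')
    (hb : 0 < b') (h1 : a' ≤ fa t - ep t) (h2 : b' ≤ fb t - ep t) : Nf y t ≤ T a' b' y :=
  tsm_le_T hy h ha hb h1 h2 _

end Pool.Agent.Lib.MP_94ab62_nt
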